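import Pool.Agent.P.MP_7cb106_nt.QJ.Iface
import Pool.Agent.P.MP_7cb106_nt.QJ.Micro

/-! Step CORE. -/

set_option autoImplicit false

namespace Pool.Agent.P.MP_7cb106_nt.QJ

theorem mon_le {k R : Type} [Field k] [Ring R] [Algebra k R] {d : ℕ} (b : Fin d → R) (j : ℕ) :
    Mon k b j ≤ Micro.Mon k b j := by
  unfold Mon Micro.Mon
  rw [Submodule.span_pow]
  refine Submodule.span_mono ?_
  intro x hx
  obtain ⟨f, rfl⟩ := Set.mem_pow.1 hx
  choose g hg using fun i => (f i).2
  refine ⟨List.ofFn g, by simp, ?_⟩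
  rw [List.map_ofFn]
  congr 2
  funext i
  exact (hg i).symm

theorem core0 : S_CORE := by
  intro p hp k R _ _ _ d φ hpR hinf
  have : Nontrivial R := by
    by_contra hn
    rw [not_nontrivial_iff_subsingleton] at hn
    obtain ⟨j, -, hj⟩ := hinf 0
    exact hj fun x _ => by rw [Subsingleton.elim x 0]; exact Submodule.zero_mem _
  have : CharP k p := (CharP.charP_iff_prime_eq_zero hp.out).2 (by
    apply (algebraMap k R).injective
    rw [map_natCast, hpR, map_zero])
  obtain ⟨i0, rho, F', h⟩ := Micro.micro p φ.F φ.b φ.zero φ.anti φ.mul φ.bmem φ.comm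
    (fun j => (φ.gen j).trans (sup_le_sup_right (mon_le _ _) _)) hinf
  choose O inst t io hc hk hF hN hne hreg hu hlen hord hext using h
  have hcn : ∀ N (n : ℕ) (o : O N), t N ^ n * o = o * t N ^ n := fun N n o =>
    ((show Commute (t N) o from hc N o).pow_left n).eq
  have hord' : ∀ N j x, j ≤ N → (x ∈ F' j ↔ ∃ o, io N x = t N ^ j * o) := fun N j x hj => by
    rw [hord N j x hj]
    simp only [hcn]
  let F'' : ℕ → Submodule k R := fun j =>
    { carrier := F' j
      zero_mem' := (hord' j j 0 le_rfl).2 ⟨0, by simp⟩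
      add_mem' := by
        intro x y hx hy
        obtain ⟨o, ho⟩ := (hord' j j x le_rfl).1 hx
        obtain ⟨o', ho'⟩ := (hord' j j y le_rfl).1 hy
        exact (hord' j j _ le_rfl).2 ⟨o + o', by rw [map_add, ho, ho', mul_add]⟩
      smul_mem' := by
        intro c x hx
        obtain ⟨o, ho⟩ := (hord j j x le_rfl).1 hx
        exact (hord j j _ le_rfl).2 ⟨io j (algebraMap k R c) * o, by
          rw [Algebra.smul_def, map_mul, ho, mul_assoc]⟩ }
  have hF'' : ∀ j x, x ∈ F'' j ↔ x ∈ F' j := fun j x => Iff.rfl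
  have hbp : ∀ N (a : ℕ), ∃ u : (O N)ˣ, io N (φ.b i0 ^ a) = t N ^ a * u := by
    intro N a
    obtain ⟨u, hu⟩ := hu N
    refine ⟨u ^ a, ?_⟩
    rw [map_pow, hu, ← hc N u, (show Commute (t N) (u : O N) from hc N u).mul_pow]
    simp
  let T : (N : ℕ) → TR rho N := fun N =>
    { O := O N
      t := t N
      central := hc N
      nil := hN N
      ne := hne N
      reg := by
        intro c o h0
        rcases le_total c N with hcN | hcN
        · obtain ⟨o', ho'⟩ := hreg N c o hcN h0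
          exact ⟨o', by rw [hcn, ho']⟩
        · exact ⟨o, by simp [Nat.sub_eq_zero_of_le hcN]⟩
      len := hlen N }
  refine ⟨{ ρ := rho, i0 := i0, F' := F'', le := ?_, anti := ?_, two := ?_, bmem := ?_, bnot := ?_,
            stab := ?_, T := fun r => T (p ^ (2 * r)), ι := fun r => io (p ^ (2 * r)),
            ord := fun r j x hj => hord' _ j x hj, unit := ?_,
            ext := fun σ hσ r => hext _ σ hσ.1 hσ.2 }⟩
  · intro j x hx
    exact (hord j j x le_rfl).2 (hF j j x hx)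
  · intro j x hx
    obtain ⟨o, ho⟩ := (hord' (j + 1) (j + 1) x le_rfl).1 hx
    exact (hord' (j + 1) j x (by omega)).2 ⟨t _ * o, by rw [ho, pow_succ, mul_assoc]⟩
  · intro j x a b hx
    obtain ⟨o, ho⟩ := (hord' j j x le_rfl).1 hx
    exact (hord' j j _ le_rfl).2 ⟨io j a * o * io j b, by
      rw [map_mul, map_mul, ho, ← mul_assoc, ← hcn]; simp only [mul_assoc]⟩
  · intro a
    obtain ⟨u, hu⟩ := hbp a a
    exact (hord' a a _ le_rfl).2 ⟨u, hu⟩
  · intro a ha
    obtain ⟨u, hu⟩ := hbp (a + 1) a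
    obtain ⟨o, ho⟩ := (hord' (a + 1) (a + 1) _ le_rfl).1 ha
    rw [hN, zero_mul, hu, Units.mul_left_eq_zero] at ho
    exact hne (a + 1) a (by omega) ho
  · intro σ hσ j x hx
    obtain ⟨τ, h1, h2⟩ := hext j σ hσ.1 hσ.2
    obtain ⟨o, ho⟩ := (hord' j j x le_rfl).1 hx
    exact (hord' j j _ le_rfl).2 ⟨τ o, by rw [← h2, ho, map_mul, map_pow, h1]⟩
  · intro r
    obtain ⟨u, hu⟩ := hu (p ^ (2 * r))
    exact ⟨u, u.isUnit, hu.trans (hc _ _).symm⟩

end Pool.Agent.P.MP_7cb106_nt.QJ
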