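import Pool.Agent.P.MP_7cb106_nt.QJ.Iface

/-! Step ACTG. -/

set_option autoImplicit false

namespace Pool.Agent.P.MP_7cb106_nt.QJ

open Filter

section
variable {p : ℕ} {O : Type} [CommRing O] {n e : ℕ} {q : O} {M : Matrix (Fin n) (Fin n) O}

theorem actg_mul (g h : Cong p O n e) : mat (g * h) = mat g * mat h := rfl

theorem actg_inv (g : Cong p O n e) : mat g⁻¹ * mat g = 1 := by
  rw [← actg_mul, inv_mul_cancel]
  rfl

theorem actg_inv' (g : Cong p O n e) : mat g * mat g⁻¹ = 1 := by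
  rw [← actg_mul, mul_inv_cancel]
  rfl

theorem actg_left (h : MD q M) (A : Matrix (Fin n) (Fin n) O) : MD q (A * M) := fun i j => by
  rw [Matrix.mul_apply]
  exact Finset.dvd_sum fun k _ => (h k j).mul_left _

theorem actg_right (h : MD q M) (A : Matrix (Fin n) (Fin n) O) : MD q (M * A) := fun i j => by
  rw [Matrix.mul_apply]
  exact Finset.dvd_sum fun k _ => (h i k).mul_right _

end

theorem p_ACTG (hUF0 : S_UF0) :
    S_ACTG := by
  intro p _ O _ _ n d e Fr u ρ hU hA
  refine ⟨⟨MulAut.conj, ρ, fun s a g hg => ((hUF0 p d _ u).1 a).conj_mem g hg s, fun s i => ?_,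
    fun s r y => ?_⟩, rfl, fun _ _ => rfl⟩
  · have := u.comm 0 s (u.gen i)⁻¹ (by rw [u.lev_zero]; trivial)
    rw [inv_inv] at this
    rw [MulAut.conj_apply, ← mul_assoc, ← mul_assoc]
    exact this
  · rw [MulAut.conj_apply, hU.1]
    have h1 := actg_right (actg_left (hU.2 r y) (mat s)) (mat s⁻¹)
    have h2 := hU.2 r (ρ s y)
    have h3 : MD ((p : O) ^ (2 * (e + r)))
        (mat s * mat (u.eps r y) * mat s⁻¹ - mat (u.eps r (ρ s y))) := fun i j => by
      have h4 := (h1 i j).sub (h2 i j)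
      rw [← Matrix.sub_apply, hA s y, mul_sub, mul_sub, sub_mul, sub_mul, mul_one, actg_inv',
        Matrix.mul_smul, Matrix.smul_mul, sub_sub_sub_cancel_right, sub_sub_sub_cancel_right] at h4
      exact h4
    have h5 := actg_left h3 (mat (u.eps r (ρ s y))⁻¹)
    rw [mul_sub, actg_inv] at h5
    intro i j
    exact (pow_dvd_pow (p : O) (by omega)).trans (h5 i j)

end Pool.Agent.P.MP_7cb106_nt.QJ
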