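import Pool.Agent.P.MP_7cb106_nt.QJ.Iface

/-! Step ADDP. -/

set_option autoImplicit false

namespace Pool.Agent.P.MP_7cb106_nt.QJ

open Filter

open Polynomial in
theorem addp_one {p : ℕ} [hp : Fact p.Prime] {A : Type} [CommRing A] (φ : ZMod p →+* A) (x y : A) :
    ∏ c : ZMod p, (x - φ c * y) = x ^ p - x * y ^ (p - 1) := by
  have h1 : 1 < p := hp.out.one_lt
  have e : ∏ c : ZMod p, (X - C c : (ZMod p)[X]) = X ^ p - X := by
    have r := FiniteField.roots_X_pow_card_sub_X (ZMod p)
    rw [ZMod.card] at r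
    have := prod_multiset_X_sub_C_of_monic_of_roots_card_eq (p := (X ^ p - X : (ZMod p)[X]))
      (monic_X_pow_sub (degree_X.trans_lt (by exact_mod_cast h1))) (by
        rw [r, FiniteField.X_pow_card_sub_X_natDegree_eq _ h1]; simp)
    rwa [r] at this
  have e2 := homogenize_finsetProd (s := Finset.univ) (n := fun _ => 1)
    (p := fun c : ZMod p => (X - C c : (ZMod p)[X])) fun c _ => (natDegree_X_sub_C c).le
  rw [e, Finset.sum_const, Finset.card_univ, ZMod.card, smul_eq_mul, mul_one, homogenize_sub,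
    homogenize_X_pow le_rfl, homogenize_X hp.out.ne_zero] at e2
  have := congrArg (MvPolynomial.eval₂Hom φ ![x, y]) e2
  simpa [homogenize_X] using this.symm

theorem p_ADDP :
    S_ADDP := by
  classical
  intro p hp A _ h0 Q z0 hQ
  let φ : ZMod p →+* A := ZMod.castHom (ringChar.dvd h0) A
  have mul : ∀ P : Finset A, (0 : A) ∈ P → (∀ a ∈ P, ∀ b ∈ P, a + b ∈ P) →
      ∀ (c : ZMod p), ∀ a ∈ P, φ c * a ∈ P := fun P z h c a ha => by
    obtain ⟨n, rfl⟩ := ZMod.natCast_zmod_surjective c
    rw [map_natCast]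
    induction n with
    | zero => simpa using z
    | succ n ih => rw [Nat.cast_succ, add_mul, one_mul]; exact h _ ih _ ha
  have key : ∀ (k : ℕ) (P : Finset A), P ⊆ Q → Q.card ≤ P.card + k → (0 : A) ∈ P →
      (∀ a ∈ P, ∀ b ∈ P, a + b ∈ P) →
      (∀ x y : A, ∏ v ∈ P, (x + y + v) = ∏ v ∈ P, (x + v) + ∏ v ∈ P, (y + v)) →
      ∀ x y : A, ∏ v ∈ Q, (x + y + v) = ∏ v ∈ Q, (x + v) + ∏ v ∈ Q, (y + v) := fun k => by
    induction k with
    | zero => exact fun P s c _ _ h => Finset.eq_of_subset_of_card_le s c ▸ h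
    | succ k ih =>
      intro P s c z a h
      by_cases e : Q ⊆ P
      · exact Finset.Subset.antisymm s e ▸ h
      obtain ⟨w, wQ, wP⟩ := Finset.not_subset.1 e
      have inj : Set.InjOn (fun u : ZMod p × A => u.2 + φ (-u.1) * w)
          ((Finset.univ ×ˢ P : Finset (ZMod p × A)) : Set (ZMod p × A)) := by
        rintro ⟨c, v⟩ h1 ⟨c', v'⟩ h2 (e : v + φ (-c) * w = v' + φ (-c') * w)
        obtain rfl : c = c' := by
          by_contra ne
          have := mul P z a (c - c')⁻¹ _ (a _ (Finset.mem_product.1 h1).2 _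
            (mul P z a (-1) _ (Finset.mem_product.1 h2).2))
          rw [show v + φ (-1) * v' = φ (c - c') * w by
            simp only [map_neg, map_one, map_sub] at e ⊢; linear_combination e, ← mul_assoc,
            ← map_mul, inv_mul_cancel₀ (sub_ne_zero.2 ne), map_one, one_mul] at this
          exact wP this
        rw [add_right_cancel e]
      have f0 : ∏ v ∈ P, (0 + v) = 0 := Finset.prod_eq_zero z (add_zero 0)
      have fm : ∀ c : ZMod p, ∏ v ∈ P, (φ c * w + v) = φ c * ∏ v ∈ P, (w + v) := fun c => by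
        obtain ⟨n, rfl⟩ := ZMod.natCast_zmod_surjective c
        rw [map_natCast]
        induction n with
        | zero => rw [Nat.cast_zero, zero_mul, zero_mul, f0]
        | succ n ih => rw [Nat.cast_succ, add_mul, one_mul, h, ih, add_mul, one_mul]
      have pr : ∀ x, ∏ u ∈ (Finset.univ ×ˢ P).image fun u : ZMod p × A => u.2 + φ (-u.1) * w,
          (x + u) = (∏ v ∈ P, (x + v)) ^ p - (∏ v ∈ P, (x + v)) * (∏ v ∈ P, (w + v)) ^ (p - 1) :=
        fun x => by
        rw [Finset.prod_image inj, Finset.prod_product, ← addp_one φ]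
        refine Finset.prod_congr rfl fun c _ => ?_
        rw [sub_eq_add_neg, ← neg_mul, ← map_neg, ← fm, ← h]
        exact Finset.prod_congr rfl fun v _ => by ring
      refine ih ((Finset.univ ×ˢ P).image fun u : ZMod p × A => u.2 + φ (-u.1) * w) ?_ ?_ ?_ ?_
        fun x y => ?_
      · exact Finset.image_subset_iff.2 fun u hu =>
          hQ _ (s (Finset.mem_product.1 hu).2) _ (mul Q z0 hQ _ _ wQ)
      · rw [Finset.card_image_of_injOn inj, Finset.card_product, Finset.card_univ, ZMod.card]
        have := Finset.card_pos.2 ⟨_, z⟩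
        have := Nat.mul_le_mul_right P.card hp.out.two_le
        omega
      · exact Finset.mem_image.2 ⟨(0, 0), by simpa using z, by simp⟩
      · intro _ h1 _ h2
        obtain ⟨u, h3, rfl⟩ := Finset.mem_image.1 h1
        obtain ⟨u', h4, rfl⟩ := Finset.mem_image.1 h2
        exact Finset.mem_image.2 ⟨u + u', Finset.mem_product.2 ⟨Finset.mem_univ _,
          a _ (Finset.mem_product.1 h3).2 _ (Finset.mem_product.1 h4).2⟩, by
            simp only [Prod.fst_add, Prod.snd_add, map_neg, map_add]; ring⟩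
      · rw [pr, pr, pr, h, add_pow_prime_eq hp.out, h0]
        ring
  exact key Q.card {0} (by simpa using z0) (by omega) (by simp) (by simp) (by simp)

end Pool.Agent.P.MP_7cb106_nt.QJ
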