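import Pool.Agent.P.MP_7cb106_nt.QJ.Iface

/-! Step ADJ. -/

set_option autoImplicit false

namespace Pool.Agent.P.MP_7cb106_nt.QJ

open Filter

section
variable {p : ℕ} [Fact p.Prime] {O : Type} [CommRing O] [Algebra ℤ_[p] O] {n d e : ℕ}

omit [Fact p.Prime] [Algebra ℤ_[p] O] in
theorem adj_mul (g h : Cong p O n e) : mat (g * h) = mat g * mat h := rfl

omit [Fact p.Prime] [Algebra ℤ_[p] O] in
theorem adj_one : mat (1 : Cong p O n e) = 1 := rfl

theorem adj_lift (Fr : Frame p O n d)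
    (L : Matrix (Fin n) (Fin n) O →ₗ[ℤ_[p]] Matrix (Fin n) (Fin n) O)
    (hL : ∀ M : Matrix (Fin n) (Fin n) O, M.trace = 0 → (L M).trace = 0) :
    ∃ f : VV p d →ₗ[ℤ_[p]] VV p d, ∀ y, Fr.c (f y) = L (Fr.c y) := by
  have h : ∀ y, ∃ z, Fr.c z = L (Fr.c y) := fun y =>
    (Fr.range _).2 (hL _ ((Fr.range _).1 ⟨y, rfl⟩))
  choose f hf using h
  refine ⟨⟨⟨f, fun a b => Fr.inj ?_⟩, fun a b => Fr.inj ?_⟩, hf⟩
  · rw [map_add, hf, hf, hf, map_add, map_add]
  · rw [RingHom.id_apply, map_smul, hf, hf, map_smul, map_smul]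

theorem adj_tr (s : Cong p O n e) (M : Matrix (Fin n) (Fin n) O) :
    (mat s * M * mat s⁻¹).trace = M.trace := by
  rw [Matrix.trace_mul_cycle, ← adj_mul, inv_mul_cancel, adj_one, one_mul]

end

theorem p_ADJ :
    S_ADJ := by
  intro p _ O _ _ n d e Fr
  refine ⟨?_, ?_, ?_⟩
  · have h : ∀ s : Cong p O n e, ∃ f : VV p d →ₗ[ℤ_[p]] VV p d,
        ∀ y, Fr.c (f y) = mat s * Fr.c y * mat s⁻¹ := fun s =>
      adj_lift Fr ((LinearMap.mulRight ℤ_[p] (mat s⁻¹)).comp (LinearMap.mulLeft ℤ_[p] (mat s)))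
        fun M hM => (adj_tr s M).trans hM
    choose f hf using h
    have h1 : ∀ y, f 1 y = y := fun y => Fr.inj (by rw [hf, inv_one, adj_one, one_mul, mul_one])
    have hm : ∀ s t y, f (s * t) y = f s (f t y) := fun s t y => Fr.inj (by
      rw [hf, hf, hf, mul_inv_rev, adj_mul, adj_mul]
      simp only [mul_assoc])
    let F : Cong p O n e → (VV p d ≃ₗ[ℤ_[p]] VV p d) := fun s =>
      { f s with
        invFun := f s⁻¹
        left_inv := fun y => by
          show f s⁻¹ (f s y) = y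
          rw [← hm, inv_mul_cancel, h1]
        right_inv := fun y => by
          show f s (f s⁻¹ y) = y
          rw [← hm, mul_inv_cancel, h1] }
    exact ⟨⟨⟨F, LinearEquiv.ext h1⟩, fun s t => LinearEquiv.ext (hm s t)⟩, hf⟩
  · have h : ∀ i, ∃ f : VV p d →ₗ[ℤ_[p]] VV p d,
        ∀ y, Fr.c (f y) = Fr.bs i * Fr.c y - Fr.c y * Fr.bs i := fun i =>
      adj_lift Fr (LinearMap.mulLeft ℤ_[p] (Fr.bs i) - LinearMap.mulRight ℤ_[p] (Fr.bs i))
        fun M _ => by
          show (Fr.bs i * M - M * Fr.bs i).trace = 0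
          rw [Matrix.trace_sub, Matrix.trace_mul_comm, sub_self]
    choose f hf using h
    exact ⟨f, hf⟩
  · have h : ∀ i (g : Cong p O n e), ∃ z, Fr.c z = mat g⁻¹ * Fr.bs i * mat g - Fr.bs i := by
      intro i g
      refine (Fr.range _).2 ?_
      have := adj_tr g⁻¹ (Fr.bs i)
      rw [inv_inv] at this
      rw [Matrix.trace_sub, this, sub_self]
    choose f hf using h
    exact ⟨f, hf⟩

end Pool.Agent.P.MP_7cb106_nt.QJ
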