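import Pool.Agent.P.MP_7cb106_nt.QJ.Iface

/-! Step BAD1. -/

set_option autoImplicit false

namespace Pool.Agent.P.MP_7cb106_nt.QJ

open Filter

lemma bad1_comm {ρ N : ℕ} (T : TR ρ N) (c : ℕ) (o : T.O) : T.t ^ c * o = o * T.t ^ c :=
  (Commute.pow_left (T.central o) c).eq

lemma bad1_deep {ρ N : ℕ} (T : TR ρ N) {A : Type} [CommRing A] (E : A →+* T.O) (J : Ideal A)
    (c : ℕ) (h : ∀ a ∈ J, ∃ o, E a = T.t ^ c * o) :
    ∀ y ∈ Ideal.map E J, ∃ o, y = T.t ^ c * o := by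
  intro y hy
  refine Submodule.span_induction (p := fun y _ => ∃ o, y = T.t ^ c * o) ?_ ?_ ?_ ?_ hy
  · rintro _ ⟨a, ha, rfl⟩
    exact h a ha
  · exact ⟨0, by simp⟩
  · rintro _ _ _ _ ⟨o, rfl⟩ ⟨o', rfl⟩
    exact ⟨o + o', by rw [mul_add]⟩
  · rintro a _ _ ⟨o, rfl⟩
    exact ⟨a * o, by rw [smul_eq_mul, ← mul_assoc, ← bad1_comm, mul_assoc]⟩

lemma bad1_right {O : Type} [Ring O] {A : Type} [CommRing A] (E : A →+* O) (I I' : Ideal A)
    {a : A} (ha : a ∈ I) : ∀ x ∈ Ideal.map E I', x * E a ∈ Ideal.map E (I * I') := by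
  intro x hx
  refine Submodule.span_induction (p := fun x _ => x * E a ∈ Ideal.map E (I * I')) ?_ ?_ ?_ ?_ hx
  · rintro _ ⟨b, hb, rfl⟩
    rw [← map_mul, mul_comm b a]
    exact Ideal.mem_map_of_mem _ (Ideal.mul_mem_mul ha hb)
  · simp
  · intro x y _ _ h1 h2
    rw [add_mul]
    exact Ideal.add_mem _ h1 h2
  · intro w x _ h1
    rw [smul_eq_mul, mul_assoc]
    exact Ideal.mul_mem_left _ _ h1

lemma bad1_prod {ρ N : ℕ} (T : TR ρ N) {A : Type} [CommRing A] (E : A →+* T.O) (I I' : Ideal A)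
    (c : ℕ) (h : T.t ^ c ∈ Ideal.map E I') :
    ∀ x ∈ Ideal.map E I, x * T.t ^ c ∈ Ideal.map E (I * I') := by
  intro x hx
  refine Submodule.span_induction (p := fun x _ => x * T.t ^ c ∈ Ideal.map E (I * I'))
    ?_ ?_ ?_ ?_ hx
  · rintro _ ⟨a, ha, rfl⟩
    rw [← bad1_comm]
    exact bad1_right E I I' ha _ h
  · simp
  · intro x y _ _ h1 h2
    rw [add_mul]
    exact Ideal.add_mem _ h1 h2
  · intro w x _ h1
    rw [smul_eq_mul, mul_assoc]
    exact Ideal.mul_mem_left _ _ h1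

theorem p_BAD1 :
    S_BAD1 := by
  intro p hp ρ A _ K 𝒯
  refine ⟨fun I n C h hC => ?_, fun I I' C C' hI hC h => ?_, fun I I' C C' h h' => ?_⟩
  · refine Filter.Eventually.mono h fun r hr => ?_
    rw [Ideal.map_sup] at hr
    obtain ⟨x, hx, y, hy, e⟩ := Submodule.mem_sup.1 hr
    obtain ⟨o, rfl⟩ := bad1_deep (𝒯.T r) (𝒯.E r) (K n) _ (𝒯.deep r n) y hy
    have hp0 : 0 < p ^ r := pow_pos hp.out.pos r
    obtain ⟨k, hk⟩ : ∃ k, p ^ (r + n) = C * p ^ r + 1 + k := by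
      refine Nat.exists_eq_add_of_le ?_
      rw [pow_add]
      nlinarith
    set t := (𝒯.T r).t with ht
    have hn : IsNilpotent (t * (t ^ k * o)) :=
      Commute.isNilpotent_mul_right ((𝒯.T r).central _) ⟨_, (𝒯.T r).nil⟩
    obtain ⟨u, hu⟩ := hn.isUnit_one_sub
    have e2 : x = u * t ^ (C * p ^ r) := by
      rw [hk, pow_add, pow_add, pow_one, mul_assoc, mul_assoc] at e
      rw [hu, ← bad1_comm, mul_sub, mul_one, eq_sub_iff_add_eq, e]
    have : t ^ (C * p ^ r) = (u⁻¹ : (𝒯.T r).Oˣ) * x := by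
      rw [e2, Units.inv_mul_cancel_left]
    rw [this]
    exact Ideal.mul_mem_left _ _ hx
  · refine Filter.Eventually.mono h fun r hr => ?_
    obtain ⟨k, rfl⟩ := Nat.exists_eq_add_of_le hC
    rw [add_mul, add_comm, pow_add]
    exact Ideal.mul_mem_left _ _ (Ideal.map_mono hI hr)
  · refine Filter.Eventually.mono (h.and h') fun r hr => ?_
    rw [add_mul, pow_add]
    exact bad1_prod (𝒯.T r) (𝒯.E r) I I' _ hr.2 _ hr.1

end Pool.Agent.P.MP_7cb106_nt.QJ
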