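import Pool.Agent.P.MP_7cb106_nt.QJ.Iface

/-! Step BAD3. -/

set_option autoImplicit false

namespace Pool.Agent.P.MP_7cb106_nt.QJ

open Filter

theorem p_BAD3 (hBAD1 : S_BAD1) :
    S_BAD3 := by
  intro p hp ρ A _ K 𝒯 hA I hI
  obtain ⟨h1, h2, -⟩ := hBAD1 p ρ A K 𝒯
  obtain ⟨P, a, b⟩ := zorn_le_nonempty₀ {P | 𝒯.Bad P} (fun c hc hch y hy => by
    refine ⟨sSup c, fun C hC => ?_, fun z hz => le_sSup hz⟩
    have := hA.fin C
    have : Finite (Ideal (A ⧸ K C)) := Finite.of_injective _ SetLike.coe_injective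
    obtain ⟨J, hJ, hm⟩ := Set.Finite.exists_maximalFor' (Ideal.map (Ideal.Quotient.mk (K C))) c
      (Set.toFinite _) ⟨y, hy⟩
    refine hc hJ C (h1 J C C (h2 _ _ C C (sSup_le fun z hz => ?_) le_rfl hC)
      (Nat.lt_pow_self hp.out.one_lt))
    rcases hch.total hz hJ with h | h
    · exact le_sup_of_le_left h
    · have := Ideal.map_le_iff_le_comap.1 (hm hz (Ideal.map_mono h))
      rwa [Ideal.comap_map_of_surjective _ Ideal.Quotient.mk_surjective, ← RingHom.ker_eq_comap_bot,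
        Ideal.mk_ker] at this) I hI
  exact ⟨P, b, a⟩

end Pool.Agent.P.MP_7cb106_nt.QJ
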