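import Pool.Agent.P.MP_7cb106_nt.QJ.Iface

/-! Step BAD4. -/

set_option autoImplicit false

namespace Pool.Agent.P.MP_7cb106_nt.QJ

open Filter

theorem p_BAD4 (hFIN : S_FIN) (hBAD1 : S_BAD1) :
    S_BAD4 := by
  intro p _ ρ A _ K 𝒯
  classical
  obtain ⟨-, hmono, hmul⟩ := hBAD1 p ρ A K 𝒯
  have hp : 0 < p := (Fact.out : p.Prime).pos
  by_contra hinf
  obtain ⟨s, hs, hcard⟩ := Set.Infinite.exists_subset_card_eq hinf (ρ + 1)
  have h1 : ∀ PQ : Ideal A × Ideal A, ∃ C, PQ.1 ∈ s → PQ.2 ∈ s → PQ.1 ≠ PQ.2 →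
      𝒯.Good (PQ.1 ⊔ PQ.2) C := by
    intro PQ
    by_cases h : PQ.1 ∈ s ∧ PQ.2 ∈ s ∧ PQ.1 ≠ PQ.2
    · have hP : Maximal 𝒯.Bad PQ.1 := hs h.1
      have hQ : Maximal 𝒯.Bad PQ.2 := hs h.2.1
      by_contra hcon
      have hb : 𝒯.Bad (PQ.1 ⊔ PQ.2) := fun C hC => hcon ⟨C, fun _ _ _ => hC⟩
      exact h.2.2 (le_antisymm (le_sup_left.trans (hQ.le_of_ge hb le_sup_right))
        (le_sup_right.trans (hP.le_of_ge hb le_sup_left)))
    · exact ⟨0, fun a b c => absurd ⟨a, b, c⟩ h⟩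
  choose C hC using h1
  let C0 := (s ×ˢ s).sup C
  let c := C0 * ρ
  let d := ρ * c + 1
  have h2 : ∀ P ∈ s, ∀ s' : Finset (Ideal A), s' ⊆ s.erase P →
      𝒯.Good (P ⊔ ∏ Q ∈ s', Q) (C0 * s'.card) := by
    intro P hP s'
    induction s' using Finset.induction_on with
    | empty =>
      intro _
      refine Eventually.of_forall fun r => ?_
      have : (1 : A) ∈ P ⊔ ∏ Q ∈ (∅ : Finset (Ideal A)), Q := by simp
      simpa using Ideal.mem_map_of_mem (𝒯.E r) this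
    | insert Q s' hQ ih =>
      intro hs'
      have hQ' := Finset.mem_erase.1 (hs' (Finset.mem_insert_self _ _))
      have h3 := hmul _ _ _ _ (hC (P, Q) hP hQ'.2 hQ'.1.symm)
        (ih ((Finset.subset_insert _ _).trans hs'))
      rw [Finset.card_insert_of_notMem hQ, Finset.prod_insert hQ]
      refine hmono _ _ _ _ ?_ ?_ h3
      · rw [Ideal.sup_mul, Ideal.mul_sup Q]
        exact sup_le (le_sup_of_le_left Ideal.mul_le_left)
          (sup_le (le_sup_of_le_left Ideal.mul_le_right) le_sup_right)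
      · have : C (P, Q) ≤ C0 := Finset.le_sup (f := C) (Finset.mem_product.2 ⟨hP, hQ'.2⟩)
        nlinarith
  have h3 : ∀ P ∈ s, ∀ᶠ r in (hyperfilter ℕ : Filter ℕ),
      (𝒯.T r).t ^ (c * p ^ r) ∈ Ideal.map (𝒯.E r) (P ⊔ ∏ Q ∈ s.erase P, Q) ∧
        (𝒯.T r).t ^ ((c + d) * p ^ r) ∉ Ideal.map (𝒯.E r) P := by
    intro P hP
    refine Eventually.and ?_ ?_
    · have := h2 P hP _ le_rfl
      rwa [Finset.card_erase_of_mem hP, hcard, Nat.add_sub_cancel] at this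
    · have hP' : Maximal 𝒯.Bad P := hs hP
      exact Ultrafilter.eventually_not.2 (hP'.prop (c + d))
  obtain ⟨r, hr⟩ := ((Finset.eventually_all s).2 h3).exists
  have h4 : ∀ P : Ideal A, ∃ u, P ∈ s → u - (𝒯.T r).t ^ (c * p ^ r) ∈ Ideal.map (𝒯.E r) P ∧
      u ∈ Ideal.map (𝒯.E r) (∏ Q ∈ s.erase P, Q) := by
    intro P
    by_cases hP : P ∈ s
    · have h5 := (hr P hP).1
      rw [Ideal.map_sup] at h5
      obtain ⟨x, hx, y, hy, hxy⟩ := Submodule.mem_sup.1 h5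
      refine ⟨y, fun _ => ⟨?_, hy⟩⟩
      rw [← hxy, sub_add_cancel_right]
      exact Submodule.neg_mem _ hx
    · exact ⟨0, fun h => absurd h hP⟩
  choose u hu using h4
  let e := (s.equivFinOfCardEq hcard).symm
  have h5 := hFIN ρ _ (𝒯.T r) (ρ + 1) ((c + d) * p ^ r) (c * p ^ r)
    (fun i => Ideal.map (𝒯.E r) (e i)) (fun i => u (e i)) (fun i => (hr _ (e i).2).2)
    (fun i j hne => Ideal.map_mono (Ideal.prod_le_inf.trans
      (Finset.inf_le (f := fun Q : Ideal A => Q) (Finset.mem_erase.2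
        ⟨fun h => hne (e.injective (Subtype.ext h)).symm, (e j).2⟩))) (hu _ (e i).2).2)
    (fun i => (hu _ (e i).2).1)
  rw [add_mul c, Nat.add_sub_cancel_left, ← add_mul, ← mul_assoc, ← mul_assoc] at h5
  have h6 := Nat.le_of_mul_le_mul_right h5 (by positivity)
  simp only [d] at h6
  nlinarith

end Pool.Agent.P.MP_7cb106_nt.QJ
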