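import Pool.Agent.P.MP_7cb106_nt.QJ.Iface

/-! Step BAD5. -/

set_option autoImplicit false

namespace Pool.Agent.P.MP_7cb106_nt.QJ

open Filter

lemma bad5_lim {A : Type} [CommRing A] (I : Ideal A) (hI : Finite (A ⧸ I)) (a : ℕ → A) :
    ∃ b, ∀ᶠ C in (hyperfilter ℕ : Filter ℕ), a C - b ∈ I := by
  obtain ⟨x, hx⟩ := Ultrafilter.eq_pure_of_finite
    ((hyperfilter ℕ).map fun C => Ideal.Quotient.mk I (a C))
  obtain ⟨b, rfl⟩ := Ideal.Quotient.mk_surjective x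
  have h : ({Ideal.Quotient.mk I b} : Set (A ⧸ I)) ∈
      (hyperfilter ℕ).map fun C => Ideal.Quotient.mk I (a C) := by
    rw [hx]; exact Ultrafilter.mem_pure.2 rfl
  exact ⟨b, Filter.mem_of_superset (Ultrafilter.mem_map.1 h) fun C hC => Ideal.Quotient.eq.1 hC⟩

theorem p_BAD5 (hBAD1 : S_BAD1) :
    S_BAD5 := by
  intro p hp ρ A _ K 𝒯 hA ℓ n0 h0 h1
  obtain ⟨g1, g2, -⟩ := hBAD1 p ρ A K 𝒯
  by_contra hc
  push Not at hc
  choose a ha hb using hc
  choose b hb' using fun n => bad5_lim (K n) (hA.fin n) a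
  obtain ⟨c, hc⟩ := hA.cpl b fun n => by
    obtain ⟨C, e1, e2⟩ := ((hb' (n + 1)).and (hb' n)).exists
    have := (K n).sub_mem e2 (hA.anti n e1)
    rwa [sub_sub_sub_cancel_left] at this
  have key : ∀ n, ∀ᶠ C in (hyperfilter ℕ : Filter ℕ), c - a C ∈ K n := fun n =>
    (hb' n).mono fun C e => by
      have := (K n).sub_mem (hc n) e
      rwa [sub_sub_sub_cancel_right] at this
  have hl : ℓ c = 1 := by
    obtain ⟨C, e⟩ := (key n0).exists
    have := h0 _ e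
    rwa [map_sub, ha, sub_eq_zero] at this
  obtain ⟨C0, hC0⟩ := h1 c hl
  obtain ⟨C, e1, e2⟩ := ((key C0).and
    ((eventually_ge_atTop C0).filter_mono Nat.hyperfilter_le_atTop)).exists
  refine hb C (g2 _ _ _ _ le_rfl e2 (g1 _ C0 C0 (g2 _ _ _ _ ?_ le_rfl hC0)
    (Nat.lt_pow_self hp.out.one_lt)))
  rw [Ideal.span_singleton_le_iff_mem, ← add_sub_cancel (a C) c]
  exact Submodule.add_mem_sup (Ideal.mem_span_singleton_self _) e1

end Pool.Agent.P.MP_7cb106_nt.QJ
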