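import Pool.Agent.P.MP_7cb106_nt.QJ.Iface

/-! Step BADS. -/

set_option autoImplicit false

namespace Pool.Agent.P.MP_7cb106_nt.QJ

open Filter

lemma bads_lift {p ρ : ℕ} {A : Type} [CommRing A] {K : ℕ → Ideal A} (𝒯 : Tower p ρ A K)
    {β : A →+* A} (h : 𝒯.Lifts β) {J : Ideal A} (hJ : 𝒯.Bad J) : 𝒯.Bad (J.comap β) := by
  intro C hC
  refine hJ C (hC.mono fun r hr => ?_)
  obtain ⟨τ, h1, h2⟩ := h r
  have h3 := Ideal.mem_map_of_mem τ hr
  rw [map_pow, h1, Ideal.map_map] at h3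
  refine Ideal.map_le_iff_le_comap.2 (fun a ha => ?_) h3
  rw [Ideal.mem_comap, RingHom.comp_apply, h2]
  exact Ideal.mem_map_of_mem _ ha

theorem p_BADS (hBAD1 : S_BAD1) :
    S_BADS := by
  intro p hp ρ A _ K 𝒯
  obtain ⟨h1, h2, -⟩ := hBAD1 p ρ A K 𝒯
  have p1 : 1 < p := hp.out.one_lt
  refine ⟨fun C hC => ?_, fun P hP n hn => ?_, fun P hP a ha => ?_, fun α hα hα' P hP => ?_⟩
  · obtain ⟨r, hr, hr'⟩ := (hC.and
      ((eventually_ge_atTop C).filter_mono Nat.hyperfilter_le_atTop)).exists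
    rw [Ideal.map_bot, Ideal.mem_bot] at hr
    refine (𝒯.T r).ne _ ?_ hr
    rw [two_mul, pow_add]
    exact Nat.mul_lt_mul_of_pos_right (hr'.trans_lt (Nat.lt_pow_self p1)) (by positivity)
  · have g : 𝒯.Good (K n) (p ^ n) := Eventually.of_forall fun r => by
      rw [← pow_add, add_comm n r]
      exact 𝒯.opn r n
    exact hP _ (h1 P (n + 1) _ (h2 _ _ _ _ (hn (n + 1)) le_rfl g)
      (Nat.pow_lt_pow_right p1 n.lt_succ_self))
  · have b : 𝒯.Bad (P ⊔ Ideal.span {a}) := fun C hC => hP.1 C (hC.mono fun r hr => by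
      refine Ideal.map_le_iff_le_comap.2 (sup_le (fun x hx => Ideal.mem_map_of_mem _ hx) ?_) hr
      rw [Ideal.span_singleton_le_iff_mem, Ideal.mem_comap, ha r]
      exact zero_mem _)
    exact hP.2 b le_sup_left (Ideal.mem_sup_right (Ideal.mem_span_singleton_self a))
  · refine ⟨bads_lift 𝒯 hα hP.1, fun Q hQ hle a ha => ?_⟩
    refine hP.2 (bads_lift 𝒯 hα' hQ) (fun x hx => hle ?_) ?_
    · change α (α.symm x) ∈ P
      rwa [α.apply_symm_apply]
    · simpa [Ideal.mem_comap] using ha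

end Pool.Agent.P.MP_7cb106_nt.QJ
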