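import Pool.Agent.P.MP_7cb106_nt.QJ.Iface

/-! Step COMMS. -/

set_option autoImplicit false

namespace Pool.Agent.P.MP_7cb106_nt.QJ

open Filter

theorem p_COMMS :
    S_COMMS := by
  intro p _ O _ _ n d Fr q M h
  rcases Nat.eq_zero_or_pos n with rfl | hn
  · exact ⟨0, fun i => i.elim0⟩
  have h1 : ∀ y, MD q (Fr.c y * M - M * Fr.c y) := fun y a b => by
    have e : Fr.c y = ∑ i, y i • Fr.bs i := by
      conv_lhs => rw [← Finset.univ_sum_single y, map_sum]
      refine Finset.sum_congr rfl fun i _ => ?_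
      rw [Frame.bs, ← map_smul, ← Pi.single_smul', smul_eq_mul, mul_one]
    rw [e, Finset.sum_mul, Finset.mul_sum, ← Finset.sum_sub_distrib, Matrix.sum_apply]
    refine Finset.dvd_sum fun i _ => ?_
    rw [Matrix.smul_mul, Matrix.mul_smul, ← smul_sub, Matrix.smul_apply, Algebra.smul_def]
    exact (h i a b).mul_left _
  have h2 : ∀ i j, i ≠ j → MD q (Matrix.single i j 1 * M - M * Matrix.single i j 1) :=
    fun i j hij => by
      obtain ⟨y, hy⟩ := (Fr.range _).2 (Matrix.trace_single_eq_of_ne i j (1 : O) hij)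
      exact hy ▸ h1 y
  refine ⟨M ⟨0, hn⟩ ⟨0, hn⟩, fun j i => ?_⟩
  rw [Matrix.sub_apply, Matrix.smul_apply, smul_eq_mul]
  rcases eq_or_ne j i with rfl | hij
  · rw [Matrix.one_apply_eq, mul_one]
    rcases eq_or_ne ⟨0, hn⟩ j with rfl | h0
    · rw [sub_self]
      exact dvd_zero _
    have := h2 _ _ h0 ⟨0, hn⟩ j
    rwa [Matrix.sub_apply, Matrix.single_mul_apply_same, Matrix.mul_single_apply_same, one_mul,
      mul_one] at this
  · have := h2 i j hij.symm i i
    rw [Matrix.sub_apply, Matrix.single_mul_apply_same,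
      Matrix.mul_single_apply_of_ne _ _ _ _ _ hij.symm, one_mul, sub_zero] at this
    rwa [Matrix.one_apply_ne hij, mul_zero, sub_zero]

end Pool.Agent.P.MP_7cb106_nt.QJ
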