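import Pool.Agent.P.MP_7cb106_nt.QJ.Iface3

/-! Step COREY. -/

set_option autoImplicit false

namespace Pool.Agent.P.MP_7cb106_nt.QJ

open Filter

theorem p_COREY (hCZX : S_CZX) (hLEVX : S_LEVX) (hREESX : S_REESX) :
    S_COREY := by
  intro p hp k R0 R _ _ _ _ _ _ d φ Qg _ _ X
  obtain ⟨Q, B, _, _, _, t, π, C, β, u, h1, h2, h3, h4, h5, h6, h7, h8⟩ :=
    hREESX p k R0 R d φ Qg X
  obtain ⟨Z, _, _, z1, z2, z3, P, hP, hPm⟩ := hCZX k B d Qg _ u h8
  obtain ⟨ρ, hρ⟩ := hLEVX p Q B Z t π P h1 h2 h3 h4 h5 z1 z2 z3 hP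
  choose T lam l1 l2 l3 using fun r : ℕ => hρ (p ^ (2 * r)) (pow_pos hp.out.pos _)
  have hj : ∀ j : ℕ, j ≤ p ^ (2 * j) := fun j =>
    (Nat.lt_pow_self hp.out.one_lt).le.trans (Nat.pow_le_pow_right hp.out.pos (by omega))
  have hc : ∀ r (j : ℕ) (o : (T r).O), (T r).t ^ j * o = o * (T r).t ^ j := fun r j o =>
    ((show Commute (T r).t o from (T r).central o).pow_left j).eq
  have htwo : ∀ r (j : ℕ) (x a b : R), (∃ o, lam r (C x) = (T r).t ^ j * o) →
      ∃ o, lam r (C (a * x * b)) = (T r).t ^ j * o := by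
    rintro r j x a b ⟨o, ho⟩
    refine ⟨lam r (C a) * o * lam r (C b), ?_⟩
    rw [map_mul, map_mul, map_mul, map_mul, ho, ← mul_assoc, ← hc, mul_assoc, mul_assoc, mul_assoc]
  let F' : ℕ → Submodule k R := fun j =>
    { carrier := {x | ∃ o, lam j (C x) = (T j).t ^ j * o}
      zero_mem' := ⟨0, by simp⟩
      add_mem' := by
        rintro x y ⟨o, ho⟩ ⟨o', ho'⟩
        exact ⟨o + o', by rw [map_add, map_add, ho, ho', mul_add]⟩
      smul_mem' := by
        intro c x hx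
        have := htwo j j x (algebraMap k R c) 1 hx
        rwa [mul_one, ← Algebra.smul_def] at this }
  have hord : ∀ r j x, j ≤ p ^ (2 * r) → (x ∈ F' j ↔ ∃ o, lam r (C x) = (T r).t ^ j * o) :=
    fun r j x h => (l3 j j (C x) (hj j)).trans (l3 r j (C x) h).symm
  have hle : ∀ j, X.F j ≤ F' j := by
    intro j x hx
    obtain ⟨z, hz⟩ := h6 j x hx
    exact ⟨lam j z, by rw [hz, map_mul, map_pow, l1]⟩
  have hopn : ∀ r m, (T r).t ^ m ∈
      Ideal.span (Set.range fun i => ((lam r).comp C) (X.f (φ.b i)) ^ m) := by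
    intro r m
    obtain ⟨z, hz, hzm⟩ := hPm m
    obtain ⟨c, hc'⟩ := (Submodule.mem_span_range_iff_exists_fun B).1 hzm
    choose y hy using fun i => h4 (c i)
    have hs : π (∑ i, y i * β i ^ m) = algebraMap Z B z := by
      rw [← hc', map_sum]
      exact Finset.sum_congr rfl fun i _ => by rw [map_mul, map_pow, hy, smul_eq_mul]
    obtain ⟨w, hw⟩ := (l2 r _ z hz hs).exists_left_inv
    have e : (T r).t ^ m = ∑ i, (w * lam r (y i)) * ((lam r).comp C) (X.f (φ.b i)) ^ m := by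
      have e1 : ∀ i, ((lam r).comp C) (X.f (φ.b i)) ^ m = lam r (β i) ^ m * (T r).t ^ m := by
        intro i
        have hcm : Commute (T r).t (lam r (β i)) := (T r).central _
        rw [RingHom.comp_apply, h7, map_mul, l1, hcm.mul_pow, hc]
      simp only [e1, ← mul_assoc]
      rw [← Finset.sum_mul]
      conv_lhs => rw [← one_mul ((T r).t ^ m), ← hw, map_sum, Finset.mul_sum]
      simp only [map_mul, map_pow, mul_assoc]
    rw [e]
    exact Ideal.sum_mem _ fun i _ => Ideal.mul_mem_left _ _ (Ideal.subset_span ⟨i, rfl⟩)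
  have hanti : ∀ j, F' (j + 1) ≤ F' j := by
    intro j x hx
    obtain ⟨o, ho⟩ := hx
    exact (hord (j + 1) j x ((Nat.le_succ j).trans (hj _))).2
      ⟨(T (j + 1)).t * o, by rw [ho, pow_succ, mul_assoc]⟩
  refine ⟨⟨ρ, F', hle, hanti, fun j x a b hx => htwo j j x a b hx, fun j0 => ⟨j0, le_rfl, ?_⟩, T,
    fun r => (lam r).comp C, hord, hopn⟩⟩
  intro hF
  have hb : ∀ (m : ℕ) i, X.f (φ.b i) ^ m ∈ X.F m := by
    intro m i
    induction m with
    | zero => rw [X.zero]; trivial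
    | succ m ih => rw [pow_succ]; exact X.mul _ _ _ _ ih (X.map _ _ (φ.bmem i))
  have h9 : ∀ x ∈ Ideal.span (Set.range fun i =>
      ((lam (j0 + 1)).comp C) (X.f (φ.b i)) ^ j0), ∃ o, x = (T (j0 + 1)).t ^ (j0 + 1) * o := by
    intro x hx
    induction hx using Submodule.span_induction with
    | mem x hx =>
      obtain ⟨i, rfl⟩ := hx
      obtain ⟨o, ho⟩ := hF (hle _ (hb j0 i))
      exact ⟨o, by rw [← ho, map_pow, map_pow]; rfl⟩
    | zero => exact ⟨0, by simp⟩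
    | add x y _ _ hx hy =>
      obtain ⟨o, rfl⟩ := hx
      obtain ⟨o', rfl⟩ := hy
      exact ⟨o + o', (mul_add _ _ _).symm⟩
    | smul c x _ hx =>
      obtain ⟨o, rfl⟩ := hx
      exact ⟨c * o, by rw [smul_eq_mul, ← mul_assoc, ← hc, mul_assoc]⟩
  obtain ⟨o, ho⟩ := h9 _ (hopn (j0 + 1) j0)
  have hnil : IsNilpotent ((T (j0 + 1)).t * o) :=
    (show Commute (T (j0 + 1)).t o from (T (j0 + 1)).central o).isNilpotent_mul_right
      ⟨_, (T (j0 + 1)).nil⟩
  refine (T (j0 + 1)).ne j0 (lt_of_lt_of_le (Nat.lt_succ_self _) (hj _)) ?_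
  refine hnil.isUnit_one_sub.mul_right_cancel ?_
  rw [zero_mul, mul_sub, mul_one, ← mul_assoc, ← pow_succ, ← ho, sub_self]

end Pool.Agent.P.MP_7cb106_nt.QJ
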