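import Pool.Agent.P.MP_7cb106_nt.QJ.Iface

/-! Step CP0. -/

set_option autoImplicit false

namespace Pool.Agent.P.MP_7cb106_nt.QJ

open Filter

section
variable {p d : ℕ} [Fact p.Prime]

lemma cp0_mul (y z : VV p d) : (d0 (y + z) : A0 p d) = d0 y * d0 z := by
  simp [d0, MonoidAlgebra.single_mul_single, ofAdd_add]

lemma cp0_zero : (d0 0 : A0 p d) = 1 := rfl

lemma cp0_three (x : A0 p d) : x ∈ AddSubgroup.closure (Set.range (d0 : VV p d → A0 p d)) := by
  have : NeZero p := ⟨(Fact.out : p.Prime).ne_zero⟩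
  induction x using MonoidAlgebra.induction_on with
  | of g => exact AddSubgroup.subset_closure ⟨g.toAdd, rfl⟩
  | add f g hf hg => exact add_mem hf hg
  | smul r f hf =>
    rw [← ZMod.natCast_zmod_val r, Nat.cast_smul_eq_nsmul]
    exact nsmul_mem hf _

lemma cp0_gen {n : ℕ} (y z : VV p d) (h : Dv n z) : d0 (y + z) - d0 y ∈ K0 p d n := by
  rw [cp0_mul, ← mul_sub_one]
  exact Ideal.mul_mem_left _ _ (Ideal.subset_span ⟨z, h, rfl⟩)

lemma cp0_two (n : ℕ) (x : A0 p d) : x ∈ K0 p d n ↔
    x ∈ AddSubgroup.closure {x | ∃ y z, Dv n z ∧ x = d0 (y + z) - (d0 y : A0 p d)} := by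
  set C := AddSubgroup.closure {x | ∃ y z, Dv n z ∧ x = d0 (y + z) - (d0 y : A0 p d)} with hC
  have h1 : ∀ (w : VV p d), ∀ x ∈ C, d0 w * x ∈ C := by
    intro w x hx
    induction hx using AddSubgroup.closure_induction with
    | mem x hx =>
      obtain ⟨y, z, hz, rfl⟩ := hx
      refine AddSubgroup.subset_closure ⟨w + y, z, hz, ?_⟩
      simp only [cp0_mul]; ring
    | zero => rw [mul_zero]; exact zero_mem _
    | add a b _ _ ha hb => rw [mul_add]; exact add_mem ha hb
    | neg a _ ha => rw [mul_neg]; exact neg_mem ha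
  have h2 : ∀ a : A0 p d, ∀ x ∈ C, a * x ∈ C := by
    intro a x hx
    induction cp0_three a using AddSubgroup.closure_induction with
    | mem a ha => obtain ⟨w, rfl⟩ := ha; exact h1 w x hx
    | zero => rw [zero_mul]; exact zero_mem _
    | add a b _ _ ha hb => rw [add_mul]; exact add_mem ha hb
    | neg a _ ha => rw [neg_mul]; exact neg_mem ha
  constructor
  · intro hx
    induction hx using Submodule.span_induction with
    | mem x hx =>
      obtain ⟨z, hz, rfl⟩ := hx
      exact AddSubgroup.subset_closure ⟨0, z, hz, by rw [zero_add, cp0_zero]⟩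
    | zero => exact zero_mem _
    | add a b _ _ ha hb => exact add_mem ha hb
    | smul a x _ hx => exact h2 a x hx
  · intro hx
    induction hx using AddSubgroup.closure_induction with
    | mem x hx => obtain ⟨y, z, hz, rfl⟩ := hx; exact cp0_gen y z hz
    | zero => exact zero_mem _
    | add a b _ _ ha hb => exact add_mem ha hb
    | neg a _ ha => exact neg_mem ha

lemma cp0_one {n m : ℕ} (h : n ≤ m) : K0 p d m ≤ K0 p d n :=
  Ideal.span_mono fun _ ⟨z, hz, e⟩ => ⟨z, fun i => (pow_dvd_pow _ h).trans (hz i), e⟩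

lemma cp0_pr (f : Multiplicative (VV p d) → ZMod p) (y z : VV p d) :
    pr f (d0 y - d0 z : A0 p d) = f (Multiplicative.ofAdd y) - f (Multiplicative.ofAdd z) := by
  simp only [map_sub, d0, pr_single, one_mul]

lemma cp0_five (hDUAL : S_DUAL) (n : ℕ) (x : A0 p d) : x ∈ K0 p d n ↔
    ∀ θ : VV p d → ZMod p, LvV n θ →
      pr (fun g : Multiplicative (VV p d) => θ g.toAdd) x = 0 := by
  constructor
  · intro hx θ hθ
    rw [cp0_two] at hx
    induction hx using AddSubgroup.closure_induction with
    | mem x hx =>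
      obtain ⟨y, z, hz, rfl⟩ := hx
      rw [cp0_pr]
      exact sub_eq_zero.mpr (hθ y z hz)
    | zero => exact map_zero _
    | add a b _ _ ha hb => rw [map_add, ha, hb, add_zero]
    | neg a _ ha => rw [map_neg, ha, neg_zero]
  · intro h
    refine hDUAL.2.2 _ (ZMod p) ((K0 p d n).restrictScalars (ZMod p)) x fun f hf => ?_
    refine h (fun y => f (Multiplicative.ofAdd y)) fun y z hz => ?_
    have := hf _ (cp0_gen y z hz)
    rw [cp0_pr] at this
    exact sub_eq_zero.mp this

end

theorem p_CP0 (hFINV : S_FINV) (hDUAL : S_DUAL) :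
    S_CP0 := by
  intro p d _
  have : NeZero p := ⟨(Fact.out : p.Prime).ne_zero⟩
  refine ⟨fun n m h => cp0_one h, cp0_two, cp0_three, fun n => ?_, cp0_five hDUAL,
    fun a n m h => ?_⟩
  · have := (hFINV p d n).1.to_subtype
    refine Finite.of_injective (fun (q : A0 p d ⧸ K0 p d n) (θ : {θ : VV p d → ZMod p | LvV n θ}) =>
      pr (fun g : Multiplicative (VV p d) => θ.1 g.toAdd) (Quotient.out q)) fun q q' e => ?_
    rw [← Ideal.Quotient.mk_out q, ← Ideal.Quotient.mk_out q', Ideal.Quotient.eq, cp0_five hDUAL]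
    intro θ hθ
    rw [map_sub, sub_eq_zero]
    exact congrFun e ⟨θ, hθ⟩
  · induction m, h using Nat.le_induction with
    | base => rw [sub_self]; exact zero_mem _
    | succ m h ih =>
      have := add_mem (cp0_one h (a.2 m)) ih
      rwa [sub_add_sub_cancel] at this

end Pool.Agent.P.MP_7cb106_nt.QJ
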