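import Pool.Agent.P.MP_7cb106_nt.QJ.Iface

/-! Step CP1. -/

set_option autoImplicit false

namespace Pool.Agent.P.MP_7cb106_nt.QJ

open Filter

theorem p_CP1 (hCP0 : S_CP0) :
    S_CP1 := by
  intro p d _
  obtain ⟨h1, -, -, h2, -⟩ := hCP0 p d
  have mem : ∀ n (a : AA p d), a ∈ KK p d n ↔ a.1 n ∈ K0 p d n := fun n a => Iff.rfl
  refine ⟨?_, fun n a ha => ?_, fun n => ?_, fun a ha => ?_⟩
  · apply Subtype.ext
    funext n
    have : ((p : ℕ) : A0 p d) = 0 := by
      rw [← map_natCast (algebraMap (ZMod p) (A0 p d)), ZMod.natCast_self, map_zero]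
    simpa using this
  · rw [mem] at ha ⊢
    have := (K0 p d n).sub_mem (h1 n (n + 1) n.le_succ ha) (a.2 n)
    simpa using this
  · have := h2 n
    exact Finite.of_injective _ (Ideal.quotientMap_injective (I := K0 p d n) (f := evA p d n))
  · refine ⟨⟨fun n => (a n).1 n, fun n => ?_⟩, fun n => ?_⟩
    · have e1 := (mem n _).1 (ha n)
      have e2 := (a (n + 1)).2 n
      have := (K0 p d n).add_mem e2 e1
      simpa using this
    · rw [mem]; simp

end Pool.Agent.P.MP_7cb106_nt.QJ
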