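import Pool.Agent.P.MP_7cb106_nt.QJ.Iface

/-! Step CP3. -/

set_option autoImplicit false

namespace Pool.Agent.P.MP_7cb106_nt.QJ

open Filter

theorem p_CP3 (hCP0 : S_CP0) :
    S_CP3 := by
  intro p d _ O _ hp r f h0 h1 h2
  let L : A0 p d →+* O := MonoidAlgebra.liftNCRingHom (ZMod.castHom (ringChar.dvd hp) O)
    ⟨⟨fun y => f y.toAdd, h0⟩, fun y z => h1 _ _⟩ fun x y => by
      obtain ⟨n, rfl⟩ := ZMod.natCast_zmod_surjective x
      rw [map_natCast]
      exact Nat.cast_commute _ _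
  have hL : ∀ y, L (d0 y) = f y := fun y => by
    rw [d0, MonoidAlgebra.liftNCRingHom_single, map_one, one_mul]
    rfl
  refine ⟨L.comp (evA p d r), hL, fun a ha => ?_⟩
  refine (Ideal.span_le.2 ?_ : K0 p d r ≤ RingHom.ker L) ha
  rintro _ ⟨z, hz, rfl⟩
  change L _ = 0
  rw [map_sub, hL, h2 z hz, map_one, sub_self]

end Pool.Agent.P.MP_7cb106_nt.QJ
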