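import Pool.Agent.P.MP_7cb106_nt.QJ.Iface

/-! Step CP4. -/

set_option autoImplicit false

namespace Pool.Agent.P.MP_7cb106_nt.QJ

open Filter

section
variable {p d : ℕ} [Fact p.Prime]

lemma cp4_add {n : ℕ} {y z : VV p d} (hy : Dv n y) (hz : Dv n z) : Dv n (y + z) :=
  fun i => dvd_add (hy i) (hz i)

lemma cp4_neg {n : ℕ} {y : VV p d} (hy : Dv n y) : Dv n (-y) := fun i => (dvd_neg).2 (hy i)

lemma cp4_succ {n : ℕ} {θ : VV p d → ZMod p} (h : LvV n θ) : LvV (n + 1) θ :=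
  fun y z hz => h y z fun i => (pow_dvd_pow _ n.le_succ).trans (hz i)

lemma cp4_d0 (θ : VV p d → ZMod p) (y : VV p d) :
    pr (fun g : Multiplicative (VV p d) => θ g.toAdd) (d0 y) = θ y := by
  rw [d0, pr_single, one_mul]; rfl

/-- Constant sequences as an additive map. -/
noncomputable def cp4_cst (p d : ℕ) [Fact p.Prime] : A0 p d →+ AA p d where
  toFun := cst
  map_zero' := rfl
  map_add' := fun _ _ => rfl

open Classical in
lemma cp4_rep (hFINV : S_FINV) (lam : (VV p d → ZMod p) →ₗ[ZMod p] ZMod p) (n : ℕ) :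
    ∃ x : A0 p d, ∀ θ : VV p d → ZMod p, LvV n θ →
      pr (fun g : Multiplicative (VV p d) => θ g.toAdd) x = lam θ := by
  obtain ⟨-, Y, h1, h2⟩ := hFINV p d n
  refine ⟨∑ y ∈ Y, lam (fun z => if Dv n (z - y) then 1 else 0) • d0 y, fun θ hθ => ?_⟩
  have e : θ = ∑ y ∈ Y, θ y • fun z => if Dv n (z - y) then (1 : ZMod p) else 0 := by
    funext z
    obtain ⟨y, hy, hz⟩ := h1 z
    rw [Finset.sum_apply, Finset.sum_eq_single y]
    · have := hθ y _ hz
      rw [add_sub_cancel] at this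
      simp [hz, this]
    · intro y' hy' hne
      have : ¬ Dv n (z - y') := fun h => hne (h2 y' hy' y hy (by
        have := cp4_add (cp4_neg h) hz
        rwa [neg_sub, sub_add_sub_cancel] at this))
      simp [this]
    · exact fun h => (h hy).elim
  rw [map_sum]
  conv_rhs => rw [e, map_sum]
  refine Finset.sum_congr rfl fun y _ => ?_
  rw [map_smul, map_smul, cp4_d0, smul_eq_mul, smul_eq_mul, mul_comm]

end

theorem p_CP4 (hCP0 : S_CP0) (hFINV : S_FINV) :
    S_CP4 := by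
  intro p d _
  obtain ⟨-, c2, c3, -, c5, -⟩ := hCP0 p d
  refine ⟨fun n θ hθ => ⟨(pr (fun g : Multiplicative (VV p d) => θ g.toAdd)).toAddMonoidHom.comp
    (evA p d n).toAddMonoidHom, fun y => cp4_d0 θ y, fun a ha => (c5 n _).1 ha θ hθ⟩, fun lam => ?_⟩
  choose x hx using cp4_rep hFINV lam
  refine ⟨⟨x, fun n => (c5 n _).2 fun θ hθ => ?_⟩, fun n ψ hψ => ?_⟩
  · rw [map_sub, hx _ θ (cp4_succ hθ), hx _ θ hθ, sub_self]
  · have hθ : LvV n fun y => ψ (dA y) := fun y z hz => by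
      rw [← sub_eq_zero, ← map_sub]
      exact hψ _ ((c2 n (d0 (y + z) - d0 y)).2 (AddSubgroup.subset_closure ⟨y, z, hz, rfl⟩))
    have e : ψ.comp (cp4_cst p d) =
        (pr (fun g : Multiplicative (VV p d) => ψ (dA g.toAdd))).toAddMonoidHom := by
      refine AddMonoidHom.eq_of_eqOn_dense ((AddSubgroup.eq_top_iff' _).2 c3) ?_
      rintro _ ⟨y, rfl⟩
      exact (cp4_d0 (fun y => ψ (dA y)) y).symm
    rw [← hx n _ hθ]
    refine Eq.trans ?_ (DFunLike.congr_fun e (x n))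
    rw [← sub_eq_zero, AddMonoidHom.comp_apply, ← map_sub]
    refine hψ _ ?_
    have : x n - x n ∈ K0 p d n := by rw [sub_self]; exact zero_mem _
    exact this

end Pool.Agent.P.MP_7cb106_nt.QJ
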