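import Pool.Agent.P.MP_7cb106_nt.QJ.Iface

/-! Step CP5. -/

set_option autoImplicit false

namespace Pool.Agent.P.MP_7cb106_nt.QJ

open Filter

section
variable {p d : ℕ} [Fact p.Prime]

/-- The automorphism of the abstract group ring. -/
noncomputable def cp5_e (s : VV p d ≃ₗ[ℤ_[p]] VV p d) : A0 p d ≃+* A0 p d :=
  MonoidAlgebra.mapDomainRingEquiv (ZMod p) (AddEquiv.toMultiplicative s.toAddEquiv)

theorem cp5_d0 (s : VV p d ≃ₗ[ℤ_[p]] VV p d) (y : VV p d) : cp5_e s (d0 y) = d0 (s y) := by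
  simp [cp5_e, d0]

theorem cp5_symm (s : VV p d ≃ₗ[ℤ_[p]] VV p d) : (cp5_e s).symm = cp5_e s.symm := rfl

theorem cp5_dv (s : VV p d ≃ₗ[ℤ_[p]] VV p d) {n : ℕ} {z : VV p d} (h : Dv n z) : Dv n (s z) := by
  choose w hw using h
  have e : z = (p : ℤ_[p]) ^ n • w := funext hw
  intro i
  rw [e, map_smul]
  exact Dvd.intro _ rfl

theorem cp5_K (s : VV p d ≃ₗ[ℤ_[p]] VV p d) {n : ℕ} {x : A0 p d} (h : x ∈ K0 p d n) :
    cp5_e s x ∈ K0 p d n := by
  have : K0 p d n ≤ (K0 p d n).comap (cp5_e s) := by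
    refine Ideal.span_le.2 ?_
    rintro _ ⟨z, hz, rfl⟩
    refine Ideal.mem_comap.2 ?_
    rw [map_sub, map_one, cp5_d0]
    exact Ideal.subset_span ⟨_, cp5_dv s hz, rfl⟩
  exact this h

/-- The map on Cauchy sequences. -/
noncomputable def cp5_f (s : VV p d ≃ₗ[ℤ_[p]] VV p d) (a : AA p d) : AA p d :=
  ⟨fun n => cp5_e s (a.1 n), fun n => by rw [← map_sub]; exact cp5_K s (a.2 n)⟩

end

theorem p_CP5 (hCP0 : S_CP0) :
    S_CP5 := by
  intro p d _ s
  refine ⟨{ toFun := cp5_f s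
            invFun := cp5_f s.symm
            left_inv := fun a => Subtype.ext (funext fun n => (cp5_e s).symm_apply_apply _)
            right_inv := fun a => Subtype.ext (funext fun n => (cp5_e s).apply_symm_apply _)
            map_mul' := fun a b => Subtype.ext (funext fun n => map_mul (cp5_e s) _ _)
            map_add' := fun a b => Subtype.ext (funext fun n => map_add (cp5_e s) _ _) },
    fun y => Subtype.ext (funext fun n => cp5_d0 s y), fun n a => ⟨fun h => cp5_K s h, fun h => ?_⟩⟩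
  have h2 : (cp5_e s).symm (cp5_e s (a.1 n)) ∈ K0 p d n := cp5_K s.symm h
  rw [RingEquiv.symm_apply_apply] at h2
  exact h2

end Pool.Agent.P.MP_7cb106_nt.QJ
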