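import Pool.Agent.P.MP_7cb106_nt.QJ.Iface

/-! Step CPL. -/

set_option autoImplicit false

namespace Pool.Agent.P.MP_7cb106_nt.QJ

open Filter

theorem p_CPL (hCP1 : S_CP1) (hCP2 : S_CP2) (hCP3 : S_CP3) (hCP4 : S_CP4) (hCP5 : S_CP5) :
    S_CPL := by
  intro p d _
  obtain ⟨h1, h2, h3, h4, h5⟩ := hCP2 p d
  obtain ⟨h6, h7⟩ := hCP4 p d
  exact ⟨{ A := AA p d, K := KK p d, δ := dA, adm := hCP1 p d, δ_zero := h1, δ_add := h2,
           δ_mem := h3, dense := h4, kgen := h5, lift := hCP3 p d, func := h6, full := h7,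
           aut := hCP5 p d }⟩

end Pool.Agent.P.MP_7cb106_nt.QJ
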