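import Pool.Agent.P.MP_7cb106_nt.QJ.Iface2

/-! Step CX. -/

set_option autoImplicit false

namespace Pool.Agent.P.MP_7cb106_nt.QJ

open Filter

section
variable {p d : ℕ} [Fact p.Prime] {Γ : Type} [Group Γ] {u : UF p d Γ} {Δ : Type} [Group Δ]

lemma cx_single (V : Over u Δ) (k : Type) [Field k] (g : Γ) (c : k) :
    V.incA k (MonoidAlgebra.single g c) = MonoidAlgebra.single (V.inc g) c := by
  simp [Over.incA]

lemma cx_dom (V : Over u Δ) (k : Type) [Field k] (δ : Δ) (x : MonoidAlgebra k Γ) :
    MonoidAlgebra.domCongr k k (V.cj δ) x =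
      MonoidAlgebra.mapDomainAlgHom k k (V.cj δ).toMonoidHom x := by
  induction x using MonoidAlgebra.induction_linear with
  | zero => simp
  | add x y hx hy => rw [map_add, map_add, hx, hy]
  | single g c => simp

lemma cx_conj (V : Over u Δ) (k : Type) [Field k] (δ : Δ) (x : MonoidAlgebra k Γ) :
    MonoidAlgebra.single δ (1 : k) * V.incA k x =
      V.incA k (MonoidAlgebra.domCongr k k (V.cj δ) x) * MonoidAlgebra.single δ 1 := by
  induction x using MonoidAlgebra.induction_linear with
  | zero => simp
  | add x y hx hy => rw [map_add, map_add, map_add, mul_add, add_mul, hx, hy]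
  | single g c =>
    rw [MonoidAlgebra.domCongr_single, cx_single, cx_single, V.cj_eq,
      MonoidAlgebra.single_mul_single, MonoidAlgebra.single_mul_single]
    simp

lemma cx_eqv (V : Over u Δ) {k : Type} [Field k] {ψ w : Δ → k} (hw : V.Eqv ψ w) {z : Δ}
    (hz : z ∈ V.Z) (y : MonoidAlgebra k Δ) :
    pr w (MonoidAlgebra.single z 1 * y) = ψ z * pr w y := by
  induction y using MonoidAlgebra.induction_linear with
  | zero => simp
  | add x y hx hy => rw [mul_add, map_add, map_add, hx, hy, mul_add]
  | single g c =>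
    rw [MonoidAlgebra.single_mul_single, pr_single, pr_single, hw z hz]
    ring

end

theorem p_CX (hUF0 : S_UF0) (hD1 : S_D1) (hD2 : S_D2) (hFLX : S_FLX) (hCOREX : S_COREX) :
    S_CX := by
  intro p d hp Γ _ u Δ _ V k _ _ ψ W F hW hF
  have _ := hUF0
  obtain ⟨-, d0, d1, d2, -, d4⟩ := hD1 p d Γ u k
  obtain ⟨e1, e2, e3⟩ := hD2 p d Γ u k
  let φ : FR k (MonoidAlgebra k Γ) d :=
    ⟨Dfil u k, bb u k, d0, fun j => d1 j (j + 1) j.le_succ, d2, e1, e3, e2⟩
  obtain ⟨n1, n2, n3⟩ := (hFLX p d Γ u Δ V).1 0
  set N := (u.lev 0).map V.inc ⊔ V.Z with hN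
  have hσ : ∀ δ j x, x ∈ Dfil u k j → MonoidAlgebra.domCongr k k (V.cj δ) x ∈ Dfil u k j := by
    intro δ j x hx
    rw [cx_dom]
    exact d4 _ (V.lev δ) j x hx
  have hcomp : ∀ δ δ' (x : MonoidAlgebra k Γ), MonoidAlgebra.domCongr k k (V.cj δ)
      (MonoidAlgebra.domCongr k k (V.cj δ') x) = MonoidAlgebra.domCongr k k (V.cj (δ * δ')) x := by
    intro δ δ' x
    induction x using MonoidAlgebra.induction_linear with
    | zero => simp
    | add x y hx hy => simp only [map_add, hx, hy]
    | single g c => simp
  have hsplit : ∀ δ : Δ, ∃ h : Γ, ∃ z ∈ V.Z, δ = z * V.inc h * (δ : Δ ⧸ N).out := by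
    intro δ
    have h1 : ((δ : Δ ⧸ N).out)⁻¹ * δ ∈ N := QuotientGroup.eq.1 (QuotientGroup.out_eq' _)
    have h2 := n2.conj_mem _ h1 (δ : Δ ⧸ N).out
    obtain ⟨h, -, z, hz, e⟩ := (n3 _).1 h2
    exact ⟨h, z, hz, by rw [← e]; group⟩
  let X : FRX k (MonoidAlgebra k Γ) (MonoidAlgebra k Δ) φ (Δ ⧸ N) :=
    { f := V.incA k
      F := F
      c := fun q => Units.map (MonoidAlgebra.of k Δ) (toUnits q.out)
      σ := fun q => MonoidAlgebra.domCongr k k (V.cj q.out)
      zero := hF.zero
      anti := hF.anti
      mul := hF.mul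
      map := fun j x hx => hF.dx j (Submodule.subset_span
        ⟨1, x, hx, by rw [← MonoidAlgebra.one_def, mul_one]⟩)
      σmem := fun q j x => ⟨hσ _ j x, fun h => by
        have := hσ q.out⁻¹ j _ h
        rw [hcomp, inv_mul_cancel, map_one] at this
        have e : MonoidAlgebra.domCongr k k (1 : MulAut Γ) x = x := by
          rw [show (1 : MulAut Γ) = MulEquiv.refl Γ from rfl, MonoidAlgebra.domCongr_refl]
          rfl
        rwa [e] at this⟩
      cσ := fun q x => cx_conj V k q.out x
      σmul := fun q q' => by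
        obtain ⟨h, z, hz, e⟩ := hsplit (q.out * q'.out)
        rw [QuotientGroup.mk_mul, QuotientGroup.out_eq', QuotientGroup.out_eq'] at e
        refine ⟨Units.map (MonoidAlgebra.of k Γ) (toUnits h), fun x => ?_⟩
        rw [hcomp, e]
        induction x using MonoidAlgebra.induction_linear with
        | zero => simp
        | add x y hx hy => simp only [map_add, hx, hy, mul_add, add_mul]
        | single g c =>
          have e2 : V.cj (z * V.inc h * (q * q').out) g = h * V.cj (q * q').out g * h⁻¹ := by
            apply V.inj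
            rw [V.cj_eq, map_mul, map_mul, map_inv, V.cj_eq, mul_assoc z, mul_assoc z, mul_assoc z,
              V.cen z hz]
            group
          rw [MonoidAlgebra.domCongr_single, MonoidAlgebra.domCongr_single, e2, ← map_inv]
          simp [MonoidAlgebra.single_mul_single]
      gen := fun j => (hF.gen j).trans (sup_le (Submodule.span_le.2 (by
        rintro _ ⟨δ, x, hx, rfl⟩
        obtain ⟨h, z, hz, e⟩ := hsplit δ
        have hx' : x * MonoidAlgebra.single h 1 ∈ Dfil u k j :=
          d2 j 0 _ _ hx (by rw [d0]; trivial)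
        have e3 : V.incA k x * MonoidAlgebra.single δ 1 = MonoidAlgebra.single z 1 *
            (V.incA k (x * MonoidAlgebra.single h 1) *
              MonoidAlgebra.single (δ : Δ ⧸ N).out 1) := by
          have hc : ∀ y : MonoidAlgebra k Δ,
              MonoidAlgebra.single z (1 : k) * y = y * MonoidAlgebra.single z 1 := by
            intro y
            induction y using MonoidAlgebra.induction_linear with
            | zero => simp
            | add x y hx hy => rw [mul_add, add_mul, hx, hy]
            | single g c => simp [MonoidAlgebra.single_mul_single, V.cen z hz]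
          rw [hc, map_mul, cx_single, mul_assoc, mul_assoc, MonoidAlgebra.single_mul_single,
            MonoidAlgebra.single_mul_single, ← V.cen z hz, ← mul_assoc, ← V.cen z hz, ← e]
          simp
        refine Submodule.mem_sup.2 ⟨ψ z • (V.incA k (x * MonoidAlgebra.single h 1) *
          MonoidAlgebra.single (δ : Δ ⧸ N).out 1), Submodule.smul_mem _ _
            (Submodule.subset_span ⟨(δ : Δ ⧸ N), _, hx', rfl⟩), _, ?_, add_sub_cancel _ _⟩
        refine hF.perp _ _ fun w hw => ?_
        rw [map_sub, e3, cx_eqv V (hW.eqv w hw) hz, map_smul, smul_eq_mul, sub_self]) |>.trans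
          le_rfl) le_sup_right)
      ninf := hF.ninf }
  exact hCOREX p k _ _ d φ (Δ ⧸ N) X

end Pool.Agent.P.MP_7cb106_nt.QJ
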