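import Pool.Agent.P.MP_7cb106_nt.QJ.Iface3

/-! Step CZX. -/

set_option autoImplicit false

namespace Pool.Agent.P.MP_7cb106_nt.QJ

open Filter

lemma czx_comm (k A G : Type) [Field k] [CommRing A] [Algebra k A] [Group G] [Finite G]
    [MulSemiringAction G A] [SMulCommClass G k A] {d : ℕ} (b : Fin d → A)
    (hb : Algebra.adjoin k (Set.range b) = ⊤)
    (hs : ∀ (g : G) i, g • b i ∈ Ideal.span (Set.range b)) (hn : ∃ i, ¬ IsNilpotent (b i)) :
    ∃ Z : Subalgebra k A, (∀ z ∈ Z, ∀ g : G, g • z = z) ∧ IsNoetherianRing Z ∧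
      Module.Finite Z A ∧ ∃ P ∈ minimalPrimes Z, ∀ m : ℕ,
        ∃ z : Z, z ∉ P ∧ (z : A) ∈ Ideal.span (Set.range fun i => b i ^ m) := by
  classical
  let Z : Subalgebra k A := FixedPoints.subalgebra k A G
  have hZ : ∀ z, z ∈ Z ↔ ∀ g : G, g • z = z := fun z => Iff.rfl
  have hfg : (⊤ : Subalgebra k A).FG := by
    rw [← hb]
    exact Subalgebra.fg_def.2 ⟨_, Set.finite_range b, rfl⟩
  have : Algebra.FiniteType k A := ⟨hfg⟩
  have : Algebra.IsInvariant Z A G := ⟨fun x hx => ⟨⟨x, hx⟩, rfl⟩⟩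
  have : Algebra.IsIntegral Z A := Algebra.IsInvariant.isIntegral Z A G
  have : Algebra.FiniteType Z A := Algebra.FiniteType.of_restrictScalars_finiteType k Z A
  have hfin : Module.Finite Z A := Algebra.IsIntegral.finite
  have : Algebra.FiniteType k Z := ⟨fg_of_fg_of_fg k Z A hfg hfin.1 Subtype.val_injective⟩
  refine ⟨Z, fun z hz => hz, Algebra.FiniteType.isNoetherianRing k Z, hfin, ?_⟩
  obtain ⟨i, hi⟩ := hn
  rw [nilpotent_iff_mem_prime] at hi
  push Not at hi
  obtain ⟨Q, hQ, hi⟩ := hi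
  have := Fintype.ofFinite G
  have hx : ∃ x ∈ Ideal.span (Set.range b), ∀ g : G, g • x ∉ Q := by
    by_contra hc
    push Not at hc
    have h1 : ((Ideal.span (Set.range b) : Ideal A) : Set A) ⊆
        ⋃ g ∈ (Set.univ : Set G), (Q.comap (MulSemiringAction.toRingHom G A g) : Ideal A) := by
      intro x hx
      obtain ⟨g, hg⟩ := hc x hx
      simp only [Set.mem_iUnion]
      exact ⟨g, trivial, hg⟩
    obtain ⟨g, -, hg⟩ := (Ideal.subset_union_prime_finite Set.finite_univ (1 : G) 1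
      (fun g _ _ _ => Ideal.comap_isPrime _ Q)).1 h1
    have h2 : g • (g⁻¹ • b i) ∈ Q := hg (hs g⁻¹ i)
    rw [smul_inv_smul] at h2
    exact hi h2
  obtain ⟨x, hxI, hx⟩ := hx
  let z : Z := ⟨∏ g : G, g • x, fun g => Finset.smul_prod_perm x g⟩
  have hzQ : (z : A) ∉ Q := by
    intro h
    obtain ⟨g, -, hg⟩ := (Ideal.IsPrime.prod_mem_iff (hp := hQ)).1 h
    exact hx g hg
  have hzI : (z : A) ∈ Ideal.span (Set.range b) := by
    have : (1 : G) • x ∣ ∏ g : G, g • x := Finset.dvd_prod_of_mem _ (Finset.mem_univ 1)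
    rw [one_smul] at this
    exact Ideal.mem_of_dvd _ this hxI
  have : (Q.comap Z.val).IsPrime := Ideal.comap_isPrime _ Q
  obtain ⟨P, hP, hPQ⟩ := Ideal.exists_minimalPrimes_le (I := ⊥) (J := Q.comap Z.val) bot_le
  refine ⟨P, hP, fun m => ?_⟩
  have h3 : Ideal.span (Set.range b) ≤ (Ideal.span (Set.range fun i => b i ^ m)).radical := by
    rw [Ideal.span_le]
    rintro _ ⟨j, rfl⟩
    exact ⟨m, Ideal.subset_span ⟨j, rfl⟩⟩
  obtain ⟨N, hN⟩ := h3 hzI
  refine ⟨z ^ N, fun h => hzQ (hQ.mem_of_pow_mem N ?_), by simpa using hN⟩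
  simpa using hPQ h

/-- Conjugation by a unit. -/
def czx_conj (k : Type) {B : Type} [Field k] [Ring B] [Algebra k B] (c : Bˣ) : B →ₐ[k] B where
  toFun x := c * x * ↑c⁻¹
  map_one' := by simp
  map_mul' x y := by simp [mul_assoc]
  map_zero' := by simp
  map_add' x y := by rw [mul_add, add_mul]
  commutes' r := by rw [← Algebra.commutes, mul_assoc, Units.mul_inv, mul_one]

theorem p_CZX :
    S_CZX := by
  intro k B _ _ _ d Qg _ _ β u h
  classical
  let A : Subalgebra k B := Algebra.adjoin k (Set.range β)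
  have hcomm : ∀ x ∈ A, ∀ y ∈ A, x * y = y * x := by
    have := Algebra.isMulCommutative_adjoin k (s := Set.range β) (by
      rintro _ ⟨i, rfl⟩ _ ⟨l, rfl⟩; exact h.comm i l)
    intro x hx y hy
    exact congrArg Subtype.val (this.is_comm.comm (⟨x, hx⟩ : A) ⟨y, hy⟩)
  let _ : CommRing A := { (inferInstance : Ring A) with
    mul_comm := fun x y => Subtype.ext (hcomm _ x.2 _ y.2) }
  have hsp : Submodule.span k (Set.range β) ≤ A.toSubmodule := Algebra.span_le_adjoin k _
  have hA : ∀ q, ∀ x ∈ A, czx_conj k (u q) x ∈ A := fun q => by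
    have : A ≤ A.comap (czx_conj k (u q)) := Algebra.adjoin_le (by
      rintro _ ⟨i, rfl⟩; exact hsp (h.conj q i))
    exact fun x hx => this hx
  have hmul : ∀ q q', ∀ x ∈ A, czx_conj k (u (q * q')) x =
      czx_conj k (u q) (czx_conj k (u q') x) := fun q q' => by
    have : Set.EqOn (czx_conj k (u (q * q'))) ((czx_conj k (u q)).comp (czx_conj k (u q'))) A :=
      AlgHom.eqOn_adjoin_iff.2 (by rintro _ ⟨i, rfl⟩; exact (h.mul q q' i).symm)
    exact fun x hx => this hx
  have hone : ∀ x ∈ A, czx_conj k (u 1) x = x := fun x hx => by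
    have h1 := hmul 1 1 x hx
    rw [mul_one] at h1
    have h2 : (u 1 : B) * x * ↑(u 1)⁻¹ = u 1 * czx_conj k (u 1) x * ↑(u 1)⁻¹ := h1
    rw [Units.mul_left_inj, Units.mul_right_inj] at h2
    exact h2.symm
  let _ : MulSemiringAction Qg A :=
    { smul := fun q x => ⟨czx_conj k (u q) x, hA q _ x.2⟩
      one_smul := fun x => Subtype.ext (hone _ x.2)
      mul_smul := fun q q' x => Subtype.ext (hmul q q' _ x.2)
      smul_zero := fun q => Subtype.ext (map_zero (czx_conj k (u q)))
      smul_add := fun q x y => Subtype.ext (map_add (czx_conj k (u q)) _ _)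
      smul_one := fun q => Subtype.ext (map_one (czx_conj k (u q)))
      smul_mul := fun q x y => Subtype.ext (map_mul (czx_conj k (u q)) _ _) }
  have hsm : ∀ (q : Qg) (x : A), ((q • x : A) : B) = u q * x * ↑(u q)⁻¹ := fun q x => rfl
  have : SMulCommClass Qg k A := ⟨fun q c x => Subtype.ext (map_smul (czx_conj k (u q)) c (x : B))⟩
  let b : Fin d → A := fun i => ⟨β i, Algebra.subset_adjoin ⟨i, rfl⟩⟩
  have hb : Algebra.adjoin k (Set.range b) = ⊤ := by
    have : Set.range b = ((↑) : A → B) ⁻¹' Set.range β := by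
      ext x
      constructor
      · rintro ⟨i, rfl⟩; exact ⟨i, rfl⟩
      · rintro ⟨i, hi⟩; exact ⟨i, Subtype.ext hi⟩
    rw [this]
    exact Algebra.adjoin_adjoin_coe_preimage
  have hs : ∀ (q : Qg) i, q • b i ∈ Ideal.span (Set.range b) := fun q i => by
    obtain ⟨c, hc⟩ := (Submodule.mem_span_range_iff_exists_fun k).1 (h.conj q i)
    have : q • b i = ∑ l, c l • b l := Subtype.ext (by
      rw [hsm]
      simpa using hc.symm)
    rw [this]
    exact Ideal.sum_mem _ fun l _ => by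
      rw [Algebra.smul_def]
      exact Ideal.mul_mem_left _ _ (Ideal.subset_span ⟨l, rfl⟩)
  have hn : ∃ i, ¬ IsNilpotent (b i) := by
    obtain ⟨i, hi⟩ := h.nnil
    exact ⟨i, fun hh => hi (hh.map A.val)⟩
  obtain ⟨Z, hZ, hN, hF, P, hP, hz⟩ := czx_comm k A Qg b hb hs hn
  have hcen : ∀ (z : Z) (y : B), ((z : A) : B) * y = y * ((z : A) : B) := fun z y => by
    have hy : y ∈ Submodule.span k
        {y | ∃ q a, a ∈ Algebra.adjoin k (Set.range β) ∧ y = a * u q} := by
      rw [h.gen]; trivial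
    induction hy using Submodule.span_induction with
    | mem _ hh =>
      obtain ⟨q, a, ha, rfl⟩ := hh
      have h1 : (u q : B) * ((z : A) : B) * ↑(u q)⁻¹ = ((z : A) : B) := by
        rw [← hsm, hZ _ z.2]
      rw [Units.mul_inv_eq_iff_eq_mul] at h1
      rw [mul_assoc, h1, ← mul_assoc, ← mul_assoc, hcomm _ ha _ (z : A).2]
    | zero => simp
    | add _ _ _ _ h1 h2 => rw [mul_add, add_mul, h1, h2]
    | smul c _ _ h1 => rw [mul_smul_comm, smul_mul_assoc, h1]
  let _ : Algebra Z B := RingHom.toAlgebra' (A.val.toRingHom.comp Z.val.toRingHom) hcen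
  have halg : ∀ z : Z, algebraMap Z B z = ((z : A) : B) := fun z => rfl
  have hsz : ∀ (z : Z) (y : B), z • y = ((z : A) : B) * y := fun z y => rfl
  refine ⟨Z, inferInstance, inferInstance, fun x y hxy => Subtype.ext (Subtype.ext hxy), hN, ?_,
    P, hP, fun m => ?_⟩
  · have := Fintype.ofFinite Qg
    let L : (Qg → A) →ₗ[Z] B :=
      { toFun := fun f => ∑ q, (f q : B) * u q
        map_add' := fun f g => by simp [add_mul, Finset.sum_add_distrib]
        map_smul' := fun z f => by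
          rw [RingHom.id_apply, hsz, Finset.mul_sum]
          exact Finset.sum_congr rfl fun q _ => by rw [← mul_assoc]; rfl }
    refine Module.Finite.of_surjective L fun y => ?_
    have hy : y ∈ Submodule.span k
        {y | ∃ q a, a ∈ Algebra.adjoin k (Set.range β) ∧ y = a * u q} := by
      rw [h.gen]; trivial
    induction hy using Submodule.span_induction with
    | mem _ hh =>
      obtain ⟨q, a, ha, rfl⟩ := hh
      refine ⟨Pi.single q ⟨a, ha⟩, ?_⟩
      change ∑ q', ((Pi.single q (⟨a, ha⟩ : A) : Qg → A) q' : B) * u q' = _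
      rw [Finset.sum_eq_single q]
      · simp
      · intro q' _ hq; simp [hq]
      · simp
    | zero => exact ⟨0, map_zero L⟩
    | add _ _ _ _ h1 h2 =>
      obtain ⟨f, rfl⟩ := h1
      obtain ⟨g, rfl⟩ := h2
      exact ⟨f + g, map_add L f g⟩
    | smul c _ _ h1 =>
      obtain ⟨f, rfl⟩ := h1
      refine ⟨c • f, ?_⟩
      change ∑ q, ((c • f) q : B) * u q = c • ∑ q, (f q : B) * u q
      simp [Finset.smul_sum]
  · obtain ⟨z, hzP, hz⟩ := hz m
    refine ⟨z, hzP, ?_⟩
    have : Ideal.span (Set.range fun i => b i ^ m) ≤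
        (Ideal.span (Set.range fun i => β i ^ m)).comap A.val := by
      rw [Ideal.span_le]
      rintro _ ⟨j, rfl⟩
      exact Ideal.subset_span ⟨j, by simp [b]⟩
    exact this hz

end Pool.Agent.P.MP_7cb106_nt.QJ
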