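import Pool.Agent.P.MP_7cb106_nt.QJ.Iface

/-! Step D1. -/

set_option autoImplicit false

namespace Pool.Agent.P.MP_7cb106_nt.QJ

open Filter

section
variable {p d : ℕ} [Fact p.Prime] {Γ : Type} [Group Γ] (u : UF p d Γ) (k : Type) [Field k]

theorem d1_left (a : ℕ) (x y : MonoidAlgebra k Γ) (hy : y ∈ Jd u k a) : x * y ∈ Jd u k a := by
  induction hy using Submodule.span_induction with
  | mem y hy =>
    obtain ⟨g, h, hh, rfl⟩ := hy
    induction x using MonoidAlgebra.induction_on with
    | of m =>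
      refine Submodule.subset_span ⟨m * g, h, hh, ?_⟩
      simp [mul_sub, MonoidAlgebra.single_mul_single, mul_assoc]
    | add x x' h1 h2 => rw [add_mul]; exact add_mem h1 h2
    | smul r x h1 => rw [smul_mul_assoc]; exact Submodule.smul_mem _ _ h1
  | zero => simp
  | add y y' _ _ h1 h2 => rw [mul_add]; exact add_mem h1 h2
  | smul r y _ h1 => rw [mul_smul_comm]; exact Submodule.smul_mem _ _ h1

theorem d1_right (a : ℕ) (hn : (u.lev a).Normal) (y z : MonoidAlgebra k Γ) (hy : y ∈ Jd u k a) :
    y * z ∈ Jd u k a := by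
  induction hy using Submodule.span_induction with
  | mem y hy =>
    obtain ⟨g, h, hh, rfl⟩ := hy
    induction z using MonoidAlgebra.induction_on with
    | of m =>
      refine Submodule.subset_span ⟨g * m, m⁻¹ * h * m, hn.conj_mem' h hh m, ?_⟩
      simp [sub_mul, MonoidAlgebra.single_mul_single, mul_assoc]
    | add x x' h1 h2 => rw [mul_add]; exact add_mem h1 h2
    | smul r x h1 => rw [mul_smul_comm]; exact Submodule.smul_mem _ _ h1
  | zero => simp
  | add y y' _ _ h1 h2 => rw [add_mul]; exact add_mem h1 h2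
  | smul r y _ h1 => rw [smul_mul_assoc]; exact Submodule.smul_mem _ _ h1

theorem d1_top (L : List ℕ) : ⊤ * ((L.map (Jd u k)).prod * ⊤) ≤ (L.map (Jd u k)).prod * ⊤ := by
  rcases L with _ | ⟨a, L⟩
  · simp
  · rw [List.map_cons, List.prod_cons, mul_assoc, ← mul_assoc ⊤]
    exact mul_le_mul' (Submodule.mul_le.2 fun x _ y hy => d1_left u k a x y hy) le_rfl

theorem d1_le (j : ℕ) (L : List ℕ) (h : j ≤ (L.map (fun a => p ^ a)).sum) :
    (L.map (Jd u k)).prod * ⊤ ≤ Dfil u k j :=
  le_iSup₂_of_le (f := fun (L : List ℕ) (_ : j ≤ (L.map (fun a => p ^ a)).sum) =>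
    (L.map (Jd u k)).prod * ⊤) L h le_rfl

theorem d1_map (s : Γ →* Γ) (hs : ∀ a g, g ∈ u.lev a → s g ∈ u.lev a) (L : List ℕ) :
    ((L.map (Jd u k)).prod * ⊤).map (MonoidAlgebra.mapDomainAlgHom k k s).toLinearMap ≤
      (L.map (Jd u k)).prod * ⊤ := by
  induction L with
  | nil => simp
  | cons a L ih =>
    rw [List.map_cons, List.prod_cons, mul_assoc, Submodule.map_mul]
    refine mul_le_mul' ?_ ih
    rw [Jd, Submodule.map_span_le]
    rintro _ ⟨g, h, hh, rfl⟩
    exact Submodule.subset_span ⟨s g, s h, hs a h hh, by rw [map_sub]; simp⟩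

end

theorem p_D1 (hUF0 : S_UF0) :
    S_D1 := by
  intro p d _ Γ _ u k _
  refine ⟨fun a x y z hy => d1_right u k a ((hUF0 p d Γ u).1 a) _ z (d1_left u k a x y hy),
    top_unique ?_, fun i j hij => iSup₂_le fun L h => d1_le u k i L (hij.trans h),
    fun i j x y hx hy => ?_, fun a => ?_, fun s hs j x hx => ?_⟩
  · simpa using d1_le u k 0 [] (by simp)
  · refine (?_ : Dfil u k i * Dfil u k j ≤ _) (Submodule.mul_mem_mul hx hy)
    rw [Dfil, Submodule.iSup_mul]
    refine iSup_le fun L => ?_
    rw [Submodule.iSup_mul]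
    refine iSup_le fun h => ?_
    rw [Dfil, Submodule.mul_iSup]
    refine iSup_le fun L' => ?_
    rw [Submodule.mul_iSup]
    refine iSup_le fun h' => le_trans ?_ (d1_le u k (i + j) (L ++ L') ?_)
    · rw [List.map_append, List.prod_append, mul_assoc, mul_assoc]
      exact mul_le_mul' le_rfl (d1_top u k L')
    · rw [List.map_append, List.sum_append]
      exact add_le_add h h'
  · refine le_trans (fun x hx => ?_) (d1_le u k _ [a] (by simp))
    simpa using Submodule.mul_mem_mul hx (Submodule.mem_top (x := 1))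
  · refine (?_ : (Dfil u k j).map (MonoidAlgebra.mapDomainAlgHom k k s).toLinearMap ≤ _)
      (Submodule.mem_map_of_mem hx)
    rw [Submodule.map_le_iff_le_comap]
    exact iSup₂_le fun L h =>
      Submodule.map_le_iff_le_comap.1 ((d1_map u k s hs L).trans (d1_le u k j L h))

end Pool.Agent.P.MP_7cb106_nt.QJ
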