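import Pool.Agent.P.MP_7cb106_nt.QJ.Iface

/-! Step D3. -/

set_option autoImplicit false

namespace Pool.Agent.P.MP_7cb106_nt.QJ

open Filter

theorem p_D3 (hUF0 : S_UF0) (hD1 : S_D1) (hD3A : S_D3A) :
    S_D3 := by
  intro p d hp Γ _ u k _ _ n
  have two := (hD1 p d Γ u k).1
  have an : ∀ a b, a ≤ b → Jd u k b ≤ Jd u k a := fun a b h =>
    Submodule.span_mono fun x ⟨g, t, ht, e⟩ => ⟨g, t, (hUF0 p d Γ u).2.1 a b h ht, e⟩
  have l1 : ∀ {A : Submodule k (MonoidAlgebra k Γ)} (B : Submodule k (MonoidAlgebra k Γ)),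
      A ≤ Jd u k n → A * B ≤ Jd u k n := fun B h =>
    Submodule.mul_le.2 fun x hx y _ => by simpa using two n 1 x y (h hx)
  have l2 : ∀ (A : Submodule k (MonoidAlgebra k Γ)) {B : Submodule k (MonoidAlgebra k Γ)},
      B ≤ Jd u k n → A * B ≤ Jd u k n := fun A B h =>
    Submodule.mul_le.2 fun x _ y hy => by simpa using two n x y 1 (h hy)
  have it : ∀ m, ∃ s, Jd u k 0 ^ s ≤ Jd u k m := fun m => by
    induction m with
    | zero => exact ⟨1, (pow_one _).le⟩
    | succ m ih =>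
      obtain ⟨s, hs⟩ := ih
      obtain ⟨t, -, ht⟩ := hD3A p d Γ u k m
      exact ⟨s * t, by rw [pow_mul]; exact (pow_le_pow_left' hs t).trans ht⟩
  have big : ∀ L : List ℕ, (∃ a ∈ L, n ≤ a) → (L.map (Jd u k)).prod ≤ Jd u k n := fun L h => by
    induction L with
    | nil => simp at h
    | cons b L ih =>
      rw [List.map_cons, List.prod_cons]
      obtain ⟨a, ha, h⟩ := h
      rcases List.mem_cons.1 ha with rfl | ha
      · exact l1 _ (an _ _ h)
      · exact l2 _ (ih ⟨a, ha, h⟩)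
  have len : ∀ L : List ℕ, (L.map (Jd u k)).prod ≤ Jd u k 0 ^ L.length := fun L => by
    induction L with
    | nil => simp
    | cons b L ih =>
      rw [List.map_cons, List.prod_cons, List.length_cons, pow_succ']
      exact mul_le_mul' (an _ _ b.zero_le) ih
  obtain ⟨s, hs⟩ := it n
  refine ⟨s * p ^ n, iSup₂_le fun L hL => l1 _ ?_⟩
  by_cases h : ∃ a ∈ L, n ≤ a
  · exact big L h
  · have h1 := List.sum_le_card_nsmul (L.map fun a => p ^ a) (p ^ n) fun x hx => by
      obtain ⟨a, ha, rfl⟩ := List.mem_map.1 hx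
      exact Nat.pow_le_pow_right hp.out.pos (le_of_not_ge fun e => h ⟨a, ha, e⟩)
    rw [List.length_map, smul_eq_mul] at h1
    obtain ⟨m, hm⟩ := Nat.exists_eq_add_of_le
      (Nat.le_of_mul_le_mul_right (hL.trans h1) (pow_pos hp.out.pos n))
    refine (len L).trans ?_
    rw [hm, pow_add]
    exact l1 _ hs

end Pool.Agent.P.MP_7cb106_nt.QJ
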