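import Pool.Agent.P.MP_7cb106_nt.QJ.Iface

/-! Step D3A. -/

set_option autoImplicit false

namespace Pool.Agent.P.MP_7cb106_nt.QJ

open Filter

theorem d3a_left {S : Type} [Ring S] (I : Ideal (Subring.center S)) (s : S) {y : S}
    (hy : y ∈ I • (⊤ : Submodule (Subring.center S) S)) :
    s * y ∈ I • (⊤ : Submodule (Subring.center S) S) := by
  refine Submodule.smul_induction_on (p := fun y => s * y ∈ I • (⊤ : Submodule (Subring.center S) S))
    hy (fun r hr n _ => ?_) fun x y h1 h2 => ?_
  · rw [mul_smul_comm]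
    exact Submodule.smul_mem_smul hr Submodule.mem_top
  · rw [mul_add]
    exact add_mem h1 h2

theorem d3a_mul {S : Type} [Ring S] (I I' : Ideal (Subring.center S)) {x y : S}
    (hx : x ∈ I • (⊤ : Submodule (Subring.center S) S))
    (hy : y ∈ I' • (⊤ : Submodule (Subring.center S) S)) :
    x * y ∈ (I * I') • (⊤ : Submodule (Subring.center S) S) := by
  refine Submodule.smul_induction_on
    (p := fun x => x * y ∈ (I * I') • (⊤ : Submodule (Subring.center S) S))
    hx (fun r hr n _ => ?_) fun x y h1 h2 => ?_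
  · rw [smul_mul_assoc, Submodule.mul_smul]
    exact Submodule.smul_mem_smul hr (d3a_left I' n hy)
  · rw [add_mul]
    exact add_mem h1 h2

theorem d3a_pow {k R S : Type} [Field k] [Ring R] [Algebra k R] [Ring S] (π : R →+* S)
    (J : Submodule k R) (I : Ideal (Subring.center S))
    (h : ∀ x ∈ J, π x ∈ I • (⊤ : Submodule (Subring.center S) S)) (n : ℕ) (x : R)
    (hx : x ∈ J ^ n) : π x ∈ (I ^ n) • (⊤ : Submodule (Subring.center S) S) := by
  induction hx using Submodule.pow_induction_on_left' with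
  | algebraMap r => simp
  | add x y i _ _ h1 h2 => rw [map_add]; exact add_mem h1 h2
  | mem_mul m hm i x _ h1 =>
    rw [map_mul, pow_succ']
    exact d3a_mul I _ (h m hm) h1

theorem d3a_main (hUF0 : S_UF0) {p d : ℕ} [Fact p.Prime] {Γ : Type} [Group Γ] (u : UF p d Γ)
    {k : Type} [Field k] [CharP k p] (a : ℕ) {S : Type} [Ring S] (π : MonoidAlgebra k Γ →+* S)
    (hs : Function.Surjective π) (hk : ∀ x, π x = 0 ↔ x ∈ Jd u k (a + 1)) :
    ∃ s, 0 < s ∧ Jd u k a ^ s ≤ Jd u k (a + 1) := by
  obtain ⟨-, -, -, h4, h5⟩ := hUF0 p d Γ u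
  have : CharP (MonoidAlgebra k Γ) p :=
    charP_of_injective_algebraMap (algebraMap k (MonoidAlgebra k Γ)).injective p
  let e : Γ →* S := π.toMonoidHom.comp (MonoidAlgebra.of k Γ)
  have he : ∀ g, e g = π (MonoidAlgebra.single g 1) := fun _ => rfl
  have e1 : ∀ h ∈ u.lev (a + 1), e h = 1 := fun h hh => by
    rw [← map_one e, he, he, ← sub_eq_zero, ← map_sub, hk]
    refine Submodule.subset_span ⟨1, h, hh, ?_⟩
    rw [one_mul]
  have hc : ∀ g ∈ u.lev a, e g - 1 ∈ Subring.center S := fun g hg => by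
    refine sub_mem (Subring.mem_center_iff.2 fun s => ?_) (one_mem _)
    obtain ⟨x, rfl⟩ := hs s
    induction x using MonoidAlgebra.induction_on with
    | of m =>
      have h2 := e1 _ (u.comm a g m hg)
      have h3 : e (m * g) = e (g * m) := by
        rw [show m * g = m * g * m⁻¹ * g⁻¹ * (g * m) by group, map_mul, h2, one_mul]
      rw [map_mul, map_mul] at h3
      exact h3
    | add x y i1 i2 => rw [map_add, add_mul, mul_add, i1, i2]
    | smul r x i1 =>
      rw [he, ← map_mul, ← map_mul, smul_mul_assoc, mul_smul_comm, Algebra.smul_def,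
        Algebra.smul_def, map_mul, map_mul, map_mul, map_mul, ← he, i1]
  let z : Fin d → Subring.center S := fun i => ⟨_, hc _ (h5 a i)⟩
  let I : Ideal (Subring.center S) := Ideal.span (Set.range z)
  have hz : ∀ i, z i ^ p = 0 := fun i => Subtype.ext (by
    have h2 : π ((MonoidAlgebra.single (u.gen i ^ p ^ a) 1 - 1) ^ p) = 0 := by
      rw [sub_pow_char_of_commute p (Commute.one_right _), one_pow, MonoidAlgebra.single_pow,
        one_pow, map_sub, ← he, ← pow_mul, ← pow_succ, e1 _ (h5 (a + 1) i), map_one, sub_self]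
    rw [map_pow, map_sub, map_one] at h2
    exact h2)
  obtain ⟨n, hn⟩ : IsNilpotent I :=
    (Ideal.FG.isNilpotent_iff_le_nilradical (Submodule.fg_span (Set.finite_range z))).2
      (Ideal.span_le.2 (by rintro _ ⟨i, rfl⟩; exact ⟨p, hz i⟩))
  let A : Submonoid Γ :=
    { carrier := {g | e g - 1 ∈ I • (⊤ : Submodule (Subring.center S) S)}
      one_mem' := by simp
      mul_mem' := fun {x y} hx hy => by
        have h2 := add_mem (d3a_left I (e x) hy) hx
        rwa [mul_sub, mul_one, sub_add_sub_cancel, ← map_mul] at h2 }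
  have hA : ∀ g ∈ u.lev a, g ∈ A := fun g hg => by
    obtain ⟨m, hm⟩ := h4 a g hg
    rw [← mul_inv_cancel_left (List.ofFn fun i => (u.gen i ^ p ^ a) ^ m i).prod g]
    refine mul_mem (list_prod_mem fun x hx => ?_) ?_
    · obtain ⟨i, rfl⟩ := (List.mem_ofFn' _ _).1 hx
      refine pow_mem ?_ _
      have h2 : z i • (1 : S) ∈ I • (⊤ : Submodule (Subring.center S) S) :=
        Submodule.smul_mem_smul (Ideal.subset_span ⟨i, rfl⟩) Submodule.mem_top
      rw [Subring.smul_def, smul_eq_mul, mul_one] at h2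
      exact h2
    · change e _ - 1 ∈ I • (⊤ : Submodule (Subring.center S) S)
      rw [e1 _ hm, sub_self]
      exact zero_mem _
  have hJ : ∀ x ∈ Jd u k a, π x ∈ I • (⊤ : Submodule (Subring.center S) S) := fun x hx => by
    induction hx using Submodule.span_induction with
    | mem x hx =>
      obtain ⟨g, h, hh, rfl⟩ := hx
      have h2 := d3a_left I (e g) (hA h hh)
      rwa [mul_sub, mul_one, ← map_mul, he, he, ← map_sub] at h2
    | zero => rw [map_zero]; exact zero_mem _
    | add x y _ _ i1 i2 => rw [map_add]; exact add_mem i1 i2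
    | smul c x _ i1 => rw [Algebra.smul_def c x, map_mul]; exact d3a_left I _ i1
  refine ⟨n + 1, Nat.succ_pos n, fun x hx => ?_⟩
  have h2 := d3a_pow π _ I hJ (n + 1) x hx
  rw [pow_succ, hn, zero_mul, Ideal.zero_eq_bot, Submodule.bot_smul, Submodule.mem_bot] at h2
  exact (hk x).1 h2

theorem p_D3A (hUF0 : S_UF0) (hD1 : S_D1) :
    S_D3A := by
  intro p d _ Γ _ u k _ _ a
  have h1 := (hD1 p d Γ u k).1
  let T : Ideal (MonoidAlgebra k Γ) :=
    { carrier := Jd u k (a + 1)
      add_mem' := fun h h' => add_mem h h'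
      zero_mem' := zero_mem _
      smul_mem' := fun c x hx => by
        have := h1 (a + 1) c x 1 hx
        rwa [mul_one] at this }
  have : T.IsTwoSided := ⟨fun b hx => by
    have := h1 (a + 1) 1 _ b hx
    rwa [one_mul] at this⟩
  exact d3a_main hUF0 u a (Ideal.Quotient.mk T) Ideal.Quotient.mk_surjective
    fun x => Ideal.Quotient.eq_zero_iff_mem

end Pool.Agent.P.MP_7cb106_nt.QJ
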