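import Pool.Agent.P.MP_7cb106_nt.QJ.Iface

/-! Step DCC. -/

set_option autoImplicit false

namespace Pool.Agent.P.MP_7cb106_nt.QJ

open Filter

section
variable {k R : Type} [Field k] [CommRing R] [Algebra k R] {d : ℕ}

/-- The map `X i ↦ b i * T`. -/
noncomputable def dcc_ph (k : Type) {R : Type} [Field k] [CommRing R] [Algebra k R] {d : ℕ}
    (b : Fin d → R) : MvPolynomial (Fin d) k →ₐ[k] Polynomial R :=
  MvPolynomial.aeval fun i => Polynomial.monomial 1 (b i)

/-- The ideal of relations of the graded ring. -/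
noncomputable def dcc_I (φ : FR k R d) : Ideal (MvPolynomial (Fin d) k) where
  carrier := {Q | ∀ i, (dcc_ph k φ.b Q).coeff i ∈ φ.F (i + 1)}
  zero_mem' := fun i => by simp
  add_mem' := fun h h' i => by
    rw [map_add, Polynomial.coeff_add]
    exact add_mem (h i) (h' i)
  smul_mem' := fun P => by
    induction P using MvPolynomial.induction_on with
    | C a =>
      intro Q h i
      rw [smul_eq_mul, MvPolynomial.C_mul', map_smul, Polynomial.coeff_smul]
      exact Submodule.smul_mem _ _ (h i)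
    | add P P' h1 h2 =>
      intro Q h i
      rw [add_smul, map_add, Polynomial.coeff_add]
      exact add_mem (h1 h i) (h2 h i)
    | mul_X P j h1 =>
      intro Q h
      rw [mul_smul]
      refine h1 fun i => ?_
      rw [smul_eq_mul, map_mul, dcc_ph, MvPolynomial.aeval_X, ← Polynomial.C_mul_X_eq_monomial,
        mul_assoc, Polynomial.coeff_C_mul]
      cases i with
      | zero => simp
      | succ i =>
        rw [Polynomial.coeff_X_mul, add_comm (i + 1) 1]
        exact φ.mul _ _ _ _ (φ.bmem j) (h i)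

theorem dcc_mon (b : Fin d → R) (j : ℕ) (x : R) (hx : x ∈ Mon k b j) :
    ∃ Q, dcc_ph k b Q = Polynomial.monomial j x := by
  unfold Mon at hx
  induction hx using Submodule.pow_induction_on_left' with
  | algebraMap r => exact ⟨algebraMap k _ r, by rw [AlgHom.commutes]; rfl⟩
  | add x y i _ _ h1 h2 =>
    obtain ⟨P, e1⟩ := h1
    obtain ⟨Q, e2⟩ := h2
    exact ⟨P + Q, by rw [map_add, map_add, e1, e2]⟩
  | mem_mul m hm i x _ h =>
    obtain ⟨Q, e2⟩ := h
    obtain ⟨P, e1⟩ : ∃ P, dcc_ph k b P = Polynomial.monomial 1 m := by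
      induction hm using Submodule.span_induction with
      | mem y hy =>
        obtain ⟨l, rfl⟩ := hy
        exact ⟨MvPolynomial.X l, MvPolynomial.aeval_X _ _⟩
      | zero => exact ⟨0, by simp⟩
      | add y z _ _ h1 h2 =>
        obtain ⟨P, e1⟩ := h1
        obtain ⟨P', e1'⟩ := h2
        exact ⟨P + P', by rw [map_add, map_add, e1, e1']⟩
      | smul a y _ h1 =>
        obtain ⟨P, e1⟩ := h1
        exact ⟨a • P, by rw [map_smul, e1, Polynomial.smul_monomial]⟩
    exact ⟨P * Q, by rw [map_mul, e1, e2, Polynomial.monomial_mul_monomial, add_comm]⟩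

theorem dcc_le (φ φ' : FR k R d) (hb : φ'.b = φ.b) (h : ∀ j, φ.F j ≤ φ'.F j)
    (hI : dcc_I φ' ≤ dcc_I φ) (j : ℕ) : φ'.F j ≤ φ.F j := by
  induction j with
  | zero => rw [φ.zero]; exact le_top
  | succ j ih =>
    intro x hx
    obtain ⟨m, hm, y, hy, rfl⟩ := Submodule.mem_sup.1 (φ.gen j (ih (φ'.anti j hx)))
    obtain ⟨Q, e⟩ := dcc_mon φ.b j m hm
    have h1 : m ∈ φ'.F (j + 1) := by simpa using sub_mem hx (h _ hy)
    have h2 : Q ∈ dcc_I φ' := fun i => by
      rw [hb, e, Polynomial.coeff_monomial]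
      split_ifs with c
      · exact c ▸ h1
      · exact zero_mem _
    have h3 := hI h2 j
    rw [e, Polynomial.coeff_monomial_same] at h3
    exact add_mem h3 hy

end

theorem p_DCC (hFIL : S_FIL) :
    S_DCC := by
  intro p d _ Γ _ u k _ _ 𝔉 hne hN
  obtain ⟨W0, h0⟩ := hne
  obtain ⟨φ0, f0⟩ := hFIL p d Γ u k W0 (hN W0 h0)
  obtain ⟨_, ⟨W, hW, φ, f, rfl⟩, hm⟩ := set_has_maximal_iff_noetherian.2
    (inferInstance : IsNoetherian (MvPolynomial (Fin d) k) (MvPolynomial (Fin d) k))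
    {I | ∃ W ∈ 𝔉, ∃ φ : FR k (MonoidAlgebra k Γ) d, Fil u W φ ∧ I = dcc_I φ}
    ⟨_, W0, h0, φ0, f0, rfl⟩
  refine ⟨W, hW, fun W' hW' hle => le_antisymm hle fun w hw => ?_⟩
  obtain ⟨φ', f'⟩ := hFIL p d Γ u k W' (hN W' hW')
  have hb : φ'.b = φ.b := f'.b_eq.trans f.b_eq.symm
  have h : ∀ j, φ.F j ≤ φ'.F j := fun j x hx => by
    rw [f.F_eq, mem_Fj] at hx
    rw [f'.F_eq, mem_Fj]
    exact fun v hv => hx v ⟨hle hv.1, hv.2⟩
  have h1 : dcc_I φ ≤ dcc_I φ' := fun Q hQ i => h _ (hb ▸ hQ i)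
  have h2 := (eq_of_le_of_not_lt h1 (hm _ ⟨W', hW', φ', f', rfl⟩)).ge
  obtain ⟨j, hj⟩ := f.exh w hw
  exact f'.ann j w fun x hx => hj x (dcc_le φ φ' hb h h2 j hx)

end Pool.Agent.P.MP_7cb106_nt.QJ
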