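import Pool.Agent.P.MP_7cb106_nt.QJ.Iface

/-! Step DISPV. -/

set_option autoImplicit false

namespace Pool.Agent.P.MP_7cb106_nt.QJ

open Filter

section
variable {O : Type} [CommRing O] {n : ℕ} {q : O} {M : Matrix (Fin n) (Fin n) O}

theorem dispv_left (h : MD q M) (A : Matrix (Fin n) (Fin n) O) : MD q (A * M) := fun i j => by
  rw [Matrix.mul_apply]
  exact Finset.dvd_sum fun k _ => (h k j).mul_left _

theorem dispv_right (h : MD q M) (A : Matrix (Fin n) (Fin n) O) : MD q (M * A) := fun i j => by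
  rw [Matrix.mul_apply]
  exact Finset.dvd_sum fun k _ => (h i k).mul_right _

end

theorem dispv_smul {p : ℕ} [Fact p.Prime] {O : Type} [CommRing O] [Algebra ℤ_[p] O] {n : ℕ}
    (k : ℕ) (a : ℤ_[p]) (M : Matrix (Fin n) (Fin n) O) :
    MD ((p : O) ^ k) (((p : ℤ_[p]) ^ k * a) • M) := fun i j => by
  rw [Matrix.smul_apply, Algebra.smul_def, map_mul, map_pow, map_natCast, mul_assoc]
  exact dvd_mul_right _ _

theorem p_DISPV (hELT : S_ELT) :
    S_DISPV := by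
  intro p hp O _ _ _ n d e Fr ρ DD he hA hD
  refine ⟨fun s y => (Fr.dv _ _).2 fun i j => (pow_dvd_pow _ he).trans ?_, fun H hH i => ?_⟩
  · have h1 : MD ((p : O) ^ e) (mat s - 1) := (mem_Cong _).1 s.2
    have h2 : MD ((p : O) ^ e) (mat s⁻¹ - 1) := (mem_Cong _).1 s⁻¹.2
    have h3 := (dispv_right (dispv_right h1 (Fr.c y)) (mat s⁻¹) i j).add
      (dispv_left h2 (Fr.c y) i j)
    rw [← Matrix.add_apply, sub_mul, sub_mul, mul_sub, one_mul, mul_one, sub_add_sub_cancel] at h3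
    rwa [map_sub, hA]
  obtain ⟨s, u, hu, hN⟩ := Nat.exists_eq_pow_mul_and_not_dvd (Nat.factorial_ne_zero H.index) p
    hp.out.ne_one
  obtain ⟨v, hv⟩ := (PadicInt.isUnit_iff.2 (PadicInt.norm_natCast_eq_one_iff.2
    (hp.out.coprime_iff_not_dvd.2 hu))).exists_right_inv
  refine ⟨s + e, fun r hr => ?_⟩
  obtain ⟨c, rfl⟩ := Nat.exists_eq_add_of_le hr
  have sq : Fr.bs i * Fr.bs i = 0 := Fr.sq i
  obtain ⟨g, hg⟩ := hELT p O n e (((p : ℤ_[p]) ^ e * (p ^ c * v)) • Fr.bs i)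
    (by rw [Matrix.smul_mul, Matrix.mul_smul, sq, smul_zero, smul_zero]) (dispv_smul _ _ _)
  refine ⟨g ^ H.index.factorial, H.pow_mem_of_index_ne_zero_of_dvd hH.index_ne_zero g
    fun m h0 hm => Nat.dvd_factorial h0 hm, fun m y => (Fr.dv _ _).2 ?_⟩
  have e1 : (H.index.factorial * m) • ((p : ℤ_[p]) ^ e * (p ^ c * v)) • Fr.bs i =
      ((p : ℤ_[p]) ^ (s + e + c) * m) • Fr.bs i := by
    rw [← Nat.cast_smul_eq_nsmul ℤ_[p], smul_smul, hN]
    congr 1
    push_cast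
    linear_combination (p : ℤ_[p]) ^ (s + e + c) * m * hv
  have e2 : Fr.c (ρ ((g ^ H.index.factorial) ^ m) y - y -
      (p : ℤ_[p]) ^ (s + e + c) • m • DD i y) =
      ((p : ℤ_[p]) ^ (2 * (s + e + c)) * -(m * m)) • (Fr.bs i * Fr.c y * Fr.bs i) := by
    rw [map_sub, map_sub, map_smul, map_nsmul, hA, hD, ← pow_mul, (hg _).1, (hg _).2, e1,
      ← Nat.cast_smul_eq_nsmul ℤ_[p]]
    simp only [add_mul, mul_sub, one_mul, mul_one, Matrix.smul_mul, Matrix.mul_smul]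
    module
  rw [e2]
  exact dispv_smul _ _ _

end Pool.Agent.P.MP_7cb106_nt.QJ
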