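import Pool.Agent.P.MP_7cb106_nt.QJ.Iface

/-! Step DUAL. -/

set_option autoImplicit false

namespace Pool.Agent.P.MP_7cb106_nt.QJ

open Filter

lemma dual_ext {Γ k : Type} [Field k] {φ ψ : Module.Dual k (MonoidAlgebra k Γ)}
    (h : ∀ g, φ (MonoidAlgebra.single g 1) = ψ (MonoidAlgebra.single g 1)) : φ = ψ :=
  MonoidAlgebra.lhom_ext' fun g => LinearMap.ext_ring (h g)

/-- The pairing as a linear map. -/
noncomputable def dual_L (Γ k : Type) [Field k] :
    (Γ → k) →ₗ[k] Module.Dual k (MonoidAlgebra k Γ) where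
  toFun f := pr f
  map_add' f f' := dual_ext fun g => by simp [pr_single]
  map_smul' c f := dual_ext fun g => by simp [pr_single]

theorem p_DUAL (hUF0 : S_UF0) :
    S_DUAL := by
  refine ⟨fun p d _ Γ _ u k _ a X hX => ?_, fun Γ k _ X hX f hf => ?_, fun Γ k _ M x hx => ?_⟩
  · have := (hUF0 p d Γ u).2.2.1 a
    refine FiniteDimensional.of_injective (V₂ := Γ ⧸ u.lev a → k)
      ((LinearMap.funLeft k k (Quotient.out : Γ ⧸ u.lev a → Γ)).comp X.subtype) ?_
    rw [injective_iff_map_eq_zero]
    intro f hf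
    ext g
    obtain ⟨h, hh⟩ := QuotientGroup.mk_out_eq_mul (u.lev a) g
    have e : f.1 (QuotientGroup.mk g : Γ ⧸ u.lev a).out = 0 := congrFun hf _
    rw [hh, hX f.1 f.2 g h h.2] at e
    exact e
  · have m : dual_L Γ k f ∈ X.map (dual_L Γ k) := by
      rw [← Subspace.dualCoannihilator_dualAnnihilator_eq (W := X.map (dual_L Γ k)),
        Submodule.mem_dualAnnihilator]
      intro x hx
      rw [Submodule.mem_dualCoannihilator] at hx
      exact hf x fun w hw => hx _ ⟨w, hw, rfl⟩
    obtain ⟨w, hw, e⟩ := m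
    have : w = f := funext fun g => by
      have := LinearMap.congr_fun e (MonoidAlgebra.single g 1)
      change pr w _ = pr f _ at this
      simpa [pr_single] using this
    exact this ▸ hw
  · rw [← Subspace.forall_mem_dualAnnihilator_apply_eq_zero_iff]
    intro φ hφ
    have e : pr (fun g => φ (MonoidAlgebra.single g 1)) = φ :=
      dual_ext fun g => by rw [pr_single, one_mul]
    rw [Submodule.mem_dualAnnihilator, ← e] at hφ
    rw [← e]
    exact hx _ hφ

end Pool.Agent.P.MP_7cb106_nt.QJ
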