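import Pool.Agent.P.MP_7cb106_nt.QJ.Iface2

/-! Step DX1. -/

set_option autoImplicit false

namespace Pool.Agent.P.MP_7cb106_nt.QJ

open Filter

section
variable {p d : ℕ} [Fact p.Prime] {Γ : Type} [Group Γ] {u : UF p d Γ} {Δ : Type} [Group Δ]

lemma dx1_single (V : Over u Δ) (k : Type) [Field k] (g : Γ) (c : k) :
    V.incA k (MonoidAlgebra.single g c) = MonoidAlgebra.single (V.inc g) c := by
  simp [Over.incA]

lemma dx1_comm (V : Over u Δ) (k : Type) [Field k] (δ : Δ) (x : MonoidAlgebra k Γ) :
    MonoidAlgebra.single δ (1 : k) * V.incA k x =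
      V.incA k (MonoidAlgebra.mapDomainAlgHom k k (V.cj δ).toMonoidHom x) *
        MonoidAlgebra.single δ 1 := by
  induction x using MonoidAlgebra.induction_linear with
  | zero => simp
  | add a b ha hb => simp only [map_add, mul_add, add_mul, ha, hb]
  | single g c =>
    have h1 : MonoidAlgebra.mapDomainAlgHom k k (V.cj δ).toMonoidHom (MonoidAlgebra.single g c) =
        MonoidAlgebra.single (V.cj δ g) c := by simp
    rw [h1, dx1_single, dx1_single, MonoidAlgebra.single_mul_single,
      MonoidAlgebra.single_mul_single, V.cj_eq]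
    simp

lemma dx1_gen (V : Over u Δ) (k : Type) [Field k] (j : ℕ) (δ : Δ) (x : MonoidAlgebra k Γ)
    (hx : x ∈ Dfil u k j) : V.incA k x * MonoidAlgebra.single δ 1 ∈ V.DX k j :=
  Submodule.subset_span ⟨δ, x, hx, rfl⟩

end

theorem p_DX1 (hUF0 : S_UF0) (hD1 : S_D1) (hD3 : S_D3) :
    S_DX1 := by
  intro p d _ Γ _ u Δ _ V k _ _
  obtain ⟨_, h0, hanti, hmul, hJ, hmap⟩ := hD1 p d Γ u k
  refine ⟨?_, ?_, ?_, ?_, ?_⟩
  · rw [eq_top_iff]
    intro x hx
    clear hx
    induction x using MonoidAlgebra.induction_linear with
    | zero => exact Submodule.zero_mem _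
    | add a b ha hb => exact Submodule.add_mem _ ha hb
    | single g c =>
      have h := dx1_gen V k 0 g (MonoidAlgebra.single 1 c) (by rw [h0]; trivial)
      rw [dx1_single, MonoidAlgebra.single_mul_single] at h
      simpa using h
  · intro i j hij
    refine Submodule.span_mono ?_
    rintro y ⟨δ, x, hx, rfl⟩
    exact ⟨δ, x, hanti i j hij hx, rfl⟩
  · intro i j x y hx hy
    induction hx using Submodule.span_induction with
    | zero => simp
    | add a b _ _ ha hb => rw [add_mul]; exact Submodule.add_mem _ ha hb
    | smul c a _ ha => rw [smul_mul_assoc]; exact Submodule.smul_mem _ _ ha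
    | mem x hx =>
      obtain ⟨δ, x, hx, rfl⟩ := hx
      induction hy using Submodule.span_induction with
      | zero => simp
      | add a b _ _ ha hb => rw [mul_add]; exact Submodule.add_mem _ ha hb
      | smul c a _ ha => rw [mul_smul_comm]; exact Submodule.smul_mem _ _ ha
      | mem y hy =>
        obtain ⟨δ', y, hy, rfl⟩ := hy
        have hy' := hmap (V.cj δ).toMonoidHom (fun a g hg => V.lev δ a g hg) j y hy
        have h := dx1_gen V k (i + j) (δ * δ') _ (hmul i j _ _ hx hy')
        have e : V.incA k x * MonoidAlgebra.single δ (1 : k) *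
            (V.incA k y * MonoidAlgebra.single δ' 1) =
            V.incA k (x * MonoidAlgebra.mapDomainAlgHom k k (V.cj δ).toMonoidHom y) *
              MonoidAlgebra.single (δ * δ') 1 := by
          rw [mul_assoc, ← mul_assoc (MonoidAlgebra.single δ (1 : k)), dx1_comm, map_mul,
            mul_assoc, mul_assoc, MonoidAlgebra.single_mul_single, mul_one]
        rw [e]
        exact h
  · intro a g h hh
    have hm : (MonoidAlgebra.single (1 * V.cj g h) (1 : k) - MonoidAlgebra.single (1 : Γ) 1) ∈
        Jd u k a := Submodule.subset_span ⟨1, V.cj g h, V.lev g a h hh, rfl⟩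
    have h2 := dx1_gen V k (p ^ a) g _ (hJ a hm)
    rw [map_sub, dx1_single, dx1_single, sub_mul, MonoidAlgebra.single_mul_single,
      MonoidAlgebra.single_mul_single, one_mul, V.cj_eq] at h2
    simpa using h2
  · intro a w hw
    obtain ⟨j, hj⟩ := hD3 p d Γ u k a
    refine ⟨j, fun x hx => ?_⟩
    induction hx using Submodule.span_induction with
    | zero => simp
    | add a b _ _ ha hb => rw [map_add, ha, hb, add_zero]
    | smul c a _ ha => rw [map_smul, ha, smul_zero]
    | mem x hx =>
      obtain ⟨δ, x, hx, rfl⟩ := hx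
      have hx' := hj hx
      clear hx
      induction hx' using Submodule.span_induction with
      | zero => simp
      | add a b _ _ ha hb => rw [map_add, add_mul, map_add, ha, hb, add_zero]
      | smul c a _ ha => rw [map_smul, smul_mul_assoc, map_smul, ha, smul_zero]
      | mem y hy =>
        obtain ⟨g, h, hh, rfl⟩ := hy
        rw [map_sub, dx1_single, dx1_single, sub_mul, MonoidAlgebra.single_mul_single,
          MonoidAlgebra.single_mul_single, map_sub, pr_single, pr_single]
        have e : V.inc (g * h) * δ = V.inc g * δ * V.inc (V.cj δ⁻¹ h) := by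
          rw [V.cj_eq, map_mul]; group
        rw [e, hw _ _ (V.lev δ⁻¹ a h hh), sub_self]

end Pool.Agent.P.MP_7cb106_nt.QJ
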