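import Pool.Agent.P.MP_7cb106_nt.QJ.Iface2

/-! Step E1X. -/

set_option autoImplicit false

namespace Pool.Agent.P.MP_7cb106_nt.QJ

open Filter

section
variable {p d : ℕ} [Fact p.Prime] {Γ : Type} [Group Γ] {u : UF p d Γ} {Δ : Type} [Group Δ]
  {V : Over u Δ} {k : Type} [Field k] {W : Submodule k (Δ → k)}
  {F : ℕ → Submodule k (MonoidAlgebra k Δ)}

lemma e1x_ord (hφ : FilX V W F) (C : CoreX p F (fun i => V.incA k (bb u k i))) (r a : ℕ)
    (ha : a ≤ 2 * r) (g : Δ) (h : Γ) (hh : h ∈ u.lev a) :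
    ∃ o, C.ι r (MonoidAlgebra.single (g * V.inc h) 1) -
      C.ι r (MonoidAlgebra.single g 1) = (C.T r).t ^ (p ^ a) * o := by
  rw [← map_sub]
  exact (C.ord r (p ^ a) _ (Nat.pow_le_pow_right (Fact.out : p.Prime).pos ha)).1
    (C.le _ (hφ.lev a g h hh))

lemma e1x_eq (hφ : FilX V W F) (C : CoreX p F (fun i => V.incA k (bb u k i))) (r : ℕ) (g : Δ)
    (h : Γ) (hh : h ∈ u.lev (2 * r)) :
    C.ι r (MonoidAlgebra.single (g * V.inc h) 1) = C.ι r (MonoidAlgebra.single g 1) := by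
  obtain ⟨o, ho⟩ := e1x_ord hφ C r (2 * r) le_rfl g h hh
  rw [(C.T r).nil, zero_mul, sub_eq_zero] at ho
  exact ho

lemma e1x_eq' (hφ : FilX V W F) (C : CoreX p F (fun i => V.incA k (bb u k i))) (r : ℕ) (g h : Γ)
    (hh : g⁻¹ * h ∈ u.lev (2 * r)) :
    C.ι r (MonoidAlgebra.single (V.inc h) 1) = C.ι r (MonoidAlgebra.single (V.inc g) 1) := by
  have := e1x_eq hφ C r (V.inc g) _ hh
  rwa [← map_mul, mul_inv_cancel_left] at this

lemma e1x_one (hφ : FilX V W F) (C : CoreX p F (fun i => V.incA k (bb u k i))) (r : ℕ) (h : Γ)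
    (hh : h ∈ u.lev (2 * r)) : C.ι r (MonoidAlgebra.single (V.inc h) 1) = 1 := by
  have := e1x_eq hφ C r 1 h hh
  rwa [one_mul, ← MonoidAlgebra.one_def, map_one] at this

end

theorem p_E1X :
    S_E1X := by
  intro p d _ Γ _ u Δ _ V k _ _ W F hφ C Q
  have hp : p.Prime := Fact.out
  have hpO : ∀ r, (p : (C.T r).O) = 0 := by
    intro r
    rw [← map_natCast (C.ι r), ← map_natCast (algebraMap k (MonoidAlgebra k Δ)),
      CharP.cast_eq_zero, map_zero, map_zero]
  have hadd : ∀ r y z, C.ι r (MonoidAlgebra.single (V.inc (u.eps r (y + z))) 1) =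
      C.ι r (MonoidAlgebra.single (V.inc (u.eps r y)) 1) * C.ι r (MonoidAlgebra.single (V.inc (u.eps r z)) 1) := by
    intro r y z
    rw [← map_mul, MonoidAlgebra.single_mul_single, one_mul, ← map_mul]
    exact e1x_eq' hφ C r _ _ (u.anti _ (u.add r y z))
  have hdeep : ∀ r z, Dv r z → C.ι r (MonoidAlgebra.single (V.inc (u.eps r z)) 1) = 1 := by
    intro r z hz
    exact e1x_one hφ C r _ (by rw [two_mul]; exact u.mem r r z hz)
  have hdv0 : ∀ n, Dv n (0 : VV p d) := fun n i => by simp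
  have hE := fun r => Q.lift (C.T r).O (hpO r) r
    (fun y => C.ι r (MonoidAlgebra.single (V.inc (u.eps r y)) 1)) (hdeep r 0 (hdv0 r)) (hadd r) (hdeep r)
  choose E hE1 hE2 using hE
  refine ⟨⟨E, hE1, hE2, ?_, ?_⟩⟩
  · intro r n a ha
    obtain ⟨x, hx, hax⟩ := Q.kgen n r a ha
    have h1 : E r a = E r x := by
      have := hE2 r _ hax
      rwa [map_sub, sub_eq_zero] at this
    rw [h1]
    clear hax h1
    induction hx using AddSubgroup.closure_induction with
    | mem x hx =>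
      obtain ⟨y, z, hz, rfl⟩ := hx
      rw [map_sub, hE1, hE1, hadd]
      by_cases hn : n ≤ r
      · obtain ⟨o, ho⟩ := e1x_ord hφ C r (r + n) (by omega) 1 _ (u.mem r n z hz)
        rw [one_mul, ← MonoidAlgebra.one_def, map_one] at ho
        refine ⟨C.ι r (MonoidAlgebra.single (V.inc (u.eps r y)) 1) * o, ?_⟩
        have hc : Commute (C.T r).t (C.ι r (MonoidAlgebra.single (V.inc (u.eps r y)) 1)) :=
          (C.T r).central _
        rw [← mul_assoc, (hc.pow_left _).eq, mul_assoc, ← ho, mul_sub, mul_one]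
      · have hz' : Dv r z := fun i => (pow_dvd_pow _ (by omega)).trans (hz i)
        exact ⟨0, by rw [hdeep r z hz', mul_one, sub_self, mul_zero]⟩
    | zero => exact ⟨0, by simp⟩
    | add x y _ _ hx hy =>
      obtain ⟨o, ho⟩ := hx
      obtain ⟨o', ho'⟩ := hy
      exact ⟨o + o', by rw [map_add, ho, ho', mul_add]⟩
    | neg x _ hx =>
      obtain ⟨o, ho⟩ := hx
      exact ⟨-o, by rw [map_neg, ho, mul_neg]⟩
  · intro r n
    have : Nontrivial (C.T r).O :=
      nontrivial_of_ne _ _ ((C.T r).ne 0 (pow_pos hp.pos _))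
    have : CharP (C.T r).O p := (CharP.charP_iff_prime_eq_zero hp).2 (hpO r)
    have hsm : ∀ (m : ℕ) (y : VV p d), Q.δ (m • y) = Q.δ y ^ m := by
      intro m y
      induction m with
      | zero => simp [Q.δ_zero]
      | succ m ih => rw [succ_nsmul, Q.δ_add, ih, pow_succ]
    refine (Ideal.span_le.2 ?_ : Ideal.span _ ≤ Ideal.map (E r) (Q.K n)) (C.opn r (p ^ (r + n)))
    rintro _ ⟨i, rfl⟩
    have hz : Dv n ((p ^ n : ℕ) • (Pi.single i 1 : VV p d)) := by
      intro l
      simp only [Pi.smul_apply, nsmul_eq_mul, Nat.cast_pow]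
      exact dvd_mul_right _ _
    have hmem := Ideal.mem_map_of_mem (E r) (Q.δ_mem n _ hz)
    have key : E r (Q.δ ((p ^ n : ℕ) • (Pi.single i 1 : VV p d)) - 1) =
        C.ι r (V.incA k (bb u k i)) ^ (p ^ (r + n)) := by
      have e1 : V.incA k (MonoidAlgebra.single (u.gen i) 1) =
          MonoidAlgebra.single (V.inc (u.gen i)) 1 := by simp [Over.incA]
      rw [bb, map_sub, map_sub, map_sub, map_one, map_one, map_one, e1,
        sub_pow_char_pow_of_commute _ _ (Commute.one_right _), one_pow, hsm, map_pow,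
        hE1, u.pow, map_pow V.inc, ← map_pow (C.ι r), ← map_pow (C.ι r), MonoidAlgebra.single_pow,
        MonoidAlgebra.single_pow, ← pow_mul, ← pow_add, one_pow, one_pow]
      rfl
    rw [key] at hmem
    exact hmem

end Pool.Agent.P.MP_7cb106_nt.QJ
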