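import Pool.Agent.P.MP_7cb106_nt.QJ.Iface2

/-! Step E2X. -/

set_option autoImplicit false

namespace Pool.Agent.P.MP_7cb106_nt.QJ

open Filter

section
variable {Γ k : Type} [Field k]

lemma e2x_add (f g : Γ → k) (x : MonoidAlgebra k Γ) : pr (f + g) x = pr f x + pr g x := by
  induction x using MonoidAlgebra.induction_linear with
  | zero => simp
  | add x y hx hy => rw [map_add, map_add, map_add, hx, hy]; ring
  | single m r => simp only [pr_single, Pi.add_apply, mul_add]

lemma e2x_smul (c : k) (f : Γ → k) (x : MonoidAlgebra k Γ) : pr (c • f) x = c * pr f x := by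
  induction x using MonoidAlgebra.induction_linear with
  | zero => simp
  | add x y hx hy => rw [map_add, map_add, hx, hy]; ring
  | single m r => simp only [pr_single, Pi.smul_apply, smul_eq_mul, mul_left_comm]

/-- The annihilator. -/
def e2x_ann (M : Submodule k (MonoidAlgebra k Γ)) : Submodule k (Γ → k) where
  carrier := {f | ∀ x ∈ M, pr f x = 0}
  zero_mem' := fun x _ => by simpa using e2x_smul 0 (0 : Γ → k) x
  add_mem' := fun hf hg x hx => by rw [e2x_add, hf x hx, hg x hx, add_zero]
  smul_mem' := fun c f hf x hx => by rw [e2x_smul, hf x hx, mul_zero]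

variable [Group Γ]

lemma e2x_conj (w : Γ → k) (a b : Γ) (x : MonoidAlgebra k Γ) : pr (fun g => w (a * g * b)) x =
    pr w (MonoidAlgebra.single a 1 * x * MonoidAlgebra.single b 1) := by
  induction x using MonoidAlgebra.induction_linear with
  | zero => simp
  | add x y hx hy => rw [mul_add, add_mul, map_add, map_add, hx, hy]
  | single m r => simp only [pr_single, MonoidAlgebra.single_mul_single, one_mul, mul_one]

end

theorem p_E2X (hDUAL : S_DUAL) :
    S_E2X := by
  intro p d hp Γ _ u Δ _ V k _ ψ W F hW hF C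
  have an : Antitone C.F' := antitone_nat_of_succ_le C.anti
  have mo : Monotone fun j => e2x_ann (C.F' j) := fun i j h f hf x hx => hf x (an h hx)
  have mem : ∀ f, f ∈ ⨆ j, e2x_ann (C.F' j) ↔ ∃ j, ∀ x ∈ C.F' j, pr f x = 0 := fun f =>
    Submodule.mem_iSup_of_directed _ mo.directed_le
  have le : ⨆ j, e2x_ann (C.F' j) ≤ W := iSup_le fun j f hf =>
    hF.ann j f fun x hx => hf x (C.le j hx)
  refine ⟨⨆ j, e2x_ann (C.F' j), le, ⟨fun w hw => hW.sm w (le hw), fun w hw => hW.eqv w (le hw),
    fun w hw a b => ?_, fun fin => ?_⟩, fun w hw => (mem w).1 hw⟩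
  · obtain ⟨j, hj⟩ := (mem w).1 hw
    exact (mem _).2 ⟨j, fun x hx => by rw [e2x_conj]; exact hj _ (C.two j x _ _ hx)⟩
  · obtain ⟨n, hn⟩ := monotone_stabilizes_iff_noetherian.2
      (inferInstance : IsNoetherian k (⨆ j, e2x_ann (C.F' j) : Submodule k (Δ → k)))
      ⟨fun j => (e2x_ann (C.F' j)).comap (Submodule.subtype _),
        fun i j h => Submodule.comap_mono (mo h)⟩
    obtain ⟨j, hj, hne⟩ := C.ninf n
    refine hne fun x hx => hDUAL.2.2 Δ k _ _ fun f hf => ?_
    exact (hn (j + 1) (hj.trans j.le_succ)).ge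
      (show (⟨f, (mem f).2 ⟨j + 1, hf⟩⟩ : (⨆ j, e2x_ann (C.F' j) : Submodule k (Δ → k))) ∈ _
        from hf) _ (an hj hx)

end Pool.Agent.P.MP_7cb106_nt.QJ
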