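import Pool.Agent.P.MP_7cb106_nt.QJ.Iface

/-! Step E3A. -/

set_option autoImplicit false

namespace Pool.Agent.P.MP_7cb106_nt.QJ

open Filter

theorem e3a_sep0 (p : ℕ) [Fact p.Prime] (A : Type) [AddCommGroup A] [Module (ZMod p) A]
    (I : AddSubgroup A) (a : A) (ha : a ∉ I) :
    ∃ ψ : A →+ ZMod p, ψ a ≠ 0 ∧ ∀ x ∈ I, ψ x = 0 := by
  obtain ⟨N, hN⟩ : ∃ N : Submodule (ZMod p) A, ∀ x, x ∈ N ↔ x ∈ I :=
    ⟨AddSubgroup.toZModSubmodule p I, fun _ => by simp⟩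
  obtain ⟨f, h1, h2⟩ := N.exists_dual_map_eq_bot_of_notMem (mt (hN a).1 ha) inferInstance
  exact ⟨f.toAddMonoidHom, h1, fun x hx =>
    (Submodule.mem_bot _).1 (h2 ▸ Submodule.mem_map_of_mem (f := f) ((hN x).2 hx))⟩

theorem e3a_sep (p : ℕ) [Fact p.Prime] (A : Type) [CommRing A] (hp : (p : A) = 0) (I : Ideal A)
    (a : A) (ha : a ∉ I) : ∃ ψ : A →+ ZMod p, ψ a ≠ 0 ∧ ∀ x ∈ I, ψ x = 0 :=
  @e3a_sep0 p _ A _ (AddCommGroup.zmodModule fun x => by rw [nsmul_eq_mul, hp, zero_mul])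
    I.toAddSubgroup a ha

theorem p_E3A (hFINV : S_FINV) :
    S_E3A := by
  intro p d _ Q P h
  have sm : ∀ θ ∈ Q.XP P, ∃ n, LvV n θ := by
    rintro θ ⟨n, ψ, h1, -, h3⟩
    refine ⟨n, fun y z hz => ?_⟩
    have := h1 _ ((Q.K n).mul_mem_left (Q.δ y) (Q.δ_mem n z hz))
    rwa [mul_sub, mul_one, ← Q.δ_add, map_sub, sub_eq_zero, ← h3, ← h3] at this
  refine ⟨sm, ?_, fun hf => ?_⟩
  · rintro θ ⟨n, ψ, h1, h2, h3⟩ v
    refine ⟨n, ψ.comp (AddMonoidHom.mulLeft (Q.δ v)),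
      fun a ha => h1 _ ((Q.K n).mul_mem_left _ ha), fun a ha => h2 _ (P.mul_mem_left _ ha),
      fun y => ?_⟩
    exact (h3 _).trans (by rw [Q.δ_add, mul_comm]; rfl)
  · obtain ⟨S, hS⟩ := (Submodule.fg_iff_finiteDimensional _).2 hf
    choose! f hf using sm
    have lv : ∀ θ ∈ Submodule.span (ZMod p) (S : Set (VV p d → ZMod p)), LvV (S.sup f) θ := by
      intro θ hθ y z hz
      induction hθ using Submodule.span_induction with
      | mem x hx =>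
        exact hf x (hS ▸ Submodule.subset_span hx) y z fun i =>
          (pow_dvd_pow _ (Finset.le_sup hx)).trans (hz i)
      | zero => rfl
      | add x x' _ _ h1 h2 => rw [Pi.add_apply, Pi.add_apply, h1, h2]
      | smul c x _ h1 => rw [Pi.smul_apply, Pi.smul_apply, h1]
    refine h (S.sup f) fun m a ha => ?_
    by_contra hn
    obtain ⟨ψ, h1, h2⟩ := e3a_sep p Q.A Q.adm.char _ a hn
    have h3 := lv (fun y => ψ (Q.δ y)) (hS ▸ ⟨m, ψ, fun x hx => h2 x (Submodule.mem_sup_right hx),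
      fun x hx => h2 x (Submodule.mem_sup_left hx), fun _ => rfl⟩)
    obtain ⟨x, hx, hk⟩ := Q.kgen _ m a ha
    have h4 : x ∈ ψ.ker := by
      refine (AddSubgroup.closure_le _).2 ?_ hx
      rintro _ ⟨y, z, hz, rfl⟩
      exact (map_sub ψ _ _).trans (sub_eq_zero.2 (h3 y z hz))
    have h5 := h2 _ (Submodule.mem_sup_right hk)
    rw [map_sub, (AddMonoidHom.mem_ker).1 h4, sub_zero] at h5
    exact h1 h5

end Pool.Agent.P.MP_7cb106_nt.QJ
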