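import Pool.Agent.P.MP_7cb106_nt.QJ.Iface2

/-! Step E3G. -/

set_option autoImplicit false

namespace Pool.Agent.P.MP_7cb106_nt.QJ

open Filter

/-- the action on sets of functions -/
@[reducible] def e3g_act {V k H R : Type} [Semiring R] [AddCommMonoid V] [Module R V] [Group H]
    (ρ : H →* (V ≃ₗ[R] V)) : MulAction H (Set (V → k)) where
  smul s X := {θ | (fun y => θ (ρ s y)) ∈ X}
  one_smul X := by
    ext θ
    change (fun y => θ (ρ 1 y)) ∈ X ↔ _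
    simp
  mul_smul s t X := by
    ext θ
    change (fun y => θ (ρ (s * t) y)) ∈ X ↔ (fun y => θ (ρ s (ρ t y))) ∈ X
    simp

lemma e3g_xp {p d : ℕ} [Fact p.Prime] (Q : Cpl p d) (α : Q.A →+* Q.A) (s : VV p d → VV p d)
    (h1 : ∀ y, α (Q.δ y) = Q.δ (s y)) (h2 : ∀ n x, x ∈ Q.K n → α x ∈ Q.K n) (P P' : Ideal Q.A)
    (h3 : ∀ x ∈ P, α x ∈ P') (θ : VV p d → ZMod p) (h : θ ∈ Q.XP P') :
    (fun y => θ (s y)) ∈ Q.XP P := by
  obtain ⟨n, ψ, a1, a2, a3⟩ := h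
  exact ⟨n, ψ.comp α.toAddMonoidHom, fun x hx => a1 _ (h2 n x hx), fun x hx => a2 _ (h3 x hx),
    fun y => by simp [a3, h1]⟩

theorem p_E3G (hBAD4 : S_BAD4) (hBADS : S_BADS) :
    S_E3G := by
  intro p d _ Q ρ 𝒯 H _ onV hL P hP
  letI : MulAction H (Set (VV p d → ZMod p)) := e3g_act onV
  refine ⟨MulAction.stabilizer H (Q.XP P : Set (VV p d → ZMod p)), ⟨?_⟩, fun s hs θ hθ => ?_⟩
  · rw [MulAction.index_stabilizer]
    refine ((Set.ncard_pos ?_).2 (MulAction.nonempty_orbit _)).ne'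
    refine ((hBAD4 p _ _ _ 𝒯).image fun P' => (Q.XP P' : Set (VV p d → ZMod p))).subset ?_
    rintro _ ⟨s, rfl⟩
    obtain ⟨α, h1, h2⟩ := Q.aut (onV s)
    have h3 : ∀ y, α.symm (Q.δ y) = Q.δ (onV s⁻¹ y) := fun y => by
      rw [RingEquiv.symm_apply_eq, h1]
      change Q.δ y = Q.δ ((onV s * onV s⁻¹) y)
      rw [← map_mul, mul_inv_cancel, map_one]
      rfl
    have h4 : ∀ n x, x ∈ Q.K n → α.symm x ∈ Q.K n := fun n x hx => (h2 n _).2 (by simpa using hx)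
    refine ⟨P.comap (α.symm : Q.A →+* Q.A), (hBADS p _ _ _ 𝒯).2.2.2 α.symm
      (hL s⁻¹ _ h3 h4)
      (hL s _ h1 fun n x => (h2 n x).1) P hP, ?_⟩
    ext θ
    change θ ∈ Q.XP _ ↔ (fun y => θ (onV s y)) ∈ Q.XP P
    refine ⟨e3g_xp Q (α : Q.A →+* Q.A) _ h1 (fun n x => (h2 n x).1) _ _ (fun x hx => ?_) θ,
      fun h => ?_⟩
    · simpa using hx
    · have e := e3g_xp Q (α.symm : Q.A →+* Q.A) _ h3 h4 (P.comap (α.symm : Q.A →+* Q.A)) P
        (fun x hx => hx) _ h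
      have e2 : ∀ y, onV s (onV s⁻¹ y) = y := fun y => by
        change (onV s * onV s⁻¹) y = y
        rw [← map_mul, mul_inv_cancel, map_one]
        rfl
      simpa only [e2] using e
  · have e : s • (Q.XP P : Set (VV p d → ZMod p)) = Q.XP P := hs
    have h : θ ∈ s • (Q.XP P : Set (VV p d → ZMod p)) := by rw [e]; exact hθ
    exact h

end Pool.Agent.P.MP_7cb106_nt.QJ
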