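import Pool.Agent.P.MP_7cb106_nt.QJ.Iface2

/-! Step E3LX. -/

set_option autoImplicit false

namespace Pool.Agent.P.MP_7cb106_nt.QJ

open Filter

/-- Conjugation by an invertible element as a ring map. -/
def e3lx_conj {O : Type} [Ring O] (c c' : O) (h1 : c * c' = 1) (h2 : c' * c = 1) : O →+* O where
  toFun x := c * x * c'
  map_one' := by rw [mul_one, h1]
  map_mul' x y := by
    calc c * (x * y) * c' = c * x * (c' * c) * y * c' := by rw [h2]; simp only [mul_one, mul_assoc]
      _ = c * x * c' * (c * y * c') := by simp only [mul_assoc]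
  map_zero' := by simp
  map_add' x y := by rw [mul_add, add_mul]

theorem p_E3LX :
    S_E3LX := by
  intro p d hp Γ _ u Δ _ V k _ W F hF C Q S a ha s α hα hK r
  have hm : ∀ g h : Δ, C.ι r (MonoidAlgebra.single g (1 : k)) * C.ι r (MonoidAlgebra.single h 1) =
      C.ι r (MonoidAlgebra.single (g * h) 1) := fun g h => by
    rw [← map_mul, MonoidAlgebra.single_mul_single, mul_one]
  have h1 : C.ι r (MonoidAlgebra.single (V.inc s) (1 : k)) *
      C.ι r (MonoidAlgebra.single (V.inc s⁻¹) 1) = 1 := by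
    rw [hm, ← map_mul, mul_inv_cancel, map_one, ← MonoidAlgebra.one_def, map_one]
  have h2 : C.ι r (MonoidAlgebra.single (V.inc s⁻¹) (1 : k)) *
      C.ι r (MonoidAlgebra.single (V.inc s) 1) = 1 := by
    rw [hm, ← map_mul, inv_mul_cancel, map_one, ← MonoidAlgebra.one_def, map_one]
  set τ := e3lx_conj _ _ h1 h2 with hτ
  have hτ' : ∀ x, τ x = C.ι r (MonoidAlgebra.single (V.inc s) (1 : k)) * x *
      C.ι r (MonoidAlgebra.single (V.inc s⁻¹) 1) := fun x => rfl
  refine ⟨τ, ?_, fun x => ?_⟩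
  · change τ (C.T r).t = (C.T r).t
    rw [hτ', ← (C.T r).central, mul_assoc, h1, mul_one]
  change τ (S.E r x) = S.E r (α x)
  have h3 : ∀ y, τ (S.E r (Q.δ y)) = S.E r (α (Q.δ y)) := fun y => by
    have h := hF.lev (2 * r) (V.inc (u.eps r (a.onV s y))) _ (a.eqv s r y)
    rw [← map_mul, mul_inv_cancel_left] at h
    obtain ⟨o, ho⟩ := (C.ord r _ _ le_rfl).1 (C.le _ h)
    rw [(C.T r).nil, zero_mul, map_sub, sub_eq_zero] at ho
    rw [hα, S.E_δ, S.E_δ, hτ', hm, hm, ← map_mul, ← map_mul, ← ha, ho]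
  have h4 : ∀ x ∈ AddSubgroup.closure (Set.range Q.δ), τ (S.E r x) = S.E r (α x) := by
    intro x hx
    induction hx using AddSubgroup.closure_induction with
    | mem _ h => obtain ⟨y, rfl⟩ := h; exact h3 y
    | zero => simp
    | add _ _ _ _ h h' => simp only [map_add, h, h']
    | neg _ _ h => simp only [map_neg, h]
  obtain ⟨x0, hx0, hx⟩ := Q.dense x r
  have e1 := S.E_K r _ hx
  have e2 := S.E_K r _ (hK r _ hx)
  rw [map_sub, sub_eq_zero] at e1
  rw [map_sub, map_sub, sub_eq_zero] at e2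
  rw [e1, e2, h4 _ hx0]

end Pool.Agent.P.MP_7cb106_nt.QJ
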