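import Pool.Agent.P.MP_7cb106_nt.QJ.Iface

/-! Step E4. -/

set_option autoImplicit false

namespace Pool.Agent.P.MP_7cb106_nt.QJ

open Filter

section
variable {p d : ℕ} [Fact p.Prime] {Γ : Type} [Group Γ] {u : UF p d Γ} {k : Type} [Field k]
  {W : Submodule k (Γ → k)} {φ : FR k (MonoidAlgebra k Γ) d}

lemma e4_eq (hφ : Fil u W φ) (C : Core p φ) (r : ℕ) (g h : Γ) (hh : g⁻¹ * h ∈ u.lev (2 * r)) :
    C.ι r (MonoidAlgebra.single h 1) = C.ι r (MonoidAlgebra.single g 1) := by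
  obtain ⟨o, ho⟩ := (C.ord r (p ^ (2 * r)) _ le_rfl).1 (C.le _ (hφ.lev (2 * r) g _ hh))
  rwa [(C.T r).nil, zero_mul, map_sub, sub_eq_zero, mul_inv_cancel_left] at ho

omit [Group Γ] in
lemma e4_sum (μ : MonoidAlgebra k Γ) :
    μ = ∑ h ∈ μ.coeff.support, MonoidAlgebra.single h (μ.coeff h) := by
  conv_lhs => rw [← MonoidAlgebra.sum_coeff_single μ]
  rfl

omit [Fact p.Prime] in
lemma e4_anti (C : Core p φ) {i j : ℕ} (h : i ≤ j) : C.F' j ≤ C.F' i :=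
  antitone_nat_of_succ_le C.anti h

end

theorem p_E4 (hUF0 : S_UF0) (hE4A : S_E4A) :
    S_E4 := by
  intro p d _ Γ _ u k _ H _ a W hS φ hφ C Q S θ hθ y hy w j hw
  have hp : p.Prime := Fact.out
  obtain ⟨ℓ, hℓ, hcan⟩ := hE4A p d Q C.ρ S.tw θ hθ
  obtain ⟨r0, hr0⟩ := hy
  obtain ⟨r, hr, hc⟩ := hcan (max r0 j)
  obtain ⟨γ, hγ⟩ := hr0 r (le_trans (le_max_left _ _) hr)
  have hj : j ≤ p ^ r := le_trans (le_trans (le_max_right _ _) hr) (Nat.lt_pow_self hp.one_lt).le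
  have hsm : ∀ (m : ℕ) (y : VV p d), Q.δ (m • y) = Q.δ y ^ m := by
    intro m y
    induction m with
    | zero => simp [Q.δ_zero]
    | succ m ih => rw [succ_nsmul, Q.δ_add, ih, pow_succ]
  refine hφ.ann (p ^ (2 * r)) _ fun μ hμ => ?_
  have hsum : ∀ m : ℕ, ∑ h ∈ μ.coeff.support,
      C.ι r (MonoidAlgebra.single h (μ.coeff h)) * S.E r (Q.δ (y h)) ^ m = 0 := by
    intro m
    have h1 := hφ.stab (a.onG (γ ^ m)).toMonoidHom (fun b g hg => a.lev _ b g hg) (hS _) _ μ hμ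
    obtain ⟨o, ho⟩ := (C.ord r (p ^ (2 * r)) _ le_rfl).1 (C.le _ h1)
    rw [(C.T r).nil, zero_mul, e4_sum μ, map_sum, map_sum] at ho
    rw [← ho]
    refine Finset.sum_congr rfl fun h _ => ?_
    have e1 : MonoidAlgebra.mapDomainAlgHom k k (a.onG (γ ^ m)).toMonoidHom
        (MonoidAlgebra.single h (μ.coeff h)) =
        MonoidAlgebra.single 1 (μ.coeff h) * MonoidAlgebra.single (a.onG (γ ^ m) h) 1 := by
      simp [MonoidAlgebra.single_mul_single]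
    rw [e1, map_mul, e4_eq hφ C r _ _ (hγ m h), ← map_pow, ← hsm, S.E_δ, ← map_mul, ← map_mul]
    simp [MonoidAlgebra.single_mul_single]
  obtain ⟨o, ho⟩ := hc Γ μ.coeff.support (fun h => C.ι r (MonoidAlgebra.single h (μ.coeff h)))
    (fun h => Q.δ (y h)) hsum
  have hmem : (∑ h ∈ μ.coeff.support, (θ (y h)).val • MonoidAlgebra.single h (μ.coeff h)) ∈
      C.F' (p ^ r) := by
    refine (C.ord r (p ^ r) _ (Nat.pow_le_pow_right hp.pos (by omega))).2 ⟨o, ?_⟩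
    rw [map_sum]
    refine Eq.trans ?_ ho
    refine Finset.sum_congr rfl fun h _ => ?_
    rw [map_nsmul, hℓ]
    rfl
  have h0 := hw _ (e4_anti C hj hmem)
  rw [map_sum] at h0
  rw [e4_sum μ, map_sum, ← h0]
  refine Finset.sum_congr rfl fun h _ => ?_
  rw [map_nsmul, pr_single, pr_single, nsmul_eq_mul]
  ring

end Pool.Agent.P.MP_7cb106_nt.QJ
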