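import Pool.Agent.P.MP_7cb106_nt.QJ.Iface

/-! Step E4A. -/

set_option autoImplicit false

namespace Pool.Agent.P.MP_7cb106_nt.QJ

open Filter

theorem e4a_eq {p d : ℕ} [Fact p.Prime] (Q : Cpl p d) {n n' : ℕ} {ψ ψ' : Q.A →+ ZMod p}
    (h : ∀ a ∈ Q.K n, ψ a = 0) (h' : ∀ a ∈ Q.K n', ψ' a = 0)
    (e : ∀ y, ψ (Q.δ y) = ψ' (Q.δ y)) (a : Q.A) : ψ a = ψ' a := by
  obtain ⟨x, hx, hk⟩ := Q.dense a (max n n')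
  have e1 : ψ x = ψ' x := AddMonoidHom.eqOn_closure (by rintro _ ⟨y, rfl⟩; exact e y) hx
  have e2 := h _ (Q.adm.mono (le_max_left _ _) hk)
  have e3 := h' _ (Q.adm.mono (le_max_right _ _) hk)
  rw [map_sub, sub_eq_zero] at e2 e3
  rw [e2, e3, e1]

theorem p_E4A (hBAD3 : S_BAD3) (hBAD5 : S_BAD5) (hBAD6 : S_BAD6) (hBADS : S_BADS) :
    S_E4A := by
  intro p d _ Q ρ 𝒯 θ hθ
  obtain ⟨P0, hP0, -⟩ := hBAD3 p ρ Q.A Q.K 𝒯 Q.adm ⊥ (hBADS p ρ Q.A Q.K 𝒯).1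
  obtain ⟨n, ψ, h1, -, h3⟩ := hθ P0 hP0
  refine ⟨ψ, fun y => (h3 y).symm, ?_⟩
  obtain ⟨M, hM⟩ := hBAD5 p ρ Q.A Q.K 𝒯 Q.adm ψ n h1 fun a ha => by
    by_contra hc
    obtain ⟨P, hP, hle⟩ := hBAD3 p ρ Q.A Q.K 𝒯 Q.adm (Ideal.span {a}) fun C hC => hc ⟨C, hC⟩
    obtain ⟨n', ψ', g1, g2, g3⟩ := hθ P hP
    have := e4a_eq Q h1 g1 (fun y => (h3 y).symm.trans (g3 y)) a
    rw [ha, g2 a (hle (Ideal.mem_span_singleton_self a))] at this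
    exact one_ne_zero this
  exact hBAD6 p ρ Q.A Q.K 𝒯 Q.adm ψ n M h1 hM

end Pool.Agent.P.MP_7cb106_nt.QJ
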