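import Pool.Agent.P.MP_7cb106_nt.QJ.Iface2

/-! Step E4X. -/

set_option autoImplicit false

namespace Pool.Agent.P.MP_7cb106_nt.QJ

open Filter

lemma e4x_sum {Δ k : Type} [Field k] (μ : MonoidAlgebra k Δ) :
    μ = ∑ h ∈ μ.coeff.support, MonoidAlgebra.single h (μ.coeff h) := by
  conv_lhs => rw [← MonoidAlgebra.sum_coeff_single μ]
  rfl

theorem p_E4X (hE4A : S_E4A) :
    S_E4X := by
  intro p d _ Γ _ u Δ _ V k _ W F hF C Q S θ hθ y hy w j hw
  have hp : p.Prime := Fact.out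
  obtain ⟨ℓ, hℓ, hcan⟩ := hE4A p d Q C.ρ S.tw θ hθ
  obtain ⟨r0, hr0⟩ := hy
  obtain ⟨r, hr, hc⟩ := hcan (max r0 j)
  obtain ⟨γ, hγ⟩ := hr0 r (le_trans (le_max_left _ _) hr)
  have hj : j ≤ p ^ r := le_trans (le_trans (le_max_right _ _) hr) (Nat.lt_pow_self hp.one_lt).le
  have hsm : ∀ (m : ℕ) (y : VV p d), Q.δ (m • y) = Q.δ y ^ m := by
    intro m y
    induction m with
    | zero => simp [Q.δ_zero]
    | succ m ih => rw [succ_nsmul, Q.δ_add, ih, pow_succ]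
  have h0 : ∀ x ∈ F (p ^ (2 * r)), C.ι r x = 0 := fun x hx => by
    obtain ⟨o, ho⟩ := (C.ord r (p ^ (2 * r)) _ le_rfl).1 (C.le _ hx)
    rwa [(C.T r).nil, zero_mul] at ho
  have heq : ∀ g z, z ∈ u.lev (2 * r) → C.ι r (MonoidAlgebra.single (g * V.inc z) 1) =
      C.ι r (MonoidAlgebra.single g 1) := fun g z hz => by
    have := h0 _ (hF.lev (2 * r) g z hz)
    rwa [map_sub, sub_eq_zero] at this
  refine hF.ann (p ^ (2 * r)) _ fun μ hμ => ?_
  have hsum : ∀ m : ℕ, ∑ h ∈ μ.coeff.support,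
      C.ι r (MonoidAlgebra.single h (μ.coeff h)) * S.E r (Q.δ (y h)) ^ m = 0 := by
    intro m
    have ho : C.ι r (MonoidAlgebra.single (γ ^ m) 1 * μ * MonoidAlgebra.single (γ ^ m)⁻¹ 1) = 0 := by
      rw [map_mul, map_mul, h0 μ hμ, mul_zero, zero_mul]
    rw [e4x_sum μ, Finset.mul_sum, Finset.sum_mul, map_sum] at ho
    rw [← ho]
    refine Finset.sum_congr rfl fun h _ => ?_
    obtain ⟨z, hz, e⟩ := hγ m h
    have e1 : MonoidAlgebra.single (γ ^ m) (1 : k) * MonoidAlgebra.single h (μ.coeff h) *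
        MonoidAlgebra.single (γ ^ m)⁻¹ 1 = MonoidAlgebra.single 1 (μ.coeff h) *
          MonoidAlgebra.single (h * V.inc (u.eps r (m • y h)) * V.inc z) 1 := by
      simp only [MonoidAlgebra.single_mul_single, e, map_mul, mul_one, one_mul, mul_assoc]
    rw [e1, map_mul, heq _ _ hz, ← map_pow, ← hsm, S.E_δ, ← map_mul, ← map_mul]
    simp [MonoidAlgebra.single_mul_single]
  obtain ⟨o, ho⟩ := hc Δ μ.coeff.support (fun h => C.ι r (MonoidAlgebra.single h (μ.coeff h)))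
    (fun h => Q.δ (y h)) hsum
  have hmem : (∑ h ∈ μ.coeff.support, (θ (y h)).val • MonoidAlgebra.single h (μ.coeff h)) ∈
      C.F' (p ^ r) := by
    refine (C.ord r (p ^ r) _ (Nat.pow_le_pow_right hp.pos (by omega))).2 ⟨o, ?_⟩
    rw [map_sum]
    refine Eq.trans ?_ ho
    refine Finset.sum_congr rfl fun h _ => ?_
    rw [map_nsmul, hℓ]
    rfl
  have h1 := hw _ (antitone_nat_of_succ_le C.anti hj hmem)
  rw [map_sum] at h1
  rw [e4x_sum μ, map_sum, ← h1]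
  refine Finset.sum_congr rfl fun h _ => ?_
  rw [map_nsmul, pr_single, pr_single, nsmul_eq_mul]
  ring

end Pool.Agent.P.MP_7cb106_nt.QJ
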