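import Pool.Agent.P.MP_7cb106_nt.QJ.Iface

/-! Step E5. -/

set_option autoImplicit false

namespace Pool.Agent.P.MP_7cb106_nt.QJ

open Filter

theorem e5_zero (p : ℕ) [Fact p.Prime] (k : Type) [Field k] [CharP k p] (c : k)
    (h : ∀ ψ : k →+ ZMod p, ψ c = 0) : c = 0 := by
  let _ := ZMod.algebra k p
  exact (Module.forall_dual_apply_eq_zero_iff (ZMod p) c).1 fun f => h f.toAddMonoidHom

theorem p_E5 (hUF0 : S_UF0) (hBADS : S_BADS) :
    S_E5 := by
  intro p d _ Γ _ u k _ _ W φ hF C Q S Y hY P hP θ hθ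
  by_contra hn
  obtain ⟨lam, h1, h2⟩ := Y.exists_dual_map_eq_bot_of_notMem hn inferInstance
  have h3 : ∀ y ∈ Y, lam y = 0 := fun y hy =>
    (Submodule.mem_bot _).1 (h2 ▸ Submodule.mem_map_of_mem hy)
  obtain ⟨a, ha⟩ := Q.full lam
  obtain ⟨n, ψθ, t1, t2, t3⟩ := hθ
  refine h1 ?_
  rw [show θ = fun y => ψθ (Q.δ y) from funext t3, ← ha n ψθ t1]
  refine t2 a ((hBADS p C.ρ Q.A Q.K S.tw).2.2.1 P hP a fun r => ?_)
  obtain ⟨x0, hx0, hk⟩ := Q.dense a r
  obtain ⟨x, e1, e2⟩ : ∃ x : MonoidAlgebra k Γ, C.ι r x = S.E r x0 ∧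
      ∀ (w : Γ → k) (ψ : k →+ ZMod p) (ψA : Q.A →+ ZMod p),
        (∀ y, ψA (Q.δ y) = ψ (w (u.eps r y))) → ψ (pr w x) = ψA x0 := by
    clear hk
    induction hx0 using AddSubgroup.closure_induction with
    | mem x hx =>
      obtain ⟨y, rfl⟩ := hx
      exact ⟨_, (S.E_δ r y).symm, fun w ψ ψA h => by rw [pr_single, one_mul, h]⟩
    | zero => exact ⟨0, by simp, fun w ψ ψA _ => by simp⟩
    | add x y _ _ hx hy =>
      obtain ⟨x', a1, a2⟩ := hx
      obtain ⟨y', b1, b2⟩ := hy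
      exact ⟨x' + y', by rw [map_add, map_add, a1, b1], fun w ψ ψA h => by
        rw [map_add, map_add, map_add, a2 w ψ ψA h, b2 w ψ ψA h]⟩
    | neg x _ hx =>
      obtain ⟨x', a1, a2⟩ := hx
      exact ⟨-x', by rw [map_neg, map_neg, a1], fun w ψ ψA h => by
        rw [map_neg, map_neg, map_neg, a2 w ψ ψA h]⟩
  have hx : x ∈ φ.F (p ^ (2 * r)) := hF.perp _ x fun w hw h0 => e5_zero p k _ fun ψ => by
    have inv : ∀ g h, h ∈ u.lev (2 * r) → w (g * h) = w g := fun g h hh => by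
      have := h0 _ (hF.lev _ g h hh)
      rwa [map_sub, pr_single, pr_single, one_mul, one_mul, sub_eq_zero] at this
    obtain ⟨ψA, a1, a2⟩ := Q.func r (fun y => ψ (w (u.eps r y))) fun y z hz => by
      have b1 := u.anti _ (u.add r y z)
      have b2 : u.eps r z ∈ u.lev (2 * r) := by rw [two_mul]; exact u.mem r r z hz
      have b3 := inv (u.eps r y) _ (mul_mem b2 b1)
      rw [← mul_assoc, mul_inv_cancel_left] at b3
      exact congrArg ψ b3
    have b4 := a2 _ hk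
    rw [map_sub, sub_eq_zero] at b4
    rw [e2 w ψ ψA a1, ← b4, ha r ψA a2, funext a1]
    exact h3 _ (hY r w hw ψ)
  obtain ⟨o, ho⟩ := (C.ord r _ x le_rfl).1 (C.le _ hx)
  have b5 := S.E_K r _ hk
  rw [map_sub, sub_eq_zero] at b5
  rw [(C.T r).nil, zero_mul] at ho
  exact b5.trans (e1.symm.trans ho)

end Pool.Agent.P.MP_7cb106_nt.QJ
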