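import Pool.Agent.P.MP_7cb106_nt.QJ.Iface

/-! Step ELT. -/

set_option autoImplicit false

namespace Pool.Agent.P.MP_7cb106_nt.QJ

open Filter

theorem elt_det {O : Type} [CommRing O] [IsDomain O] {n : ℕ} {x : Matrix (Fin n) (Fin n) O}
    (h : x * x = 0) : (1 + x).det = 1 := by
  have h1 := (Matrix.isNilpotent_charpoly_sub_pow_of_isNilpotent (M := -x)
    ⟨2, by rw [pow_two, neg_mul_neg, h]⟩).eq_zero
  have h2 := Matrix.eval_charpoly (-x) 1
  rw [sub_eq_zero.1 h1, map_one, sub_neg_eq_add] at h2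
  simpa using h2.symm

theorem p_ELT :
    S_ELT := by
  intro p O _ _ n e x h hx
  let g : Cong p O n e := ⟨⟨1 + x, elt_det h⟩, (mem_Cong _).2 (by simpa using hx)⟩
  have mul : ∀ a b : Cong p O n e, mat (a * b) = mat a * mat b := fun _ _ => rfl
  have h1 : ∀ m : ℕ, mat (g ^ m) = 1 + m • x := fun m => by
    induction m with
    | zero => rw [pow_zero, zero_smul, add_zero]; rfl
    | succ m ih =>
      rw [pow_succ, mul, ih, show mat g = 1 + x from rfl, add_mul, mul_add, mul_add, smul_mul_assoc,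
        smul_mul_assoc, h, succ_nsmul]
      simp only [one_mul, mul_one, smul_zero, add_zero]
      abel
  refine ⟨g, fun m => ⟨h1 m, ?_⟩⟩
  have h2 : mat (g ^ m)⁻¹ * (1 + m • x) = 1 := by rw [← h1, ← mul, inv_mul_cancel]; rfl
  have h3 : (1 + m • x) * (1 - m • x) = 1 := by
    rw [add_mul, mul_sub, mul_sub, smul_mul_smul_comm, h]; simp
  exact left_inv_eq_right_inv h2 h3

end Pool.Agent.P.MP_7cb106_nt.QJ
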