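import Pool.Agent.P.MP_7cb106_nt.QJ.Iface

/-! Step FGEN. -/

set_option autoImplicit false

namespace Pool.Agent.P.MP_7cb106_nt.QJ

open Filter

theorem fgen_add {Γ k : Type} [Group Γ] [Field k] (f g : Γ → k) (x : MonoidAlgebra k Γ) :
    pr (f + g) x = pr f x + pr g x := by
  simp [pr, Finsupp.linearCombination_apply, Finsupp.sum, mul_add, Finset.sum_add_distrib]

theorem fgen_smul {Γ k : Type} [Group Γ] [Field k] (c : k) (f : Γ → k) (x : MonoidAlgebra k Γ) :
    pr (c • f) x = c * pr f x := by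
  simp [pr, Finsupp.linearCombination_apply, Finsupp.sum, Finset.mul_sum, mul_left_comm]

theorem p_FGEN (hD1 : S_D1) (hDUAL : S_DUAL) :
    S_FGEN := by
  intro p d _ Γ _ u k _ W
  obtain ⟨-, -, hanti, -, hJ, -⟩ := hD1 p d Γ u k
  have h1 : ∀ j, ∃ X : Submodule k (Γ → k), FiniteDimensional k X ∧
      ∀ w, w ∈ X ↔ w ∈ Wj u W j := by
    intro j
    let X : Submodule k (Γ → k) :=
      { carrier := Wj u W j
        zero_mem' := ⟨W.zero_mem, fun x _ => by
          have := fgen_smul (0 : k) (0 : Γ → k) x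
          simpa using this⟩
        add_mem' := fun ha hb => ⟨W.add_mem ha.1 hb.1, fun x hx => by
          rw [fgen_add, ha.2 x hx, hb.2 x hx, add_zero]⟩
        smul_mem' := fun c w hw => ⟨W.smul_mem c hw.1, fun x hx => by
          rw [fgen_smul, hw.2 x hx, mul_zero]⟩ }
    refine ⟨X, hDUAL.1 p d Γ u k j X fun f hf g h hh => ?_, fun w => Iff.rfl⟩
    have hp : j ≤ p ^ j := (Nat.lt_pow_self (Fact.out : p.Prime).one_lt).le
    have := hf.2 _ (hanti _ _ hp (hJ j (Submodule.subset_span ⟨g, h, hh, rfl⟩)))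
    rw [map_sub, pr_single, pr_single, one_mul, one_mul] at this
    exact sub_eq_zero.1 this
  have h2 : ∀ j f, (∀ x ∈ Fj u W j, pr f x = 0) → f ∈ Wj u W j := by
    intro j f hf
    obtain ⟨X, hX, hm⟩ := h1 j
    exact (hm f).1 (hDUAL.2.1 Γ k X hX f fun x hx =>
      hf x ((mem_Fj u W j x).2 fun w hw => hx w ((hm w).2 hw)))
  refine ⟨h1, h2, fun j x hx => hDUAL.2.2 Γ k _ x fun f hf => ?_⟩
  exact (mem_Fj u W j x).1 hx f
    ⟨(h2 (j + 1) f fun y hy => hf y (Submodule.mem_sup_right hy)).1,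
      fun y hy => hf y (Submodule.mem_sup_left hy)⟩

end Pool.Agent.P.MP_7cb106_nt.QJ
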