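import Pool.Agent.P.MP_7cb106_nt.QJ.Iface

/-! Step FIL. -/

set_option autoImplicit false

namespace Pool.Agent.P.MP_7cb106_nt.QJ

open Filter

theorem fil_pr_map {Γ k : Type} [Group Γ] [Field k] (w : Γ → k) (s : Γ →* Γ)
    (x : MonoidAlgebra k Γ) :
    pr w (MonoidAlgebra.mapDomainAlgHom k k s x) = pr (fun g => w (s g)) x := by
  induction x using MonoidAlgebra.induction_linear with
  | zero => simp
  | add x y hx hy => rw [map_add, map_add, map_add, hx, hy]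
  | single g c =>
    rw [MonoidAlgebra.mapDomainAlgHom_apply, MonoidAlgebra.mapDomain_single, pr_single, pr_single]

theorem fil_DF {p d : ℕ} [Fact p.Prime] {Γ : Type} [Group Γ] (u : UF p d Γ) {k : Type} [Field k]
    (W : Submodule k (Γ → k)) (j : ℕ) : Dfil u k j ≤ Fj u W j :=
  fun x hx => (mem_Fj u W j x).2 fun _ hw => hw.2 x hx

theorem fil_J {p d : ℕ} [Fact p.Prime] {Γ : Type} [Group Γ] (u : UF p d Γ) {k : Type} [Field k]
    {a : ℕ} {w : Γ → k} (h : u.Lv a w) : Jd u k a ≤ LinearMap.ker (pr w) := by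
  refine Submodule.span_le.2 ?_
  rintro _ ⟨g, h', hh, rfl⟩
  rw [SetLike.mem_coe, LinearMap.mem_ker, map_sub, pr_single, pr_single, h g h' hh, sub_self]

theorem p_FIL (hD1 : S_D1) (hD2 : S_D2) (hD3 : S_D3) (hFMUL : S_FMUL) (hFGEN : S_FGEN) :
    S_FIL := by
  intro p d _ Γ _ u k _ _ W hW
  obtain ⟨-, a0, a1, -, a2, a3⟩ := hD1 p d Γ u k
  obtain ⟨b0, b1, b2⟩ := hD2 p d Γ u k
  obtain ⟨c0, c1, c2⟩ := hFGEN p d Γ u k W
  have wm : ∀ i j, i ≤ j → ∀ w ∈ Wj u W i, w ∈ Wj u W j :=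
    fun i j h w hw => ⟨hw.1, fun x hx => hw.2 x (a1 i j h hx)⟩
  have anti : ∀ j, Fj u W (j + 1) ≤ Fj u W j := fun j x hx =>
    (mem_Fj u W j x).2 fun w hw => (mem_Fj u W _ x).1 hx w (wm j _ (Nat.le_succ j) w hw)
  have ex : ∀ w ∈ W, ∃ j, w ∈ Wj u W j := fun w hw => by
    obtain ⟨a, ha⟩ := hW.sm w hw
    obtain ⟨j, hj⟩ := hD3 p d Γ u k a
    exact ⟨j, hw, fun x hx => fil_J u ha (hj hx)⟩
  refine ⟨⟨Fj u W, bb u k, ?_, anti, hFMUL p d Γ u k W hW, fun i => fil_DF u W 1 (b0 i),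
    fun j => ?_, fun i l => fil_DF u W 3 (b1 i l)⟩, rfl, rfl, fun a g h hh => ?_,
    fun j f hf => (c1 j f hf).1, fun w hw => ?_, fun j x hx => ?_, fun s hs hw j x hx => ?_,
    fun j0 => ?_⟩
  · exact top_le_iff.1 (a0 ▸ fil_DF u W 0)
  · refine (c2 j).trans (sup_le ((b2 j).trans (sup_le_sup_left (fil_DF u W _) _)) le_sup_right)
  · exact fil_DF u W _ (a2 a (Submodule.subset_span ⟨g, h, hh, rfl⟩))
  · obtain ⟨j, hj⟩ := ex w hw
    exact ⟨j, fun x hx => (mem_Fj u W j x).1 hx w hj⟩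
  · exact (mem_Fj u W j x).2 fun w hw => hx w hw.1 fun x' hx' => (mem_Fj u W j x').1 hx' w hw
  · refine (mem_Fj u W j _).2 fun w h => ?_
    rw [fil_pr_map]
    refine (mem_Fj u W j x).1 hx _ ⟨hw w h.1, fun y hy => ?_⟩
    rw [← fil_pr_map]
    exact h.2 _ (a3 s hs j y hy)
  · by_contra hc
    push Not at hc
    have h1 : ∀ j, j0 ≤ j → Fj u W j0 ≤ Fj u W j := fun j hj => by
      induction j, hj using Nat.le_induction with
      | base => exact le_rfl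
      | succ j hj ih => exact ih.trans (hc j hj)
    obtain ⟨X, hX, hX'⟩ := c0 j0
    refine hW.inf (Submodule.finiteDimensional_of_le (S₂ := X) fun w hw => ?_)
    obtain ⟨j, hj⟩ := ex w hw
    refine (hX' w).2 (c1 j0 w fun x hx => ?_)
    exact (mem_Fj u W _ x).1 (h1 _ (le_max_left j0 j) hx) w (wm j _ (le_max_right j0 j) w hj)

end Pool.Agent.P.MP_7cb106_nt.QJ
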