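import Pool.Agent.P.MP_7cb106_nt.QJ.Iface2

/-! Step FILX. -/

set_option autoImplicit false

namespace Pool.Agent.P.MP_7cb106_nt.QJ

open Filter

theorem filx_add {Γ k : Type} [Group Γ] [Field k] (f g : Γ → k) (x : MonoidAlgebra k Γ) :
    pr (f + g) x = pr f x + pr g x := by
  simp [pr, Finsupp.linearCombination_apply, Finsupp.sum, mul_add, Finset.sum_add_distrib]

theorem filx_smul {Γ k : Type} [Group Γ] [Field k] (c : k) (f : Γ → k) (x : MonoidAlgebra k Γ) :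
    pr (c • f) x = c * pr f x := by
  simp [pr, Finsupp.linearCombination_apply, Finsupp.sum, Finset.mul_sum, mul_left_comm]

theorem p_FILX (hDX1 : S_DX1) (hFLX : S_FLX) (hFMULX : S_FMULX) (hDUAL : S_DUAL) :
    S_FILX := by
  intro p d _ Γ _ u Δ _ V k _ _ ψ W hW
  obtain ⟨a0, a1, -, a2, a3⟩ := hDX1 p d Γ u Δ V k
  have c0 : ∀ j, ∃ X : Submodule k (Δ → k), FiniteDimensional k X ∧
      ∀ w, w ∈ X ↔ w ∈ V.WX W j := by
    intro j
    let X : Submodule k (Δ → k) :=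
      { carrier := V.WX W j
        zero_mem' := ⟨W.zero_mem, fun x _ => by
          have := filx_smul (0 : k) (0 : Δ → k) x
          simpa using this⟩
        add_mem' := fun ha hb => ⟨W.add_mem ha.1 hb.1, fun x hx => by
          rw [filx_add, ha.2 x hx, hb.2 x hx, add_zero]⟩
        smul_mem' := fun c w hw => ⟨W.smul_mem c hw.1, fun x hx => by
          rw [filx_smul, hw.2 x hx, mul_zero]⟩ }
    refine ⟨X, (hFLX p d Γ u Δ V).2 k ψ j X fun f hf => ⟨fun g h hh => ?_, hW.eqv f hf.1⟩,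
      fun w => Iff.rfl⟩
    have hp : j ≤ p ^ j := (Nat.lt_pow_self (Fact.out : p.Prime).one_lt).le
    have := hf.2 _ (a1 _ _ hp (a2 j g h hh))
    rw [map_sub, pr_single, pr_single, one_mul, one_mul] at this
    exact sub_eq_zero.1 this
  have c1 : ∀ j f, (∀ x ∈ V.FX W j, pr f x = 0) → f ∈ V.WX W j := by
    intro j f hf
    obtain ⟨X, hX, hm⟩ := c0 j
    exact (hm f).1 (hDUAL.2.1 Δ k X hX f fun x hx =>
      hf x ((V.mem_FX W j x).2 fun w hw => hx w ((hm w).2 hw)))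
  have DF : ∀ j, V.DX k j ≤ V.FX W j :=
    fun j x hx => (V.mem_FX W j x).2 fun _ hw => hw.2 x hx
  have wm : ∀ i j, i ≤ j → ∀ w ∈ V.WX W i, w ∈ V.WX W j :=
    fun i j h w hw => ⟨hw.1, fun x hx => hw.2 x (a1 i j h hx)⟩
  have anti : ∀ j, V.FX W (j + 1) ≤ V.FX W j := fun j x hx =>
    (V.mem_FX W j x).2 fun w hw => (V.mem_FX W _ x).1 hx w (wm j _ (Nat.le_succ j) w hw)
  have ex : ∀ w ∈ W, ∃ j, w ∈ V.WX W j := fun w hw => by
    obtain ⟨a, ha⟩ := hW.sm w hw
    obtain ⟨j, hj⟩ := a3 a w ha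
    exact ⟨j, hw, hj⟩
  refine ⟨top_le_iff.1 (a0 ▸ DF 0), anti, hFMULX p d Γ u Δ V k ψ W hW, DF,
    fun a g h hh => DF _ (a2 a g h hh), fun j f hf => (c1 j f hf).1, fun w hw => ?_,
    fun j x hx => (V.mem_FX W j x).2 fun w hw => hx w hw.1,
    fun j x hx => hDUAL.2.2 Δ k _ x fun f hf => ?_, fun j0 => ?_⟩
  · obtain ⟨j, hj⟩ := ex w hw
    exact ⟨j, fun x hx => (V.mem_FX W j x).1 hx w hj⟩
  · exact (V.mem_FX W j x).1 hx f
      ⟨(c1 (j + 1) f fun y hy => hf y (Submodule.mem_sup_right hy)).1,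
        fun y hy => hf y (Submodule.mem_sup_left hy)⟩
  · by_contra hc
    push Not at hc
    have h1 : ∀ j, j0 ≤ j → V.FX W j0 ≤ V.FX W j := fun j hj => by
      induction j, hj using Nat.le_induction with
      | base => exact le_rfl
      | succ j hj ih => exact ih.trans (hc j hj)
    obtain ⟨X, hX, hX'⟩ := c0 j0
    refine hW.inf (Submodule.finiteDimensional_of_le (S₂ := X) fun w hw => ?_)
    obtain ⟨j, hj⟩ := ex w hw
    refine (hX' w).2 (c1 j0 w fun x hx => ?_)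
    exact (V.mem_FX W _ x).1 (h1 _ (le_max_left j0 j) hx) w (wm j _ (le_max_right j0 j) w hj)

end Pool.Agent.P.MP_7cb106_nt.QJ
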