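import Pool.Agent.P.MP_7cb106_nt.QJ.Iface2

/-! Step FINALX. -/

set_option autoImplicit false

namespace Pool.Agent.P.MP_7cb106_nt.QJ

open Filter

theorem p_FINALX (hMAINX : S_MAINX) (hFRAME : S_FRAME) (hUFG : S_UFG) (hADJ : S_ADJ) (hIRR : S_IRR) (hDISPV : S_DISPV) (hSEPV : S_SEPV) (hACTG : S_ACTG) (hOVER : S_OVER) (hDISPX : S_DISPX) (hSEPX : S_SEPX) (hTOPX : S_TOPX) :
    S_FINALX := by
  classical
  intro p _ O _ _ _ _ _ _ _ n U hU k _ _ ψ W hW hψ
  have hp : p.Prime := Fact.out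
  obtain ⟨⟨e0, he0⟩, htop⟩ := hTOPX p O n U hU
  let e := max e0 2
  have he : 3 ≤ p ^ e := by
    have h1 : p ^ 2 ≤ p ^ e := Nat.pow_le_pow_right hp.pos (le_max_right _ _)
    have h2 := hp.two_le
    nlinarith
  have he1 : 1 ≤ e := le_trans (by norm_num) (le_max_right e0 2)
  have heU : ∀ g : GL (Fin n) O, MD ((p : O) ^ e) (g.1 - 1) → g ∈ U := fun g hg =>
    he0 g fun i j => (pow_dvd_pow _ (le_max_left _ _)).trans (hg i j)
  obtain ⟨d, ⟨Fr⟩⟩ := hFRAME p O n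
  obtain ⟨u, hu⟩ := hUFG p O n d e Fr he
  obtain ⟨⟨ρ, hρ⟩, ⟨DD, hDD⟩, -⟩ := hADJ p O n d e Fr
  obtain ⟨a, ha1, ha2⟩ := hACTG p O n d e Fr u ρ hu hρ
  obtain ⟨t1, t2⟩ := hDISPV p O n d e Fr ρ DD he1 hρ hDD
  have hR : RigData a.onV DD := by
    rw [ha1]
    exact ⟨t1, hIRR p O n d e Fr ρ hρ, t2, hSEPV p O n d Fr DD hDD⟩
  obtain ⟨V, hV⟩ := hOVER p O n d e Fr u U he1 hu heU
  obtain ⟨ys, hys, hdisp⟩ := hDISPX p O n d e Fr u U V hu hV
  let ψ' : U → k := fun z => if h : ∃ c : Oˣ, matU z = (c : O) • 1 then ψ h.choose else 0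
  have heqv : ∀ f : U → k, (∀ (c : Oˣ) (z g : U), matU z = (c : O) • 1 → f (z * g) = ψ c * f g) →
      V.Eqv ψ' f := by
    intro f hf z hz g
    have h := (hV.2 z).1 hz
    simp only [ψ', dif_pos h]
    exact hf _ z g h.choose_spec
  have hsm : ∀ f : LocallyConstant U k, ∃ b, V.Lv b (f : U → k) := by
    intro f
    obtain ⟨b, hb⟩ := htop k f f.isLocallyConstant
    refine ⟨b, fun g h hh => hb g _ fun i j => ?_⟩
    rw [hV.1]
    exact (pow_dvd_pow _ (Nat.le_add_left b e)).trans ((hu.1 b h).1 hh i j)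
  let L : LocallyConstant U k →ₗ[k] (U → k) := LocallyConstant.coeFnₗ k
  have hL : Function.Injective L := fun f g h => LocallyConstant.coe_injective h
  by_cases hfin : FiniteDimensional k W
  · exact Or.inl hfin
  · right
    have hN : V.Nice ψ' (W.map L) := by
      refine ⟨?_, ?_, ?_, ?_⟩
      · rintro _ ⟨w, -, rfl⟩
        exact hsm w
      · rintro _ ⟨w, hw, rfl⟩
        exact heqv _ (hψ w hw)
      · rintro _ ⟨w, hw, rfl⟩ x y
        obtain ⟨w', hw', h⟩ := hW w hw x y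
        exact ⟨w', hw', funext h⟩
      · intro h
        exact hfin ((Submodule.equivMapOfInjective L hL W).symm.finiteDimensional)
    intro f hf
    obtain ⟨b, hb⟩ := hsm f
    obtain ⟨w, hw, h⟩ := hMAINX p d _ u U V k ψ' a DD ys ha2 hR hdisp
      (hSEPX p O n d e Fr u U V ys he1 hu heU hV hys) _ hN b f hb (heqv _ hf)
    rwa [← hL h]

end Pool.Agent.P.MP_7cb106_nt.QJ
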