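import Pool.Agent.P.MP_7cb106_nt.QJ.Iface

/-! Step FINV. -/

set_option autoImplicit false

namespace Pool.Agent.P.MP_7cb106_nt.QJ

open Filter

theorem finv_dv {p d : ℕ} [Fact p.Prime] (n : ℕ) (y y' : VV p d) :
    Dv n (y - y') ↔ (fun i => PadicInt.toZModPow n (y i)) = fun i => PadicInt.toZModPow n (y' i) := by
  rw [funext_iff]
  refine forall_congr' fun i => ?_
  rw [← Ideal.mem_span_singleton, ← PadicInt.ker_toZModPow, Pi.sub_apply, RingHom.sub_mem_ker_iff]

theorem p_FINV :
    S_FINV := by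
  intro p d hp n
  classical
  have : NeZero (p ^ n) := ⟨pow_ne_zero _ hp.out.ne_zero⟩
  let s : (Fin d → ZMod (p ^ n)) → VV p d := fun x i => ((x i).val : ℤ_[p])
  have hs : ∀ x, (fun i => PadicInt.toZModPow n (s x i)) = x := fun x => funext fun i => by
    simp only [s, map_natCast, ZMod.natCast_zmod_val]
  have h1 : ∀ y : VV p d, Dv n (y - s fun i => PadicInt.toZModPow n (y i)) := fun y => by
    rw [finv_dv, hs]
  refine ⟨Set.Finite.of_finite_image (f := fun θ => θ ∘ s) (Set.toFinite _)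
    fun θ a θ' b e => funext fun y => ?_, Finset.univ.image s,
    fun y => ⟨_, Finset.mem_image_of_mem s (Finset.mem_univ _), h1 y⟩, fun y a y' b e => ?_⟩
  · have h2 := a (s fun i => PadicInt.toZModPow n (y i)) _ (h1 y)
    have h3 := b (s fun i => PadicInt.toZModPow n (y i)) _ (h1 y)
    rw [add_sub_cancel] at h2 h3
    exact h2.trans ((congrFun e _).trans h3.symm)
  · obtain ⟨x, -, rfl⟩ := Finset.mem_image.1 a
    obtain ⟨x', -, rfl⟩ := Finset.mem_image.1 b
    rw [finv_dv, hs, hs] at e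
    rw [e]

end Pool.Agent.P.MP_7cb106_nt.QJ
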