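import Pool.Agent.P.MP_7cb106_nt.QJ.Iface2

/-! Step FIXX. -/

set_option autoImplicit false

namespace Pool.Agent.P.MP_7cb106_nt.QJ

open Filter

theorem fixx_pr {Γ k : Type} [Group Γ] [Field k] (w : Γ → k) (h : Γ) (x : MonoidAlgebra k Γ) :
    pr ((fun g => w (1 * g * h)) - w) x = pr w (x * (MonoidAlgebra.single h 1 - 1)) := by
  induction x using MonoidAlgebra.induction_linear with
  | zero => simp
  | add x y hx hy => rw [add_mul, map_add, map_add, hx, hy]
  | single g c =>
    rw [mul_sub, mul_one, MonoidAlgebra.single_mul_single, map_sub, pr_single, pr_single,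
      pr_single]
    simp [mul_sub]

theorem p_FIXX (hFILX : S_FILX) :
    S_FIXX := by
  intro p d hp Γ _ u Δ _ V k _ _ ψ W hW
  have hφ := hFILX p d Γ u Δ V k ψ W hW
  by_contra h1
  have key : ∀ j, ∀ w ∈ W, (∀ x ∈ V.FX W j, pr w x = 0) → w = 0 := by
    intro j
    induction j with
    | zero =>
      intro w _ h
      refine funext fun g => ?_
      have := h (MonoidAlgebra.single g 1) (by rw [hφ.zero]; trivial)
      rwa [pr_single, one_mul] at this
    | succ j ih =>
      intro w hw h
      have h2 : ∀ g a, w (g * V.inc a) = w g := fun g a => by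
        have h3 := ih _ (W.sub_mem (hW.inv w hw 1 (V.inc a)) hw) fun x hx => by
          rw [fixx_pr]
          refine h _ (hφ.mul j 1 _ _ hx ?_)
          have := hφ.lev 0 1 a (by rw [u.lev_zero]; trivial)
          rwa [one_mul, pow_zero] at this
        simpa [sub_eq_zero] using congrFun h3 g
      refine funext fun g => by_contra fun h5 => h1
        ⟨_, W.smul_mem (w g)⁻¹ (hW.inv w hw g 1), fun x a _ => ?_, ?_⟩
      · simp only [Pi.smul_apply, mul_one, ← mul_assoc, h2]
      · simp only [Pi.smul_apply, mul_one, smul_eq_mul]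
        exact inv_mul_cancel₀ h5
  refine hW.inf ?_
  have : W = ⊥ := (Submodule.eq_bot_iff W).2 fun w hw => by
    obtain ⟨j, hj⟩ := hφ.exh w hw
    exact key j w hw hj
  rw [this]
  infer_instance

end Pool.Agent.P.MP_7cb106_nt.QJ
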