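import Pool.Agent.P.MP_7cb106_nt.QJ.Iface2

/-! Step FLX. -/

set_option autoImplicit false

namespace Pool.Agent.P.MP_7cb106_nt.QJ

open Filter

theorem p_FLX (hUF0 : S_UF0) :
    S_FLX := by
  intro p d _ Γ _ u Δ _ V
  obtain ⟨-, -, hfin, -⟩ := hUF0 p d Γ u
  have hZ : V.Z.Normal := ⟨fun z hz δ => by
    rw [← V.cen z hz δ, mul_inv_cancel_right]; exact hz⟩
  have h1 : ∀ a, ((u.lev a).map V.inc ⊔ V.Z).FiniteIndex ∧ ((u.lev a).map V.inc ⊔ V.Z).Normal ∧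
      ∀ g, g ∈ (u.lev a).map V.inc ⊔ V.Z ↔ ∃ h ∈ u.lev a, ∃ z ∈ V.Z, g = z * V.inc h := by
    intro a
    have hL : ((u.lev a).map V.inc).Normal := ⟨by
      rintro _ ⟨h, hh, rfl⟩ δ
      exact ⟨V.cj δ h, V.lev δ a h hh, V.cj_eq δ h⟩⟩
    have hN : ((u.lev a).map V.inc ⊔ V.Z).Normal := Subgroup.sup_normal _ _
    refine ⟨⟨?_⟩, hN, fun g => ?_⟩
    · have e : V.inc.range ⊔ V.Z = V.inc.range ⊔ ((u.lev a).map V.inc ⊔ V.Z) := by
        rw [← sup_assoc, sup_eq_left.2 (Subgroup.map_le_range _ _)]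
      have hle : (u.lev a).map V.inc ⊔ V.Z ≤ V.inc.range ⊔ V.Z := e ▸ le_sup_right
      rw [← Subgroup.relIndex_mul_index hle]
      refine mul_ne_zero ?_ V.fin.index_ne_zero
      rw [e, Subgroup.relIndex_sup_right, ← Subgroup.index_comap]
      have := hfin a
      have hc : u.lev a ≤ ((u.lev a).map V.inc ⊔ V.Z).comap V.inc := fun h hh =>
        Subgroup.mem_comap.2 (Subgroup.mem_sup_left (Subgroup.mem_map_of_mem _ hh))
      exact (Subgroup.finiteIndex_of_le hc).index_ne_zero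
    · rw [Subgroup.mem_sup_of_normal_right]
      constructor
      · rintro ⟨_, ⟨h, hh, rfl⟩, z, hz, rfl⟩
        exact ⟨h, hh, z, hz, (V.cen z hz _).symm⟩
      · rintro ⟨h, hh, z, hz, rfl⟩
        exact ⟨_, ⟨h, hh, rfl⟩, z, hz, (V.cen z hz _).symm⟩
  refine ⟨h1, fun k _ ψ a X hX => ?_⟩
  obtain ⟨hF, -, hm⟩ := h1 a
  let φ : X →ₗ[k] ((Δ ⧸ ((u.lev a).map V.inc ⊔ V.Z)) → k) :=
    { toFun := fun f c => f.1 c.out
      map_add' := fun _ _ => rfl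
      map_smul' := fun _ _ => rfl }
  refine FiniteDimensional.of_injective φ ((injective_iff_map_eq_zero φ).2 fun f hf => ?_)
  refine Subtype.ext (funext fun g => ?_)
  obtain ⟨n, hn⟩ := QuotientGroup.mk_out_eq_mul ((u.lev a).map V.inc ⊔ V.Z) g
  obtain ⟨h, hh, z, hz, e⟩ := (hm _).1 (inv_mem n.2)
  have h0 : f.1 (g * n) = 0 := hn ▸ congrFun hf (QuotientGroup.mk g)
  have e2 : g = z * (g * n) * V.inc h := by
    rw [V.cen z hz, mul_assoc, ← e, mul_inv_cancel_right]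
  change f.1 g = 0
  rw [e2, (hX f.1 f.2).1 _ h hh, (hX f.1 f.2).2 z hz, h0, mul_zero]

end Pool.Agent.P.MP_7cb106_nt.QJ
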