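import Pool.Agent.P.MP_7cb106_nt.QJ.Iface

/-! Step FMUL. -/

set_option autoImplicit false

namespace Pool.Agent.P.MP_7cb106_nt.QJ

open Filter

lemma fmul_add {Γ k : Type} [Field k] (w w' : Γ → k) (x : MonoidAlgebra k Γ) :
    pr (w + w') x = pr w x + pr w' x := by
  induction x using MonoidAlgebra.induction_linear with
  | zero => simp
  | add a b ha hb => simp only [map_add, ha, hb]; ring
  | single g c => simp only [pr_single, Pi.add_apply]; ring

lemma fmul_right {Γ k : Type} [Group Γ] [Field k] (W : Submodule k (Γ → k))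
    (inv : ∀ w ∈ W, ∀ a b : Γ, (fun g => w (a * g * b)) ∈ W) (w : Γ → k) (hw : w ∈ W)
    (ν : MonoidAlgebra k Γ) : ∃ w' ∈ W, ∀ x, pr w' x = pr w (x * ν) := by
  induction ν using MonoidAlgebra.induction_linear with
  | zero =>
    refine ⟨0, W.zero_mem, fun x => ?_⟩
    have := fmul_add (0 : Γ → k) 0 x
    rw [add_zero] at this
    rw [mul_zero, map_zero]
    exact left_eq_add.1 this
  | add a b ha hb =>
    obtain ⟨u, hu, e⟩ := ha
    obtain ⟨v, hv, e'⟩ := hb
    exact ⟨u + v, W.add_mem hu hv, fun x => by rw [fmul_add, e, e', mul_add, map_add]⟩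
  | single g c =>
    refine ⟨c • fun h => w (1 * h * g), W.smul_mem c (inv w hw 1 g), fun x => ?_⟩
    induction x using MonoidAlgebra.induction_linear with
    | zero => simp
    | add a b ha hb => rw [map_add, ha, hb, add_mul, map_add]
    | single h c' =>
      rw [MonoidAlgebra.single_mul_single, pr_single, pr_single]
      simp [mul_assoc]

lemma fmul_left {Γ k : Type} [Group Γ] [Field k] (W : Submodule k (Γ → k))
    (inv : ∀ w ∈ W, ∀ a b : Γ, (fun g => w (a * g * b)) ∈ W) (w : Γ → k) (hw : w ∈ W)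
    (ν : MonoidAlgebra k Γ) : ∃ w' ∈ W, ∀ x, pr w' x = pr w (ν * x) := by
  induction ν using MonoidAlgebra.induction_linear with
  | zero =>
    refine ⟨0, W.zero_mem, fun x => ?_⟩
    have := fmul_add (0 : Γ → k) 0 x
    rw [add_zero] at this
    rw [zero_mul, map_zero]
    exact left_eq_add.1 this
  | add a b ha hb =>
    obtain ⟨u, hu, e⟩ := ha
    obtain ⟨v, hv, e'⟩ := hb
    exact ⟨u + v, W.add_mem hu hv, fun x => by rw [fmul_add, e, e', add_mul, map_add]⟩
  | single g c =>
    refine ⟨c • fun h => w (g * h * 1), W.smul_mem c (inv w hw g 1), fun x => ?_⟩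
    induction x using MonoidAlgebra.induction_linear with
    | zero => simp
    | add a b ha hb => rw [map_add, ha, hb, mul_add, map_add]
    | single h c' =>
      rw [MonoidAlgebra.single_mul_single, pr_single, pr_single]
      simp [mul_assoc, mul_left_comm]

theorem p_FMUL (hD1 : S_D1) :
    S_FMUL := by
  intro p d _ Γ _ u k _ W hW i j x y hx hy
  rw [mem_Fj] at hx hy ⊢
  rintro w ⟨hw, hw0⟩
  obtain ⟨w', hw', e⟩ := fmul_right W hW.inv w hw y
  rw [← e]
  refine hx w' ⟨hw', fun α hα => ?_⟩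
  obtain ⟨w'', hw'', e'⟩ := fmul_left W hW.inv w hw α
  rw [e, ← e']
  refine hy w'' ⟨hw'', fun β hβ => ?_⟩
  rw [e']
  exact hw0 _ ((hD1 p d Γ u k).2.2.2.1 i j α β hα hβ)

end Pool.Agent.P.MP_7cb106_nt.QJ
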