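import Pool.Agent.P.MP_7cb106_nt.QJ.Iface

/-! Step FR1. -/

set_option autoImplicit false

namespace Pool.Agent.P.MP_7cb106_nt.QJ

open Filter

section
variable {k R : Type} [Field k] [Ring R] [Algebra k R] {d : ℕ} (φ : FR k R d)

theorem fr1_mul {i j n : ℕ} {x y : R} (hx : x ∈ φ.F i) (hy : y ∈ φ.F j) (e : i + j = n) :
    x * y ∈ φ.F n := e ▸ φ.mul i j x y hx hy

theorem fr1_ind (D : R →ₗ[k] R) (s : ℕ) (ha : ∀ j x, x ∈ φ.F j → D x ∈ φ.F (j + s))
    (hb : D 1 = 0)
    (hc : ∀ i j x, x ∈ φ.F j → D x ∈ φ.F (j + s + 1) → D (φ.b i * x) ∈ φ.F (j + s + 2))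
    (j : ℕ) (x : R) (hx : x ∈ φ.F j) : D x ∈ φ.F (j + s + 1) := by
  have key : ∀ j, Mon k φ.b j ≤ φ.F j ⊓ (φ.F (j + s + 1)).comap D := by
    intro j
    induction j with
    | zero =>
      rw [Mon, pow_zero, Submodule.one_le]
      exact ⟨by rw [φ.zero]; trivial, by
        change D 1 ∈ φ.F _
        rw [hb]; exact zero_mem _⟩
    | succ j ih =>
      rw [Mon, pow_succ', Submodule.mul_le]
      intro m hm n hn
      obtain ⟨h1, h2⟩ := ih hn
      have : Submodule.span k (Set.range φ.b) ≤ (φ.F (j + 1) ⊓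
          (φ.F (j + 1 + s + 1)).comap D).comap (LinearMap.mulRight k n) := by
        rw [Submodule.span_le]
        rintro _ ⟨i, rfl⟩
        refine ⟨fr1_mul φ (φ.bmem i) h1 (add_comm _ _), ?_⟩
        have := hc i j n h1 h2
        rwa [show j + s + 2 = j + 1 + s + 1 by omega] at this
      exact this hm
  obtain ⟨m, hm, x', hx', rfl⟩ := Submodule.mem_sup.1 (φ.gen j hx)
  rw [map_add]
  refine add_mem (key j hm).2 ?_
  have := ha _ _ hx'
  rwa [show j + 1 + s = j + s + 1 by omega] at this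

theorem fr1_one (l : Fin d) (j : ℕ) (x : R) (hx : x ∈ φ.F j) :
    φ.b l * x - x * φ.b l ∈ φ.F (j + 1 + 1) := by
  refine fr1_ind φ (LinearMap.mulLeft k (φ.b l) - LinearMap.mulRight k (φ.b l)) 1
    (fun j x hx => ?_) (by simp) (fun i j x hx h => ?_) j x hx
  · exact sub_mem (fr1_mul φ (φ.bmem l) hx (add_comm _ _)) (fr1_mul φ hx (φ.bmem l) rfl)
  · change φ.b l * (φ.b i * x) - φ.b i * x * φ.b l ∈ _
    rw [show φ.b l * (φ.b i * x) - φ.b i * x * φ.b l = (φ.b l * φ.b i - φ.b i * φ.b l) * x +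
      φ.b i * (φ.b l * x - x * φ.b l) by noncomm_ring]
    exact add_mem (fr1_mul φ (φ.comm l i) hx (by omega)) (fr1_mul φ (φ.bmem i) h (by omega))

end

theorem p_FR1 :
    S_FR1 := by
  intro k R _ _ _ d φ
  refine ⟨fun i j x y hx hy => ?_, fun σ hσ j x hx => ?_⟩
  · refine fr1_ind φ (LinearMap.mulRight k y - LinearMap.mulLeft k y) j
      (fun n x hx => ?_) (by simp) (fun l n x hx h => ?_) i x hx
    · exact sub_mem (fr1_mul φ hx hy rfl) (fr1_mul φ hy hx (add_comm _ _))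
    · change φ.b l * x * y - y * (φ.b l * x) ∈ _
      rw [show φ.b l * x * y - y * (φ.b l * x) = φ.b l * (x * y - y * x) +
        (φ.b l * y - y * φ.b l) * x by noncomm_ring]
      exact add_mem (fr1_mul φ (φ.bmem l) h (by omega))
        (fr1_mul φ (fr1_one φ l j y hy) hx (by omega))
  · refine fr1_ind φ (σ.toLinearMap - LinearMap.id) 0
      (fun n x hx => ?_) (by simp) (fun l n x hx h => ?_) j x hx
    · exact sub_mem (hσ.1 n x hx) hx
    · change σ (φ.b l * x) - φ.b l * x ∈ _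
      rw [map_mul, show σ (φ.b l) * σ x - φ.b l * x = (σ (φ.b l) - φ.b l) * σ x +
        φ.b l * (σ x - x) by noncomm_ring]
      exact add_mem (fr1_mul φ (hσ.2 l) (hσ.1 n x hx) (by omega))
        (fr1_mul φ (φ.bmem l) h (by omega))

end Pool.Agent.P.MP_7cb106_nt.QJ
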