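import Pool.Agent.P.MP_7cb106_nt.QJ.Iface

/-! Step FRAME. -/

set_option autoImplicit false

namespace Pool.Agent.P.MP_7cb106_nt.QJ

open Filter

theorem frame_span {O : Type} [CommRing O] {n : ℕ} (S : AddSubgroup (Matrix (Fin n) (Fin n) O))
    (hS : ∀ x : Matrix (Fin n) (Fin n) O, x * x = 0 → x.trace = 0 → x ∈ S)
    (M : Matrix (Fin n) (Fin n) O) (hM : M.trace = 0) : M ∈ S := by
  rcases Nat.eq_zero_or_pos n with rfl | hn
  · rw [Subsingleton.elim M 0]; exact S.zero_mem
  let o : Fin n := ⟨0, hn⟩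
  have h1 : ∀ (i j : Fin n) (w : O), i ≠ j → Matrix.single i j w ∈ S := fun i j w h =>
    hS _ (Matrix.single_mul_single_of_ne _ _ _ _ h.symm _) (Matrix.trace_single_eq_of_ne _ _ _ h)
  have h2 : ∀ (i : Fin n) (w : O), Matrix.single i i w - Matrix.single o o w ∈ S := by
    intro i w
    by_cases h : i = o
    · rw [h, sub_self]; exact S.zero_mem
    have h3 : Matrix.single i i w - Matrix.single o o w + Matrix.single i o w
        - Matrix.single o i w ∈ S := by
      apply hS
      · simp only [mul_sub, sub_mul, mul_add, add_mul, Matrix.single_mul_single_same,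
          Matrix.single_mul_single_of_ne _ _ _ _ h, Matrix.single_mul_single_of_ne _ _ _ _ (Ne.symm h)]
        abel
      · simp [Matrix.trace_single_eq_of_ne _ _ _ h, Matrix.trace_single_eq_of_ne _ _ _ (Ne.symm h)]
    have h4 := S.add_mem (S.sub_mem h3 (h1 i o w h)) (h1 o i w (Ne.symm h))
    convert h4 using 1
    abel
  have h5 : M = ∑ i, ∑ j, (Matrix.single i j (M i j) -
      if i = j then Matrix.single o o (M i j) else 0) := by
    simp only [Finset.sum_sub_distrib, Finset.sum_ite_eq, Finset.mem_univ, if_true]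
    rw [← Matrix.matrix_eq_sum_single]
    have : ∑ i, Matrix.single o o (M i i) = Matrix.single o o M.trace :=
      (map_sum (Matrix.singleAddMonoidHom (α := O) o o) (fun i => M i i) Finset.univ).symm
    rw [this, hM, Matrix.single_zero, sub_zero]
  rw [h5]
  refine S.sum_mem fun i _ => S.sum_mem fun j _ => ?_
  split_ifs with h
  · subst h; exact h2 _ _
  · rw [sub_zero]; exact h1 _ _ _ h

theorem p_FRAME :
    S_FRAME := by
  intro p hp O _ _ _ _ _ n
  let sl : Submodule ℤ_[p] (Matrix (Fin n) (Fin n) O) :=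
    LinearMap.ker (Matrix.traceLinearMap (Fin n) ℤ_[p] O)
  have hsl : ∀ M, M ∈ sl ↔ M.trace = 0 := fun M => Iff.rfl
  have : Module.FinitePresentation ℤ_[p] sl := Module.finitePresentation_of_finite _ _
  let v : {x : sl // x.1 * x.1 = 0} → sl := fun x => x.1
  have hv : Submodule.span ℤ_[p] (Set.range v) = ⊤ := by
    rw [eq_top_iff]
    rintro ⟨M, hM⟩ -
    have := frame_span ((Submodule.span ℤ_[p] (Set.range v)).map sl.subtype).toAddSubgroup
      (fun x h1 h2 => ⟨⟨x, h2⟩, Submodule.subset_span ⟨⟨⟨x, h2⟩, h1⟩, rfl⟩, rfl⟩) M hM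
    obtain ⟨y, hy, rfl⟩ := this
    exact hy
  obtain ⟨κ, a, b, hb⟩ := Module.exists_basis_of_span_of_flat v hv
  have : Finite κ := Module.Finite.finite_basis b
  have : Fintype κ := Fintype.ofFinite κ
  let b' := b.reindex (Fintype.equivFin κ)
  let c : VV p (Fintype.card κ) →ₗ[ℤ_[p]] Matrix (Fin n) (Fin n) O :=
    sl.subtype ∘ₗ b'.equivFun.symm.toLinearMap
  have hinj : Function.Injective c := sl.injective_subtype.comp b'.equivFun.symm.injective
  have hrange : ∀ M, (∃ y, c y = M) ↔ M.trace = 0 := by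
    intro M
    constructor
    · rintro ⟨y, rfl⟩
      exact (b'.equivFun.symm y).2
    · intro h
      exact ⟨b'.equivFun ⟨M, h⟩, by simp [c]⟩
  have hpa : ∀ (a : ℕ) (M : Matrix (Fin n) (Fin n) O),
      ((p : ℤ_[p]) ^ a) • M = ((p : O) ^ a) • M := by
    intro a M
    rw [← algebraMap_smul O ((p : ℤ_[p]) ^ a) M, map_pow, map_natCast]
  refine ⟨Fintype.card κ, ⟨⟨c, hinj, hrange, ?_, ?_⟩⟩⟩
  · intro i
    have : c (Pi.single i 1) = (a ((Fintype.equivFin κ).symm i)).1.1 := by
      simp [c, b', hb, v, Pi.single_apply]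
    rw [this]
    exact (a _).2
  · intro a y
    constructor
    · intro h
      choose z hz using h
      have : y = ((p : ℤ_[p]) ^ a) • z := funext fun i => hz i
      rw [this, map_smul, hpa]
      intro i j
      exact ⟨_, rfl⟩
    · intro h
      choose N hN using h
      have h1 : c y = ((p : ℤ_[p]) ^ a) • Matrix.of N := by
        rw [hpa]; ext i j; exact hN i j
      have h2 : (Matrix.of N).trace = 0 := by
        have h3 := (hrange (c y)).1 ⟨y, rfl⟩
        rw [h1, Matrix.trace_smul] at h3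
        exact (smul_eq_zero.1 h3).resolve_left (pow_ne_zero _ (by exact_mod_cast hp.out.ne_zero))
      obtain ⟨z, hz⟩ := (hrange _).2 h2
      have h4 : y = ((p : ℤ_[p]) ^ a) • z := hinj (by rw [map_smul, hz, h1])
      intro i
      exact ⟨z i, by rw [h4]; rfl⟩

end Pool.Agent.P.MP_7cb106_nt.QJ
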