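import Pool.Agent.P.MP_7cb106_nt.QJ.Iface

/-! Step FROB. -/

set_option autoImplicit false

namespace Pool.Agent.P.MP_7cb106_nt.QJ

open Filter

theorem frob_pr {p : ℕ} [Fact p.Prime] {Γ : Type} [CommGroup Γ] (w : Γ → ZMod p) (r : ℕ)
    (x : MonoidAlgebra (ZMod p) Γ) : pr (fun g => w (g ^ p ^ r)) x = pr w (x ^ p ^ r) := by
  have : CharP (MonoidAlgebra (ZMod p) Γ) p :=
    charP_of_injective_algebraMap (algebraMap (ZMod p) (MonoidAlgebra (ZMod p) Γ)).injective p
  induction x using MonoidAlgebra.induction_linear with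
  | zero => rw [zero_pow (pow_ne_zero _ (Fact.out : p.Prime).ne_zero), map_zero, map_zero]
  | add x y hx hy => rw [add_pow_char_pow, map_add, map_add, hx, hy]
  | single g c => rw [MonoidAlgebra.single_pow, pr_single, pr_single, ZMod.pow_card_pow]

theorem p_FROB (hFIL : S_FIL) :
    S_FROB := by
  intro p d _ Γ _ u W hW w hw r
  obtain ⟨φ, hφ⟩ := hFIL p d Γ u (ZMod p) W hW
  obtain ⟨j, hj⟩ := hφ.exh w hw
  refine hφ.ann j _ fun x hx => ?_
  obtain ⟨m, hm⟩ := Nat.exists_eq_succ_of_ne_zero (pow_ne_zero r (Fact.out : p.Prime).ne_zero)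
  rw [frob_pr, hm, pow_succ']
  exact hj _ (φ.mul j 0 x _ hx (by rw [φ.zero]; trivial))

end Pool.Agent.P.MP_7cb106_nt.QJ
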