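import Pool.Agent.P.MP_7cb106_nt.QJ.Iface

/-! Step IRR. -/

set_option autoImplicit false

namespace Pool.Agent.P.MP_7cb106_nt.QJ

open Filter

theorem p_IRR (hELT : S_ELT) (hSIMP : S_SIMP) :
    S_IRR := by
  intro p hp O _ _ _ _ _ n d e Fr ρ hρ H hH h hst hne
  have key : ∀ i, ∀ y ∈ h, (2 * H.index.factorial * p ^ e) •
      (Fr.bs i * Fr.c y - Fr.c y * Fr.bs i) ∈ h.map Fr.c := by
    intro i y hy
    obtain ⟨g, hg⟩ := hELT p O n e ((p ^ e : ℕ) • Fr.bs i)
      (by rw [smul_mul_smul_comm, Frame.bs, Fr.sq, smul_zero])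
      (fun a b => by simp)
    have hm : g ^ H.index.factorial ∈ H :=
      Subgroup.pow_mem_of_index_ne_zero_of_dvd hH.index_ne_zero g fun m h0 h1 =>
        Nat.dvd_factorial h0 h1
    refine ⟨_, h.sub_mem (hst _ hm y hy) (hst _ (H.inv_mem hm) y hy), ?_⟩
    rw [map_sub, hρ, hρ, inv_inv, (hg _).1, (hg _).2, smul_smul, mul_assoc 2]
    generalize H.index.factorial * p ^ e = N
    simp only [add_mul, sub_mul, mul_add, mul_sub, one_mul, mul_one, smul_mul_assoc,
      mul_smul_comm, mul_smul, smul_sub, smul_add, two_smul]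
    abel
  obtain ⟨c, hc⟩ := hSIMP p O n (h.map Fr.c) (2 * H.index.factorial * p ^ e)
    (mul_ne_zero (mul_ne_zero two_ne_zero (Nat.factorial_ne_zero _))
      (pow_ne_zero _ hp.out.ne_zero))
    (fun e0 => hne (eq_bot_iff.2 fun y hy => Fr.inj (by
      rw [map_zero]; exact (Submodule.eq_bot_iff _).1 e0 _ ⟨y, hy, rfl⟩)))
    (by rintro _ ⟨y, -, rfl⟩; exact (Fr.range _).1 ⟨y, rfl⟩)
    (by
      rintro _ ⟨y, hy, rfl⟩ x hx
      obtain ⟨y', rfl⟩ := (Fr.range x).2 hx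
      have e1 : Fr.c y' = ∑ i, y' i • Fr.bs i := by
        conv_lhs => rw [pi_eq_sum_univ' y']
        simp only [map_sum, map_smul, Frame.bs]
      rw [e1, Finset.sum_mul, Finset.mul_sum, ← Finset.sum_sub_distrib, Finset.smul_sum]
      refine Submodule.sum_mem _ fun i _ => ?_
      rw [smul_mul_assoc, mul_smul_comm, ← smul_sub, smul_comm]
      exact Submodule.smul_mem _ _ (key i y hy))
  refine ⟨c, fun y hy => ?_⟩
  choose y' hy' using hy
  obtain ⟨z, hz, e1⟩ := hc (Fr.c y') ((Fr.range _).1 ⟨y', rfl⟩)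
  have e2 : y = (p : ℤ_[p]) ^ c • y' := funext hy'
  have e3 : Fr.c z = Fr.c y := by
    rw [e1, e2, map_smul, ← algebraMap_smul O ((p : ℤ_[p]) ^ c), map_pow, map_natCast]
  exact Fr.inj e3 ▸ hz

end Pool.Agent.P.MP_7cb106_nt.QJ
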