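import Pool.Agent.P.MP_7cb106_nt.QJ.Iface

/-! Step LENQ. -/

set_option autoImplicit false

namespace Pool.Agent.P.MP_7cb106_nt.QJ

open Filter

theorem lenq_mul {O : Type} [Ring O] (t a : O) :
    Module.length O (O ⧸ Submodule.span O {t * a}) ≤
      Module.length O (O ⧸ Submodule.span O {t}) + Module.length O (O ⧸ Submodule.span O {a}) := by
  have hle : Submodule.span O {t * a} ≤ Submodule.span O {a} :=
    (Submodule.span_singleton_le_iff_mem _ _).2 (Submodule.mem_span_singleton.2 ⟨t, rfl⟩)
  let g := Submodule.factor hle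
  let f : (O ⧸ Submodule.span O {t}) →ₗ[O] O ⧸ Submodule.span O {t * a} :=
    Submodule.mapQ _ _ (LinearMap.toSpanSingleton O O a)
      ((Submodule.span_singleton_le_iff_mem _ _).2 (Submodule.mem_span_singleton_self _))
  have hr : LinearMap.range f = LinearMap.ker g := by
    apply le_antisymm
    · rintro _ ⟨x, rfl⟩
      obtain ⟨o, rfl⟩ := Submodule.mkQ_surjective _ x
      exact (Submodule.Quotient.mk_eq_zero _).2 (Submodule.mem_span_singleton.2 ⟨o, rfl⟩)
    · intro x hx
      obtain ⟨y, rfl⟩ := Submodule.mkQ_surjective _ x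
      obtain ⟨o, rfl⟩ := Submodule.mem_span_singleton.1 ((Submodule.Quotient.mk_eq_zero _).1 hx)
      exact ⟨Submodule.Quotient.mk o, rfl⟩
  rw [Module.length_eq_add_of_exact (LinearMap.ker g).subtype g (Submodule.subtype_injective _)
    (Submodule.factor_surjective hle) (LinearMap.exact_subtype_ker_map g), ← hr]
  gcongr
  exact Module.length_le_of_surjective f.rangeRestrict f.surjective_rangeRestrict

theorem p_LENQ :
    S_LENQ := by
  intro ρ N T L
  induction L with
  | zero =>
    have : Subsingleton (T.O ⧸ Submodule.span T.O {T.t ^ 0}) := by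
      rw [pow_zero, Submodule.Quotient.subsingleton_iff]
      exact Ideal.span_singleton_one
    simp
  | succ L ih =>
    rw [pow_succ', Nat.mul_succ, add_comm, Nat.cast_add]
    exact (lenq_mul _ _).trans (add_le_add T.len ih)

end Pool.Agent.P.MP_7cb106_nt.QJ
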