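import Pool.Agent.P.MP_7cb106_nt.QJ.Iface3

/-! Step LEVX. -/

set_option autoImplicit false

namespace Pool.Agent.P.MP_7cb106_nt.QJ

open Filter

theorem levx_pow {Q : Type} [Ring Q] (p : ℕ) [hp : Fact p.Prime] (hpQ : (p : Q) = 0)
    (t : Q) (N : ℕ) (htN : t ^ N = 0) (htc : ∀ x, t * x = x * t) (s : Q)
    (hcomm : ∀ y : Q, ∃ z, s * y - y * s = t * z) (y : Q) :
    s ^ (p ^ N) * y = y * s ^ (p ^ N) := by
  rcases subsingleton_or_nontrivial Q with hQ | hQ
  · exact Subsingleton.elim _ _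
  let L : Module.End ℤ Q := LinearMap.mulLeft ℤ s
  let R : Module.End ℤ Q := LinearMap.mulRight ℤ s
  have hLR : Commute L R := by
    ext x
    simp [L, R, mul_assoc]
  have : Nontrivial (Module.End ℤ Q) := by
    refine ⟨0, 1, fun h => ?_⟩
    have := congrArg (fun f : Module.End ℤ Q => f 1) h
    simp at this
  have : CharP (Module.End ℤ Q) p := by
    refine (CharP.charP_iff_prime_eq_zero hp.out).2 ?_
    ext x
    simp [hpQ]
  have h1 : ∀ n : ℕ, ∀ x : Q, ∃ z, ((L - R) ^ n) x = t ^ n * z := by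
    intro n
    induction n with
    | zero => intro x; exact ⟨x, by simp⟩
    | succ n ih =>
      intro x
      obtain ⟨z, hz⟩ := ih x
      obtain ⟨w, hw⟩ := hcomm z
      refine ⟨w, ?_⟩
      have hc : Commute t s := htc s
      rw [pow_succ', Module.End.mul_apply, hz]
      simp only [L, R, LinearMap.sub_apply, LinearMap.mulLeft_apply, LinearMap.mulRight_apply]
      rw [← mul_assoc, ← (hc.pow_left n).eq, mul_assoc, mul_assoc, ← mul_sub, hw, ← mul_assoc,
        ← pow_succ]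
  have h2 := sub_pow_char_pow_of_commute p N hLR
  obtain ⟨z, hz⟩ := h1 (p ^ N) y
  have hle : N ≤ p ^ N := (Nat.lt_pow_self hp.out.one_lt).le
  have h3 : t ^ (p ^ N) = 0 := pow_eq_zero_of_le hle htN
  rw [h2, h3, zero_mul] at hz
  simp only [L, R, LinearMap.sub_apply, LinearMap.pow_mulLeft, LinearMap.pow_mulRight,
    LinearMap.mulLeft_apply, LinearMap.mulRight_apply] at hz
  exact sub_eq_zero.1 hz

open OreLocalization in
theorem levx_loc {Q B Z : Type} [Ring Q] [Ring B] [CommRing Z] [Algebra Z B] (π : Q →+* B)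
    (P : Ideal Z) [hP : P.IsPrime] (q : ℕ) (hq : 0 < q)
    (hcen : ∀ s z, π s = algebraMap Z B z → ∀ y : Q, s ^ q * y = y * s ^ q) :
    ∃ (O : Type) (_ : Ring O) (φ : Q →+* O),
      (∀ s z, z ∉ P → π s = algebraMap Z B z → IsUnit (φ s)) ∧
      (∀ o, ∃ s z a, z ∉ P ∧ π s = algebraMap Z B z ∧ φ s * o = φ a) ∧
      (∀ a, φ a = 0 → ∃ s z, z ∉ P ∧ π s = algebraMap Z B z ∧ s * a = 0) := by
  let S : Submonoid Q :=
    { carrier := {s | (∃ z, z ∉ P ∧ π s = algebraMap Z B z) ∧ ∀ y, s * y = y * s}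
      one_mem' := ⟨⟨1, (Ideal.ne_top_iff_one P).1 hP.ne_top, by simp⟩, by simp⟩
      mul_mem' := by
        rintro a b ⟨⟨z, hz, ha⟩, ha'⟩ ⟨⟨w, hw, hb⟩, hb'⟩
        refine ⟨⟨z * w, fun h => (hP.mem_or_mem h).elim hz hw, ?_⟩, fun y => ?_⟩
        · rw [map_mul, map_mul, ha, hb]
        · rw [mul_assoc, hb', ← mul_assoc, ha', mul_assoc] }
  let _ : OreSet S :=
    { ore_right_cancel := fun r₁ r₂ s h => ⟨s, by rw [s.2.2, s.2.2, h]⟩
      oreNum := fun r _ => r
      oreDenom := fun _ s => s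
      ore_eq := fun r s => s.2.2 r }
  refine ⟨Q[S⁻¹], inferInstance, numeratorRingHom, ?_, ?_, ?_⟩
  · intro s z hz hs
    have hmem : s ^ q ∈ S := ⟨⟨z ^ q, fun h => hz (hP.mem_of_pow_mem _ h), by
      rw [map_pow, map_pow, hs]⟩, hcen s z hs⟩
    have hu : IsUnit (numeratorRingHom (S := S) (s ^ q)) := numerator_isUnit (⟨_, hmem⟩ : S)
    rw [map_pow] at hu
    exact (isUnit_pow_iff hq.ne').1 hu
  · intro o
    induction o using OreLocalization.ind with
    | _ a s =>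
      obtain ⟨z, hz, hs⟩ := s.2.1
      exact ⟨s, z, a, hz, hs, OreLocalization.mul_cancel⟩
  · intro a ha
    have ha' : (a /ₒ (1 : S)) = (0 : Q) /ₒ (1 : S) := ha.trans OreLocalization.zero_def
    obtain ⟨u, v, h1, h2⟩ := oreDiv_eq_iff.1 ha'
    obtain ⟨z, hz, hs⟩ := u.2.1
    refine ⟨u, z, hz, hs, ?_⟩
    have h3 : (u : Q) = v := by simpa using h2
    rw [h3]
    simpa using h1.symm

theorem levx_fin {B Z : Type} [Ring B] [CommRing Z] [Algebra Z B] [IsNoetherianRing Z]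
    [Module.Finite Z B] (P : Ideal Z) [P.IsPrime] (hP : P ∈ minimalPrimes Z) :
    Module.length (Localization P.primeCompl) (LocalizedModule P.primeCompl B) ≠ ⊤ := by
  have h : ringKrullDim (Localization.AtPrime P) = 0 := by
    rw [IsLocalization.AtPrime.ringKrullDim_eq_height P, Ideal.height_eq_zero_iff.2 hP]
    rfl
  have : Ring.KrullDimLE 0 (Localization.AtPrime P) := ⟨h.le⟩
  have : IsArtinianRing (Localization.AtPrime P) :=
    isArtinianRing_iff_isNoetherianRing_krullDimLE_zero.2 ⟨inferInstance, this⟩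
  exact Module.length_ne_top

theorem levx_len {Q B Z O : Type} [Ring Q] [Ring B] [CommRing Z] [Algebra Z B] [Ring O]
    (t : Q) (π : Q →+* B) (P : Ideal Z) [hP : P.IsPrime] (lam : Q →+* O)
    (htc : ∀ x, t * x = x * t) (hs : Function.Surjective π)
    (hker : ∀ x, π x = 0 ↔ ∃ z, x = t * z)
    (hu : ∀ s z, z ∉ P → π s = algebraMap Z B z → IsUnit (lam s))
    (hfr : ∀ o, ∃ s z a, z ∉ P ∧ π s = algebraMap Z B z ∧ lam s * o = lam a) :
    Module.length O (O ⧸ Submodule.span O {lam t}) ≤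
      Module.length (Localization P.primeCompl) (LocalizedModule P.primeCompl B) := by
  let mk := (Submodule.span O {lam t}).mkQ
  let Jc : Submodule O (O ⧸ Submodule.span O {lam t}) → Submodule Z B := fun J =>
    { carrier := {b | ∃ x, π x = b ∧ mk (lam x) ∈ J}
      zero_mem' := ⟨0, by simp, by simp⟩
      add_mem' := by
        rintro _ _ ⟨x, rfl, hx⟩ ⟨y, rfl, hy⟩
        exact ⟨x + y, by simp, by rw [map_add, map_add]; exact J.add_mem hx hy⟩
      smul_mem' := by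
        rintro z _ ⟨x, rfl, hx⟩
        obtain ⟨s, hs⟩ := hs (algebraMap Z B z)
        refine ⟨s * x, by rw [map_mul, hs, Algebra.smul_def], ?_⟩
        rw [map_mul, ← smul_eq_mul, map_smul]
        exact J.smul_mem _ hx }
  let Ψ := fun J => (Jc J).localized' (Localization P.primeCompl) P.primeCompl
    (LocalizedModule.mkLinearMap P.primeCompl B)
  have hcan : ∀ (J : Submodule O (O ⧸ Submodule.span O {lam t})) (v o : O), IsUnit v →
      mk (v * o) ∈ J → mk o ∈ J := by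
    intro J v o hv h
    obtain ⟨w, hw⟩ := hv.exists_left_inv
    have := J.smul_mem w h
    rwa [← map_smul, smul_eq_mul, ← mul_assoc, hw, one_mul] at this
  have hΨ : StrictMono Ψ := by
    refine strictMono_of_le_iff_le fun J J' => ⟨fun h => ?_, fun h => ?_⟩
    · rintro _ ⟨_, ⟨x, rfl, hx⟩, s, rfl⟩
      exact ⟨_, ⟨x, rfl, h hx⟩, s, rfl⟩
    · intro o ho
      obtain ⟨o, rfl⟩ := Submodule.mkQ_surjective _ o
      obtain ⟨s, z, a, h1, h2, h3⟩ := hfr o
      have h4 : mk (lam a) ∈ J := by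
        rw [← h3, ← smul_eq_mul, map_smul]
        exact J.smul_mem _ ho
      obtain ⟨_, ⟨x, rfl, hx⟩, c, hc⟩ := h (⟨π a, ⟨a, rfl, h4⟩, 1, rfl⟩ : _ ∈ Ψ J)
      obtain ⟨c', hc'⟩ := (IsLocalizedModule.mk'_eq_mk'_iff _ _ _ _ _).1 hc
      obtain ⟨s', hs'⟩ := hs (algebraMap Z B (c' * c : P.primeCompl))
      obtain ⟨s'', hs''⟩ := hs (algebraMap Z B c')
      obtain ⟨y, hy⟩ := (hker (s' * a - s'' * x)).1 (by
        rw [map_sub, map_mul, map_mul, hs', hs'', ← Algebra.smul_def, ← Algebra.smul_def,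
          sub_eq_zero]
        simpa [mul_smul, Submonoid.smul_def] using hc')
      have h5 : mk (lam (t * y)) = 0 := by
        rw [htc, map_mul]
        exact (Submodule.Quotient.mk_eq_zero _).2
          (Submodule.smul_mem _ (lam y) (Submodule.subset_span rfl))
      have h6 : mk (lam s' * lam a) ∈ J' := by
        rw [← map_mul, sub_eq_iff_eq_add.1 hy, map_add, map_add, h5, zero_add, map_mul,
          ← smul_eq_mul, map_smul]
        exact J'.smul_mem _ hx
      refine hcan J' _ _ (hu s z h1 h2) ?_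
      rw [h3]
      exact hcan J' _ _ (hu s' _ (c' * c).2 hs') h6
  rw [← WithBot.coe_le_coe, Module.coe_length, Module.coe_length]
  exact Order.krullDim_le_of_strictMono Ψ hΨ

theorem p_LEVX :
    S_LEVX := by
  intro p hp Q B Z _ _ _ _ t π P hpQ htc hreg hs hker hinj hNo hfin hP
  have hPp : P.IsPrime := hP.1.1
  obtain ⟨ρ, hρ⟩ := ENat.ne_top_iff_exists.1 (levx_fin (B := B) P hP)
  refine ⟨ρ, fun N hN => ?_⟩
  have htn : ∀ (n : ℕ) x, t ^ n * x = x * t ^ n := fun n x =>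
    ((show Commute t x from htc x).pow_left n).eq
  have hregn : ∀ (n : ℕ) x, t ^ n * x = 0 → x = 0 := by
    intro n
    induction n with
    | zero => intro x hx; simpa using hx
    | succ n ih => intro x hx; rw [pow_succ, mul_assoc] at hx; exact hreg _ (ih _ hx)
  let I : Ideal Q := Ideal.span {t ^ N}
  have hI : ∀ x, x ∈ I ↔ ∃ z, x = t ^ N * z := fun x => by
    rw [Ideal.mem_span_singleton']
    exact ⟨fun ⟨z, hz⟩ => ⟨z, by rw [htn, hz]⟩, fun ⟨z, hz⟩ => ⟨z, by rw [← htn, hz]⟩⟩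
  have : I.IsTwoSided := ⟨fun {a} b ha => by
    obtain ⟨z, rfl⟩ := (hI a).1 ha
    exact (hI _).2 ⟨z * b, by rw [mul_assoc]⟩⟩
  let mk : Q →+* Q ⧸ I := Ideal.Quotient.mk I
  have hmks : Function.Surjective mk := Ideal.Quotient.mk_surjective
  have hmk0 : ∀ x, mk x = 0 ↔ ∃ z, x = t ^ N * z := fun x => by
    rw [← hI]; exact Ideal.Quotient.eq_zero_iff_mem
  have hπt : π t = 0 := (hker t).2 ⟨1, by simp⟩
  let π' : Q ⧸ I →+* B := Ideal.Quotient.lift I π (fun a ha => by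
    obtain ⟨z, rfl⟩ := (hI a).1 ha
    rw [map_mul, map_pow, hπt, zero_pow hN.ne', zero_mul])
  have hcen : ∀ s z, π' s = algebraMap Z B z → ∀ y : Q ⧸ I, s ^ (p ^ N) * y = y * s ^ (p ^ N) := by
    intro s z hsz
    refine levx_pow p ?_ (mk t) N ?_ ?_ s ?_
    · rw [← map_natCast mk, hpQ, map_zero]
    · rw [← map_pow]; exact (hmk0 _).2 ⟨1, by simp⟩
    · intro x
      obtain ⟨x, rfl⟩ := hmks x
      rw [← map_mul, ← map_mul, htc]
    · intro y
      obtain ⟨x, rfl⟩ := hmks s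
      obtain ⟨y, rfl⟩ := hmks y
      have hx : π x = algebraMap Z B z := hsz
      obtain ⟨w, hw⟩ := (hker (x * y - y * x)).1 (by
        rw [map_sub, map_mul, map_mul, hx, Algebra.commutes, sub_self])
      exact ⟨mk w, by rw [← map_mul, ← map_mul, ← map_sub, hw, ← map_mul]⟩
  obtain ⟨O, _, φ, hu, hfr, hz⟩ := levx_loc π' P (p ^ N) (pow_pos hp.out.pos N) hcen
  let lam : Q →+* O := φ.comp mk
  have hlam : ∀ x, lam x = φ (mk x) := fun x => rfl
  have hu' : ∀ s z, z ∉ P → π s = algebraMap Z B z → IsUnit (lam s) :=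
    fun s z h h' => hu (mk s) z h h'
  have hfr' : ∀ o, ∃ s z a, z ∉ P ∧ π s = algebraMap Z B z ∧ lam s * o = lam a := by
    intro o
    obtain ⟨s, z, a, h1, h2, h3⟩ := hfr o
    obtain ⟨s, rfl⟩ := hmks s
    obtain ⟨a, rfl⟩ := hmks a
    exact ⟨s, z, a, h1, h2, h3⟩
  have hz' : ∀ a, lam a = 0 → ∃ s z y, z ∉ P ∧ π s = algebraMap Z B z ∧ s * a = t ^ N * y := by
    intro a ha
    obtain ⟨s, z, h1, h2, h3⟩ := hz _ ha
    obtain ⟨s, rfl⟩ := hmks s
    obtain ⟨y, hy⟩ := (hmk0 (s * a)).1 (by rw [map_mul, h3])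
    exact ⟨s, z, y, h1, h2, hy⟩
  have hcent : ∀ o, lam t * o = o * lam t := by
    intro o
    obtain ⟨s, z, a, h1, h2, h3⟩ := hfr' o
    refine (hu' s z h1 h2).mul_left_cancel ?_
    rw [← mul_assoc, ← map_mul, ← htc, map_mul, mul_assoc, h3, ← mul_assoc, h3, ← map_mul,
      ← map_mul, htc]
  have hT : ∀ (n : ℕ) o, lam t ^ n * o = o * lam t ^ n := fun n o =>
    ((show Commute (lam t) o from hcent o).pow_left n).eq
  have htN : lam t ^ N = 0 := by
    rw [← map_pow, hlam, (hmk0 _).2 ⟨1, by simp⟩, map_zero]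
  have hdiv : ∀ s z, z ∉ P → π s = algebraMap Z B z → ∀ (o w : O) (n : ℕ),
      lam s * o = lam t ^ n * w → ∃ o', o = lam t ^ n * o' := by
    intro s z h h' o w n hw
    obtain ⟨u, hu⟩ := hu' s z h h'
    refine ⟨↑u⁻¹ * w, ?_⟩
    rw [← mul_assoc, hT, mul_assoc, ← hw, ← hu, Units.inv_mul_cancel_left]
  have hmulP : ∀ z z' : Z, z ∉ P → z' ∉ P → z * z' ∉ P := fun z z' h h' hh =>
    (hPp.mem_or_mem hh).elim h h'
  have hne : ∀ c, c < N → lam t ^ c ≠ 0 := by
    intro c hc h0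
    rw [← map_pow] at h0
    obtain ⟨s, z, y, h1, h2, h3⟩ := hz' _ h0
    apply h1
    obtain ⟨d, rfl⟩ := Nat.exists_eq_add_of_lt hc
    have h4 : s = t * (t ^ d * y) := by
      rw [← sub_eq_zero]
      apply hregn c
      rw [mul_sub, htn, h3, ← mul_assoc, ← mul_assoc, ← pow_succ, ← pow_add, sub_eq_zero]
      congr 2
      omega
    have h5 : z = 0 := hinj (by rw [← h2, h4, map_mul, hπt, zero_mul, map_zero])
    rw [h5]
    exact P.zero_mem
  have hrg : ∀ (c : ℕ) (o : O), lam t ^ c * o = 0 → ∃ o' : O, o = lam t ^ (N - c) * o' := by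
    intro c o h0
    rcases le_or_gt c N with hc | hc
    swap
    · exact ⟨o, by rw [Nat.sub_eq_zero_of_le hc.le, pow_zero, one_mul]⟩
    obtain ⟨s, z, a, h1, h2, h3⟩ := hfr' o
    have h4 : lam (t ^ c * a) = 0 := by
      rw [map_mul, map_pow, ← h3, ← mul_assoc, hT, mul_assoc, h0, mul_zero]
    obtain ⟨s', z', y, h5, h5', h6⟩ := hz' _ h4
    obtain ⟨d, rfl⟩ := Nat.exists_eq_add_of_le hc
    have h7 : s' * a = t ^ d * y := by
      rw [← sub_eq_zero]
      apply hregn c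
      rw [mul_sub, ← mul_assoc, htn, mul_assoc, h6, ← mul_assoc, ← pow_add, sub_self]
    rw [Nat.add_sub_cancel_left]
    refine hdiv (s' * s) (z' * z) (hmulP _ _ h5 h1) (by rw [map_mul, map_mul, h5', h2]) o
      (lam y) d ?_
    rw [map_mul, mul_assoc, h3, ← map_mul, h7, map_mul, map_pow]
  refine ⟨⟨O, lam t, hcent, htN, hne, hrg, hρ ▸ levx_len t π P lam htc hs hker hu' hfr'⟩, lam, rfl,
    hu', fun j x hj => ⟨?_, ?_⟩⟩
  · rintro ⟨o, ho⟩
    change lam x = lam t ^ j * o at ho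
    obtain ⟨s, z, a, h1, h2, h3⟩ := hfr' o
    have h4 : lam (s * x - t ^ j * a) = 0 := by
      rw [map_sub, map_mul, map_mul, ho, ← mul_assoc, ← hT, mul_assoc, h3, map_pow, sub_self]
    obtain ⟨s', z', y, h5, h5', h6⟩ := hz' _ h4
    obtain ⟨d, rfl⟩ := Nat.exists_eq_add_of_le hj
    refine ⟨s' * s, z' * z, s' * a + t ^ d * y, hmulP _ _ h5 h1,
      by rw [map_mul, map_mul, h5', h2], ?_⟩
    rw [mul_add, ← mul_assoc (t ^ j) (t ^ d), ← pow_add, ← h6, ← mul_assoc (t ^ j), htn j s',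
      mul_assoc, mul_assoc, ← mul_add]
    congr 1
    abel
  · rintro ⟨s, z, y, h1, h2, h3⟩
    exact hdiv s z h1 h2 _ (lam y) j (by rw [← map_mul, h3, map_mul, map_pow])

end Pool.Agent.P.MP_7cb106_nt.QJ
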