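import Pool.Agent.P.MP_7cb106_nt.QJ.Iface

/-! Step MACH. -/

set_option autoImplicit false

namespace Pool.Agent.P.MP_7cb106_nt.QJ

open Filter

theorem p_MACH (hFIL : S_FIL) (hCORE : S_CORE) (hCPL : S_CPL) (hE1 : S_E1) (hE2 : S_E2) (hE3A : S_E3A) (hE3B : S_E3B) (hE4 : S_E4) (hE5 : S_E5) (hBAD3 : S_BAD3) (hBADS : S_BADS) :
    S_MACH := by
  intro p d _ Γ _ u k _ _ H _ a W hW hS
  obtain ⟨φ, hφ⟩ := hFIL p d Γ u k W hW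
  have hp : (p : MonoidAlgebra k Γ) = 0 := by
    rw [← map_natCast (algebraMap k (MonoidAlgebra k Γ)), CharP.cast_eq_zero, map_zero]
  obtain ⟨C⟩ := hCORE p k (MonoidAlgebra k Γ) d φ hp hφ.ninf
  obtain ⟨Q⟩ := hCPL p d
  obtain ⟨S⟩ := hE1 p d Γ u k W φ hφ C Q
  obtain ⟨W', h1, h2, h3, h4⟩ := hE2 p d Γ u k H a W hW hS φ hφ C
  obtain ⟨b0, b1, -, -⟩ := hBADS p C.ρ Q.A Q.K S.tw
  obtain ⟨P0, hP0, -⟩ := hBAD3 p C.ρ Q.A Q.K S.tw Q.adm ⊥ b0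
  refine ⟨W', h1, h2, h3, Q.XP '' {P | S.tw.MaxBad P}, ⟨_, P0, hP0, rfl⟩, ?_, ?_, ?_⟩
  · rintro X ⟨P, hP, rfl⟩
    exact ⟨hE3A p d Q P (b1 P hP.prop), hE3B p d Γ u k H a W hS φ hφ C Q S P hP⟩
  · intro θ hθ y hy w hw
    obtain ⟨j, hj⟩ := h4 w hw
    exact hE4 p d Γ u k H a W hS φ hφ C Q S θ (fun P hP => hθ _ ⟨P, hP, rfl⟩) y hy w j hj
  · rintro Y hY X ⟨P, hP, rfl⟩
    exact hE5 p d Γ u k W φ hφ C Q S Y hY P hP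

end Pool.Agent.P.MP_7cb106_nt.QJ
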