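import Pool.Agent.P.MP_7cb106_nt.QJ.Iface2

/-! Step MACHX. -/

set_option autoImplicit false

namespace Pool.Agent.P.MP_7cb106_nt.QJ

open Filter

theorem p_MACHX (hFILX : S_FILX) (hCX : S_CX) (hCPL : S_CPL) (hE1X : S_E1X) (hE2X : S_E2X) (hE3A : S_E3A) (hE3LX : S_E3LX) (hE3G : S_E3G) (hE4X : S_E4X) (hBADS : S_BADS) (hRIG : S_RIG) :
    S_MACHX := by
  intro p d _ Γ _ u Δ _ V k _ _ ψ a DD hG hR W hW
  have hF := hFILX p d Γ u Δ V k ψ W hW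
  obtain ⟨C⟩ := hCX p d Γ u Δ V k ψ W _ hW hF
  obtain ⟨Q⟩ := hCPL p d
  obtain ⟨S⟩ := hE1X p d Γ u Δ V k W _ hF C Q
  obtain ⟨W', h1, h2, h4⟩ := hE2X p d Γ u Δ V k ψ W _ hW hF C
  obtain ⟨-, b1, -, -⟩ := hBADS p C.ρ Q.A Q.K S.tw
  refine ⟨W', h1, h2, fun n θ hθ y hy w hw => ?_⟩
  obtain ⟨j, hj⟩ := h4 w hw
  refine hE4X p d Γ u Δ V k W _ hF C Q S θ (fun P hP => ?_) y hy w j hj
  exact hRIG p d Γ a.onV DD hR _ (hE3A p d Q P (b1 P hP.prop))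
    (hE3G p d Q C.ρ S.tw Γ a.onV (hE3LX p d Γ u Δ V k W _ hF C Q S a hG) P hP) n θ hθ

end Pool.Agent.P.MP_7cb106_nt.QJ
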