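import Pool.Agent.P.MP_7cb106_nt.QJ.Iface2

/-! Step MAINX. -/

set_option autoImplicit false

namespace Pool.Agent.P.MP_7cb106_nt.QJ

open Filter

theorem p_MAINX (hMACHX : S_MACHX) (hFIXX : S_FIXX) (hFLX : S_FLX) (hSW : S_SW) (hFINV : S_FINV) :
    S_MAINX := by
  classical
  intro p d _ Γ _ u Δ _ V k _ _ ψ a DD ys hG hR hD hS W hW b f hf hfe
  obtain ⟨m, hm⟩ := hS b
  obtain ⟨hN1, hN2, hN3⟩ := (hFLX p d Γ u Δ V).1 b
  set N := (u.lev b).map V.inc ⊔ V.Z with hN
  let Φ : Set (Δ → ZMod p) :=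
    ⋃ i, (fun θ h => θ (ys i h)) '' {θ : VV p d → ZMod p | LvV m θ}
  let pd : List (Δ → ZMod p) → Δ → k := fun L g => (L.map (fun φ => ((φ g).val : k))).prod
  have claim : ∀ s : ℕ, ∀ W : Submodule k (Δ → k), V.Nice ψ W →
      ∃ W' : Submodule k (Δ → k), W' ≤ W ∧ V.Nice ψ W' ∧
        ∀ L : List (Δ → ZMod p), (∀ φ ∈ L, φ ∈ Φ) → L.length ≤ s → ∀ w ∈ W', pd L * w ∈ W := by
    intro s
    induction s with
    | zero =>
      intro W hW
      refine ⟨W, le_rfl, hW, fun L _ hL w hw => ?_⟩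
      obtain rfl : L = [] := List.length_eq_zero_iff.1 (Nat.le_zero.1 hL)
      convert hw using 1
      funext g
      simp [pd]
    | succ s ih =>
      intro W hW
      obtain ⟨W1, h1, h2, h3⟩ := hMACHX p d Γ u Δ V k ψ a DD hG hR W hW
      obtain ⟨W', h4, h5, h6⟩ := ih W1 h2
      refine ⟨W', h4.trans h1, h5, fun L hL hl w hw => ?_⟩
      cases L with
      | nil =>
        convert h1 (h4 hw) using 1
        funext g
        simp [pd]
      | cons φ L =>
        obtain ⟨i, θ, hθ, rfl⟩ := Set.mem_iUnion.1 (hL φ List.mem_cons_self)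
        have := h3 m θ hθ _ (hD i) _ (h6 L (fun φ h => hL φ (List.mem_cons_of_mem _ h))
          (by simpa using hl) w hw)
        convert this using 1
        funext g
        simp [pd, mul_assoc]
  let M : ℕ → Submodule k (Δ → k) := fun s =>
    Submodule.span k {x | ∃ L : List (Δ → ZMod p), (∀ φ ∈ L, φ ∈ Φ) ∧ L.length ≤ s ∧ x = pd L}
  have hMm : Monotone M := fun s t hst => Submodule.span_mono (by
    rintro _ ⟨L, h1, h2, rfl⟩
    exact ⟨L, h1, h2.trans hst, rfl⟩)
  let f0 : Δ → k := fun g => if g ∈ N then 1 else 0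
  have hf0 : f0 ∈ ⨆ s, M s := by
    refine hSW p k Δ _ Φ (Set.finite_iUnion fun i => (hFINV p d m).1.image _) (fun L hL => ?_) f0
      fun g g' h => ?_
    · exact Submodule.mem_iSup_of_mem L.length (Submodule.subset_span ⟨L, hL, le_rfl, rfl⟩)
    · have h1 : g⁻¹ * g' ∈ N := hm g g' fun i => by
        have := h _ (Set.mem_iUnion.2 ⟨i, fun y => if Dv m (ys i g - y) then 1 else 0,
          fun y z hz => if_congr (forall_congr' fun l => by
            rw [← sub_sub, Pi.sub_apply _ z, dvd_sub_left (hz l)]) rfl rfl, rfl⟩)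
        by_contra e
        simp only [if_neg e, sub_self] at this
        rw [if_pos (show Dv m (0 : VV p d) from fun l => dvd_zero _)] at this
        exact one_ne_zero this
      have h2 : g ∈ N ↔ g' ∈ N := by
        rw [← N.mul_mem_cancel_right (y := g) h1, mul_inv_cancel_left]
      simp only [f0, h2]
  obtain ⟨s, hs⟩ := (Submodule.mem_iSup_of_directed _ hMm.directed_le).1 hf0
  obtain ⟨W', h4, h5, h6⟩ := claim s W hW
  obtain ⟨w0, hw0, hw1, hw2⟩ := hFIXX p d Γ u Δ V k ψ W' h5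
  have he : f0 * w0 ∈ W := by
    have : ∀ x ∈ M s, x * w0 ∈ W := by
      intro x hx
      induction hx using Submodule.span_induction with
      | mem x hx =>
        obtain ⟨L, h1, h2, rfl⟩ := hx
        exact h6 L h1 h2 w0 hw0
      | zero => simp
      | add x y _ _ hx hy => rw [add_mul]; exact W.add_mem hx hy
      | smul c x _ hx => rw [smul_mul_assoc]; exact W.smul_mem c hx
    exact this f0 hs
  have := Fintype.ofFinite (Δ ⧸ N)
  have hsum : f = ∑ q : Δ ⧸ N, f q.out • fun g => (f0 * w0) (q.out⁻¹ * g * 1) := by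
    funext g
    rw [Finset.sum_apply, Finset.sum_eq_single (g : Δ ⧸ N)]
    · have h1 : (g : Δ ⧸ N).out⁻¹ * g ∈ N := QuotientGroup.eq.1 (QuotientGroup.out_eq' _)
      obtain ⟨h, hh, z, hz, hg⟩ := (hN3 _).1 h1
      have h2 : g = z * ((g : Δ ⧸ N).out * V.inc h) := by
        rw [← mul_assoc, V.cen z hz, mul_assoc, ← hg, mul_inv_cancel_left]
      have h3 : w0 (V.inc h) = 1 := by
        have := hw1 1 h (by rw [u.lev_zero]; trivial)
        rwa [one_mul, hw2] at this
      simp only [Pi.smul_apply, Pi.mul_apply, mul_one, f0, if_pos h1, one_mul, smul_eq_mul]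
      rw [hg, h5.eqv w0 hw0 z hz, h3, mul_one]
      conv_lhs => rw [h2, hfe z hz, hf _ h hh]
      ring
    · intro q _ hq
      have h1 : q.out⁻¹ * g ∉ N := fun h => hq (by
        rw [← QuotientGroup.out_eq' q]
        exact QuotientGroup.eq.2 h)
      simp [f0, h1]
    · simp
  rw [hsum]
  exact W.sum_mem fun q _ => W.smul_mem _ (hW.inv _ he _ _)

end Pool.Agent.P.MP_7cb106_nt.QJ
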