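import Pool.Agent.P.MP_7cb106_nt.QJ.Iface2

/-! Step NROOT. -/

set_option autoImplicit false

namespace Pool.Agent.P.MP_7cb106_nt.QJ

open Filter

theorem nroot_mod {p : ℕ} [Fact p.Prime] (k : ℕ) (x y : ℤ_[p]) :
    x ≡ y [SMOD (IsLocalRing.maximalIdeal ℤ_[p] ^ k • ⊤ : Submodule ℤ_[p] ℤ_[p])] ↔
      (p : ℤ_[p]) ^ k ∣ x - y := by
  rw [SModEq.sub_mem, smul_eq_mul, Ideal.mul_top, PadicInt.maximalIdeal_eq_span_p,
    Ideal.span_singleton_pow, Ideal.mem_span_singleton]

theorem nroot_dv {p : ℕ} [Fact p.Prime] {O ι : Type} [CommRing O] [Algebra ℤ_[p] O] [Finite ι]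
    (b : Module.Basis ι ℤ_[p] O) (k : ℕ) (z : O) :
    (p : O) ^ k ∣ z ↔ ∀ i, (p : ℤ_[p]) ^ k ∣ b.repr z i := by
  have e : ∀ w : O, (p : O) ^ k * w = (p : ℤ_[p]) ^ k • w := fun w => by
    rw [Algebra.smul_def, map_pow, map_natCast]
  constructor
  · rintro ⟨w, rfl⟩ i
    rw [e, map_smul]
    exact Dvd.intro _ rfl
  · intro h
    choose c hc using h
    refine ⟨b.equivFun.symm c, b.ext_elem fun i => ?_⟩
    rw [e, map_smul, hc i, Finsupp.smul_apply, smul_eq_mul, ← b.equivFun_apply,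
      LinearEquiv.apply_symm_apply]

/-- contractions have fixed points -/
theorem nroot_fix {p : ℕ} [Fact p.Prime] {O : Type} [CommRing O] [Algebra ℤ_[p] O]
    [Module.Finite ℤ_[p] O] [Module.Free ℤ_[p] O] (F : O → O)
    (hF : ∀ t t', (p : O) * (t - t') ∣ F t - F t') : ∃ t, F t = t := by
  let b := Module.Free.chooseBasis ℤ_[p] O
  have st : ∀ k t t', (p : O) ^ k ∣ t - t' → (p : O) ^ (k + 1) ∣ F t - F t' := fun k t t' h => by
    rw [pow_succ']
    exact (mul_dvd_mul_left _ h).trans (hF t t')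
  have h1 : ∀ k, (p : O) ^ k ∣ F^[k + 1] 0 - F^[k] 0 := by
    intro k
    induction k with
    | zero => simp
    | succ k ih =>
      rw [Function.iterate_succ_apply' F (k + 1)]
      nth_rewrite 2 [Function.iterate_succ_apply' F k]
      exact st k _ _ ih
  have h2 : ∀ k l, k ≤ l → (p : O) ^ k ∣ F^[k] 0 - F^[l] 0 := by
    intro k l h
    induction l, h using Nat.le_induction with
    | base => simp
    | succ l h ih => simpa using dvd_sub ih ((pow_dvd_pow _ h).trans (h1 l))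
  have h3 : ∀ i, ∃ L : ℤ_[p], ∀ k, (p : ℤ_[p]) ^ k ∣ b.repr (F^[k] 0) i - L := fun i => by
    obtain ⟨L, hL⟩ := IsPrecomplete.prec
      (inferInstance : IsPrecomplete (IsLocalRing.maximalIdeal ℤ_[p]) ℤ_[p])
      (f := fun k => b.repr (F^[k] 0) i) fun {k l} h => (nroot_mod _ _ _).2 (by
        simpa using (nroot_dv b k _).1 (h2 k l h) i)
    exact ⟨L, fun k => (nroot_mod _ _ _).1 (hL k)⟩
  choose L hL using h3
  have h4 : ∀ k, (p : O) ^ k ∣ F^[k] 0 - b.equivFun.symm L := fun k =>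
    (nroot_dv b k _).2 fun i => by
      rw [map_sub, Finsupp.sub_apply, ← b.equivFun_apply (b.equivFun.symm L),
        LinearEquiv.apply_symm_apply]
      exact hL i k
  refine ⟨b.equivFun.symm L, b.ext_elem fun i => sub_eq_zero.1 (IsHausdorff.haus
    (inferInstance : IsHausdorff (IsLocalRing.maximalIdeal ℤ_[p]) ℤ_[p]) _ fun k =>
      (nroot_mod _ _ _).2 ?_)⟩
  have h5 := dvd_sub (h4 (k + 1)) (st k _ _ (h4 k))
  rw [Function.iterate_succ_apply', sub_sub_sub_cancel_left] at h5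
  simpa using (nroot_dv b k _).1 ((pow_dvd_pow _ k.le_succ).trans h5) i

theorem nroot_pow {O : Type} [CommRing O] (w : O) (u : ℕ) :
    ∃ c, (1 + w) ^ u = 1 + w * (u + w * c) := by
  induction u with
  | zero => exact ⟨0, by simp⟩
  | succ u ih =>
    obtain ⟨c, hc⟩ := ih
    exact ⟨c + u + w * c, by rw [pow_succ, hc]; push_cast; ring⟩

theorem p_NROOT :
    S_NROOT := by
  intro p hp O _ _ _ _ _
  refine ⟨?_, fun m => ?_, fun n hn m => ?_⟩
  · rintro x ⟨y, hy⟩
    obtain ⟨t, ht⟩ := nroot_fix (p := p) (fun t : O => 1 - p * y * t) fun t t' => ⟨-y, by ring⟩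
    exact IsUnit.of_mul_eq_one t (by linear_combination t * hy - ht)
  · let b := Module.Free.chooseBasis ℤ_[p] O
    refine Finite.of_surjective (fun f : _ → Fin (p ^ m) =>
      Ideal.Quotient.mk _ (b.equivFun.symm fun i => ((f i : ℕ) : ℤ_[p]))) fun z => ?_
    obtain ⟨z, rfl⟩ := Ideal.Quotient.mk_surjective z
    refine ⟨fun i => ⟨(b.repr z i).appr m, PadicInt.appr_lt _ _⟩, Eq.symm ?_⟩
    rw [Ideal.Quotient.eq, Ideal.mem_span_singleton, nroot_dv b]
    intro i
    rw [map_sub, Finsupp.sub_apply, ← b.equivFun_apply (b.equivFun.symm _),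
      LinearEquiv.apply_symm_apply]
    exact Ideal.mem_span_singleton.1 (PadicInt.appr_spec m _)
  obtain ⟨s, u, hu, e⟩ := Nat.exists_eq_pow_mul_and_not_dvd hn p hp.out.ne_one
  have u1 : IsUnit (u : O) := by
    have := (PadicInt.isUnit_iff.2 (PadicInt.norm_natCast_eq_one_iff.2
      (hp.out.coprime_iff_not_dvd.2 hu))).map (algebraMap ℤ_[p] O)
    rwa [map_natCast] at this
  have u2 : (n : O) ∣ p ^ s := by
    rw [e, Nat.cast_mul, Nat.cast_pow, u1.mul_right_dvd]
  refine ⟨s + s + (m + 1), fun x hx => ?_⟩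
  rw [pow_add, pow_add] at hx
  obtain ⟨y, hy⟩ := (mul_dvd_mul (mul_dvd_mul u2 u2) dvd_rfl).trans hx
  obtain ⟨c, hc⟩ := nroot_pow (Polynomial.X : Polynomial O) n
  set q : O := p ^ (m + 1) with hq
  obtain ⟨t, ht⟩ := nroot_fix (p := p) (fun t : O => y - q * (t ^ 2 * c.eval (n * q * t)))
    fun t t' => by
      have h := Polynomial.sub_dvd_eval_sub t t'
        (Polynomial.X ^ 2 * c.comp (Polynomial.C (n * q) * Polynomial.X))
      simp only [Polynomial.eval_mul, Polynomial.eval_pow, Polynomial.eval_X, Polynomial.eval_comp,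
        Polynomial.eval_C] at h
      rw [sub_sub_sub_cancel_left, ← mul_sub]
      exact mul_dvd_mul (dvd_pow_self _ m.succ_ne_zero) (dvd_sub_comm.1 h)
  refine ⟨1 + n * q * t, ⟨n * p * t, by rw [hq]; ring⟩, ?_⟩
  have h := congrArg (Polynomial.eval (n * q * t)) hc
  simp only [Polynomial.eval_mul, Polynomial.eval_pow, Polynomial.eval_X, Polynomial.eval_add,
    Polynomial.eval_one, Polynomial.eval_natCast] at h
  linear_combination h - hy - n * n * q * ht

end Pool.Agent.P.MP_7cb106_nt.QJ
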