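import Pool.Agent.P.MP_7cb106_nt.QJ.Iface

/-! Step ONE. -/

set_option autoImplicit false

namespace Pool.Agent.P.MP_7cb106_nt.QJ

open Filter

theorem one_pr {Γ k : Type} [Group Γ] [Field k] (w : Γ → k) (h : Γ) (x : MonoidAlgebra k Γ) :
    pr ((fun g => w (1 * g * h)) - w) x = pr w (x * (MonoidAlgebra.single h 1 - 1)) := by
  induction x using MonoidAlgebra.induction_linear with
  | zero => simp
  | add x y hx hy => rw [add_mul, map_add, map_add, hx, hy]
  | single g c =>
    rw [mul_sub, mul_one, MonoidAlgebra.single_mul_single, map_sub, pr_single, pr_single,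
      pr_single]
    simp [mul_sub]

theorem p_ONE (hFIL : S_FIL) :
    S_ONE := by
  intro p d hp Γ _ u k _ _ W hW
  obtain ⟨φ, hφ⟩ := hFIL p d Γ u k W hW
  have key : ∀ j, ∀ w ∈ W, (∀ x ∈ φ.F j, pr w x = 0) → w = 0 ∨ (fun _ => (1 : k)) ∈ W := by
    intro j
    induction j with
    | zero =>
      intro w _ h
      refine Or.inl (funext fun g => ?_)
      have := h (MonoidAlgebra.single g 1) (by rw [φ.zero]; trivial)
      rwa [pr_single, one_mul] at this
    | succ j ih =>
      intro w hw h
      by_cases h1 : (fun _ => (1 : k)) ∈ W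
      · exact Or.inr h1
      have h2 : ∀ g, w g = w 1 := fun g => by
        have h3 := (ih _ (W.sub_mem (hW.inv w hw 1 g) hw) fun x hx => by
          rw [one_pr]
          refine h _ (φ.mul j 1 _ _ hx ?_)
          have := hφ.lev 0 1 g (by rw [u.lev_zero]; trivial)
          rwa [one_mul, pow_zero] at this).resolve_right h1
        have := congrFun h3 1
        simpa [sub_eq_zero] using this
      refine Or.inl (by_contra fun h4 => h1 ?_)
      have h5 : w 1 ≠ 0 := fun e => h4 (funext fun g => (h2 g).trans e)
      have := W.smul_mem (w 1)⁻¹ hw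
      convert this using 1
      funext g
      rw [Pi.smul_apply, smul_eq_mul, h2 g, inv_mul_cancel₀ h5]
  by_contra h1
  refine hW.inf ?_
  have : W = ⊥ := (Submodule.eq_bot_iff W).2 fun w hw => by
    obtain ⟨j, hj⟩ := hφ.exh w hw
    exact (key j w hw hj).resolve_right h1
  rw [this]
  infer_instance

end Pool.Agent.P.MP_7cb106_nt.QJ
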