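import Pool.Agent.P.MP_7cb106_nt.QJ.Iface2

/-! Step OVER. -/

set_option autoImplicit false

namespace Pool.Agent.P.MP_7cb106_nt.QJ

open Filter

section
variable {p : ℕ} {O : Type} [CommRing O] {n e : ℕ} {U : Subgroup (GL (Fin n) O)}

theorem over_MD {q : O} {M : Matrix (Fin n) (Fin n) O} (h : MD q M)
    (A B : Matrix (Fin n) (Fin n) O) : MD q (A * M * B) := fun i j => by
  simp only [Matrix.mul_apply]
  exact Finset.dvd_sum fun k _ => (Finset.dvd_sum fun l _ => (h l k).mul_left _).mul_right _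

theorem over_mul (a b : U) : matU (a * b) = matU a * matU b := rfl

theorem over_one : matU (1 : U) = 1 := rfl

theorem over_ext {a b : U} (h : matU a = matU b) : a = b := Subtype.ext (Units.ext h)

theorem over_inv (a : U) : matU a * matU a⁻¹ = 1 := by rw [← over_mul, mul_inv_cancel, over_one]

theorem over_conj {q : O} (a : U) {M : Matrix (Fin n) (Fin n) O} (h : MD q (M - 1)) :
    MD q (matU a * M * matU a⁻¹ - 1) := by
  have := over_MD h (matU a) (matU a⁻¹)
  rwa [mul_sub, sub_mul, mul_one, over_inv] at this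

/-- the inclusion -/
def over_inc (hU : ∀ g : GL (Fin n) O, MD ((p : O) ^ e) (g.1 - 1) → g ∈ U) : Cong p O n e →* U :=
  (Matrix.SpecialLinearGroup.toGL.comp (Cong p O n e).subtype).codRestrict U
    fun g => hU _ ((mem_Cong g.1).1 g.2)

theorem over_inc_mat (hU : ∀ g : GL (Fin n) O, MD ((p : O) ^ e) (g.1 - 1) → g ∈ U)
    (g : Cong p O n e) : matU (over_inc hU g) = mat g := rfl

theorem over_inj (hU : ∀ g : GL (Fin n) O, MD ((p : O) ^ e) (g.1 - 1) → g ∈ U) :
    Function.Injective (over_inc hU) := fun a b h =>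
  Subtype.ext (Subtype.ext (by have := congrArg matU h; exact this))

theorem over_normal (hU : ∀ g : GL (Fin n) O, MD ((p : O) ^ e) (g.1 - 1) → g ∈ U) :
    (over_inc hU).range.Normal := ⟨by
  rintro _ ⟨g, rfl⟩ a
  have hd : (matU a * mat g * matU a⁻¹).det = 1 := by
    have h1 : (mat g).det = 1 := g.1.2
    rw [Matrix.det_mul, Matrix.det_mul, h1, mul_one, ← Matrix.det_mul, over_inv, Matrix.det_one]
  exact ⟨⟨⟨_, hd⟩, (mem_Cong _).2 (over_conj a ((mem_Cong g.1).1 g.2))⟩, over_ext rfl⟩⟩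

/-- the scalars -/
def over_Z (U : Subgroup (GL (Fin n) O)) : Subgroup U where
  carrier := {z | ∃ c : Oˣ, matU z = (c : O) • 1}
  one_mem' := ⟨1, by simp [over_one]⟩
  mul_mem' := by
    rintro a b ⟨c, hc⟩ ⟨c', hc'⟩
    exact ⟨c * c', by rw [over_mul, hc, hc']; simp [smul_smul, mul_comm]⟩
  inv_mem' := by
    rintro a ⟨c, hc⟩
    refine ⟨c⁻¹, ?_⟩
    have h := over_inv a
    rw [hc, smul_mul_assoc, one_mul] at h
    rw [← h, smul_smul, Units.inv_mul, one_smul]

end

theorem p_OVER (hNROOT : S_NROOT) (hSPLIT : S_SPLIT) :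
    S_OVER := by
  intro p _ O _ _ _ _ _ n d e Fr u U he hu hU
  haveI := over_normal hU
  let ε := MonoidHom.ofInjective (over_inj hU)
  let cj : U →* MulAut (Cong p O n e) :=
    (MulAut.congr ε.symm).toMonoidHom.comp (MulAut.conjNormal (H := (over_inc hU).range))
  have hcj : ∀ δ g, over_inc hU (cj δ g) = δ * over_inc hU g * δ⁻¹ := fun δ g => by
    have h1 : cj δ g = ε.symm (MulAut.conjNormal δ (ε g)) := rfl
    rw [h1, MonoidHom.apply_ofInjective_symm, MulAut.conjNormal_apply]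
    rfl
  obtain ⟨m, hm⟩ := hSPLIT p O n d e Fr u U he hu hU 0
  haveI := (hNROOT p O).2.1 m
  let π : U →* GL (Fin n) (O ⧸ Ideal.span {(p : O) ^ m}) :=
    (Matrix.GeneralLinearGroup.map (Ideal.Quotient.mk _)).comp U.subtype
  have hπ : π.ker ≤ (over_inc hU).range ⊔ over_Z U := fun g hg => by
    have h1 : MD ((p : O) ^ m) (matU g - 1) := fun i j => by
      have h2 := congrArg (fun x : GL (Fin n) (O ⧸ Ideal.span {(p : O) ^ m}) => x.1 i j)
        (MonoidHom.mem_ker.1 hg)
      rw [← Ideal.mem_span_singleton, Matrix.sub_apply, ← Ideal.Quotient.eq]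
      refine Eq.trans (b := (1 : GL (Fin n) (O ⧸ Ideal.span {(p : O) ^ m})).1 i j) h2 ?_
      by_cases h : i = j <;> simp [h, Matrix.one_apply]
    obtain ⟨h, -, c, -, hc⟩ := hm g h1
    have h3 : g * (over_inc hU h)⁻¹ ∈ over_Z U :=
      ⟨c, by rw [over_mul, hc, smul_mul_assoc, ← over_inc_mat hU, over_inv]⟩
    have h4 := mul_mem (Subgroup.mem_sup_right (S := (over_inc hU).range) h3)
      (Subgroup.mem_sup_left (T := over_Z U) (⟨h, rfl⟩ : over_inc hU h ∈ (over_inc hU).range))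
    rwa [inv_mul_cancel_right] at h4
  refine ⟨⟨over_inc hU, cj, over_Z U, over_inj hU, hcj, fun δ a g hg => ?_, ?_,
    Subgroup.finiteIndex_of_le hπ⟩, fun _ => rfl, fun _ => Iff.rfl⟩
  · rw [hu.1, ← over_inc_mat hU, hcj]
    exact over_conj δ ((hu.1 a g).1 hg)
  · rintro z ⟨c, hc⟩ δ
    exact over_ext (by rw [over_mul, over_mul, hc]; simp)

end Pool.Agent.P.MP_7cb106_nt.QJ
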