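import Pool.Agent.P.MP_7cb106_nt.QJ.Iface

/-! Step PERT. -/

set_option autoImplicit false

namespace Pool.Agent.P.MP_7cb106_nt.QJ

open Filter

theorem p_PERT :
    S_PERT := by
  classical
  intro ρ N T A _ E S a e1 e2
  have hc : ∀ (e : ℕ) (o : T.O), T.t ^ e * o = o * T.t ^ e := fun e o =>
    (Commute.pow_left (T.central o) e).eq
  induction S using Finset.induction_on with
  | empty => exact fun _ => ⟨⟨1, by simp⟩, fun f _ => ⟨0, by simp⟩⟩
  | insert v S hv ih =>
    intro h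
    obtain ⟨⟨w', hw'⟩, ih2⟩ := ih fun x hx => h x (Finset.mem_insert_of_mem hx)
    obtain ⟨w, hw⟩ := h v (Finset.mem_insert_self _ _)
    simp only [Finset.prod_insert hv, Finset.card_insert_of_notMem hv]
    refine ⟨⟨w' * w, ?_⟩, fun f hf => ?_⟩
    · rw [mul_add, mul_one, pow_add, hw', mul_assoc, ← hc, hw, map_mul]
      simp only [mul_assoc]
    · obtain ⟨o, ho⟩ := ih2 f hf
      obtain ⟨o1, ho1⟩ := hf
      refine ⟨o + o1 * (1 + T.t ^ e1 * o) * w, ?_⟩
      have e1' : E ((a v + f) * ∏ x ∈ S, (a x + f)) =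
          E (∏ x ∈ S, (a x + f)) * E (a v) + E f * E (∏ x ∈ S, (a x + f)) := by
        rw [← map_mul, ← map_mul, ← map_add]
        congr 1
        ring
      have e2' : E (a v * ∏ x ∈ S, a x) = E (∏ x ∈ S, a x) * E (a v) := by
        rw [← map_mul, mul_comm]
      have e3 : E (∏ x ∈ S, (a x + f)) = (1 + T.t ^ e1 * o) * E (∏ x ∈ S, a x) := by
        rw [add_mul, one_mul, ← ho]; abel
      have e4 : T.t ^ e2 * (o1 * ((1 + T.t ^ e1 * o) * E (∏ x ∈ S, a x))) =
          o1 * (1 + T.t ^ e1 * o) * w * (E (∏ x ∈ S, a x) * E (a v)) := by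
        rw [← e2', map_mul, ← mul_assoc o1, ← mul_assoc, hc e2, hw]
        simp only [mul_assoc]
      rw [e1', e2', ho1, e3, pow_add, mul_assoc (T.t ^ e1 * T.t ^ e2), mul_assoc (T.t ^ e1), e4]
      noncomm_ring

end Pool.Agent.P.MP_7cb106_nt.QJ
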