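import Pool.Agent.P.MP_7cb106_nt.QJ.Iface3
import Pool.Agent.P.MP_7cb106_nt.QJ.Micro

/-! Step REESX. -/

set_option autoImplicit false

namespace Pool.Agent.P.MP_7cb106_nt.QJ

open Filter

open AddMonoidAlgebra in
theorem reesx_base {k R : Type} [Field k] [Ring R] [Algebra k R] (p : ℕ) [CharP k p]
    (F : ℕ → Submodule k R) (h0 : F 0 = ⊤) (hanti : ∀ j, F (j + 1) ≤ F j)
    (hmul : ∀ i j x y, x ∈ F i → y ∈ F j → x * y ∈ F (i + j)) :
    ∃ (Q B : Type) (_ : Ring Q) (_ : Ring B) (_ : Algebra k B) (t : Q) (π : Q →+* B) (C : R →+* Q)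
      (sy : ℕ → R → B), (p : Q) = 0 ∧ (∀ x, t * x = x * t) ∧
      (∀ x, t * x = 0 → x = 0) ∧ Function.Surjective π ∧ (∀ x, π x = 0 ↔ ∃ z, x = t * z) ∧
      (∀ j x, x ∈ F j → ∃ z, C x = t ^ j * z ∧ π z = sy j x) ∧
      (∀ j x, x ∈ F j → (sy j x = 0 ↔ x ∈ F (j + 1))) ∧
      (∀ j x y, x ∈ F j → y ∈ F j → sy j (x + y) = sy j x + sy j y) ∧
      (∀ j (c : k) x, x ∈ F j → sy j (c • x) = c • sy j x) ∧
      (∀ i j x y, x ∈ F i → y ∈ F j → sy (i + j) (x * y) = sy i x * sy j y) ∧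
      ∀ W : Submodule k B, (∀ j x, x ∈ F j → sy j x ∈ W) → W = ⊤ := by
  classical
  let Q := Micro.reesAlg F h0 hanti hmul
  have hsing : ∀ (j : ℤ) (x : R), x ∈ F j.toNat → single j x ∈ Q := by
    intro j x hx i
    rw [coeff_single, Finsupp.single_apply]
    split_ifs with h
    · exact h ▸ hx
    · exact Submodule.zero_mem _
  let mono : ∀ (j : ℕ) (x : R), x ∈ F j → Q := fun j x hx => ⟨single (j : ℤ) x, hsing _ _ hx⟩
  let t : Q := ⟨single (-1) 1, hsing _ _ (by simp [h0])⟩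
  have htn : ∀ n : ℕ, ((t ^ n : Q) : AddMonoidAlgebra R ℤ) = single (-(n : ℤ)) 1 := by
    intro n
    simp [t, single_pow, -LaurentPolynomial.single_eq_C_mul_T]
  have htc : ∀ x : Q, t * x = x * t := by
    intro x
    ext j
    simp [t, add_comm, -LaurentPolynomial.single_eq_C_mul_T]
  have hreg : ∀ x : Q, x * t = 0 → x = 0 := by
    intro x hx
    ext j
    have := congrArg (fun y : Q => (y : AddMonoidAlgebra R ℤ).coeff (j - 1)) hx
    simpa [t, -LaurentPolynomial.single_eq_C_mul_T] using this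
  have hdiv : ∀ x : Q, (∃ z, x = z * t) ↔
      ∀ j : ℤ, (x : AddMonoidAlgebra R ℤ).coeff j ∈ F (j + 1).toNat := by
    intro x
    constructor
    · rintro ⟨z, rfl⟩ j
      simpa [t, -LaurentPolynomial.single_eq_C_mul_T] using z.2 (j + 1)
    · intro h
      refine ⟨⟨(x : AddMonoidAlgebra R ℤ) * single 1 1, fun j => by
        simpa [sub_eq_add_neg, -LaurentPolynomial.single_eq_C_mul_T] using h (j - 1)⟩, ?_⟩
      ext j
      simp [t, -LaurentPolynomial.single_eq_C_mul_T]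
  let I : Ideal Q := Ideal.span {t}
  have hI : ∀ x, x ∈ I ↔ ∃ z, x = z * t := fun x => by
    rw [Ideal.mem_span_singleton']
    exact ⟨fun ⟨z, hz⟩ => ⟨z, hz.symm⟩, fun ⟨z, hz⟩ => ⟨z, hz.symm⟩⟩
  have : I.IsTwoSided := ⟨fun {a} b ha => by
    obtain ⟨z, rfl⟩ := (hI a).1 ha
    exact (hI _).2 ⟨z * b, by rw [mul_assoc, htc, mul_assoc]⟩⟩
  let π : Q →ₐ[k] Q ⧸ I := Ideal.Quotient.mkₐ k I
  have hπs : Function.Surjective π := Ideal.Quotient.mk_surjective
  have hπ0 : ∀ x, π x = 0 ↔ ∃ z, x = z * t := fun x => by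
    rw [← hI]; exact Ideal.Quotient.eq_zero_iff_mem
  have hmono0 : ∀ (j : ℕ) (x : R) (hx : x ∈ F j), π (mono j x hx) = 0 ↔ x ∈ F (j + 1) := by
    intro j x hx
    rw [hπ0, hdiv]
    constructor
    · intro h
      simpa [mono, -LaurentPolynomial.single_eq_C_mul_T] using h j
    · intro h i
      simp only [mono, coeff_single, Finsupp.single_apply]
      split_ifs with h'
      · subst h'; exact h
      · exact Submodule.zero_mem _
  let sy : ℕ → R → Q ⧸ I := fun j x => if hx : x ∈ F j then π (mono j x hx) else 0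
  have hsy : ∀ j x (hx : x ∈ F j), sy j x = π (mono j x hx) := fun j x hx => dif_pos hx
  let C : R →+* Q :=
    (singleZeroRingHom : R →+* AddMonoidAlgebra R ℤ).codRestrict Q.toSubring
      (fun x => hsing 0 x (by simp [h0]))
  have hC : ∀ x, (C x : AddMonoidAlgebra R ℤ) = single 0 x := fun x => rfl
  have hCm : ∀ (j : ℕ) x (hx : x ∈ F j), C x = t ^ j * mono j x hx := by
    intro j x hx
    ext1
    rw [hC, Subalgebra.coe_mul, htn]
    simp [mono, single_mul_single, -LaurentPolynomial.single_eq_C_mul_T]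
  refine ⟨Q, Q ⧸ I, inferInstance, inferInstance, inferInstance, t, (π : Q →+* Q ⧸ I), C, sy, ?_,
    htc, fun x hx => hreg x (htc x ▸ hx), hπs, fun x => (hπ0 x).trans (by simp only [htc]),
    fun j x hx => ⟨_, hCm j x hx, (hsy j x hx).symm⟩,
    fun j x hx => by rw [hsy j x hx, hmono0 j x hx], fun j x y hx hy => ?_, fun j c x hx => ?_,
    fun i j x y hx hy => ?_, fun W hW => ?_⟩
  · rw [← map_natCast (algebraMap k Q), CharP.cast_eq_zero, map_zero]
  · rw [hsy j x hx, hsy j y hy, hsy j _ (add_mem hx hy), ← map_add]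
    congr 1
    ext1; simp [mono, -LaurentPolynomial.single_eq_C_mul_T]
  · rw [hsy j x hx, hsy j _ ((F j).smul_mem c hx), ← map_smul]
    congr 1
    ext1; simp [mono, -LaurentPolynomial.single_eq_C_mul_T]
  · rw [hsy i x hx, hsy j y hy, hsy _ _ (hmul i j x y hx hy), ← map_mul]
    congr 1
    ext1; simp [mono, single_mul_single, -LaurentPolynomial.single_eq_C_mul_T]
  · rw [eq_top_iff]
    intro y _
    obtain ⟨x, rfl⟩ := hπs y
    have h1 : x = ∑ j ∈ (x : AddMonoidAlgebra R ℤ).coeff.support,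
        (⟨single j ((x : AddMonoidAlgebra R ℤ).coeff j), hsing _ _ (x.2 j)⟩ : Q) := by
      ext1
      rw [AddSubmonoidClass.coe_finsetSum]
      exact (sum_coeff_single _).symm
    rw [h1, map_sum]
    refine W.sum_mem fun j _ => ?_
    rcases lt_or_ge j 0 with hj | hj
    · rw [(hπ0 _).2 ((hdiv _).2 ?_)]
      · exact W.zero_mem
      · intro i
        simp only [coeff_single, Finsupp.single_apply]
        split_ifs with h'
        · rw [show (i + 1).toNat = 0 by omega, h0]; trivial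
        · exact Submodule.zero_mem _
    · obtain ⟨n, rfl⟩ := Int.eq_ofNat_of_zero_le hj
      have := hW n _ (x.2 n)
      rwa [hsy n _ (x.2 n)] at this

theorem reesx_adj {k B ι : Type} [Field k] [Ring B] [Algebra k B] (γ : ι → B) (j : ℕ) (x : B)
    (hx : x ∈ Submodule.span k (Set.range γ) ^ j) : x ∈ Algebra.adjoin k (Set.range γ) := by
  induction hx using Submodule.pow_induction_on_left' with
  | algebraMap r => exact Subalgebra.algebraMap_mem _ r
  | add x y i _ _ h1 h2 => exact add_mem h1 h2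
  | mem_mul m hm i x _ h1 => exact mul_mem (Algebra.span_le_adjoin k _ hm) h1

theorem reesx_nil {k B ι : Type} [Field k] [Ring B] [Algebra k B] [Finite ι] (γ : ι → B)
    (hc : ∀ i l, γ i * γ l = γ l * γ i) (hn : ∀ i, IsNilpotent (γ i)) :
    ∃ n, ∀ j, n ≤ j → ∀ x ∈ Submodule.span k (Set.range γ) ^ j, x = 0 := by
  let A := Algebra.adjoin k (Set.range γ)
  have hA : ∀ x y : A, x * y = y * x := fun x y => Subtype.ext (by
    refine (Algebra.commute_of_mem_adjoin_of_forall_mem_commute (R := k)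
      (s := Set.range γ) y.2 ?_).eq
    rintro _ ⟨i, rfl⟩
    refine (Algebra.commute_of_mem_adjoin_of_forall_mem_commute (R := k)
      (s := Set.range γ) x.2 ?_).symm
    rintro _ ⟨l, rfl⟩
    exact hc i l)
  let _ : CommRing A := { (inferInstance : Ring A) with mul_comm := hA }
  let γ' : ι → A := fun i => ⟨γ i, Algebra.subset_adjoin ⟨i, rfl⟩⟩
  let J : Ideal A := Ideal.span (Set.range γ')
  have hJ : J ≤ (⊥ : Ideal A).radical := Ideal.span_le.2 (by
    rintro _ ⟨i, rfl⟩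
    obtain ⟨m, hm⟩ := hn i
    exact ⟨m, Subtype.ext hm⟩)
  obtain ⟨n, hn'⟩ := Ideal.exists_pow_le_of_le_radical_of_fg hJ
    (Submodule.fg_span (Set.finite_range _))
  have h1 : ∀ x ∈ Submodule.span k (Set.range γ), ∃ a ∈ J, (a : B) = x := fun x hx => by
    induction hx using Submodule.span_induction with
    | mem x hx => obtain ⟨i, rfl⟩ := hx; exact ⟨γ' i, Ideal.subset_span ⟨i, rfl⟩, rfl⟩
    | zero => exact ⟨0, zero_mem _, rfl⟩
    | add x y _ _ h1 h2 =>
      obtain ⟨a, ha, rfl⟩ := h1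
      obtain ⟨b, hb, rfl⟩ := h2
      exact ⟨a + b, add_mem ha hb, rfl⟩
    | smul c x _ h1 =>
      obtain ⟨a, ha, rfl⟩ := h1
      exact ⟨algebraMap k A c * a, J.mul_mem_left _ ha, (Algebra.smul_def c (a : B)).symm⟩
  have h2 : ∀ j, ∀ x ∈ Submodule.span k (Set.range γ) ^ j, ∃ a ∈ J ^ j, (a : B) = x := by
    intro j x hx
    induction hx using Submodule.pow_induction_on_left' with
    | algebraMap r => exact ⟨algebraMap k A r, by simp, rfl⟩
    | add x y i _ _ h1 h2 =>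
      obtain ⟨a, ha, rfl⟩ := h1
      obtain ⟨b, hb, rfl⟩ := h2
      exact ⟨a + b, add_mem ha hb, rfl⟩
    | mem_mul m hm i x _ h3 =>
      obtain ⟨a, ha, rfl⟩ := h1 m hm
      obtain ⟨b, hb, rfl⟩ := h3
      exact ⟨a * b, by rw [pow_succ']; exact Ideal.mul_mem_mul ha hb, rfl⟩
  refine ⟨n, fun j hj x hx => ?_⟩
  obtain ⟨a, ha, rfl⟩ := h2 j x hx
  rw [Ideal.mem_bot.1 (hn' (Ideal.pow_le_pow_right hj ha))]
  rfl

theorem p_REESX (hFR1 : S_FR1) :
    S_REESX := by
  intro p k R0 R _ _ _ _ _ _ d φ Qg _ X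
  obtain ⟨Q, B, _, _, _, t, π, C, sy, h1, h2, h3, h4, h5, h6, s0, sa, ss, sm, st⟩ :=
    reesx_base p X.F X.zero X.anti X.mul
  have top : ∀ x, x ∈ X.F 0 := fun x => X.zero ▸ Submodule.mem_top
  have top0 : ∀ x, x ∈ φ.F 0 := fun x => φ.zero ▸ Submodule.mem_top
  have sz : ∀ j, sy j 0 = 0 := fun j => (s0 j 0 (zero_mem _)).2 (zero_mem _)
  have sC : ∀ x, π (C x) = sy 0 x := fun x => by
    obtain ⟨z, e1, e2⟩ := h6 0 x (top x)
    rw [e1, pow_zero, one_mul, e2]
  have se : ∀ j x y, y ∈ X.F j → x - y ∈ X.F (j + 1) → sy j x = sy j y := fun j x y hy h => by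
    rw [← sub_add_cancel x y, sa j _ y (X.anti j h) hy, (s0 j _ (X.anti j h)).2 h, zero_add]
  choose β hβ hγ using fun i => h6 1 _ (X.map 1 _ (φ.bmem i))
  let u : Qg → Bˣ := fun q => Units.map (π.comp C).toMonoidHom (X.c q)
  have hu : ∀ q, (u q : B) = sy 0 (X.c q) := fun q => sC _
  have a1 : ∀ m ∈ Submodule.span k (Set.range φ.b), m ∈ φ.F 1 ∧
      sy 1 (X.f m) ∈ Submodule.span k (Set.range fun i => π (β i)) := fun m hm => by
    induction hm using Submodule.span_induction with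
    | mem x hx =>
      obtain ⟨i, rfl⟩ := hx
      exact ⟨φ.bmem i, Submodule.subset_span ⟨i, hγ i⟩⟩
    | zero => rw [map_zero, sz]; exact ⟨zero_mem _, zero_mem _⟩
    | add x y _ _ i1 i2 =>
      rw [map_add, sa 1 _ _ (X.map 1 _ i1.1) (X.map 1 _ i2.1)]
      exact ⟨add_mem i1.1 i2.1, add_mem i1.2 i2.2⟩
    | smul c x _ i1 =>
      rw [map_smul, ss 1 c _ (X.map 1 _ i1.1)]
      exact ⟨Submodule.smul_mem _ c i1.1, Submodule.smul_mem _ c i1.2⟩
  have a2 : ∀ j, ∀ m ∈ Submodule.span k (Set.range φ.b) ^ j, m ∈ φ.F j ∧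
      sy j (X.f m) ∈ Submodule.span k (Set.range fun i => π (β i)) ^ j := fun j m hm => by
    induction hm using Submodule.pow_induction_on_left' with
    | algebraMap r =>
      refine ⟨top0 _, ?_⟩
      rw [Algebra.algebraMap_eq_smul_one, map_smul, ss 0 r _ (top _), map_one, ← sC, map_one,
        map_one, pow_zero]
      exact Submodule.smul_mem _ r (Submodule.one_le.1 le_rfl)
    | add x y i _ _ i1 i2 =>
      rw [map_add, sa i _ _ (X.map i _ i1.1) (X.map i _ i2.1)]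
      exact ⟨add_mem i1.1 i2.1, add_mem i1.2 i2.2⟩
    | mem_mul m hm i x _ i1 =>
      rw [Nat.succ_eq_one_add, map_mul, sm 1 i _ _ (X.map 1 _ (a1 m hm).1) (X.map i _ i1.1), pow_add,
        pow_one]
      exact ⟨φ.mul 1 i _ _ (a1 m hm).1 i1.1, Submodule.mul_mem_mul (a1 m hm).2 i1.2⟩
  have a3 : ∀ j, ∀ x ∈ φ.F j,
      sy j (X.f x) ∈ Submodule.span k (Set.range fun i => π (β i)) ^ j := fun j x hx => by
    obtain ⟨m, hm, y, hy, rfl⟩ := Submodule.mem_sup.1 (φ.gen j hx)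
    rw [se j _ (X.f m) (X.map j _ (a2 j m hm).1) (by
      rw [map_add, add_sub_cancel_left]; exact X.map _ _ hy)]
    exact (a2 j m hm).2
  have a4 : ∀ q x, x ∈ φ.F 1 →
      (u q : B) * sy 1 (X.f x) * ↑(u q)⁻¹ = sy 1 (X.f (X.σ q x)) := fun q x hx => by
    rw [Units.mul_inv_eq_iff_eq_mul, hu, ← sm 0 1 _ _ (top _) (X.map 1 _ hx),
      ← sm 1 0 _ _ (X.map 1 _ ((X.σmem q 1 x).1 hx)) (top _), X.cσ]
  have a5 : ∀ (j : ℕ) (W : Submodule k B), (∀ q x, x ∈ φ.F j → sy j (X.f x) * u q ∈ W) →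
      ∀ x ∈ X.F j, sy j x ∈ W := fun j W hW x hx => by
    obtain ⟨m, hm, y, hy, rfl⟩ := Submodule.mem_sup.1 (X.gen j hx)
    have h7 : m ∈ X.F j ∧ sy j m ∈ W := by
      clear hx
      induction hm using Submodule.span_induction with
      | mem x hx =>
        obtain ⟨q, x, hx, rfl⟩ := hx
        refine ⟨X.mul j 0 _ _ (X.map j _ hx) (top _), ?_⟩
        have := sm j 0 _ _ (X.map j _ hx) (top (X.c q))
        rw [add_zero] at this
        rw [this, ← hu]
        exact hW q x hx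
      | zero => rw [sz]; exact ⟨zero_mem _, zero_mem _⟩
      | add x y _ _ i1 i2 =>
        rw [sa j _ _ i1.1 i2.1]
        exact ⟨add_mem i1.1 i2.1, add_mem i1.2 i2.2⟩
      | smul c x _ i1 =>
        rw [ss j c _ i1.1]
        exact ⟨Submodule.smul_mem _ c i1.1, Submodule.smul_mem _ c i1.2⟩
    rw [se j _ m h7.1 (by rwa [add_sub_cancel_left])]
    exact h7.2
  have hc : ∀ i l, π (β i) * π (β l) = π (β l) * π (β i) := fun i l => by
    have b1 := X.map 1 _ (φ.bmem i)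
    have b2 := X.map 1 _ (φ.bmem l)
    rw [hγ, hγ, ← sm 1 1 _ _ b1 b2, ← sm 1 1 _ _ b2 b1]
    refine se _ _ _ (X.mul 1 1 _ _ b2 b1) ?_
    rw [← map_mul, ← map_mul, ← map_sub]
    exact X.map 3 _ (φ.comm i l)
  refine ⟨Q, B, inferInstance, inferInstance, inferInstance, t, π, C, β, u, h1, h2, h3, h4, h5,
    fun j x hx => (h6 j x hx).imp fun z hz => hz.1, fun i => by rw [hβ, pow_one], hc,
    fun q i => ?_, fun q q' i => ?_, st _ fun j => a5 j _ fun q x hx => ?_, ?_⟩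
  · rw [hγ, a4 q _ (φ.bmem i)]
    simpa only [pow_one] using a3 1 _ ((X.σmem q 1 _).1 (φ.bmem i))
  · have b1 := (X.σmem (q * q') 1 _).1 (φ.bmem i)
    obtain ⟨g, hg⟩ := X.σmul q q'
    rw [hγ, a4 q' _ (φ.bmem i), a4 q _ ((X.σmem q' 1 _).1 (φ.bmem i)), a4 _ _ (φ.bmem i), hg]
    refine se 1 _ _ (X.map 1 _ b1) ?_
    rw [← map_sub]
    refine X.map 2 _ ?_
    have b2 := φ.mul 2 0 _ _ ((hFR1 k R0 d φ).1 0 1 (g : R0) _ (top0 _) b1) (top0 (↑g⁻¹ : R0))
    rwa [sub_mul, Units.mul_inv_cancel_right] at b2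
  · exact Submodule.subset_span ⟨q, _, reesx_adj _ j _ (a3 j x hx), rfl⟩
  · by_contra hn
    push Not at hn
    obtain ⟨n, hn'⟩ := reesx_nil (k := k) _ hc hn
    obtain ⟨j, hj, hF⟩ := X.ninf n
    refine hF fun x hx => (s0 j x hx).1 ((Submodule.mem_bot k).1 (a5 j ⊥ (fun q y hy => ?_) x hx))
    rw [hn' j hj _ (a3 j y hy), zero_mul]
    exact zero_mem _

end Pool.Agent.P.MP_7cb106_nt.QJ
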