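import Pool.Agent.P.MP_7cb106_nt.QJ.Iface

/-! Step REG. -/

set_option autoImplicit false

namespace Pool.Agent.P.MP_7cb106_nt.QJ

open Filter

theorem reg_kill {O : Type} [Ring O] (t : O) (hc : ∀ o : O, t * o = o * t) (N : ℕ)
    (hN : t ^ N = 0) (l : ℕ) : ∀ K : Submodule O O, Order.height K ≤ (l : ℕ∞) →
    ∀ x ∈ K, t ^ l * x = 0 := by
  induction l with
  | zero =>
    intro K hK x hx
    have h0 : Order.height K = 0 := by simpa using hK
    have h1 : K = ⊥ := (Order.height_eq_zero.1 h0).eq_bot
    rw [h1, Submodule.mem_bot] at hx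
    rw [hx, mul_zero]
  | succ l ih =>
    intro K hK x hx
    have hm : ∀ y, y ∈ K.map (LinearMap.toSpanSingleton O O t) ↔ ∃ z ∈ K, t * z = y := by
      intro y
      simp only [Submodule.mem_map, LinearMap.toSpanSingleton_apply, smul_eq_mul, hc]
    have hle : K.map (LinearMap.toSpanSingleton O O t) ≤ K := by
      intro y hy
      obtain ⟨z, hz, rfl⟩ := (hm y).1 hy
      exact K.smul_mem t hz
    rcases hle.lt_or_eq with h | h
    · have h1 := (Order.height_add_one_le h).trans hK
      have h2 : Order.height (K.map (LinearMap.toSpanSingleton O O t)) ≤ (l : ℕ∞) := by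
        rw [Nat.cast_succ] at h1
        exact (ENat.add_le_add_iff_right ENat.one_ne_top).1 h1
      rw [pow_succ, mul_assoc]
      exact ih _ h2 _ ((hm _).2 ⟨x, hx, rfl⟩)
    · have h1 : ∀ n : ℕ, ∃ z ∈ K, t ^ n * z = x := by
        intro n
        induction n with
        | zero => exact ⟨x, hx, by rw [pow_zero, one_mul]⟩
        | succ n ih' =>
          obtain ⟨z, hz, e⟩ := ih'
          rw [← h] at hz
          obtain ⟨z', hz', e'⟩ := (hm z).1 hz
          exact ⟨z', hz', by rw [pow_succ, mul_assoc, e', e]⟩
      obtain ⟨z, -, e⟩ := h1 N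
      rw [← e, hN, zero_mul, mul_zero]

theorem p_REG (hLENQ : S_LENQ) :
    S_REG := by
  intro ρ N T D c w x hw hx
  set f := LinearMap.toSpanSingleton T.O T.O c with hf
  have h1 : Module.length T.O T.O =
      Module.length T.O (LinearMap.ker f) + Module.length T.O (LinearMap.range f) :=
    Module.length_eq_add_of_exact (LinearMap.ker f).subtype f.rangeRestrict
      (Submodule.subtype_injective _) f.surjective_rangeRestrict (by
        intro y
        simp only [Set.mem_range, Submodule.subtype_apply, Subtype.exists, LinearMap.mem_ker,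
          exists_prop, exists_eq_right]
        rw [← LinearMap.mem_ker, LinearMap.ker_rangeRestrict, LinearMap.mem_ker])
  have h2 : Module.length T.O T.O =
      Module.length T.O (LinearMap.range f) + Module.length T.O (T.O ⧸ LinearMap.range f) :=
    Module.length_eq_add_of_exact (LinearMap.range f).subtype (LinearMap.range f).mkQ
      (Submodule.subtype_injective _) (Submodule.mkQ_surjective _)
      (LinearMap.exact_subtype_mkQ _)
  have h3 : Module.length T.O T.O ≤ ((ρ * N : ℕ) : ℕ∞) := by
    have h := hLENQ ρ N T N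
    rw [T.nil, Submodule.span_zero_singleton] at h
    rw [← (Submodule.quotEquivOfEqBot (⊥ : Submodule T.O T.O) rfl).length_eq]
    exact h
  have h4 : Module.length T.O (T.O ⧸ LinearMap.range f) ≤ ((ρ * D : ℕ) : ℕ∞) := by
    refine le_trans ?_ (hLENQ ρ N T D)
    have hle : Submodule.span T.O {T.t ^ D} ≤ LinearMap.range f := by
      rw [Submodule.span_singleton_le_iff_mem]
      exact ⟨w, by rw [hw, hf, LinearMap.toSpanSingleton_apply, smul_eq_mul]⟩
    exact Module.length_le_of_surjective (Submodule.factor hle) (Submodule.factor_surjective hle)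
  have h5 : Module.length T.O (LinearMap.range f) ≠ ⊤ := by
    intro e
    rw [h2, e, top_add] at h3
    exact ENat.natCast_ne_top _ (top_le_iff.1 h3)
  have h6 : Module.length T.O (LinearMap.ker f) = Module.length T.O (T.O ⧸ LinearMap.range f) := by
    rw [h1, add_comm] at h2
    exact (ENat.add_right_injective_of_ne_top h5) h2
  have h7 : Order.height (LinearMap.ker f) ≤ ((ρ * D : ℕ) : ℕ∞) := by
    rw [← Module.length_submodule, h6]
    exact h4
  exact reg_kill T.t T.central N T.nil _ _ h7 x (by
    rw [LinearMap.mem_ker, hf, LinearMap.toSpanSingleton_apply, smul_eq_mul, hx])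

end Pool.Agent.P.MP_7cb106_nt.QJ
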