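import Pool.Agent.P.MP_7cb106_nt.QJ.Iface

/-! Step RIG. -/

set_option autoImplicit false

namespace Pool.Agent.P.MP_7cb106_nt.QJ

open Filter

theorem p_RIG (hRIGM : S_RIGM) (hRIGH : S_RIGH) (hDET : S_DET) (hSW : S_SW) (hFINV : S_FINV) :
    S_RIG := by
  intro p d _ G _ ρ DD hR X hX hS n θ hθ
  obtain ⟨W, hWX, hW, hWS, h1, hm⟩ := hRIGM p d G ρ DD hR X hX hS
  obtain ⟨s, hs⟩ := hR.sep
  obtain ⟨m, hm'⟩ := hDET p d (W : Set _) hW.sm (hRIGH p d G ρ DD hR W hW hWS) (n + s)
  refine hWX (hSW p (ZMod p) (VV p d) W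
    {φ | ∃ w ∈ W, LvV m w ∧ ∃ i, φ = fun y => w (DD i y)} ?_ ?_ θ ?_)
  · refine (((hFINV p d m).1.prod (Set.finite_univ (α := Fin d))).image
      fun x : (VV p d → ZMod p) × Fin d => fun y => x.1 (DD x.2 y)).subset ?_
    rintro φ ⟨w, -, hw, i, rfl⟩
    exact ⟨(w, i), ⟨hw, trivial⟩, rfl⟩
  · intro L
    induction L with
    | nil => intro _; simpa using h1
    | cons φ L ih =>
      intro hL
      obtain ⟨w, hw, -, i, rfl⟩ := hL φ (by simp)
      have := hm w hw _ (ih fun ψ hψ => hL ψ (by simp [hψ])) i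
      simpa only [List.map_cons, List.prod_cons, ZMod.natCast_zmod_val] using this
  · intro g g' hg
    have h : Dv n (g - g') := hs n _ fun i => hm' _ fun w hw hl y => by
      have := hg (fun z => w (DD i z + (y - DD i g'))) ⟨fun z => w (z + (y - DD i g')),
        hW.inv w hw _, fun a b hb => by
          show w (a + b + _) = w (a + _)
          rw [add_right_comm, hl _ _ hb], i, rfl⟩
      simp only [add_sub_cancel] at this
      rw [← this, map_sub]
      congr 1
      abel
    have := hθ g' _ h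
    rwa [add_sub_cancel] at this

end Pool.Agent.P.MP_7cb106_nt.QJ
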