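import Pool.Agent.P.MP_7cb106_nt.QJ.Iface

/-! Step RIGH. -/

set_option autoImplicit false

namespace Pool.Agent.P.MP_7cb106_nt.QJ

open Filter

theorem p_RIGH (hFINV : S_FINV) :
    S_RIGH := by
  intro p d _ G _ ρ DD hR W hW ⟨H, hH, hS⟩ v hv
  let h : Submodule ℤ_[p] (VV p d) :=
    { carrier := {v | ∀ w ∈ W, ∀ y, w (y + v) = w y}
      zero_mem' := fun w _ y => by rw [add_zero]
      add_mem' := fun {a b} ha hb w hw y => by rw [← add_assoc, hb w hw, ha w hw]
      smul_mem' := fun c v hv w hw y => by
        obtain ⟨m, hm⟩ := hW.sm w hw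
        have h1 : ∀ n : ℕ, w (y + (n : ℤ_[p]) • v) = w y := fun n => by
          induction n with
          | zero => simp
          | succ n ih => rw [Nat.cast_succ, add_smul, one_smul, ← add_assoc, hv w hw, ih]
        have h2 := Ideal.mem_span_singleton.1 (PadicInt.appr_spec m c)
        rw [← h1 (c.appr m), ← hm (y + (c.appr m : ℤ_[p]) • v) ((c - c.appr m) • v)
          fun i => h2.mul_right _]
        congr 1
        rw [sub_smul]; abel }
  by_contra h0
  obtain ⟨c, hc⟩ := hR.irr H hH h (fun s hs y hy w hw z => by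
    have := hy _ (hS s hs w hw) ((ρ s).symm z)
    simpa using this) (fun e => h0 (by
      have : v ∈ h := hv
      rwa [e, Submodule.mem_bot] at this))
  have hf : (W : Set (VV p d → ZMod p)).Finite :=
    (hFINV p d c).1.subset fun w hw y z hz => hc z hz w hw y
  have : Finite W := hf
  exact hW.inf (Module.Finite.of_finite)

end Pool.Agent.P.MP_7cb106_nt.QJ
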