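import Pool.Agent.P.MP_7cb106_nt.QJ.Iface

/-! Step RIGM. -/

set_option autoImplicit false

namespace Pool.Agent.P.MP_7cb106_nt.QJ

open Filter

section
variable {p d : ℕ} [Fact p.Prime]

lemma rigm_congr {W : Submodule (ZMod p) (VV p d → ZMod p)} {f g : VV p d → ZMod p} (hf : f ∈ W)
    (h : ∀ y, g y = f y) : g ∈ W := (funext h : g = f) ▸ hf

lemma rigm_nice {u : UF p d (Multiplicative (VV p d))}
    (hu : ∀ a g, g ∈ u.lev a ↔ Dv a g.toAdd) (W : Submodule (ZMod p) (VV p d → ZMod p)) :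
    NiceV W ↔ u.Nice (k := ZMod p) W := by
  constructor
  · intro h
    refine ⟨fun w hw => ?_, fun w hw a b => ?_, h.inf⟩
    · obtain ⟨n, hn⟩ := h.sm w hw
      exact ⟨n, fun g z hz => hn g.toAdd z.toAdd ((hu n z).1 hz)⟩
    · have := h.inv w hw (a.toAdd + b.toAdd)
      refine rigm_congr this fun g => ?_
      change w (a.toAdd + g + b.toAdd) = w (g + (a.toAdd + b.toAdd))
      congr 1
      abel
  · intro h
    refine ⟨fun w hw => ?_, fun w hw v => ?_, h.inf⟩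
    · obtain ⟨n, hn⟩ := h.sm w hw
      exact ⟨n, fun y z hz => hn (Multiplicative.ofAdd y) (Multiplicative.ofAdd z) ((hu n _).2 hz)⟩
    · have := h.inv w hw 1 (Multiplicative.ofAdd v)
      refine rigm_congr this fun g => ?_
      change w (g + v) = w (0 + g + v)
      rw [zero_add]

end

theorem p_RIGM (hUFV : S_UFV) (hMACH : S_MACH) (hDCC : S_DCC) (hFROB : S_FROB) (hONE : S_ONE) :
    S_RIGM := by
  intro p d _ G _ ρ DD hR X hX hXs
  obtain ⟨u, hu1, hu2, hu3⟩ := hUFV p d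
  obtain ⟨W, ⟨hWX, hWn, hWs⟩, hmin⟩ := hDCC p d (Multiplicative (VV p d)) u (ZMod p)
    {W : Submodule (ZMod p) (VV p d → ZMod p) | W ≤ X ∧ NiceV W ∧ VStab ρ W}
    ⟨X, le_rfl, hX, hXs⟩ (fun W hW => (rigm_nice hu1 W).1 hW.2.1)
  have hWu := (rigm_nice hu1 W).1 hWn
  refine ⟨W, hWX, hWn, hWs, hONE p d _ u (ZMod p) W hWu, ?_⟩
  obtain ⟨H, hH, hHs⟩ := hWs
  obtain ⟨a, ha1, ha2⟩ := hu3 H (ρ.comp H.subtype) (fun s y => hR.triv s y)
  have hstab : a.Stab W := by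
    intro s w hw
    have := hHs s s.2 w hw
    refine rigm_congr this fun g => ?_
    rw [ha2]
    rfl
  obtain ⟨W', h1, h2, h3, XX, -, h5, h6, h7⟩ := hMACH p d _ u (ZMod p) H a W hWu hstab
  have hW' : W' = W := by
    refine hmin W' ⟨h1.trans hWX, (rigm_nice hu1 W').2 h2, H, hH, fun s hs w hw => ?_⟩ h1
    have := h3 ⟨s, hs⟩ w hw
    refine rigm_congr this fun g => ?_
    rw [ha2]
    rfl
  have hle : ∀ Y ∈ XX, Y ≤ W := by
    refine h7 W fun r w hw ψ => ?_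
    have h8 := W.smul_mem (ψ 1) (hFROB p d _ u W hWu w hw r)
    refine rigm_congr h8 fun y => ?_
    have e1 : ∀ x : ZMod p, ψ x = ψ 1 * x := by
      intro x
      conv_lhs => rw [← ZMod.natCast_zmod_val x, ← nsmul_one, map_nsmul]
      rw [nsmul_eq_mul, ZMod.natCast_zmod_val, mul_comm]
    rw [e1, hu2]
    change ψ 1 * w ((p : ℤ_[p]) ^ r • y) = ψ 1 * w ((p ^ r : ℕ) • y)
    rw [← Nat.cast_smul_eq_nsmul ℤ_[p], Nat.cast_pow]
  have hXW : ∀ Y ∈ XX, Y = W := by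
    intro Y hY
    obtain ⟨hn, H', hH', hs'⟩ := h5 Y hY
    refine hmin Y ⟨(hle Y hY).trans hWX, hn, H'.map H.subtype, ⟨?_⟩, ?_⟩ (hle Y hY)
    · rw [Subgroup.index_map_subtype]
      exact mul_ne_zero hH'.index_ne_zero hH.index_ne_zero
    · rintro _ ⟨s, hs, rfl⟩ θ hθ
      have := hs' s hs θ hθ
      rw [ha1] at this
      exact this
  intro θ hθ w hw i
  have hd : a.Disp (fun h => DD i h.toAdd) := by
    obtain ⟨r0, hr0⟩ := hR.disp H hH i
    refine ⟨r0, fun r hr => ?_⟩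
    obtain ⟨γ, hγ, h⟩ := hr0 r hr
    refine ⟨⟨γ, hγ⟩, fun m g => ?_⟩
    rw [hu1, ha2, hu2]
    have := h m g.toAdd
    convert this using 1
    change -(g.toAdd + (p : ℤ_[p]) ^ r • (m • DD i g.toAdd)) + ρ (γ ^ m) g.toAdd = _
    abel
  have := h6 θ (fun Y hY => (hXW Y hY).symm ▸ hθ) _ hd w (hW' ▸ hw)
  refine rigm_congr this fun y => ?_
  rw [ZMod.natCast_zmod_val]
  rfl

end Pool.Agent.P.MP_7cb106_nt.QJ
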