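import Pool.Agent.P.MP_7cb106_nt.QJ.Iface

/-! Step ROOT. -/

set_option autoImplicit false

namespace Pool.Agent.P.MP_7cb106_nt.QJ

open Filter

theorem root_pow {O : Type} [CommRing O] (w : O) (u : ℕ) :
    ∃ c, (1 + w) ^ u = 1 + w * (u + w * c) := by
  induction u with
  | zero => exact ⟨0, by simp⟩
  | succ u ih =>
    obtain ⟨c, hc⟩ := ih
    exact ⟨c + u + w * c, by rw [pow_succ, hc]; push_cast; ring⟩

theorem p_ROOT :
    S_ROOT := by
  intro p hp O _ _ _ _ n e hn he
  obtain ⟨s, u, hu, rfl⟩ := Nat.exists_eq_pow_mul_and_not_dvd hn p hp.out.ne_one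
  have u1 : IsUnit (u : O) := by
    have := (PadicInt.isUnit_iff.2 (PadicInt.norm_natCast_eq_one_iff.2
      (hp.out.coprime_iff_not_dvd.2 hu))).map (algebraMap ℤ_[p] O)
    rwa [map_natCast] at this
  have p0 : (p : O) ≠ 0 := fun h => by
    rw [← map_natCast (algebraMap ℤ_[p] O), map_eq_zero_iff _
      (FaithfulSMul.algebraMap_injective ℤ_[p] O)] at h
    exact hp.out.ne_zero (by exact_mod_cast h)
  refine ⟨s, fun m z h => ?_, fun m z h1 => ?_⟩
  · rw [Nat.cast_mul, Nat.cast_pow, add_comm, pow_add, mul_assoc,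
      mul_dvd_mul_iff_left (pow_ne_zero s p0)] at h
    exact u1.dvd_mul_left.1 h
  induction m with
  | zero => exact fun _ => by rw [pow_zero]; exact one_dvd _
  | succ m ih =>
    intro h
    rcases lt_or_ge m e with hm | hm
    · exact (pow_dvd_pow _ hm).trans h1
    obtain ⟨x, hx⟩ := ih ((pow_dvd_pow _ (by omega)).trans h)
    have e1 : 1 ≤ e := by
      rcases e with _ | e
      · simp at he
      · omega
    have k : m + 2 ≤ m * p := by
      rcases hp.out.two_le.eq_or_lt with h2 | h2
      · have e2 : e ≠ 1 := fun a => by rw [a, ← h2] at he; omega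
        rw [← h2]
        omega
      · have := Nat.mul_le_mul_left m (show 3 ≤ p from h2)
        omega
    have pm : (p : O) ∣ p ^ m := dvd_pow_self _ (by omega)
    obtain ⟨y, hy⟩ := ZMod.exists_one_add_mul_pow_prime_pow_eq (R := O) (u := (p : O) ^ m)
      (v := p) hp.out pm (by
        rw [← pow_succ', ← pow_succ, ← pow_mul]
        exact pow_dvd_pow _ k) x s
    obtain ⟨c, hc⟩ := root_pow ((p : O) ^ s * p ^ m * (x + p * y)) u
    rw [pow_mul, eq_add_of_sub_eq' hx, hy, hc, add_sub_cancel_left, mul_assoc, ← pow_add,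
      show m + 1 + s = s + m + 1 by omega, pow_succ,
      mul_dvd_mul_iff_left (pow_ne_zero _ p0)] at h
    have h2 : (p : O) ∣ p ^ (s + m) := dvd_pow_self _ (by omega)
    rw [mul_add, dvd_add_left (((h2.mul_right _).mul_right _).mul_left _), u1.dvd_mul_right,
      dvd_add_left (dvd_mul_right _ _)] at h
    rw [hx, pow_succ]
    exact mul_dvd_mul_left _ h

end Pool.Agent.P.MP_7cb106_nt.QJ
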