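import Pool.Agent.P.MP_7cb106_nt.QJ.Iface

/-! Step SEPV. -/

set_option autoImplicit false

namespace Pool.Agent.P.MP_7cb106_nt.QJ

open Filter

theorem p_SEPV (hCOMMS : S_COMMS) (hROOT : S_ROOT) :
    S_SEPV := by
  intro p _ O _ _ _ _ n d Fr DD hDD
  rcases eq_or_ne n 0 with rfl | hn
  · exact ⟨0, fun m y _ => (Fr.dv m y).2 fun i => i.elim0⟩
  obtain ⟨s, h1, -⟩ := hROOT p O n 2 hn (by nlinarith [(Fact.out : p.Prime).two_le])
  refine ⟨s, fun m y h => ?_⟩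
  obtain ⟨z, hz⟩ := hCOMMS p O n d Fr ((p : O) ^ (m + s)) (Fr.c y) fun i => by
    rw [← hDD i y]
    exact (Fr.dv _ _).1 (h i)
  have h2 : (p : O) ^ (m + s) ∣ (Fr.c y - z • (1 : Matrix (Fin n) (Fin n) O)).trace :=
    Finset.dvd_sum fun i _ => hz i i
  rw [Matrix.trace_sub, (Fr.range _).1 ⟨y, rfl⟩, Matrix.trace_smul, Matrix.trace_one,
    Fintype.card_fin, zero_sub, dvd_neg, smul_eq_mul, mul_comm] at h2
  refine (Fr.dv m y).2 fun i j => ?_
  have h3 := ((pow_dvd_pow (p : O) (Nat.le_add_right m s)).trans (hz i j)).add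
    ((h1 m z h2).mul_right ((1 : Matrix (Fin n) (Fin n) O) i j))
  rwa [Matrix.sub_apply, Matrix.smul_apply, smul_eq_mul, sub_add_cancel] at h3

end Pool.Agent.P.MP_7cb106_nt.QJ
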