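import Pool.Agent.P.MP_7cb106_nt.QJ.Iface2

/-! Step SEPX. -/

set_option autoImplicit false

namespace Pool.Agent.P.MP_7cb106_nt.QJ

open Filter

section
variable {O : Type} [CommRing O] {n : ℕ} {q : O} {M : Matrix (Fin n) (Fin n) O}
  {U : Subgroup (GL (Fin n) O)}

theorem sepx_mul (g h : U) : matU (g * h) = matU g * matU h := rfl

theorem sepx_inv (g : U) : matU g * matU g⁻¹ = 1 := by
  rw [← sepx_mul, mul_inv_cancel]
  rfl

theorem sepx_left (h : MD q M) (A : Matrix (Fin n) (Fin n) O) : MD q (A * M) := fun i j => by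
  rw [Matrix.mul_apply]
  exact Finset.dvd_sum fun k _ => (h k j).mul_left _

theorem sepx_right (h : MD q M) (A : Matrix (Fin n) (Fin n) O) : MD q (M * A) := fun i j => by
  rw [Matrix.mul_apply]
  exact Finset.dvd_sum fun k _ => (h i k).mul_right _

end

theorem p_SEPX (hCOMMS : S_COMMS) (hNROOT : S_NROOT) (hSPLIT : S_SPLIT) (hFLX : S_FLX) :
    S_SEPX := by
  intro p _ O _ _ _ _ _ n d e Fr u U V ys he hU hUe hV hY b
  rcases eq_or_ne n 0 with rfl | hn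
  · refine ⟨0, fun g g' _ => Subgroup.mem_sup_right ((hV.2 _).2 ⟨1, ?_⟩)⟩
    exact Subsingleton.elim _ _
  obtain ⟨m, hm⟩ := hSPLIT p O n d e Fr u U he hU hUe b
  refine ⟨e + m, fun g g' h => ?_⟩
  obtain ⟨z, hz⟩ := hCOMMS p O n d Fr ((p : O) ^ (e + m)) (matU (g' * g⁻¹)) fun i => by
    have h2 := (Fr.dv _ _).1 (h i)
    rw [map_sub, hY, hY, sub_sub_sub_cancel_right] at h2
    have h3 := sepx_right (sepx_left h2 (matU g')) (matU g⁻¹)
    have h4 : matU g' * (matU g⁻¹ * Fr.bs i * matU g - matU g'⁻¹ * Fr.bs i * matU g') * matU g⁻¹ =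
        -(Fr.bs i * matU (g' * g⁻¹) - matU (g' * g⁻¹) * Fr.bs i) := by
      rw [sepx_mul, mul_sub, sub_mul, neg_sub]
      simp only [← mul_assoc]
      rw [sepx_inv, one_mul, mul_assoc _ (matU g), sepx_inv, mul_one]
    rw [h4] at h3
    exact fun a c => dvd_neg.1 (h3 a c)
  generalize hv : g' * g⁻¹ = v at hz
  have i0 : Fin n := ⟨0, Nat.pos_of_ne_zero hn⟩
  have hu : IsUnit z := by
    have h1 := sepx_right hz (matU v⁻¹) i0 i0
    rw [sub_mul, sepx_inv, Matrix.smul_mul, one_mul, Matrix.sub_apply, Matrix.one_apply_eq,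
      Matrix.smul_apply, smul_eq_mul] at h1
    exact isUnit_of_mul_isUnit_left ((hNROOT p O).1 (z * matU v⁻¹ i0 i0)
      (dvd_sub_comm.1 ((dvd_pow_self (p : O) (by omega)).trans h1)))
  obtain ⟨z, rfl⟩ := hu
  let κ : GL (Fin n) O := Units.map (Matrix.scalar (Fin n)).toMonoidHom z⁻¹ * v.1
  have hκ : κ.1 = ((z⁻¹ : Oˣ) : O) • matU v := by
    change Matrix.scalar (Fin n) ((z⁻¹ : Oˣ) : O) * matU v = _
    rw [Matrix.scalar_apply, ← Matrix.smul_eq_diagonal_mul]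
  have h5 : MD ((p : O) ^ (e + m)) (κ.1 - 1) := fun i j => by
    have h6 : κ.1 - 1 = ((z⁻¹ : Oˣ) : O) • (matU v - (z : O) • 1) := by
      rw [hκ, smul_sub, smul_smul, Units.inv_mul, one_smul]
    rw [h6, Matrix.smul_apply, smul_eq_mul]
    exact (hz i j).mul_left _
  have h7 : κ ∈ U := hUe κ fun i j => (pow_dvd_pow _ (Nat.le_add_right e m)).trans (h5 i j)
  obtain ⟨k, hk, c, -, hc⟩ := hm ⟨κ, h7⟩ fun i j =>
    (pow_dvd_pow _ (Nat.le_add_left m e)).trans (h5 i j)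
  have h8 : matU v = ((z * c : Oˣ) : O) • matU (V.inc k) := by
    have h9 : ((z⁻¹ : Oˣ) : O) • matU v = (c : O) • mat k := hκ.symm.trans hc
    rw [hV.1, Units.val_mul, mul_smul, ← h9, smul_smul, Units.mul_inv, one_smul]
  have h10 : v * (V.inc k)⁻¹ ∈ V.Z := (hV.2 _).2 ⟨z * c, by
    rw [sepx_mul, h8, Matrix.smul_mul, sepx_inv]⟩
  obtain ⟨-, hN, h11⟩ := (hFLX p d _ u U V).1 b
  have h12 := hN.conj_mem' v ((h11 v).2 ⟨k, hk, _, h10, by rw [inv_mul_cancel_right]⟩) g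
  rwa [← hv, mul_assoc, inv_mul_cancel_right] at h12

end Pool.Agent.P.MP_7cb106_nt.QJ
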