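import Pool.Agent.P.MP_7cb106_nt.QJ.Iface2

/-! Step SPLIT. -/

set_option autoImplicit false

namespace Pool.Agent.P.MP_7cb106_nt.QJ

open Filter

theorem split_det {O : Type} [CommRing O] {n : ℕ} (q : O) (M : Matrix (Fin n) (Fin n) O)
    (h : MD q (M - 1)) : q ∣ M.det - 1 := by
  rw [← Ideal.mem_span_singleton, ← Ideal.Quotient.eq, RingHom.map_det, map_one]
  have : (Ideal.Quotient.mk (Ideal.span {q})).mapMatrix M = 1 := by
    ext i j
    have := h i j
    rw [← Ideal.mem_span_singleton, Matrix.sub_apply, ← Ideal.Quotient.eq] at this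
    rw [RingHom.mapMatrix_apply, Matrix.map_apply, this]
    by_cases e : i = j <;> simp [e, Matrix.one_apply]
  rw [this, Matrix.det_one]

theorem p_SPLIT (hNROOT : S_NROOT) :
    S_SPLIT := by
  intro p _ O _ _ _ _ _ n d e Fr u U he hu _ b
  obtain ⟨h1, -, h3⟩ := hNROOT p O
  have key : ∀ (g : U) (c : Oˣ), (p : O) ^ (e + b) ∣ (c : O) - 1 → (c : O) ^ n = (matU g).det →
      MD ((p : O) ^ (e + b)) (matU g - 1) →
      ∃ h ∈ u.lev b, ∃ c : Oˣ, (p : O) ^ e ∣ (c : O) - 1 ∧ matU g = (c : O) • mat h := by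
    intro g c hc hn hg
    have hd : (((c⁻¹ : Oˣ) : O) • matU g).det = 1 := by
      rw [Matrix.det_smul, ← hn, Fintype.card_fin, ← mul_pow]; simp
    have hm : MD ((p : O) ^ (e + b)) (((c⁻¹ : Oˣ) : O) • matU g - 1) := by
      intro i j
      have e1 : (((c⁻¹ : Oˣ) : O) • matU g - 1) i j = ((c⁻¹ : Oˣ) : O) * ((matU g - 1) i j -
          ((c : O) - 1) * (1 : Matrix (Fin n) (Fin n) O) i j) := by
        simp only [Matrix.sub_apply, Matrix.smul_apply, smul_eq_mul]
        linear_combination (1 : Matrix (Fin n) (Fin n) O) i j * c.inv_mul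
      rw [e1]
      exact Dvd.dvd.mul_left (dvd_sub (hg i j) (Dvd.dvd.mul_right hc _)) _
    have hle : (p : O) ^ e ∣ (p : O) ^ (e + b) := pow_dvd_pow _ (Nat.le_add_right _ _)
    refine ⟨⟨⟨_, hd⟩, (mem_Cong _).2 fun i j => hle.trans (hm i j)⟩, (hu.1 b _).2 hm, c,
      hle.trans hc, ?_⟩
    change matU g = (c : O) • (((c⁻¹ : Oˣ) : O) • matU g)
    rw [smul_smul]; simp
  rcases Nat.eq_zero_or_pos n with rfl | hn
  · exact ⟨e + b, fun g hg => key g 1 (by simp) (by simp) hg⟩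
  · obtain ⟨m', hm'⟩ := h3 n hn.ne' (e + b)
    refine ⟨max m' (e + b), fun g hg => ?_⟩
    obtain ⟨ζ, z1, z2⟩ := hm' _
      ((pow_dvd_pow _ (le_max_left _ _)).trans (split_det _ _ hg))
    obtain ⟨c, rfl⟩ := h1 ζ ((dvd_pow_self _ (by omega)).trans z1)
    exact key g c z1 z2 fun i j => (pow_dvd_pow _ (le_max_right _ _)).trans (hg i j)

end Pool.Agent.P.MP_7cb106_nt.QJ
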