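import Pool.Agent.P.MP_7cb106_nt.QJ.Iface

/-! Step SW. -/

set_option autoImplicit false

namespace Pool.Agent.P.MP_7cb106_nt.QJ

open Filter

lemma sw_ind (p : ℕ) [Fact p.Prime] (a b : ZMod p) :
    1 - (a - b) ^ (p - 1) = if a = b then 1 else 0 := by
  split_ifs with h
  · have := (Fact.out : p.Prime).two_le
    rw [h, sub_self, zero_pow (by omega), sub_zero]
  · rw [ZMod.pow_card_sub_one_eq_one (sub_ne_zero.2 h), sub_self]

theorem p_SW :
    S_SW := by
  classical
  intro p _ k _ _ Ω W Φ hΦ hL f hf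
  have := hΦ.fintype
  let c : ZMod p →+* k := ZMod.castHom (dvd_refl p) k
  have hc : ∀ a, c a = (a.val : k) := fun a => by
    rw [ZMod.castHom_apply, ZMod.natCast_val]
  let S : Set (Ω → k) := Set.range fun (φ : Φ) g => c (φ.1 g)
  have hA : ∀ x ∈ Algebra.adjoin k S, x ∈ W := by
    intro x hx
    have hx' : x ∈ Subalgebra.toSubmodule (Algebra.adjoin k S) := hx
    rw [Algebra.adjoin_eq_span] at hx'
    refine Submodule.span_le.2 (fun a ha => ?_) hx'
    have : ∃ L : List (Ω → ZMod p), (∀ φ ∈ L, φ ∈ Φ) ∧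
        a = fun g => (L.map (fun φ => ((φ g).val : k))).prod := by
      induction ha using Submonoid.closure_induction with
      | mem a ha =>
        obtain ⟨φ, rfl⟩ := ha
        exact ⟨[φ.1], by simp, funext fun g => by
          rw [List.map_singleton, List.prod_singleton]; exact hc _⟩
      | one => exact ⟨[], by simp, rfl⟩
      | mul a b _ _ ha hb =>
        obtain ⟨L, h1, rfl⟩ := ha
        obtain ⟨L', h2, rfl⟩ := hb
        refine ⟨L ++ L', fun φ h => (List.mem_append.1 h).elim (h1 φ) (h2 φ), funext fun g => ?_⟩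
        rw [List.map_append, List.prod_append, Pi.mul_apply]
    obtain ⟨L, h, rfl⟩ := this
    exact hL L h
  let v : (Φ → ZMod p) → k := fun s =>
    if h : ∃ g, (fun φ : Φ => φ.1 g) = s then f h.choose else 0
  have e : f = ∑ s : Φ → ZMod p, v s • ∏ φ : Φ,
      (1 - ((fun g => c (φ.1 g)) - algebraMap k (Ω → k) (c (s φ))) ^ (p - 1)) := by
    funext g
    have e1 : ∀ s : Φ → ZMod p, (∏ φ : Φ,
        (1 - ((fun g => c (φ.1 g)) - algebraMap k (Ω → k) (c (s φ))) ^ (p - 1))) g =
        if (fun φ : Φ => φ.1 g) = s then 1 else 0 := fun s => by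
      rw [Finset.prod_apply]
      have : ∀ φ : Φ, (1 - ((fun g => c (φ.1 g)) - algebraMap k (Ω → k) (c (s φ))) ^ (p - 1)) g =
          if φ.1 g = s φ then 1 else 0 := fun φ => by
        have := congrArg c (sw_ind p (φ.1 g) (s φ))
        rw [map_sub, map_one, map_pow, map_sub, apply_ite c, map_one, map_zero] at this
        exact this
      simp only [this, Finset.prod_boole, Finset.mem_univ, forall_true_left, funext_iff]
    simp only [Finset.sum_apply, Pi.smul_apply, e1, smul_eq_mul, mul_ite, mul_one, mul_zero,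
      Finset.sum_ite_eq, Finset.mem_univ, if_true]
    have h : ∃ g', (fun φ : Φ => φ.1 g') = fun φ : Φ => φ.1 g := ⟨g, rfl⟩
    simp only [v, dif_pos h]
    exact (hf _ _ fun φ hφ => congrFun h.choose_spec ⟨φ, hφ⟩).symm
  rw [e]
  refine hA _ (sum_mem fun s _ => (Algebra.adjoin k S).smul_mem
    ((Algebra.adjoin k S).prod_mem fun φ _ => ?_) _)
  exact sub_mem (one_mem _) (pow_mem (sub_mem (Algebra.subset_adjoin (Set.mem_range_self φ))
    (Subalgebra.algebraMap_mem _ _)) _)

end Pool.Agent.P.MP_7cb106_nt.QJ
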