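import Pool.Agent.P.MP_7cb106_nt.QJ.Iface2

/-! Step TOPX. -/

set_option autoImplicit false

namespace Pool.Agent.P.MP_7cb106_nt.QJ

open Filter Topology

theorem topx_ring (p : ℕ) [hp : Fact p.Prime] (O : Type) [CommRing O] [Algebra ℤ_[p] O]
    [Module.Finite ℤ_[p] O] [Module.Free ℤ_[p] O] [TopologicalSpace O] [IsModuleTopology ℤ_[p] O] :
    CompactSpace O ∧ T2Space O ∧ (∀ a : ℕ, IsClopen {x : O | (p : O) ^ a ∣ x}) ∧
      ∀ x : O, (∀ a : ℕ, (p : O) ^ a ∣ x) → x = 0 := by
  have := IsModuleTopology.isTopologicalRing ℤ_[p] O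
  have := IsModuleTopology.toContinuousSMul ℤ_[p] O
  let φ := (Module.Free.chooseBasis ℤ_[p] O).equivFun
  have c1 : Continuous φ := IsModuleTopology.continuous_of_linearMap φ.toLinearMap
  have c2 : Continuous φ.symm := IsModuleTopology.continuous_of_linearMap φ.symm.toLinearMap
  have e : ∀ (a : ℕ) (x : O), (p : O) ^ a ∣ x ↔ ∀ i, ‖φ x i‖ ≤ (p : ℝ) ^ (-a : ℤ) := fun a x => by
    have e : ∀ y : O, (p : O) ^ a * y = (p : ℤ_[p]) ^ a • y := fun y => by
      rw [Algebra.smul_def, map_pow, map_natCast]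
    simp only [PadicInt.norm_le_pow_iff_mem_span_pow, Ideal.mem_span_singleton]
    refine ⟨fun ⟨y, hy⟩ i => ⟨φ y i, by rw [hy, e, map_smul]; rfl⟩, fun h => ?_⟩
    choose y hy using h
    exact ⟨φ.symm y, by rw [e, ← map_smul, LinearEquiv.eq_symm_apply]; exact funext hy⟩
  have p0 : (0 : ℝ) < p := Nat.cast_pos.2 hp.out.pos
  refine ⟨⟨?_⟩, T2Space.of_injective_continuous φ.injective c1, fun a => ?_, fun x hx => ?_⟩
  · rw [← φ.symm.surjective.range_eq]
    exact isCompact_range c2
  · simp only [e, Set.ofPred_forall]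
    refine isClopen_iInter_of_finite fun i => ?_
    have := (IsUltrametricDist.isClopen_closedBall (0 : ℤ_[p]) (zpow_pos p0 (-a : ℤ)).ne').preimage
      ((continuous_apply i).comp c1)
    simpa [Set.preimage] using this
  · refine φ.map_eq_zero_iff.1 (funext fun i => PadicInt.ext_of_toZModPow.1 fun a => ?_)
    rw [Pi.zero_apply, map_zero, ← RingHom.mem_ker, PadicInt.ker_toZModPow,
      ← PadicInt.norm_le_pow_iff_mem_span_pow]
    exact (e a x).1 (hx a) i

theorem topx_mul {O : Type} [CommRing O] {n : ℕ} {q : O} {M : Matrix (Fin n) (Fin n) O}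
    (h : MD q M) (N : Matrix (Fin n) (Fin n) O) : MD q (N * M) := fun i j => by
  rw [Matrix.mul_apply]
  exact Finset.dvd_sum fun l _ => (h l j).mul_left (N i l)

theorem p_TOPX :
    S_TOPX := by
  intro p _ O _ _ _ _ _ _ n U hU
  obtain ⟨h1, h2, h3, h4⟩ := topx_ring p O
  have := IsModuleTopology.isTopologicalRing ℤ_[p] O
  have c1 : ∀ a : ℕ, IsClopen {M : Matrix (Fin n) (Fin n) O | MD ((p : O) ^ a) M} := fun a => by
    simp only [MD, Set.ofPred_forall]
    exact isClopen_iInter_of_finite fun i => isClopen_iInter_of_finite fun j =>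
      (h3 a).preimage (continuous_id.matrix_elem i j)
  have : CompactSpace (Matrix (Fin n) (Fin n) O) := Pi.compactSpace
  have : CompactSpace (GL (Fin n) O) := inferInstance
  have cv : Continuous (fun g : GL (Fin n) O => g.1) := Units.continuous_val
  constructor
  · have cl : ∀ a : ℕ, IsClosed {g : GL (Fin n) O | g ∉ U ∧ MD ((p : O) ^ a) (g.1 - 1)} := fun a =>
      IsClosed.inter hU.isClosed_compl ((c1 a).1.preimage (cv.sub continuous_const))
    by_contra hc
    push Not at hc
    obtain ⟨x, hx⟩ := IsCompact.nonempty_iInter_of_sequence_nonempty_isCompact_isClosed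
      (fun a : ℕ => {g : GL (Fin n) O | g ∉ U ∧ MD ((p : O) ^ a) (g.1 - 1)})
      (fun a x hx => ⟨hx.1, fun i j => (pow_dvd_pow _ a.le_succ).trans (hx.2 i j)⟩)
      (fun a => let ⟨g, a1, a2⟩ := hc a; ⟨g, a2, a1⟩) (cl 0).isCompact cl
    rw [Set.mem_iInter] at hx
    have : x = 1 := Units.ext (sub_eq_zero.1 (Matrix.ext fun i j => h4 _ fun a => (hx a).2 i j))
    exact (hx 0).1 (this ▸ U.one_mem)
  · intro k f hf
    have : CompactSpace U := isCompact_iff_compactSpace.1 (U.isClosed_of_isOpen hU).isCompact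
    have c0 : Continuous (matU : U → _) := cv.comp continuous_subtype_val
    have m1 : ∀ g h : U, matU (g * h) = matU g * matU h := fun _ _ => rfl
    have cl : ∀ a : ℕ, IsClosed {x : U × U |
        f x.2 ≠ f x.1 ∧ MD ((p : O) ^ a) (matU x.2 - matU x.1)} := fun a =>
      IsClosed.inter (isOpen_compl_iff.1 (((hf.comp_continuous continuous_snd).prodMk
        (hf.comp_continuous continuous_fst)) {y | y.1 ≠ y.2}ᶜ))
        ((c1 a).1.preimage ((c0.comp continuous_snd).sub (c0.comp continuous_fst)))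
    by_contra hc
    push Not at hc
    obtain ⟨x, hx⟩ := IsCompact.nonempty_iInter_of_sequence_nonempty_isCompact_isClosed
      (fun a : ℕ => {x : U × U | f x.2 ≠ f x.1 ∧ MD ((p : O) ^ a) (matU x.2 - matU x.1)})
      (fun a x hx => ⟨hx.1, fun i j => (pow_dvd_pow _ a.le_succ).trans (hx.2 i j)⟩)
      (fun a => let ⟨g, h, a1, a2⟩ := hc a
        ⟨(g, g * h), a2, by rw [m1, ← mul_sub_one]; exact topx_mul a1 _⟩) (cl 0).isCompact cl
    rw [Set.mem_iInter] at hx
    exact (hx 0).1 (congrArg f (Subtype.ext (Units.ext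
      (sub_eq_zero.1 (Matrix.ext fun i j => h4 _ fun a => (hx a).2 i j)))))

end Pool.Agent.P.MP_7cb106_nt.QJ
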