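import Pool.Agent.P.MP_7cb106_nt.QJ.Iface

/-! Step UFG. -/

set_option autoImplicit false

namespace Pool.Agent.P.MP_7cb106_nt.QJ

open Filter

section
variable {O : Type} [CommRing O] {n : ℕ}

theorem ufg_md (q : O) (M : Matrix (Fin n) (Fin n) O) : MD q M ↔ ∃ Z, M = q • Z := by
  constructor
  · intro h
    choose N hN using h
    exact ⟨Matrix.of N, by ext i j; exact hN i j⟩
  · rintro ⟨Z, rfl⟩ i j
    exact ⟨_, rfl⟩

theorem ufg_mono {q q' : O} (h : q ∣ q') {M : Matrix (Fin n) (Fin n) O} (hM : MD q' M) : MD q M :=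
  fun i j => h.trans (hM i j)

theorem ufg_prod (q : O) (l : List (Matrix (Fin n) (Fin n) O)) :
    ∃ Z, (l.map fun X => 1 + q • X).prod = 1 + q • l.sum + (q * q) • Z := by
  induction l with
  | nil => exact ⟨0, by simp⟩
  | cons X l ih =>
    obtain ⟨Z, hZ⟩ := ih
    refine ⟨Z + X * l.sum + q • (X * Z), ?_⟩
    rw [List.map_cons, List.prod_cons, hZ, List.sum_cons]
    simp only [mul_add, add_mul, one_mul, mul_one, smul_add, smul_mul_assoc, mul_smul_comm,
      smul_smul]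
    module

variable {p e : ℕ}

theorem ufg_mat_mul (g h : Cong p O n e) : mat (g * h) = mat g * mat h := rfl

theorem ufg_mat_one : mat (1 : Cong p O n e) = 1 := rfl

theorem ufg_mat_inj {g h : Cong p O n e} (H : mat g = mat h) : g = h :=
  Subtype.ext (Subtype.ext H)

theorem ufg_mat_prod (l : List (Cong p O n e)) : mat l.prod = (l.map mat).prod := by
  induction l with
  | nil => rfl
  | cons g l ih => rw [List.prod_cons, ufg_mat_mul, ih, List.map_cons, List.prod_cons]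

theorem ufg_diff (q : O) (g h : Cong p O n e) (H : MD q (mat h - mat g)) :
    MD q (mat (g⁻¹ * h) - 1) := by
  obtain ⟨Z, hZ⟩ := (ufg_md _ _).1 H
  refine (ufg_md _ _).2 ⟨mat g⁻¹ * Z, ?_⟩
  rw [← mul_smul_comm, ← hZ, mul_sub, ← ufg_mat_mul, ← ufg_mat_mul, inv_mul_cancel, ufg_mat_one]

theorem ufg_comm (q : O) (g h : Cong p O n e) (H : MD q (mat g - 1)) :
    MD (q * (p : O) ^ e) (mat (h * g * h⁻¹ * g⁻¹) - 1) := by
  obtain ⟨Y, hY⟩ := (ufg_md _ _).1 H
  obtain ⟨X, hX⟩ := (ufg_md _ _).1 ((mem_Cong h.1).1 h.2)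
  have hY' : mat g = 1 + q • Y := by rw [← hY]; abel
  have hX' : mat h = 1 + (p : O) ^ e • X := by rw [← hX]; simp [mat]
  refine (ufg_md _ _).2 ⟨(X * Y - Y * X) * mat (g * h)⁻¹, ?_⟩
  have h1 : mat (h * g * h⁻¹ * g⁻¹) - 1 = (mat h * mat g - mat g * mat h) * mat (g * h)⁻¹ := by
    rw [sub_mul, ← ufg_mat_mul, ← ufg_mat_mul, ← ufg_mat_mul, ← ufg_mat_mul, mul_inv_cancel,
      ufg_mat_one, mul_inv_rev, mul_assoc (h * g)]
  rw [h1, ← smul_mul_assoc]
  congr 1
  rw [hX', hY']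
  simp only [mul_add, add_mul, one_mul, mul_one, smul_mul_assoc, mul_smul_comm]
  module

end

theorem p_UFG (hELT : S_ELT) :
    S_UFG := by
  intro p hp O _ _ _ _ n d e Fr he3
  have he : 1 ≤ e := by
    rcases Nat.eq_zero_or_pos e with rfl | h
    · simp at he3
    · exact h
  have hp0 : (p : O) ≠ 0 := by
    intro h
    have h1 : (p : ℤ_[p]) • (1 : O) = 0 := by
      rw [Algebra.smul_def, map_natCast, h, zero_mul]
    rcases smul_eq_zero.1 h1 with h2 | h2
    · exact hp.out.ne_zero (by exact_mod_cast h2)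
    · exact one_ne_zero h2
  have hdv : ∀ {a b : ℕ}, a ≤ b → (p : O) ^ a ∣ (p : O) ^ b := fun h => pow_dvd_pow _ h
  let lev : ℕ → Subgroup (Cong p O n e) := fun a => (Cong p O n (e + a)).subgroupOf _
  have hlev : ∀ a g, g ∈ lev a ↔ MD ((p : O) ^ (e + a)) (mat g - 1) := fun a g =>
    mem_Cong (e := e + a) g.1
  have hex : ∀ (r : ℕ) (i : Fin d) (a : ℤ_[p]), ∃ g : Cong p O n e, ∀ m : ℕ,
      mat (g ^ m) = 1 + m • ((p : O) ^ (e + r) • (a • Fr.bs i)) := by
    intro r i a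
    obtain ⟨g, hg⟩ := hELT p O n e ((p : O) ^ (e + r) • (a • Fr.bs i)) (by
      simp only [smul_mul_assoc, mul_smul_comm, Frame.bs, Fr.sq, smul_zero])
      (ufg_mono (hdv (Nat.le_add_right e r)) ((ufg_md _ _).2 ⟨_, rfl⟩))
    exact ⟨g, fun m => (hg m).1⟩
  choose el hel using hex
  have hel1 : ∀ r i a, mat (el r i a) = 1 + (p : O) ^ (e + r) • (a • Fr.bs i) := by
    intro r i a
    simpa using hel r i a 1
  let eps : ℕ → VV p d → Cong p O n e := fun r y =>
    ((List.finRange d).map fun i => el r i (y i)).prod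
  have hc : ∀ y : VV p d, Fr.c y = ((List.finRange d).map fun i => y i • Fr.bs i).sum := by
    intro y
    rw [← List.ofFn_eq_map, List.sum_ofFn]
    conv_lhs => rw [pi_eq_sum_univ' y]
    simp [Frame.bs]
  have heps : ∀ r y, ∃ Z, mat (eps r y) = 1 + (p : O) ^ (e + r) • Fr.c y +
      ((p : O) ^ (e + r) * (p : O) ^ (e + r)) • Z := by
    intro r y
    obtain ⟨Z, hZ⟩ := ufg_prod ((p : O) ^ (e + r))
      ((List.finRange d).map fun i => y i • Fr.bs i)
    refine ⟨Z, ?_⟩
    rw [hc, ← hZ, ufg_mat_prod, List.map_map, List.map_map]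
    congr 2
    funext i
    exact hel1 r i (y i)
  have hsing : ∀ r i, eps r (Pi.single i 1) = el r i 1 := by
    intro r i
    have := List.prod_map_eq_pow_single (l := List.finRange d) i
      (fun j => el r j ((Pi.single i 1 : VV p d) j)) (fun j hj _ => ufg_mat_inj (by
        rw [hel1, ufg_mat_one]; simp [hj]))
    rw [List.count_eq_one_of_mem (List.nodup_finRange d) (List.mem_finRange i), pow_one] at this
    simpa using this
  refine ⟨{ lev := lev, eps := eps, lev_zero := ?_, anti := ?_, comm := ?_, add := ?_, mem := ?_,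
            pow := ?_, surj := ?_, comm3 := ⟨e, he3, fun i l => ?_⟩ }, hlev, ?_⟩
  · rw [eq_top_iff]
    intro g _
    exact (hlev 0 g).2 ((mem_Cong g.1).1 g.2)
  · intro a g hg
    exact (hlev _ _).2 (ufg_mono (hdv (by omega)) ((hlev _ _).1 hg))
  · intro a g h hg
    refine (hlev _ _).2 (ufg_mono ?_ (ufg_comm _ g h ((hlev _ _).1 hg)))
    rw [← pow_add]
    exact hdv (by omega)
  · intro r y z
    refine (hlev _ _).2 (ufg_diff _ _ _ (ufg_mono
      (q' := (p : O) ^ (e + r) * (p : O) ^ (e + r)) (by rw [← pow_add]; exact hdv (by omega)) ?_))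
    obtain ⟨Y, hY⟩ := heps r y
    obtain ⟨Z, hZ⟩ := heps r z
    obtain ⟨U, hU⟩ := heps r (y + z)
    rw [ufg_mat_mul, hY, hZ, hU, map_add]
    generalize (p : O) ^ (e + r) = q
    refine (ufg_md _ _).2 ⟨U - Y - Z - Fr.c y * Fr.c z - q • (Fr.c y * Z) - q • (Y * Fr.c z)
      - (q * q) • (Y * Z), ?_⟩
    simp only [mul_add, add_mul, one_mul, mul_one, smul_mul_assoc, mul_smul_comm]
    module
  · intro r m y hy
    refine Subgroup.list_prod_mem _ ?_
    intro g hg
    obtain ⟨i, -, rfl⟩ := List.mem_map.1 hg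
    obtain ⟨z, hz⟩ := hy i
    refine (hlev _ _).2 ((ufg_md _ _).2 ⟨z • Fr.bs i, ?_⟩)
    rw [hel1, hz, mul_smul, ← algebraMap_smul O ((p : ℤ_[p]) ^ m), map_pow, map_natCast, smul_smul,
      ← pow_add, add_sub_cancel_left, add_assoc]
  · intro r i
    apply ufg_mat_inj
    rw [hsing, hsing, hel1, hel, ← Nat.cast_smul_eq_nsmul O, smul_smul, Nat.cast_pow, ← pow_add]
    congr 3
    omega
  · intro r g hg
    rcases Nat.eq_zero_or_pos n with rfl | hn
    · exact ⟨0, (hlev _ _).2 fun i => i.elim0⟩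
    let o : Fin n := ⟨0, hn⟩
    obtain ⟨X, hX⟩ := (ufg_md _ _).1 ((hlev _ _).1 hg)
    have hX' : mat g = 1 + (p : O) ^ (e + r) • X := by rw [← hX]; abel
    have hdet : (mat g).det = 1 := g.1.2
    obtain ⟨w, hw⟩ : ∃ w, X.trace = (p : O) ^ (e + r) * w := by
      obtain ⟨w, hw⟩ : ∃ w, (mat g).det =
          1 + X.trace * (p : O) ^ (e + r) + w * ((p : O) ^ (e + r)) ^ 2 :=
        ⟨_, by rw [hX', Matrix.det_one_add_smul]⟩
      rw [hw] at hdet
      refine ⟨-w, mul_left_cancel₀ (pow_ne_zero (e + r) hp0) ?_⟩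
      linear_combination hdet
    obtain ⟨y, hy⟩ := (Fr.range (X - Matrix.single o o X.trace)).2 (by simp)
    refine ⟨y, (hlev _ _).2 (ufg_diff _ _ _ (ufg_mono
      (q' := (p : O) ^ (e + r) * (p : O) ^ (e + r)) (by rw [← pow_add]; exact hdv (by omega)) ?_))⟩
    obtain ⟨Y, hY⟩ := heps r y
    rw [hY, hX', hy, hw, ← smul_eq_mul ((p : O) ^ (e + r)) w, ← Matrix.smul_single]
    generalize (p : O) ^ (e + r) = q
    refine (ufg_md _ _).2 ⟨Matrix.single o o w - Y, ?_⟩
    module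
  · have := ufg_comm _ (eps 0 (Pi.single l 1)) (eps 0 (Pi.single i 1))
      ((mem_Cong (eps 0 (Pi.single l 1)).1).1 (eps 0 (Pi.single l 1)).2)
    rw [← pow_add] at this
    exact (hlev _ _).2 this
  · intro r y
    obtain ⟨Y, hY⟩ := heps r y
    refine (ufg_md _ _).2 ⟨Y, ?_⟩
    change mat (eps r y) - _ - _ = _
    rw [hY, two_mul, pow_add _ (e + r) (e + r)]
    abel

end Pool.Agent.P.MP_7cb106_nt.QJ
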