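import Pool.Agent.P.MP_7cb106_nt.QJ.Iface

/-! Step UFV. -/

set_option autoImplicit false

namespace Pool.Agent.P.MP_7cb106_nt.QJ

open Filter

section
variable {p d : ℕ} [Fact p.Prime]

theorem ufv_dv {n : ℕ} {y : VV p d} : Dv n y ↔ ∃ z : VV p d, y = (p : ℤ_[p]) ^ n • z :=
  ⟨fun h => by
    choose z hz using h
    exact ⟨z, funext hz⟩, by
    rintro ⟨z, rfl⟩ i
    exact ⟨z i, rfl⟩⟩

/-- The subgroups `p^a V`. -/
def ufv_lev (p d : ℕ) [Fact p.Prime] (a : ℕ) : Subgroup (Multiplicative (VV p d)) where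
  carrier := {g | Dv a g.toAdd}
  one_mem' := fun _ => dvd_zero _
  mul_mem' := fun hg hh i => dvd_add (hg i) (hh i)
  inv_mem' := fun hg i => (dvd_neg).2 (hg i)

/-- The lattice as a uniform filtered group. -/
noncomputable def ufv_u (p d : ℕ) [Fact p.Prime] : UF p d (Multiplicative (VV p d)) where
  lev := ufv_lev p d
  eps r y := Multiplicative.ofAdd ((p : ℤ_[p]) ^ r • y)
  lev_zero := eq_top_iff.2 fun g _ i => by rw [pow_zero]; exact one_dvd _
  anti a g hg i := (pow_dvd_pow _ (Nat.le_succ a)).trans (hg i)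
  comm a g h _ := by
    rw [mul_comm h g, mul_inv_cancel_right, mul_inv_cancel]
    exact one_mem _
  add r y z := by
    rw [smul_add, ofAdd_add, inv_mul_cancel]
    exact one_mem _
  mem r n y hy i := by
    rw [pow_add]
    exact mul_dvd_mul_left _ (hy i)
  pow r i := by
    rw [pow_zero, one_smul, ← ofAdd_nsmul, ← Nat.cast_pow, Nat.cast_smul_eq_nsmul]
  surj r g hg := by
    obtain ⟨z, hz⟩ := ufv_dv.1 hg
    refine ⟨z, ?_⟩
    rw [← hz, ofAdd_toAdd, inv_mul_cancel]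
    exact one_mem _
  comm3 := ⟨2, by nlinarith [(Fact.out : p.Prime).two_le], fun i l => by
    rw [mul_inv_cancel_comm, mul_inv_cancel]
    exact one_mem _⟩

end

theorem p_UFV :
    S_UFV := by
  intro p d _
  refine ⟨ufv_u p d, fun _ _ => Iff.rfl, fun _ _ => rfl, fun H _ ρ hρ => ?_⟩
  refine ⟨⟨⟨⟨fun s => AddEquiv.toMultiplicative (ρ s).toAddEquiv, ?_⟩, fun s t => ?_⟩, ρ,
    fun s a g hg => ?_, fun s i => ?_, fun s r y => ?_⟩, rfl, fun _ _ => rfl⟩
  · refine MulEquiv.ext fun g => ?_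
    show Multiplicative.ofAdd (ρ 1 g.toAdd) = g
    rw [map_one]
    rfl
  · refine MulEquiv.ext fun g => ?_
    show Multiplicative.ofAdd (ρ (s * t) g.toAdd) = Multiplicative.ofAdd (ρ s (ρ t g.toAdd))
    rw [map_mul]
    rfl
  · obtain ⟨z, hz⟩ := ufv_dv.1 hg
    show Dv a (ρ s g.toAdd)
    rw [hz, map_smul]
    exact ufv_dv.2 ⟨_, rfl⟩
  · show Dv 1 (-((ufv_u p d).gen i).toAdd + ρ s ((ufv_u p d).gen i).toAdd)
    rw [neg_add_eq_sub]
    exact hρ s _
  · show Dv (2 * r) (-((p : ℤ_[p]) ^ r • ρ s y) + ρ s ((p : ℤ_[p]) ^ r • y))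
    rw [map_smul, neg_add_cancel]
    exact fun _ => dvd_zero _

end Pool.Agent.P.MP_7cb106_nt.QJ
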