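import Pool.Agent.P.MP_7cb106_nt.QJ.TUF0
import Pool.Agent.P.MP_7cb106_nt.QJ.TD1
import Pool.Agent.P.MP_7cb106_nt.QJ.TD3A
import Pool.Agent.P.MP_7cb106_nt.QJ.TD3
import Pool.Agent.P.MP_7cb106_nt.QJ.TDX1
import Pool.Agent.P.MP_7cb106_nt.QJ.TFLX
import Pool.Agent.P.MP_7cb106_nt.QJ.TFMULX
import Pool.Agent.P.MP_7cb106_nt.QJ.TDUAL
import Pool.Agent.P.MP_7cb106_nt.QJ.TFILX
import Pool.Agent.P.MP_7cb106_nt.QJ.TD2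
import Pool.Agent.P.MP_7cb106_nt.QJ.TCZX
import Pool.Agent.P.MP_7cb106_nt.QJ.TLEVX
import Pool.Agent.P.MP_7cb106_nt.QJ.TFR1
import Pool.Agent.P.MP_7cb106_nt.QJ.TREESX
import Pool.Agent.P.MP_7cb106_nt.QJ.TCOREY
import Pool.Agent.P.MP_7cb106_nt.QJ.TCX
import Pool.Agent.P.MP_7cb106_nt.QJ.TFINV
import Pool.Agent.P.MP_7cb106_nt.QJ.TCP0
import Pool.Agent.P.MP_7cb106_nt.QJ.TCP1
import Pool.Agent.P.MP_7cb106_nt.QJ.TCP2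
import Pool.Agent.P.MP_7cb106_nt.QJ.TCP3
import Pool.Agent.P.MP_7cb106_nt.QJ.TCP4
import Pool.Agent.P.MP_7cb106_nt.QJ.TCP5
import Pool.Agent.P.MP_7cb106_nt.QJ.TCPL
import Pool.Agent.P.MP_7cb106_nt.QJ.TE1X
import Pool.Agent.P.MP_7cb106_nt.QJ.TE2X
import Pool.Agent.P.MP_7cb106_nt.QJ.TE3A
import Pool.Agent.P.MP_7cb106_nt.QJ.TE3LX
import Pool.Agent.P.MP_7cb106_nt.QJ.TLENQ
import Pool.Agent.P.MP_7cb106_nt.QJ.TFIN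
import Pool.Agent.P.MP_7cb106_nt.QJ.TBAD1
import Pool.Agent.P.MP_7cb106_nt.QJ.TBAD4
import Pool.Agent.P.MP_7cb106_nt.QJ.TBADS
import Pool.Agent.P.MP_7cb106_nt.QJ.TE3G
import Pool.Agent.P.MP_7cb106_nt.QJ.TBAD3
import Pool.Agent.P.MP_7cb106_nt.QJ.TBAD5
import Pool.Agent.P.MP_7cb106_nt.QJ.TADDP
import Pool.Agent.P.MP_7cb106_nt.QJ.TREG
import Pool.Agent.P.MP_7cb106_nt.QJ.TPERT
import Pool.Agent.P.MP_7cb106_nt.QJ.TBAD6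
import Pool.Agent.P.MP_7cb106_nt.QJ.TE4A
import Pool.Agent.P.MP_7cb106_nt.QJ.TE4X
import Pool.Agent.P.MP_7cb106_nt.QJ.TUFV
import Pool.Agent.P.MP_7cb106_nt.QJ.TFMUL
import Pool.Agent.P.MP_7cb106_nt.QJ.TFGEN
import Pool.Agent.P.MP_7cb106_nt.QJ.TFIL
import Pool.Agent.P.MP_7cb106_nt.QJ.Core0
import Pool.Agent.P.MP_7cb106_nt.QJ.TE1
import Pool.Agent.P.MP_7cb106_nt.QJ.TE2
import Pool.Agent.P.MP_7cb106_nt.QJ.TE3L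
import Pool.Agent.P.MP_7cb106_nt.QJ.TE3B
import Pool.Agent.P.MP_7cb106_nt.QJ.TE4
import Pool.Agent.P.MP_7cb106_nt.QJ.TE5
import Pool.Agent.P.MP_7cb106_nt.QJ.TMACH
import Pool.Agent.P.MP_7cb106_nt.QJ.TDCC
import Pool.Agent.P.MP_7cb106_nt.QJ.TFROB
import Pool.Agent.P.MP_7cb106_nt.QJ.TONE
import Pool.Agent.P.MP_7cb106_nt.QJ.TRIGM
import Pool.Agent.P.MP_7cb106_nt.QJ.TRIGH
import Pool.Agent.P.MP_7cb106_nt.QJ.TDET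
import Pool.Agent.P.MP_7cb106_nt.QJ.TSW
import Pool.Agent.P.MP_7cb106_nt.QJ.TRIG
import Pool.Agent.P.MP_7cb106_nt.QJ.TMACHX
import Pool.Agent.P.MP_7cb106_nt.QJ.TFIXX
import Pool.Agent.P.MP_7cb106_nt.QJ.TMAINX
import Pool.Agent.P.MP_7cb106_nt.QJ.TFRAME
import Pool.Agent.P.MP_7cb106_nt.QJ.TELT
import Pool.Agent.P.MP_7cb106_nt.QJ.TUFG
import Pool.Agent.P.MP_7cb106_nt.QJ.TADJ
import Pool.Agent.P.MP_7cb106_nt.QJ.TSIMP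
import Pool.Agent.P.MP_7cb106_nt.QJ.TIRR
import Pool.Agent.P.MP_7cb106_nt.QJ.TDISPV
import Pool.Agent.P.MP_7cb106_nt.QJ.TCOMMS
import Pool.Agent.P.MP_7cb106_nt.QJ.TROOT
import Pool.Agent.P.MP_7cb106_nt.QJ.TSEPV
import Pool.Agent.P.MP_7cb106_nt.QJ.TACTG
import Pool.Agent.P.MP_7cb106_nt.QJ.TNROOT
import Pool.Agent.P.MP_7cb106_nt.QJ.TSPLIT
import Pool.Agent.P.MP_7cb106_nt.QJ.TOVER
import Pool.Agent.P.MP_7cb106_nt.QJ.TDISPX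
import Pool.Agent.P.MP_7cb106_nt.QJ.TSEPX
import Pool.Agent.P.MP_7cb106_nt.QJ.TTOPX
import Pool.Agent.P.MP_7cb106_nt.QJ.TFINALX

/-! Assembly of all steps of the capture form. -/

set_option autoImplicit false

namespace Pool.Agent.P.MP_7cb106_nt.QJ

theorem a_UF0 : S_UF0 := p_UF0
theorem a_D1 : S_D1 := p_D1 a_UF0
theorem a_D3A : S_D3A := p_D3A a_UF0 a_D1
theorem a_D3 : S_D3 := p_D3 a_UF0 a_D1 a_D3A
theorem a_DX1 : S_DX1 := p_DX1 a_UF0 a_D1 a_D3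
theorem a_FLX : S_FLX := p_FLX a_UF0
theorem a_FMULX : S_FMULX := p_FMULX a_DX1
theorem a_DUAL : S_DUAL := p_DUAL a_UF0
theorem a_FILX : S_FILX := p_FILX a_DX1 a_FLX a_FMULX a_DUAL
theorem a_D2 : S_D2 := p_D2 a_UF0 a_D1
theorem a_CZX : S_CZX := p_CZX
theorem a_LEVX : S_LEVX := p_LEVX
theorem a_FR1 : S_FR1 := p_FR1
theorem a_REESX : S_REESX := p_REESX a_FR1
theorem a_COREY : S_COREY := p_COREY a_CZX a_LEVX a_REESX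
theorem a_COREX : S_COREX := a_COREY
theorem a_CX : S_CX := p_CX a_UF0 a_D1 a_D2 a_FLX a_COREX
theorem a_FINV : S_FINV := p_FINV
theorem a_CP0 : S_CP0 := p_CP0 a_FINV a_DUAL
theorem a_CP1 : S_CP1 := p_CP1 a_CP0
theorem a_CP2 : S_CP2 := p_CP2 a_CP0
theorem a_CP3 : S_CP3 := p_CP3 a_CP0
theorem a_CP4 : S_CP4 := p_CP4 a_CP0 a_FINV
theorem a_CP5 : S_CP5 := p_CP5 a_CP0
theorem a_CPL : S_CPL := p_CPL a_CP1 a_CP2 a_CP3 a_CP4 a_CP5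
theorem a_E1X : S_E1X := p_E1X
theorem a_E2X : S_E2X := p_E2X a_DUAL
theorem a_E3A : S_E3A := p_E3A a_FINV
theorem a_E3LX : S_E3LX := p_E3LX
theorem a_LENQ : S_LENQ := p_LENQ
theorem a_FIN : S_FIN := p_FIN a_LENQ
theorem a_BAD1 : S_BAD1 := p_BAD1
theorem a_BAD4 : S_BAD4 := p_BAD4 a_FIN a_BAD1
theorem a_BADS : S_BADS := p_BADS a_BAD1
theorem a_E3G : S_E3G := p_E3G a_BAD4 a_BADS
theorem a_BAD3 : S_BAD3 := p_BAD3 a_BAD1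
theorem a_BAD5 : S_BAD5 := p_BAD5 a_BAD1
theorem a_ADDP : S_ADDP := p_ADDP
theorem a_REG : S_REG := p_REG a_LENQ
theorem a_PERT : S_PERT := p_PERT
theorem a_BAD6 : S_BAD6 := p_BAD6 a_ADDP a_REG a_PERT
theorem a_E4A : S_E4A := p_E4A a_BAD3 a_BAD5 a_BAD6 a_BADS
theorem a_E4X : S_E4X := p_E4X a_E4A
theorem a_UFV : S_UFV := p_UFV
theorem a_FMUL : S_FMUL := p_FMUL a_D1
theorem a_FGEN : S_FGEN := p_FGEN a_D1 a_DUAL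
theorem a_FIL : S_FIL := p_FIL a_D1 a_D2 a_D3 a_FMUL a_FGEN
theorem a_CORE : S_CORE := core0
theorem a_E1 : S_E1 := p_E1 a_UF0
theorem a_E2 : S_E2 := p_E2 a_UF0 a_DUAL
theorem a_E3L : S_E3L := p_E3L a_UF0
theorem a_E3B : S_E3B := p_E3B a_BAD4 a_BADS a_E3L
theorem a_E4 : S_E4 := p_E4 a_UF0 a_E4A
theorem a_E5 : S_E5 := p_E5 a_UF0 a_BADS
theorem a_MACH : S_MACH := p_MACH a_FIL a_CORE a_CPL a_E1 a_E2 a_E3A a_E3B a_E4 a_E5 a_BAD3 a_BADS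
theorem a_DCC : S_DCC := p_DCC a_FIL
theorem a_FROB : S_FROB := p_FROB a_FIL
theorem a_ONE : S_ONE := p_ONE a_FIL
theorem a_RIGM : S_RIGM := p_RIGM a_UFV a_MACH a_DCC a_FROB a_ONE
theorem a_RIGH : S_RIGH := p_RIGH a_FINV
theorem a_DET : S_DET := p_DET
theorem a_SW : S_SW := p_SW
theorem a_RIG : S_RIG := p_RIG a_RIGM a_RIGH a_DET a_SW a_FINV
theorem a_MACHX : S_MACHX := p_MACHX a_FILX a_CX a_CPL a_E1X a_E2X a_E3A a_E3LX a_E3G a_E4X a_BADS a_RIG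
theorem a_FIXX : S_FIXX := p_FIXX a_FILX
theorem a_MAINX : S_MAINX := p_MAINX a_MACHX a_FIXX a_FLX a_SW a_FINV
theorem a_FRAME : S_FRAME := p_FRAME
theorem a_ELT : S_ELT := p_ELT
theorem a_UFG : S_UFG := p_UFG a_ELT
theorem a_ADJ : S_ADJ := p_ADJ
theorem a_SIMP : S_SIMP := p_SIMP
theorem a_IRR : S_IRR := p_IRR a_ELT a_SIMP
theorem a_DISPV : S_DISPV := p_DISPV a_ELT
theorem a_COMMS : S_COMMS := p_COMMS
theorem a_ROOT : S_ROOT := p_ROOT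
theorem a_SEPV : S_SEPV := p_SEPV a_COMMS a_ROOT
theorem a_ACTG : S_ACTG := p_ACTG a_UF0
theorem a_NROOT : S_NROOT := p_NROOT
theorem a_SPLIT : S_SPLIT := p_SPLIT a_NROOT
theorem a_OVER : S_OVER := p_OVER a_NROOT a_SPLIT
theorem a_DISPX : S_DISPX := p_DISPX a_ELT
theorem a_SEPX : S_SEPX := p_SEPX a_COMMS a_NROOT a_SPLIT a_FLX
theorem a_TOPX : S_TOPX := p_TOPX
theorem a_FINALX : S_FINALX := p_FINALX a_MAINX a_FRAME a_UFG a_ADJ a_IRR a_DISPV a_SEPV a_ACTG a_OVER a_DISPX a_SEPX a_TOPX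

end Pool.Agent.P.MP_7cb106_nt.QJ
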