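import Mathlib

/-! Definitions for the theorem on bi-invariant spaces of smooth functions on congruence subgroups. -/

set_option autoImplicit false

namespace Pool.Agent.P.MP_7cb106_nt.QJ

open Filter

/-! ### Truncated rings and towers -/

/-- A ring with a central nilpotent `t` of order `N`, regular up to `t^N`, with `O/tO` of length `≤ ρ`. -/
structure TR (ρ N : ℕ) : Type 1 where
  O : Type
  [ring : Ring O]
  t : O
  central : ∀ o : O, t * o = o * t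
  nil : t ^ N = 0
  ne : ∀ c, c < N → t ^ c ≠ 0
  reg : ∀ (c : ℕ) (o : O), t ^ c * o = 0 → ∃ o' : O, o = t ^ (N - c) * o'
  len : Module.length O (O ⧸ Submodule.span O {t}) ≤ (ρ : ℕ∞)

attribute [instance] TR.ring

/-- A commutative ring killed by `p`, complete for a decreasing chain of ideals of finite index. -/
structure Adm (p : ℕ) (A : Type) [CommRing A] (K : ℕ → Ideal A) : Prop where
  char : (p : A) = 0
  anti : ∀ n, K (n + 1) ≤ K n
  fin : ∀ n, Finite (A ⧸ K n)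
  cpl : ∀ a : ℕ → A, (∀ n, a (n + 1) - a n ∈ K n) → ∃ b, ∀ n, b - a n ∈ K n

/-- The maps `E r : A → O_r`. -/
structure Tower (p ρ : ℕ) (A : Type) [CommRing A] (K : ℕ → Ideal A) : Type 1 where
  T : (r : ℕ) → TR ρ (p ^ (2 * r))
  E : (r : ℕ) → A →+* (T r).O
  deep : ∀ r n a, a ∈ K n → ∃ o, E r a = (T r).t ^ (p ^ (r + n)) * o
  opn : ∀ r n, (T r).t ^ (p ^ (r + n)) ∈ Ideal.map (E r) (K n)

section
variable {p ρ : ℕ} {A : Type} [CommRing A] {K : ℕ → Ideal A}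

/-- `I` is good with constant `C` (left ideals; most `r` for the hyperfilter). -/
def Tower.Good (𝒯 : Tower p ρ A K) (I : Ideal A) (C : ℕ) : Prop :=
  ∀ᶠ r in (hyperfilter ℕ : Filter ℕ), (𝒯.T r).t ^ (C * p ^ r) ∈ Ideal.map (𝒯.E r) I

/-- `I` is good for no constant. -/
def Tower.Bad (𝒯 : Tower p ρ A K) (I : Ideal A) : Prop := ∀ C, ¬ 𝒯.Good I C

/-- Maximal bad ideals. -/
def Tower.MaxBad (𝒯 : Tower p ρ A K) (P : Ideal A) : Prop := Maximal 𝒯.Bad P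

/-- The cancellation property of a functional at level `r`. -/
def Tower.Cancel (𝒯 : Tower p ρ A K) (ℓ : A →+ ZMod p) (r : ℕ) : Prop :=
  ∀ (ι : Type) (s : Finset ι) (x : ι → (𝒯.T r).O) (f : ι → A),
    (∀ m : ℕ, ∑ h ∈ s, x h * 𝒯.E r (f h) ^ m = 0) →
    ∃ o, ∑ h ∈ s, (ℓ (f h)).val • x h = (𝒯.T r).t ^ (p ^ r) * o

/-- The ring map `α` of `A` is induced by ring maps of the `O_r` fixing `t`. -/
def Tower.Lifts (𝒯 : Tower p ρ A K) (α : A →+* A) : Prop :=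
  ∀ r, ∃ τ : (𝒯.T r).O →+* (𝒯.T r).O, τ (𝒯.T r).t = (𝒯.T r).t ∧ ∀ a, τ (𝒯.E r a) = 𝒯.E r (α a)

end

/-! ### Filtered rings -/

/-- Span of the products of `j` of the `b i`. -/
def Mon (k : Type) [Field k] {R : Type} [Ring R] [Algebra k R] {d : ℕ} (b : Fin d → R) (j : ℕ) :
    Submodule k R := (Submodule.span k (Set.range b)) ^ j

/-- A filtered algebra whose graded ring is commutative and generated by the symbols of the `b i`. -/
structure FR (k R : Type) [Field k] [Ring R] [Algebra k R] (d : ℕ) where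
  F : ℕ → Submodule k R
  b : Fin d → R
  zero : F 0 = ⊤
  anti : ∀ j, F (j + 1) ≤ F j
  mul : ∀ i j x y, x ∈ F i → y ∈ F j → x * y ∈ F (i + j)
  bmem : ∀ i, b i ∈ F 1
  gen : ∀ j, F j ≤ Mon k b j ⊔ F (j + 1)
  comm : ∀ i l, b i * b l - b l * b i ∈ F 3

section
variable {k R : Type} [Field k] [Ring R] [Algebra k R] {d : ℕ}

/-- Algebra maps that keep the filtration and are trivial on the symbols of the generators. -/
def AdmS (φ : FR k R d) (σ : R →ₐ[k] R) : Prop :=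
  (∀ j x, x ∈ φ.F j → σ x ∈ φ.F j) ∧ ∀ i, σ (φ.b i) - φ.b i ∈ φ.F 2

/-- The extended Rees ring, by its properties. -/
structure RS (φ : FR k R d) : Type 1 where
  S : Type
  [ring : Ring S]
  j : R →+* S
  t : S
  central : ∀ z, t * z = z * t
  reg : ∀ z, t * z = 0 → z = 0
  filt : ∀ n x, x ∈ φ.F n ↔ ∃ z, j x = t ^ n * z
  span : ∀ z : S, z ∈ AddSubgroup.closure
    ({y | ∃ n x, x ∈ φ.F n ∧ j x = t ^ n * y} ∪ {y | ∃ w, y = t * w})
  ext : ∀ σ : R →ₐ[k] R, (∀ n x, x ∈ φ.F n → σ x ∈ φ.F n) →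
    ∃ τ : S →+* S, τ t = t ∧ ∀ x, τ (j x) = j (σ x)

attribute [instance] RS.ring

end

/-- Input of the localisation: `S/tS = B` commutative Noetherian, `P` a minimal prime of `B`. -/
structure LI (p : ℕ) : Type 1 where
  S : Type
  [ring : Ring S]
  B : Type
  [cring : CommRing B]
  noeth : IsNoetherianRing B
  π : S →+* B
  t : S
  Pm : Ideal B
  char : (p : S) = 0
  central : ∀ z, t * z = z * t
  reg : ∀ z, t * z = 0 → z = 0
  surj : Function.Surjective π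
  ker : ∀ z, π z = 0 ↔ ∃ w, z = t * w
  min : Pm ∈ minimalPrimes B

attribute [instance] LI.ring LI.cring

/-- The localisation of `S/t^N` at the complement of `P`, by its properties. -/
structure LO {p : ℕ} (L : LI p) (N : ℕ) : Type 1 where
  O : Type
  [ring : Ring O]
  lam : L.S →+* O
  unit : ∀ s, L.π s ∉ L.Pm → IsUnit (lam s)
  frac : ∀ o, ∃ s x, L.π s ∉ L.Pm ∧ lam s * o = lam x
  kerl : ∀ x, lam x = 0 ↔ ∃ s z, L.π s ∉ L.Pm ∧ s * x = L.t ^ N * z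
  univ : ∀ g : L.S →+* O, g L.t ^ N = 0 → (∀ s, L.π s ∉ L.Pm → IsUnit (g s)) →
    ∃ τ : O →+* O, ∀ x, τ (lam x) = g x

attribute [instance] LO.ring

/-- Output of sections 1 and 2 of the page for a filtered algebra. -/
structure Core (p : ℕ) {k R : Type} [Field k] [Ring R] [Algebra k R] {d : ℕ} (φ : FR k R d) :
    Type 1 where
  ρ : ℕ
  i0 : Fin d
  F' : ℕ → Submodule k R
  le : ∀ j, φ.F j ≤ F' j
  anti : ∀ j, F' (j + 1) ≤ F' j
  two : ∀ j x a b, x ∈ F' j → a * x * b ∈ F' j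
  bmem : ∀ a, φ.b i0 ^ a ∈ F' a
  bnot : ∀ a, φ.b i0 ^ a ∉ F' (a + 1)
  stab : ∀ σ, AdmS φ σ → ∀ j x, x ∈ F' j → σ x ∈ F' j
  T : (r : ℕ) → TR ρ (p ^ (2 * r))
  ι : (r : ℕ) → R →+* (T r).O
  ord : ∀ r j x, j ≤ p ^ (2 * r) → (x ∈ F' j ↔ ∃ o, ι r x = (T r).t ^ j * o)
  unit : ∀ r, ∃ u, IsUnit u ∧ ι r (φ.b i0) = (T r).t * u
  ext : ∀ σ, AdmS φ σ → ∀ r, ∃ τ : (T r).O →+* (T r).O,
    τ (T r).t = (T r).t ∧ ∀ x, τ (ι r x) = ι r (σ x)

/-! ### Uniform filtered groups -/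

/-- The lattice `ℤ_p^d`. -/
abbrev VV (p d : ℕ) [Fact p.Prime] : Type := Fin d → ℤ_[p]

/-- `y ∈ p^n V`. -/
def Dv {p d : ℕ} [Fact p.Prime] (n : ℕ) (y : VV p d) : Prop := ∀ i, (p : ℤ_[p]) ^ n ∣ y i

/-- Data (u1) to (u5) of the page. -/
structure UF (p d : ℕ) [Fact p.Prime] (Γ : Type) [Group Γ] where
  lev : ℕ → Subgroup Γ
  eps : ℕ → VV p d → Γ
  lev_zero : lev 0 = ⊤
  anti : ∀ a, lev (a + 1) ≤ lev a
  comm : ∀ a g h, g ∈ lev a → h * g * h⁻¹ * g⁻¹ ∈ lev (a + 1)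
  add : ∀ r y z, (eps r y * eps r z)⁻¹ * eps r (y + z) ∈ lev (2 * r + 1)
  mem : ∀ r n y, Dv n y → eps r y ∈ lev (r + n)
  pow : ∀ r i, eps r (Pi.single i 1) = eps 0 (Pi.single i 1) ^ (p ^ r)
  surj : ∀ r g, g ∈ lev r → ∃ y, (eps r y)⁻¹ * g ∈ lev (r + 1)
  comm3 : ∃ c, 3 ≤ p ^ c ∧ ∀ i l, eps 0 (Pi.single i 1) * eps 0 (Pi.single l 1) *
    (eps 0 (Pi.single i 1))⁻¹ * (eps 0 (Pi.single l 1))⁻¹ ∈ lev c

section
variable {p d : ℕ} [Fact p.Prime] {Γ : Type} [Group Γ]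

/-- The generators. -/
noncomputable def UF.gen (u : UF p d Γ) (i : Fin d) : Γ := u.eps 0 (Pi.single i 1)

/-- `f` factors through `Γ / lev a`. -/
def UF.Lv (u : UF p d Γ) {k : Type} (a : ℕ) (f : Γ → k) : Prop :=
  ∀ g h, h ∈ u.lev a → f (g * h) = f g

/-- Infinite-dimensional bi-invariant spaces of smooth functions. -/
structure UF.Nice (u : UF p d Γ) {k : Type} [Field k] (W : Submodule k (Γ → k)) : Prop where
  sm : ∀ w ∈ W, ∃ a, u.Lv a w
  inv : ∀ w ∈ W, ∀ a b : Γ, (fun g => w (a * g * b)) ∈ W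
  inf : ¬ FiniteDimensional k W

/-- A group acting on `Γ` and on `V` compatibly. -/
structure Act (u : UF p d Γ) (H : Type) [Group H] where
  onG : H →* MulAut Γ
  onV : H →* (VV p d ≃ₗ[ℤ_[p]] VV p d)
  lev : ∀ s a g, g ∈ u.lev a → onG s g ∈ u.lev a
  gen : ∀ s i, (u.gen i)⁻¹ * onG s (u.gen i) ∈ u.lev 1
  eqv : ∀ s r y, (u.eps r (onV s y))⁻¹ * onG s (u.eps r y) ∈ u.lev (2 * r)

/-- `W` is stable under the action. -/
def Act.Stab {u : UF p d Γ} {H : Type} [Group H] (a : Act u H) {k : Type} [Field k]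
    (W : Submodule k (Γ → k)) : Prop := ∀ s, ∀ w ∈ W, (fun g => w (a.onG s g)) ∈ W

/-- Displacement functions. -/
def Act.Disp {u : UF p d Γ} {H : Type} [Group H] (a : Act u H) (y : Γ → VV p d) : Prop :=
  ∃ r0, ∀ r, r0 ≤ r → ∃ γ : H, ∀ (m : ℕ) (h : Γ),
    (h * u.eps r (m • y h))⁻¹ * a.onG (γ ^ m) h ∈ u.lev (2 * r)

/-- The pairing of a function with the group algebra. -/
noncomputable def pr {k : Type} [Field k] (f : Γ → k) : MonoidAlgebra k Γ →ₗ[k] k :=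
  Finsupp.linearCombination k f ∘ₗ (MonoidAlgebra.coeffLinearEquiv k).toLinearMap

omit [Group Γ] in
lemma pr_single {k : Type} [Field k] (f : Γ → k) (g : Γ) (c : k) :
    pr f (MonoidAlgebra.single g c) = c * f g := by
  simp [pr]

/-- The ideal `(lev a - 1) k[Γ]`. -/
noncomputable def Jd (u : UF p d Γ) (k : Type) [Field k] (a : ℕ) :
    Submodule k (MonoidAlgebra k Γ) :=
  Submodule.span k {x | ∃ g h, h ∈ u.lev a ∧
    x = MonoidAlgebra.single (g * h) 1 - MonoidAlgebra.single g 1}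

/-- The weight filtration of the group algebra. -/
noncomputable def Dfil (u : UF p d Γ) (k : Type) [Field k] (j : ℕ) :
    Submodule k (MonoidAlgebra k Γ) :=
  ⨆ (L : List ℕ) (_ : j ≤ (L.map (fun a => p ^ a)).sum), (L.map (Jd u k)).prod * ⊤

/-- `b i = g i - 1`. -/
noncomputable def bb (u : UF p d Γ) (k : Type) [Field k] (i : Fin d) : MonoidAlgebra k Γ :=
  MonoidAlgebra.single (u.gen i) 1 - 1

/-- Elements of `W` orthogonal to `D j`. -/
noncomputable def Wj (u : UF p d Γ) {k : Type} [Field k] (W : Submodule k (Γ → k)) (j : ℕ) :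
    Set (Γ → k) := {w | w ∈ W ∧ ∀ x ∈ Dfil u k j, pr w x = 0}

/-- The filtration attached to `W`. -/
noncomputable def Fj (u : UF p d Γ) {k : Type} [Field k] (W : Submodule k (Γ → k)) (j : ℕ) :
    Submodule k (MonoidAlgebra k Γ) := ⨅ w ∈ Wj u W j, LinearMap.ker (pr w)

lemma mem_Fj (u : UF p d Γ) {k : Type} [Field k] (W : Submodule k (Γ → k)) (j : ℕ)
    (x : MonoidAlgebra k Γ) : x ∈ Fj u W j ↔ ∀ w ∈ Wj u W j, pr w x = 0 := by
  simp [Fj]

/-- Properties of the filtration attached to `W`. -/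
structure Fil (u : UF p d Γ) {k : Type} [Field k] (W : Submodule k (Γ → k))
    (φ : FR k (MonoidAlgebra k Γ) d) : Prop where
  F_eq : φ.F = Fj u W
  b_eq : φ.b = bb u k
  lev : ∀ a g h, h ∈ u.lev a →
    MonoidAlgebra.single (g * h) (1 : k) - MonoidAlgebra.single g 1 ∈ φ.F (p ^ a)
  ann : ∀ j f, (∀ x ∈ φ.F j, pr f x = 0) → f ∈ W
  exh : ∀ w ∈ W, ∃ j, ∀ x ∈ φ.F j, pr w x = 0
  perp : ∀ j x, (∀ w ∈ W, (∀ x' ∈ φ.F j, pr w x' = 0) → pr w x = 0) → x ∈ φ.F j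
  stab : ∀ s : Γ →* Γ, (∀ a g, g ∈ u.lev a → s g ∈ u.lev a) →
    (∀ w ∈ W, (fun g => w (s g)) ∈ W) →
    ∀ j x, x ∈ φ.F j → MonoidAlgebra.mapDomainAlgHom k k s x ∈ φ.F j
  ninf : ∀ j0, ∃ j, j0 ≤ j ∧ ¬ φ.F j ≤ φ.F (j + 1)

end

/-! ### The completed group ring of `V` -/

section
variable {p d : ℕ} [Fact p.Prime]

/-- `θ` factors through `V / p^n V`. -/
def LvV {k : Type} (n : ℕ) (θ : VV p d → k) : Prop := ∀ y z, Dv n z → θ (y + z) = θ y

/-- Infinite-dimensional translation-invariant spaces of smooth functions on `V`. -/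
structure NiceV (X : Submodule (ZMod p) (VV p d → ZMod p)) : Prop where
  sm : ∀ θ ∈ X, ∃ n, LvV n θ
  inv : ∀ θ ∈ X, ∀ v, (fun y => θ (y + v)) ∈ X
  inf : ¬ FiniteDimensional (ZMod p) X

/-- Stable under a subgroup of finite index. -/
def VStab {H : Type} [Group H] (ρ : H →* (VV p d ≃ₗ[ℤ_[p]] VV p d))
    (X : Submodule (ZMod p) (VV p d → ZMod p)) : Prop :=
  ∃ H' : Subgroup H, H'.FiniteIndex ∧ ∀ s ∈ H', ∀ θ ∈ X, (fun y => θ (ρ s y)) ∈ X

end

/-- The completed group ring of `V` over `ZMod p`, by its properties. -/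
structure Cpl (p d : ℕ) [Fact p.Prime] : Type 1 where
  A : Type
  [ring : CommRing A]
  K : ℕ → Ideal A
  δ : VV p d → A
  adm : Adm p A K
  δ_zero : δ 0 = 1
  δ_add : ∀ y z, δ (y + z) = δ y * δ z
  δ_mem : ∀ n z, Dv n z → δ z - 1 ∈ K n
  dense : ∀ a n, ∃ x ∈ AddSubgroup.closure (Set.range δ), a - x ∈ K n
  kgen : ∀ n m a, a ∈ K n →
    ∃ x ∈ AddSubgroup.closure {x | ∃ y z, Dv n z ∧ x = δ (y + z) - δ y}, a - x ∈ K m
  lift : ∀ (O : Type) [Ring O], (p : O) = 0 → ∀ (r : ℕ) (f : VV p d → O), f 0 = 1 →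
    (∀ y z, f (y + z) = f y * f z) → (∀ z, Dv r z → f z = 1) →
    ∃ E : A →+* O, (∀ y, E (δ y) = f y) ∧ ∀ a ∈ K r, E a = 0
  func : ∀ (n : ℕ) (θ : VV p d → ZMod p), LvV n θ →
    ∃ ψ : A →+ ZMod p, (∀ y, ψ (δ y) = θ y) ∧ ∀ a ∈ K n, ψ a = 0
  full : ∀ lam : (VV p d → ZMod p) →ₗ[ZMod p] ZMod p, ∃ a, ∀ (n : ℕ) (ψ : A →+ ZMod p),
    (∀ x ∈ K n, ψ x = 0) → ψ a = lam (fun y => ψ (δ y))
  aut : ∀ s : VV p d ≃ₗ[ℤ_[p]] VV p d, ∃ α : A ≃+* A, (∀ y, α (δ y) = δ (s y)) ∧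
    ∀ n a, a ∈ K n ↔ α a ∈ K n

attribute [instance] Cpl.ring

section
variable {p d : ℕ} [Fact p.Prime]

omit [Fact p.Prime] in
lemma Adm.mono {A : Type} [CommRing A] {K : ℕ → Ideal A} (h : Adm p A K) {n m : ℕ}
    (hnm : n ≤ m) : K m ≤ K n := antitone_nat_of_succ_le h.anti hnm

/-- The smooth functions orthogonal to an ideal. -/
def Cpl.XP (Q : Cpl p d) (P : Ideal Q.A) : Submodule (ZMod p) (VV p d → ZMod p) where
  carrier := {θ | ∃ (n : ℕ) (ψ : Q.A →+ ZMod p), (∀ a ∈ Q.K n, ψ a = 0) ∧ (∀ a ∈ P, ψ a = 0) ∧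
    ∀ y, θ y = ψ (Q.δ y)}
  zero_mem' := ⟨0, 0, by simp, by simp, by simp⟩
  add_mem' := by
    rintro θ θ' ⟨n, ψ, h1, h2, h3⟩ ⟨n', ψ', h1', h2', h3'⟩
    refine ⟨max n n', ψ + ψ', fun a ha => ?_, fun a ha => ?_, fun y => ?_⟩
    · simp [h1 a (Q.adm.mono (le_max_left _ _) ha), h1' a (Q.adm.mono (le_max_right _ _) ha)]
    · simp [h2 a ha, h2' a ha]
    · simp [h3 y, h3' y]
  smul_mem' := by
    rintro c θ ⟨n, ψ, h1, h2, h3⟩
    refine ⟨n, (AddMonoidHom.mulLeft c).comp ψ, fun a ha => ?_, fun a ha => ?_, fun y => ?_⟩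
    · simp [h1 a ha]
    · simp [h2 a ha]
    · simp [h3 y]

/-- The abstract group ring of `V`. -/
abbrev A0 (p d : ℕ) [Fact p.Prime] : Type := MonoidAlgebra (ZMod p) (Multiplicative (VV p d))

/-- Basis elements of `A0`. -/
noncomputable def d0 (y : VV p d) : A0 p d := MonoidAlgebra.single (Multiplicative.ofAdd y) 1

/-- Kernel of `A0` to level `n`. -/
noncomputable def K0 (p d : ℕ) [Fact p.Prime] (n : ℕ) : Ideal (A0 p d) :=
  Ideal.span {x | ∃ z, Dv n z ∧ x = d0 z - 1}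

/-- Cauchy sequences in `A0`. -/
noncomputable def AA (p d : ℕ) [Fact p.Prime] : Subring (ℕ → A0 p d) where
  carrier := {a | ∀ n, a (n + 1) - a n ∈ K0 p d n}
  zero_mem' := by intro n; simp
  one_mem' := by intro n; simp
  add_mem' := by
    intro a b ha hb n
    have := (K0 p d n).add_mem (ha n) (hb n)
    simp only [Pi.add_apply]
    convert this using 1; ring
  neg_mem' := by
    intro a ha n
    have := (K0 p d n).neg_mem (ha n)
    simp only [Pi.neg_apply]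
    convert this using 1; ring
  mul_mem' := by
    intro a b ha hb n
    have := (K0 p d n).add_mem ((K0 p d n).mul_mem_left (a (n + 1)) (hb n))
      ((K0 p d n).mul_mem_left (b n) (ha n))
    simp only [Pi.mul_apply]
    convert this using 1; ring

/-- The `n`-th term of a Cauchy sequence. -/
noncomputable def evA (p d : ℕ) [Fact p.Prime] (n : ℕ) : AA p d →+* A0 p d :=
  (Pi.evalRingHom (fun _ : ℕ => A0 p d) n).comp (AA p d).subtype

/-- Cauchy sequences whose `n`-th term lies in `K0 n`. -/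
noncomputable def KK (p d : ℕ) [Fact p.Prime] (n : ℕ) : Ideal (AA p d) :=
  (K0 p d n).comap (evA p d n)

/-- Constant sequences. -/
noncomputable def cst (x : A0 p d) : AA p d := ⟨fun _ => x, by intro n; simp⟩

/-- Basis elements as constant sequences. -/
noncomputable def dA (y : VV p d) : AA p d := cst (d0 y)

end

/-! ### The machine -/

/-- The maps `E r` attached to a core. -/
structure Setup {p d : ℕ} [Fact p.Prime] {Γ : Type} [Group Γ] (u : UF p d Γ) {k : Type} [Field k]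
    {φ : FR k (MonoidAlgebra k Γ) d} (C : Core p φ) (Q : Cpl p d) where
  E : (r : ℕ) → Q.A →+* (C.T r).O
  E_δ : ∀ r y, E r (Q.δ y) = C.ι r (MonoidAlgebra.single (u.eps r y) 1)
  E_K : ∀ r, ∀ a ∈ Q.K r, E r a = 0
  deep : ∀ r n a, a ∈ Q.K n → ∃ o, E r a = (C.T r).t ^ (p ^ (r + n)) * o
  opn : ∀ r n, (C.T r).t ^ (p ^ (r + n)) ∈ Ideal.map (E r) (Q.K n)

/-- The tower of a setup. -/
def Setup.tw {p d : ℕ} [Fact p.Prime] {Γ : Type} [Group Γ] {u : UF p d Γ} {k : Type} [Field k]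
    {φ : FR k (MonoidAlgebra k Γ) d} {C : Core p φ} {Q : Cpl p d} (S : Setup u C Q) :
    Tower p C.ρ Q.A Q.K := ⟨C.T, S.E, S.deep, S.opn⟩

/-- Hypotheses of the rigidity theorem. -/
structure RigData {p d : ℕ} [Fact p.Prime] {G : Type} [Group G]
    (ρ : G →* (VV p d ≃ₗ[ℤ_[p]] VV p d)) (DD : Fin d → (VV p d →ₗ[ℤ_[p]] VV p d)) : Prop where
  triv : ∀ s y, Dv 1 (ρ s y - y)
  irr : ∀ H : Subgroup G, H.FiniteIndex → ∀ h : Submodule ℤ_[p] (VV p d),
    (∀ s ∈ H, ∀ y ∈ h, ρ s y ∈ h) → h ≠ ⊥ → ∃ c, ∀ y, Dv c y → y ∈ h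
  disp : ∀ H : Subgroup G, H.FiniteIndex → ∀ i, ∃ r0, ∀ r, r0 ≤ r → ∃ γ ∈ H, ∀ (m : ℕ) y,
    Dv (2 * r) (ρ (γ ^ m) y - y - (p : ℤ_[p]) ^ r • (m • DD i y))
  sep : ∃ s, ∀ n y, (∀ i, Dv (n + s) (DD i y)) → Dv n y

/-! ### Matrices -/

/-- All entries are divisible by `q`. -/
def MD {O : Type} [CommRing O] {n : ℕ} (q : O) (M : Matrix (Fin n) (Fin n) O) : Prop :=
  ∀ i j, q ∣ M i j

/-- The congruence subgroup of level `p^e`. -/
def Cong (p : ℕ) (O : Type) [CommRing O] (n e : ℕ) :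
    Subgroup (Matrix.SpecialLinearGroup (Fin n) O) :=
  (Matrix.SpecialLinearGroup.map (Ideal.Quotient.mk (Ideal.span {(p : O) ^ e}))).ker

/-- The matrix of an element of the congruence subgroup. -/
def mat {p : ℕ} {O : Type} [CommRing O] {n e : ℕ} (g : Cong p O n e) :
    Matrix (Fin n) (Fin n) O := g.1.1

lemma mem_Cong {p : ℕ} {O : Type} [CommRing O] {n e : ℕ}
    (g : Matrix.SpecialLinearGroup (Fin n) O) :
    g ∈ Cong p O n e ↔ MD ((p : O) ^ e) (g.1 - 1) := by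
  unfold Cong MD
  rw [MonoidHom.mem_ker, Matrix.SpecialLinearGroup.ext_iff]
  refine forall_congr' fun i => forall_congr' fun j => ?_
  rw [← Ideal.mem_span_singleton, Matrix.sub_apply, ← Ideal.Quotient.eq]
  by_cases h : i = j <;> simp [h, Matrix.one_apply]

/-- A `ℤ_p`-basis of the trace-zero matrices made of square-zero matrices. -/
structure Frame (p : ℕ) [Fact p.Prime] (O : Type) [CommRing O] [Algebra ℤ_[p] O] (n d : ℕ) where
  c : VV p d →ₗ[ℤ_[p]] Matrix (Fin n) (Fin n) O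
  inj : Function.Injective c
  range : ∀ M, (∃ y, c y = M) ↔ M.trace = 0
  sq : ∀ i, c (Pi.single i 1) * c (Pi.single i 1) = 0
  dv : ∀ a y, Dv a y ↔ MD ((p : O) ^ a) (c y)

end Pool.Agent.P.MP_7cb106_nt.QJ
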