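import Pool.Agent.P.MP_7cb106_nt.QJ.Iface

/-! Definitions for overgroups with a central character. -/

set_option autoImplicit false

namespace Pool.Agent.P.MP_7cb106_nt.QJ

open Filter

/-- A filtered algebra `R` that is a finite crossed product over the image of `R0`. -/
structure FRX (k R0 R : Type) [Field k] [Ring R0] [Algebra k R0] [Ring R] [Algebra k R] {d : ℕ}
    (φ : FR k R0 d) (Qg : Type) [Group Qg] where
  f : R0 →ₐ[k] R
  F : ℕ → Submodule k R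
  c : Qg → Rˣ
  σ : Qg → (R0 ≃ₐ[k] R0)
  zero : F 0 = ⊤
  anti : ∀ j, F (j + 1) ≤ F j
  mul : ∀ i j x y, x ∈ F i → y ∈ F j → x * y ∈ F (i + j)
  map : ∀ j x, x ∈ φ.F j → f x ∈ F j
  σmem : ∀ q j x, x ∈ φ.F j ↔ σ q x ∈ φ.F j
  cσ : ∀ q x, (c q : R) * f x = f (σ q x) * c q
  σmul : ∀ q q', ∃ g : R0ˣ, ∀ x, σ q (σ q' x) = g * σ (q * q') x * ↑g⁻¹
  gen : ∀ j, F j ≤ Submodule.span k {y | ∃ q x, x ∈ φ.F j ∧ y = f x * c q} ⊔ F (j + 1)
  ninf : ∀ j0, ∃ j, j0 ≤ j ∧ ¬ F j ≤ F (j + 1)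

/-- The rings `O_N` for a crossed product. -/
structure CoreX (p : ℕ) {k R : Type} [Field k] [Ring R] [Algebra k R] {d : ℕ}
    (F : ℕ → Submodule k R) (b : Fin d → R) : Type 1 where
  ρ : ℕ
  F' : ℕ → Submodule k R
  le : ∀ j, F j ≤ F' j
  anti : ∀ j, F' (j + 1) ≤ F' j
  two : ∀ j x a b, x ∈ F' j → a * x * b ∈ F' j
  ninf : ∀ j0, ∃ j, j0 ≤ j ∧ ¬ F' j ≤ F' (j + 1)
  T : (r : ℕ) → TR ρ (p ^ (2 * r))
  ι : (r : ℕ) → R →+* (T r).O
  ord : ∀ r j x, j ≤ p ^ (2 * r) → (x ∈ F' j ↔ ∃ o, ι r x = (T r).t ^ j * o)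
  opn : ∀ r m, (T r).t ^ m ∈ Ideal.span (Set.range fun i => ι r (b i) ^ m)

section
variable {p d : ℕ} [Fact p.Prime] {Γ : Type} [Group Γ]

/-- An overgroup `Δ` of `Γ`, finite modulo `Γ` and a central subgroup. -/
structure Over (u : UF p d Γ) (Δ : Type) [Group Δ] where
  inc : Γ →* Δ
  cj : Δ →* MulAut Γ
  Z : Subgroup Δ
  inj : Function.Injective inc
  cj_eq : ∀ δ g, inc (cj δ g) = δ * inc g * δ⁻¹
  lev : ∀ δ a g, g ∈ u.lev a → cj δ g ∈ u.lev a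
  cen : ∀ z ∈ Z, ∀ δ, z * δ = δ * z
  fin : (inc.range ⊔ Z).FiniteIndex

variable {u : UF p d Γ} {Δ : Type} [Group Δ]

/-- `f` is invariant under the image of `lev a`. -/
def Over.Lv (V : Over u Δ) {k : Type} (a : ℕ) (f : Δ → k) : Prop :=
  ∀ g h, h ∈ u.lev a → f (g * V.inc h) = f g

/-- `f` has central character `ψ`. -/
def Over.Eqv (V : Over u Δ) {k : Type} [Field k] (ψ f : Δ → k) : Prop :=
  ∀ z ∈ V.Z, ∀ g, f (z * g) = ψ z * f g

/-- Infinite-dimensional bi-invariant spaces of smooth functions with central character `ψ`. -/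
structure Over.Nice (V : Over u Δ) {k : Type} [Field k] (ψ : Δ → k) (W : Submodule k (Δ → k)) :
    Prop where
  sm : ∀ w ∈ W, ∃ a, V.Lv a w
  eqv : ∀ w ∈ W, V.Eqv ψ w
  inv : ∀ w ∈ W, ∀ a b : Δ, (fun g => w (a * g * b)) ∈ W
  inf : ¬ FiniteDimensional k W

/-- Displacement functions on the overgroup. -/
def Over.Disp (V : Over u Δ) (y : Δ → VV p d) : Prop :=
  ∃ r0, ∀ r, r0 ≤ r → ∃ γ : Δ, ∀ (m : ℕ) (h : Δ), ∃ z ∈ u.lev (2 * r),
    γ ^ m * h * (γ ^ m)⁻¹ = h * V.inc (u.eps r (m • y h) * z)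

/-- The map of group algebras. -/
noncomputable def Over.incA (V : Over u Δ) (k : Type) [Field k] :
    MonoidAlgebra k Γ →ₐ[k] MonoidAlgebra k Δ := MonoidAlgebra.mapDomainAlgHom k k V.inc

/-- The weight filtration on the group algebra of the overgroup. -/
noncomputable def Over.DX (V : Over u Δ) (k : Type) [Field k] (j : ℕ) :
    Submodule k (MonoidAlgebra k Δ) :=
  Submodule.span k {y | ∃ δ x, x ∈ Dfil u k j ∧ y = V.incA k x * MonoidAlgebra.single δ 1}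

/-- Elements of `W` orthogonal to `DX j`. -/
noncomputable def Over.WX (V : Over u Δ) {k : Type} [Field k] (W : Submodule k (Δ → k)) (j : ℕ) :
    Set (Δ → k) := {w | w ∈ W ∧ ∀ x ∈ V.DX k j, pr w x = 0}

/-- The filtration attached to `W`. -/
noncomputable def Over.FX (V : Over u Δ) {k : Type} [Field k] (W : Submodule k (Δ → k)) (j : ℕ) :
    Submodule k (MonoidAlgebra k Δ) := ⨅ w ∈ V.WX W j, LinearMap.ker (pr w)

lemma Over.mem_FX (V : Over u Δ) {k : Type} [Field k] (W : Submodule k (Δ → k)) (j : ℕ)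
    (x : MonoidAlgebra k Δ) : x ∈ V.FX W j ↔ ∀ w ∈ V.WX W j, pr w x = 0 := by
  simp [Over.FX]

/-- Properties of the filtration attached to `W`. -/
structure FilX (V : Over u Δ) {k : Type} [Field k] (W : Submodule k (Δ → k))
    (F : ℕ → Submodule k (MonoidAlgebra k Δ)) : Prop where
  zero : F 0 = ⊤
  anti : ∀ j, F (j + 1) ≤ F j
  mul : ∀ i j x y, x ∈ F i → y ∈ F j → x * y ∈ F (i + j)
  dx : ∀ j, V.DX k j ≤ F j
  lev : ∀ a g h, h ∈ u.lev a →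
    MonoidAlgebra.single (g * V.inc h) (1 : k) - MonoidAlgebra.single g 1 ∈ F (p ^ a)
  ann : ∀ j f, (∀ x ∈ F j, pr f x = 0) → f ∈ W
  exh : ∀ w ∈ W, ∃ j, ∀ x ∈ F j, pr w x = 0
  perp : ∀ j x, (∀ w ∈ W, pr w x = 0) → x ∈ F j
  gen : ∀ j, F j ≤ V.DX k j ⊔ F (j + 1)
  ninf : ∀ j0, ∃ j, j0 ≤ j ∧ ¬ F j ≤ F (j + 1)

/-- The maps `E r` attached to a core for the overgroup. -/
structure SetupX (V : Over u Δ) {k : Type} [Field k] {F : ℕ → Submodule k (MonoidAlgebra k Δ)}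
    (C : CoreX p F (fun i => V.incA k (bb u k i))) (Q : Cpl p d) where
  E : (r : ℕ) → Q.A →+* (C.T r).O
  E_δ : ∀ r y, E r (Q.δ y) = C.ι r (MonoidAlgebra.single (V.inc (u.eps r y)) 1)
  E_K : ∀ r, ∀ a ∈ Q.K r, E r a = 0
  deep : ∀ r n a, a ∈ Q.K n → ∃ o, E r a = (C.T r).t ^ (p ^ (r + n)) * o
  opn : ∀ r n, (C.T r).t ^ (p ^ (r + n)) ∈ Ideal.map (E r) (Q.K n)

/-- The tower of a setup. -/
def SetupX.tw {V : Over u Δ} {k : Type} [Field k] {F : ℕ → Submodule k (MonoidAlgebra k Δ)}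
    {C : CoreX p F (fun i => V.incA k (bb u k i))} {Q : Cpl p d} (S : SetupX V C Q) :
    Tower p C.ρ Q.A Q.K := ⟨C.T, S.E, S.deep, S.opn⟩

end

section
variable {p : ℕ} [Fact p.Prime] {O : Type} [CommRing O] [Algebra ℤ_[p] O] {n d e : ℕ}

/-- The matrix of an element of a subgroup of `GL_n`. -/
def matU {O : Type} [CommRing O] {n : ℕ} {U : Subgroup (GL (Fin n) O)} (g : U) :
    Matrix (Fin n) (Fin n) O := g.1.1

/-- `V` is the inclusion of the congruence subgroup in `U`, with the scalars of `U`. -/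
def IsOver {u : UF p d (Cong p O n e)} {U : Subgroup (GL (Fin n) O)} (V : Over u U) : Prop :=
  (∀ g, matU (V.inc g) = mat g) ∧ ∀ z, z ∈ V.Z ↔ ∃ c : Oˣ, matU z = (c : O) • 1

/-- `ys i h = h⁻¹ e_i h - e_i` in coordinates. -/
def IsYsU (Fr : Frame p O n d) {U : Subgroup (GL (Fin n) O)} (ys : Fin d → U → VV p d) : Prop :=
  ∀ i h, Fr.c (ys i h) = matU h⁻¹ * Fr.bs i * matU h - Fr.bs i

end

end Pool.Agent.P.MP_7cb106_nt.QJ
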