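import Pool.Agent.P.MP_7cb106_nt.QJ.Base

/-! The steps of the proof, as statements. -/

set_option autoImplicit false

namespace Pool.Agent.P.MP_7cb106_nt.QJ

open Filter

/-! ### Section 3 and 4: abstract towers -/

-- deps:
def S_ADDP : Prop := ∀ (p : ℕ) [Fact p.Prime] (A : Type) [CommRing A], (p : A) = 0 →
  ∀ Q : Finset A, (0 : A) ∈ Q → (∀ a ∈ Q, ∀ b ∈ Q, a + b ∈ Q) → ∀ x y : A,
    ∏ v ∈ Q, (x + y + v) = ∏ v ∈ Q, (x + v) + ∏ v ∈ Q, (y + v)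

-- deps:
def S_LENQ : Prop := ∀ (ρ N : ℕ) (T : TR ρ N) (L : ℕ),
  Module.length T.O (T.O ⧸ Submodule.span T.O {T.t ^ L}) ≤ ((ρ * L : ℕ) : ℕ∞)

-- deps: LENQ
def S_REG : Prop := ∀ (ρ N : ℕ) (T : TR ρ N) (D : ℕ) (c w x : T.O),
  T.t ^ D = w * c → x * c = 0 → T.t ^ (ρ * D) * x = 0

-- deps: LENQ
def S_FIN : Prop := ∀ (ρ N : ℕ) (T : TR ρ N) (s L c : ℕ) (J : Fin s → Ideal T.O)
  (u : Fin s → T.O), (∀ i, T.t ^ L ∉ J i) → (∀ i j, i ≠ j → u i ∈ J j) →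
  (∀ i, u i - T.t ^ c ∈ J i) → s * (L - c) ≤ ρ * L

-- deps:
def S_BAD1 : Prop := ∀ (p : ℕ) [Fact p.Prime] (ρ : ℕ) (A : Type) [CommRing A] (K : ℕ → Ideal A)
  (𝒯 : Tower p ρ A K),
  (∀ (I : Ideal A) (n C : ℕ), 𝒯.Good (I ⊔ K n) C → C < p ^ n → 𝒯.Good I C) ∧
  (∀ (I I' : Ideal A) (C C' : ℕ), I ≤ I' → C ≤ C' → 𝒯.Good I C → 𝒯.Good I' C') ∧
  (∀ (I I' : Ideal A) (C C' : ℕ), 𝒯.Good I C → 𝒯.Good I' C' → 𝒯.Good (I * I') (C + C'))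

-- deps: BAD1
def S_BAD3 : Prop := ∀ (p : ℕ) [Fact p.Prime] (ρ : ℕ) (A : Type) [CommRing A] (K : ℕ → Ideal A)
  (𝒯 : Tower p ρ A K), Adm p A K → ∀ I, 𝒯.Bad I → ∃ P, 𝒯.MaxBad P ∧ I ≤ P

-- deps: FIN BAD1
def S_BAD4 : Prop := ∀ (p : ℕ) [Fact p.Prime] (ρ : ℕ) (A : Type) [CommRing A] (K : ℕ → Ideal A)
  (𝒯 : Tower p ρ A K), {P | 𝒯.MaxBad P}.Finite

-- deps: BAD1
def S_BAD5 : Prop := ∀ (p : ℕ) [Fact p.Prime] (ρ : ℕ) (A : Type) [CommRing A] (K : ℕ → Ideal A)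
  (𝒯 : Tower p ρ A K), Adm p A K → ∀ (ℓ : A →+ ZMod p) (n0 : ℕ), (∀ a ∈ K n0, ℓ a = 0) →
  (∀ a, ℓ a = 1 → ∃ C, 𝒯.Good (Ideal.span {a}) C) →
  ∃ M, ∀ a, ℓ a = 1 → 𝒯.Good (Ideal.span {a}) M

-- deps:
def S_PERT : Prop := ∀ (ρ N : ℕ) (T : TR ρ N) (A : Type) [CommRing A] (E : A →+* T.O)
  (S : Finset A) (a : A → A) (e1 e2 : ℕ), (∀ v ∈ S, ∃ w, T.t ^ e2 = w * E (a v)) →
  (∃ w, T.t ^ (e2 * S.card) = w * E (∏ v ∈ S, a v)) ∧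
  ∀ f : A, (∃ o, E f = T.t ^ (e1 + e2) * o) →
    ∃ o, E (∏ v ∈ S, (a v + f)) - E (∏ v ∈ S, a v) = T.t ^ e1 * o * E (∏ v ∈ S, a v)

-- deps: ADDP REG PERT
def S_BAD6 : Prop := ∀ (p : ℕ) [Fact p.Prime] (ρ : ℕ) (A : Type) [CommRing A] (K : ℕ → Ideal A)
  (𝒯 : Tower p ρ A K), Adm p A K → ∀ (ℓ : A →+ ZMod p) (n0 M : ℕ), (∀ a ∈ K n0, ℓ a = 0) →
  (∀ a, ℓ a = 1 → 𝒯.Good (Ideal.span {a}) M) → ∀ r0, ∃ r, r0 ≤ r ∧ 𝒯.Cancel ℓ r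

-- deps: BAD1
def S_BADS : Prop := ∀ (p : ℕ) [Fact p.Prime] (ρ : ℕ) (A : Type) [CommRing A] (K : ℕ → Ideal A)
  (𝒯 : Tower p ρ A K), 𝒯.Bad ⊥ ∧
  (∀ P, 𝒯.Bad P → ∀ n, ¬ ∀ m, K n ≤ P ⊔ K m) ∧
  (∀ P, 𝒯.MaxBad P → ∀ a, (∀ r, 𝒯.E r a = 0) → a ∈ P) ∧
  (∀ α : A ≃+* A, 𝒯.Lifts (α : A →+* A) → 𝒯.Lifts (α.symm : A →+* A) →
    ∀ P, 𝒯.MaxBad P → 𝒯.MaxBad (P.comap (α : A →+* A)))

/-! ### Section 2: the rings `O_N` -/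

-- deps:
def S_FR1 : Prop := ∀ (k R : Type) [Field k] [Ring R] [Algebra k R] (d : ℕ) (φ : FR k R d),
  (∀ i j x y, x ∈ φ.F i → y ∈ φ.F j → x * y - y * x ∈ φ.F (i + j + 1)) ∧
  ∀ σ, AdmS φ σ → ∀ j x, x ∈ φ.F j → σ x - x ∈ φ.F (j + 1)

-- deps:
def S_REESA : Prop := ∀ (k R : Type) [Field k] [Ring R] [Algebra k R] (d : ℕ) (φ : FR k R d),
  Nonempty (RS φ)

-- deps: FR1
def S_REESB : Prop := ∀ (k R : Type) [Field k] [Ring R] [Algebra k R] (d : ℕ) (φ : FR k R d)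
  (X : RS φ), (∀ j0, ∃ j, j0 ≤ j ∧ ¬ φ.F j ≤ φ.F (j + 1)) →
  ∃ (B : Type) (_ : CommRing B) (π : X.S →+* B) (P : Ideal B) (i0 : Fin d) (β : X.S),
    IsNoetherianRing B ∧ Function.Surjective π ∧ (∀ z, π z = 0 ↔ ∃ w, z = X.t * w) ∧
    P ∈ minimalPrimes B ∧ X.j (φ.b i0) = X.t * β ∧ π β ∉ P ∧
    ∀ σ, AdmS φ σ → ∀ τ : X.S →+* X.S, τ X.t = X.t → (∀ x, τ (X.j x) = X.j (σ x)) →
      ∀ z, π (τ z) = π z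

-- deps:
def S_LOC1 : Prop := ∀ (p : ℕ) [Fact p.Prime] (L : LI p) (N : ℕ), Nonempty (LO L N)

-- deps:
def S_LOC2 : Prop := ∀ (p : ℕ) (L : LI p) (N : ℕ) (X : LO L N),
  (∀ o, X.lam L.t * o = o * X.lam L.t) ∧ X.lam L.t ^ N = 0 ∧
  (∀ c, c < N → X.lam L.t ^ c ≠ 0) ∧
  (∀ (c : ℕ) o, X.lam L.t ^ c * o = 0 → ∃ o', o = X.lam L.t ^ (N - c) * o') ∧
  ∀ j x, j ≤ N → ((∃ o, X.lam x = X.lam L.t ^ j * o) ↔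
    ∃ s z, L.π s ∉ L.Pm ∧ s * x = L.t ^ j * z)

-- deps: LOC2
def S_LEN0 : Prop := ∀ (p : ℕ) (L : LI p), ∃ ρ : ℕ, ∀ (N : ℕ) (X : LO L N),
  Module.length X.O (X.O ⧸ Submodule.span X.O {X.lam L.t}) ≤ (ρ : ℕ∞)

-- deps: REESA REESB LOC1 LOC2 LEN0
def S_CORE : Prop := ∀ (p : ℕ) [Fact p.Prime] (k R : Type) [Field k] [Ring R] [Algebra k R] (d : ℕ)
  (φ : FR k R d), (p : R) = 0 → (∀ j0, ∃ j, j0 ≤ j ∧ ¬ φ.F j ≤ φ.F (j + 1)) →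
  Nonempty (Core p φ)

/-! ### Section 1: the filtrations -/

-- deps:
def S_UF0 : Prop := ∀ (p d : ℕ) [Fact p.Prime] (Γ : Type) [Group Γ] (u : UF p d Γ),
  (∀ a, (u.lev a).Normal) ∧ (∀ a b, a ≤ b → u.lev b ≤ u.lev a) ∧ (∀ a, (u.lev a).FiniteIndex) ∧
  (∀ a g, g ∈ u.lev a → ∃ m : Fin d → ℕ,
    (List.ofFn (fun i => (u.gen i ^ (p ^ a)) ^ m i)).prod⁻¹ * g ∈ u.lev (a + 1)) ∧
  ∀ a i, u.gen i ^ (p ^ a) ∈ u.lev a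

-- deps: UF0
def S_D1 : Prop := ∀ (p d : ℕ) [Fact p.Prime] (Γ : Type) [Group Γ] (u : UF p d Γ) (k : Type)
  [Field k],
  (∀ a x y z, y ∈ Jd u k a → x * y * z ∈ Jd u k a) ∧ Dfil u k 0 = ⊤ ∧
  (∀ i j, i ≤ j → Dfil u k j ≤ Dfil u k i) ∧
  (∀ i j x y, x ∈ Dfil u k i → y ∈ Dfil u k j → x * y ∈ Dfil u k (i + j)) ∧
  (∀ a, Jd u k a ≤ Dfil u k (p ^ a)) ∧
  ∀ s : Γ →* Γ, (∀ a g, g ∈ u.lev a → s g ∈ u.lev a) →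
    ∀ j x, x ∈ Dfil u k j → MonoidAlgebra.mapDomainAlgHom k k s x ∈ Dfil u k j

-- deps: UF0 D1
def S_D2 : Prop := ∀ (p d : ℕ) [Fact p.Prime] (Γ : Type) [Group Γ] (u : UF p d Γ) (k : Type)
  [Field k] [CharP k p],
  (∀ i, bb u k i ∈ Dfil u k 1) ∧
  (∀ i l, bb u k i * bb u k l - bb u k l * bb u k i ∈ Dfil u k 3) ∧
  ∀ j, Dfil u k j ≤ Mon k (bb u k) j ⊔ Dfil u k (j + 1)

-- deps: UF0 D1
def S_D3A : Prop := ∀ (p d : ℕ) [Fact p.Prime] (Γ : Type) [Group Γ] (u : UF p d Γ) (k : Type)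
  [Field k] [CharP k p] (a : ℕ), ∃ s, 0 < s ∧ Jd u k a ^ s ≤ Jd u k (a + 1)

-- deps: UF0 D1 D3A
def S_D3 : Prop := ∀ (p d : ℕ) [Fact p.Prime] (Γ : Type) [Group Γ] (u : UF p d Γ) (k : Type)
  [Field k] [CharP k p] (n : ℕ), ∃ j, Dfil u k j ≤ Jd u k n

-- deps: UF0
def S_DUAL : Prop :=
  (∀ (p d : ℕ) [Fact p.Prime] (Γ : Type) [Group Γ] (u : UF p d Γ) (k : Type) [Field k] (a : ℕ)
    (X : Submodule k (Γ → k)), (∀ f ∈ X, u.Lv a f) → FiniteDimensional k X) ∧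
  (∀ (Γ k : Type) [Field k] (X : Submodule k (Γ → k)), FiniteDimensional k X →
    ∀ f : Γ → k, (∀ x, (∀ w ∈ X, pr w x = 0) → pr f x = 0) → f ∈ X) ∧
  (∀ (Γ k : Type) [Field k] (M : Submodule k (MonoidAlgebra k Γ)) (x : MonoidAlgebra k Γ),
    (∀ f : Γ → k, (∀ m ∈ M, pr f m = 0) → pr f x = 0) → x ∈ M)

-- deps: D1
def S_FMUL : Prop := ∀ (p d : ℕ) [Fact p.Prime] (Γ : Type) [Group Γ] (u : UF p d Γ) (k : Type)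
  [Field k] (W : Submodule k (Γ → k)), u.Nice W →
  ∀ i j x y, x ∈ Fj u W i → y ∈ Fj u W j → x * y ∈ Fj u W (i + j)

-- deps: D1 DUAL
def S_FGEN : Prop := ∀ (p d : ℕ) [Fact p.Prime] (Γ : Type) [Group Γ] (u : UF p d Γ) (k : Type)
  [Field k] (W : Submodule k (Γ → k)),
  (∀ j, ∃ X : Submodule k (Γ → k), FiniteDimensional k X ∧ ∀ w, w ∈ X ↔ w ∈ Wj u W j) ∧
  (∀ j f, (∀ x ∈ Fj u W j, pr f x = 0) → f ∈ Wj u W j) ∧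
  ∀ j, Fj u W j ≤ Dfil u k j ⊔ Fj u W (j + 1)

-- deps: D1 D2 D3 FMUL FGEN
def S_FIL : Prop := ∀ (p d : ℕ) [Fact p.Prime] (Γ : Type) [Group Γ] (u : UF p d Γ) (k : Type)
  [Field k] [CharP k p] (W : Submodule k (Γ → k)), u.Nice W →
  ∃ φ : FR k (MonoidAlgebra k Γ) d, Fil u W φ

-- deps: FIL
def S_ONE : Prop := ∀ (p d : ℕ) [Fact p.Prime] (Γ : Type) [Group Γ] (u : UF p d Γ) (k : Type)
  [Field k] [CharP k p] (W : Submodule k (Γ → k)), u.Nice W → (fun _ => (1 : k)) ∈ W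

/-! ### The completed group ring -/

-- deps:
def S_FINV : Prop := ∀ (p d : ℕ) [Fact p.Prime] (n : ℕ),
  {θ : VV p d → ZMod p | LvV n θ}.Finite ∧
  ∃ Y : Finset (VV p d), (∀ y : VV p d, ∃ y' ∈ Y, Dv n (y - y')) ∧
    ∀ y ∈ Y, ∀ y' ∈ Y, Dv n (y - y') → y = y'

-- deps: FINV DUAL
def S_CP0 : Prop := ∀ (p d : ℕ) [Fact p.Prime],
  (∀ n m, n ≤ m → K0 p d m ≤ K0 p d n) ∧
  (∀ n x, x ∈ K0 p d n ↔
    x ∈ AddSubgroup.closure {x | ∃ y z, Dv n z ∧ x = d0 (y + z) - (d0 y : A0 p d)}) ∧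
  (∀ x : A0 p d, x ∈ AddSubgroup.closure (Set.range (d0 : VV p d → A0 p d))) ∧
  (∀ n, Finite (A0 p d ⧸ K0 p d n)) ∧
  (∀ n x, x ∈ K0 p d n ↔ ∀ θ : VV p d → ZMod p, LvV n θ →
    pr (fun g : Multiplicative (VV p d) => θ g.toAdd) x = 0) ∧
  ∀ (a : AA p d) n m, n ≤ m → a.1 m - a.1 n ∈ K0 p d n

-- deps: CP0
def S_CP1 : Prop := ∀ (p d : ℕ) [Fact p.Prime], Adm p (AA p d) (KK p d)

-- deps: CP0
def S_CP2 : Prop := ∀ (p d : ℕ) [Fact p.Prime],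
  (dA 0 : AA p d) = 1 ∧ (∀ y z : VV p d, dA (y + z) = dA y * dA z) ∧
  (∀ n (z : VV p d), Dv n z → dA z - 1 ∈ KK p d n) ∧
  (∀ (a : AA p d) n, ∃ x ∈ AddSubgroup.closure (Set.range (dA : VV p d → AA p d)),
    a - x ∈ KK p d n) ∧
  ∀ n m (a : AA p d), a ∈ KK p d n →
    ∃ x ∈ AddSubgroup.closure {x | ∃ y z, Dv n z ∧ x = dA (y + z) - (dA y : AA p d)},
      a - x ∈ KK p d m

-- deps: CP0
def S_CP3 : Prop := ∀ (p d : ℕ) [Fact p.Prime] (O : Type) [Ring O], (p : O) = 0 →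
  ∀ (r : ℕ) (f : VV p d → O), f 0 = 1 → (∀ y z, f (y + z) = f y * f z) →
    (∀ z, Dv r z → f z = 1) →
    ∃ E : AA p d →+* O, (∀ y, E (dA y) = f y) ∧ ∀ a ∈ KK p d r, E a = 0

-- deps: CP0 FINV
def S_CP4 : Prop := ∀ (p d : ℕ) [Fact p.Prime],
  (∀ (n : ℕ) (θ : VV p d → ZMod p), LvV n θ →
    ∃ ψ : AA p d →+ ZMod p, (∀ y, ψ (dA y) = θ y) ∧ ∀ a ∈ KK p d n, ψ a = 0) ∧
  ∀ lam : (VV p d → ZMod p) →ₗ[ZMod p] ZMod p, ∃ a : AA p d, ∀ (n : ℕ) (ψ : AA p d →+ ZMod p),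
    (∀ x ∈ KK p d n, ψ x = 0) → ψ a = lam (fun y => ψ (dA y))

-- deps: CP0
def S_CP5 : Prop := ∀ (p d : ℕ) [Fact p.Prime] (s : VV p d ≃ₗ[ℤ_[p]] VV p d),
  ∃ α : AA p d ≃+* AA p d, (∀ y, α (dA y) = dA (s y)) ∧ ∀ n a, a ∈ KK p d n ↔ α a ∈ KK p d n

-- deps: CP1 CP2 CP3 CP4 CP5
def S_CPL : Prop := ∀ (p d : ℕ) [Fact p.Prime], Nonempty (Cpl p d)

/-! ### The machine -/

-- deps: UF0
def S_E1 : Prop := ∀ (p d : ℕ) [Fact p.Prime] (Γ : Type) [Group Γ] (u : UF p d Γ) (k : Type)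
  [Field k] [CharP k p] (W : Submodule k (Γ → k)) (φ : FR k (MonoidAlgebra k Γ) d), Fil u W φ →
  ∀ (C : Core p φ) (Q : Cpl p d), Nonempty (Setup u C Q)

-- deps: UF0 DUAL
def S_E2 : Prop := ∀ (p d : ℕ) [Fact p.Prime] (Γ : Type) [Group Γ] (u : UF p d Γ) (k : Type)
  [Field k] (H : Type) [Group H] (a : Act u H) (W : Submodule k (Γ → k)), u.Nice W → a.Stab W →
  ∀ φ : FR k (MonoidAlgebra k Γ) d, Fil u W φ → ∀ C : Core p φ,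
  ∃ W' : Submodule k (Γ → k), W' ≤ W ∧ u.Nice W' ∧ a.Stab W' ∧
    ∀ w ∈ W', ∃ j, ∀ x ∈ C.F' j, pr w x = 0

-- deps: FINV
def S_E3A : Prop := ∀ (p d : ℕ) [Fact p.Prime] (Q : Cpl p d) (P : Ideal Q.A),
  (∀ n, ¬ ∀ m, Q.K n ≤ P ⊔ Q.K m) → NiceV (Q.XP P)

-- deps: UF0
def S_E3L : Prop := ∀ (p d : ℕ) [Fact p.Prime] (Γ : Type) [Group Γ] (u : UF p d Γ) (k : Type)
  [Field k] (H : Type) [Group H] (a : Act u H) (W : Submodule k (Γ → k)), a.Stab W →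
  ∀ φ : FR k (MonoidAlgebra k Γ) d, Fil u W φ → ∀ (C : Core p φ) (Q : Cpl p d) (S : Setup u C Q)
  (s : H) (α : Q.A →+* Q.A), (∀ y, α (Q.δ y) = Q.δ (a.onV s y)) →
  (∀ n x, x ∈ Q.K n → α x ∈ Q.K n) → S.tw.Lifts α

-- deps: BAD4 BADS E3L
def S_E3B : Prop := ∀ (p d : ℕ) [Fact p.Prime] (Γ : Type) [Group Γ] (u : UF p d Γ) (k : Type)
  [Field k] (H : Type) [Group H] (a : Act u H) (W : Submodule k (Γ → k)), a.Stab W →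
  ∀ φ : FR k (MonoidAlgebra k Γ) d, Fil u W φ → ∀ (C : Core p φ) (Q : Cpl p d) (S : Setup u C Q)
  (P : Ideal Q.A), S.tw.MaxBad P → VStab a.onV (Q.XP P)

-- deps: BAD3 BAD5 BAD6 BADS
def S_E4A : Prop := ∀ (p d : ℕ) [Fact p.Prime] (Q : Cpl p d) (ρ : ℕ) (𝒯 : Tower p ρ Q.A Q.K)
  (θ : VV p d → ZMod p), (∀ P, 𝒯.MaxBad P → θ ∈ Q.XP P) →
  ∃ ℓ : Q.A →+ ZMod p, (∀ y, ℓ (Q.δ y) = θ y) ∧ ∀ r0, ∃ r, r0 ≤ r ∧ 𝒯.Cancel ℓ r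

-- deps: UF0 E4A
def S_E4 : Prop := ∀ (p d : ℕ) [Fact p.Prime] (Γ : Type) [Group Γ] (u : UF p d Γ) (k : Type)
  [Field k] (H : Type) [Group H] (a : Act u H) (W : Submodule k (Γ → k)), a.Stab W →
  ∀ φ : FR k (MonoidAlgebra k Γ) d, Fil u W φ → ∀ (C : Core p φ) (Q : Cpl p d) (S : Setup u C Q)
  (θ : VV p d → ZMod p), (∀ P, S.tw.MaxBad P → θ ∈ Q.XP P) → ∀ y, a.Disp y →
  ∀ (w : Γ → k) (j : ℕ), (∀ x ∈ C.F' j, pr w x = 0) →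
    (fun h => ((θ (y h)).val : k) * w h) ∈ W

-- deps: UF0 BADS
def S_E5 : Prop := ∀ (p d : ℕ) [Fact p.Prime] (Γ : Type) [Group Γ] (u : UF p d Γ) (k : Type)
  [Field k] [CharP k p] (W : Submodule k (Γ → k)) (φ : FR k (MonoidAlgebra k Γ) d), Fil u W φ →
  ∀ (C : Core p φ) (Q : Cpl p d) (S : Setup u C Q) (Y : Submodule (ZMod p) (VV p d → ZMod p)),
  (∀ r, ∀ w ∈ W, ∀ ψ : k →+ ZMod p, (fun y => ψ (w (u.eps r y))) ∈ Y) →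
  ∀ P, S.tw.MaxBad P → Q.XP P ≤ Y

-- deps: FIL CORE CPL E1 E2 E3A E3B E4 E5 BAD3 BADS
def S_MACH : Prop := ∀ (p d : ℕ) [Fact p.Prime] (Γ : Type) [Group Γ] (u : UF p d Γ) (k : Type)
  [Field k] [CharP k p] (H : Type) [Group H] (a : Act u H) (W : Submodule k (Γ → k)),
  u.Nice W → a.Stab W →
  ∃ W' : Submodule k (Γ → k), W' ≤ W ∧ u.Nice W' ∧ a.Stab W' ∧
    ∃ XX : Set (Submodule (ZMod p) (VV p d → ZMod p)), XX.Nonempty ∧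
      (∀ X ∈ XX, NiceV X ∧ VStab a.onV X) ∧
      (∀ θ, (∀ X ∈ XX, θ ∈ X) → ∀ y, a.Disp y → ∀ w ∈ W',
        (fun h => ((θ (y h)).val : k) * w h) ∈ W) ∧
      ∀ Y : Submodule (ZMod p) (VV p d → ZMod p),
        (∀ r, ∀ w ∈ W, ∀ ψ : k →+ ZMod p, (fun y => ψ (w (u.eps r y))) ∈ Y) → ∀ X ∈ XX, X ≤ Y

/-! ### Section 5: rigidity -/

-- deps:
def S_UFV : Prop := ∀ (p d : ℕ) [Fact p.Prime], ∃ u : UF p d (Multiplicative (VV p d)),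
  (∀ a g, g ∈ u.lev a ↔ Dv a g.toAdd) ∧
  (∀ r y, u.eps r y = Multiplicative.ofAdd ((p : ℤ_[p]) ^ r • y)) ∧
  ∀ (H : Type) [Group H] (ρ : H →* (VV p d ≃ₗ[ℤ_[p]] VV p d)), (∀ s y, Dv 1 (ρ s y - y)) →
    ∃ a : Act u H, a.onV = ρ ∧ ∀ s g, a.onG s g = Multiplicative.ofAdd (ρ s g.toAdd)

-- deps: FIL
def S_DCC : Prop := ∀ (p d : ℕ) [Fact p.Prime] (Γ : Type) [CommGroup Γ] (u : UF p d Γ) (k : Type)
  [Field k] [CharP k p] (𝔉 : Set (Submodule k (Γ → k))), 𝔉.Nonempty → (∀ W ∈ 𝔉, u.Nice W) →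
  ∃ W ∈ 𝔉, ∀ W' ∈ 𝔉, W' ≤ W → W' = W

-- deps: FIL
def S_FROB : Prop := ∀ (p d : ℕ) [Fact p.Prime] (Γ : Type) [CommGroup Γ] (u : UF p d Γ)
  (W : Submodule (ZMod p) (Γ → ZMod p)), u.Nice W → ∀ w ∈ W, ∀ r : ℕ,
  (fun g => w (g ^ (p ^ r))) ∈ W

-- deps:
def S_DET : Prop := ∀ (p d : ℕ) [Fact p.Prime] (X : Set (VV p d → ZMod p)),
  (∀ w ∈ X, ∃ m, LvV m w) → (∀ v, (∀ w ∈ X, ∀ y, w (y + v) = w y) → v = 0) →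
  ∀ n, ∃ m, ∀ v, (∀ w ∈ X, LvV m w → ∀ y, w (y + v) = w y) → Dv n v

-- deps:
def S_SW : Prop := ∀ (p : ℕ) [Fact p.Prime] (k : Type) [Field k] [CharP k p] (Ω : Type)
  (W : Submodule k (Ω → k)) (Φ : Set (Ω → ZMod p)), Φ.Finite →
  (∀ L : List (Ω → ZMod p), (∀ φ ∈ L, φ ∈ Φ) →
    (fun g => (L.map (fun φ => ((φ g).val : k))).prod) ∈ W) →
  ∀ f : Ω → k, (∀ g g', (∀ φ ∈ Φ, φ g = φ g') → f g = f g') → f ∈ W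

-- deps: UFV MACH DCC FROB ONE
def S_RIGM : Prop := ∀ (p d : ℕ) [Fact p.Prime] (G : Type) [Group G]
  (ρ : G →* (VV p d ≃ₗ[ℤ_[p]] VV p d)) (DD : Fin d → (VV p d →ₗ[ℤ_[p]] VV p d)), RigData ρ DD →
  ∀ X : Submodule (ZMod p) (VV p d → ZMod p), NiceV X → VStab ρ X →
  ∃ W : Submodule (ZMod p) (VV p d → ZMod p), W ≤ X ∧ NiceV W ∧ VStab ρ W ∧
    (fun _ => (1 : ZMod p)) ∈ W ∧ ∀ θ ∈ W, ∀ w ∈ W, ∀ i, (fun y => θ (DD i y) * w y) ∈ W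

-- deps: FINV
def S_RIGH : Prop := ∀ (p d : ℕ) [Fact p.Prime] (G : Type) [Group G]
  (ρ : G →* (VV p d ≃ₗ[ℤ_[p]] VV p d)) (DD : Fin d → (VV p d →ₗ[ℤ_[p]] VV p d)), RigData ρ DD →
  ∀ W : Submodule (ZMod p) (VV p d → ZMod p), NiceV W → VStab ρ W →
  ∀ v, (∀ w ∈ W, ∀ y, w (y + v) = w y) → v = 0

-- deps: RIGM RIGH DET SW FINV
def S_RIG : Prop := ∀ (p d : ℕ) [Fact p.Prime] (G : Type) [Group G]
  (ρ : G →* (VV p d ≃ₗ[ℤ_[p]] VV p d)) (DD : Fin d → (VV p d →ₗ[ℤ_[p]] VV p d)), RigData ρ DD →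
  ∀ X : Submodule (ZMod p) (VV p d → ZMod p), NiceV X → VStab ρ X →
  ∀ (n : ℕ) (θ : VV p d → ZMod p), LvV n θ → θ ∈ X

/-! ### Section 6 -/

-- deps: MACH RIG SW ONE FINV
def S_MAIN : Prop := ∀ (p d : ℕ) [Fact p.Prime] (Γ : Type) [Group Γ] (u : UF p d Γ) (k : Type)
  [Field k] [CharP k p] (a : Act u Γ) (DD : Fin d → (VV p d →ₗ[ℤ_[p]] VV p d))
  (ys : Fin d → Γ → VV p d), (∀ s g, a.onG s g = s * g * s⁻¹) → RigData a.onV DD →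
  (∀ i, a.Disp (ys i)) →
  (∀ b, ∃ m, ∀ g g', (∀ i, Dv m (ys i g - ys i g')) → g⁻¹ * g' ∈ u.lev b) →
  ∀ W : Submodule k (Γ → k), u.Nice W → ∀ (b : ℕ) (f : Γ → k), u.Lv b f → f ∈ W

/-! ### Matrices -/

section
variable {p : ℕ} [Fact p.Prime] {O : Type} [CommRing O] [Algebra ℤ_[p] O] {n d e : ℕ}

/-- The basis matrices. -/
noncomputable def Frame.bs (Fr : Frame p O n d) (i : Fin d) : Matrix (Fin n) (Fin n) O :=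
  Fr.c (Pi.single i 1)

/-- `ρ` is the adjoint action in coordinates. -/
def IsAd (Fr : Frame p O n d) (ρ : Cong p O n e →* (VV p d ≃ₗ[ℤ_[p]] VV p d)) : Prop :=
  ∀ s y, Fr.c (ρ s y) = mat s * Fr.c y * mat s⁻¹

/-- `DD i` is the bracket with the `i`-th basis matrix in coordinates. -/
def IsDD (Fr : Frame p O n d) (DD : Fin d → (VV p d →ₗ[ℤ_[p]] VV p d)) : Prop :=
  ∀ i y, Fr.c (DD i y) = Fr.bs i * Fr.c y - Fr.c y * Fr.bs i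

/-- `u` is the congruence filtration. -/
def IsUF (Fr : Frame p O n d) (u : UF p d (Cong p O n e)) : Prop :=
  (∀ a g, g ∈ u.lev a ↔ MD ((p : O) ^ (e + a)) (mat g - 1)) ∧
  ∀ r y, MD ((p : O) ^ (2 * (e + r))) (mat (u.eps r y) - 1 - (p : O) ^ (e + r) • Fr.c y)

/-- `ys i h = h⁻¹ e_i h - e_i` in coordinates. -/
def IsYs (Fr : Frame p O n d) (ys : Fin d → Cong p O n e → VV p d) : Prop :=
  ∀ i h, Fr.c (ys i h) = mat h⁻¹ * Fr.bs i * mat h - Fr.bs i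

end

-- deps:
def S_FRAME : Prop := ∀ (p : ℕ) [Fact p.Prime] (O : Type) [CommRing O] [IsDomain O]
  [Algebra ℤ_[p] O] [Module.Finite ℤ_[p] O] [Module.Free ℤ_[p] O] (n : ℕ),
  ∃ d, Nonempty (Frame p O n d)

-- deps:
def S_ELT : Prop := ∀ (p : ℕ) (O : Type) [CommRing O] [IsDomain O] (n e : ℕ)
  (x : Matrix (Fin n) (Fin n) O), x * x = 0 → MD ((p : O) ^ e) x →
  ∃ g : Cong p O n e, ∀ m : ℕ, mat (g ^ m) = 1 + m • x ∧ mat (g ^ m)⁻¹ = 1 - m • x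

-- deps: ELT
def S_UFG : Prop := ∀ (p : ℕ) [Fact p.Prime] (O : Type) [CommRing O] [IsDomain O]
  [Algebra ℤ_[p] O] [Module.Free ℤ_[p] O] (n d e : ℕ) (Fr : Frame p O n d), 3 ≤ p ^ e →
  ∃ u : UF p d (Cong p O n e), IsUF Fr u

-- deps:
def S_ADJ : Prop := ∀ (p : ℕ) [Fact p.Prime] (O : Type) [CommRing O] [Algebra ℤ_[p] O]
  (n d e : ℕ) (Fr : Frame p O n d),
  (∃ ρ : Cong p O n e →* (VV p d ≃ₗ[ℤ_[p]] VV p d), IsAd Fr ρ) ∧ (∃ DD, IsDD Fr DD) ∧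
  ∃ ys : Fin d → Cong p O n e → VV p d, IsYs Fr ys

-- deps:
def S_SIMP : Prop := ∀ (p : ℕ) [Fact p.Prime] (O : Type) [CommRing O] [IsDomain O]
  [Algebra ℤ_[p] O] [Module.Finite ℤ_[p] O] [Module.Free ℤ_[p] O] (n : ℕ)
  (M : Submodule ℤ_[p] (Matrix (Fin n) (Fin n) O)) (κ : ℕ), κ ≠ 0 → M ≠ ⊥ →
  (∀ y ∈ M, y.trace = 0) → (∀ y ∈ M, ∀ x : Matrix (Fin n) (Fin n) O, x.trace = 0 →
    κ • (x * y - y * x) ∈ M) →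
  ∃ c : ℕ, ∀ x : Matrix (Fin n) (Fin n) O, x.trace = 0 → (p : O) ^ c • x ∈ M

-- deps: ELT SIMP
def S_IRR : Prop := ∀ (p : ℕ) [Fact p.Prime] (O : Type) [CommRing O] [IsDomain O]
  [Algebra ℤ_[p] O] [Module.Finite ℤ_[p] O] [Module.Free ℤ_[p] O] (n d e : ℕ)
  (Fr : Frame p O n d) (ρ : Cong p O n e →* (VV p d ≃ₗ[ℤ_[p]] VV p d)), IsAd Fr ρ →
  ∀ H : Subgroup (Cong p O n e), H.FiniteIndex → ∀ h : Submodule ℤ_[p] (VV p d),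
    (∀ s ∈ H, ∀ y ∈ h, ρ s y ∈ h) → h ≠ ⊥ → ∃ c, ∀ y, Dv c y → y ∈ h

-- deps: ELT
def S_DISPV : Prop := ∀ (p : ℕ) [Fact p.Prime] (O : Type) [CommRing O] [IsDomain O]
  [Algebra ℤ_[p] O] (n d e : ℕ) (Fr : Frame p O n d)
  (ρ : Cong p O n e →* (VV p d ≃ₗ[ℤ_[p]] VV p d)) (DD : Fin d → (VV p d →ₗ[ℤ_[p]] VV p d)),
  1 ≤ e → IsAd Fr ρ → IsDD Fr DD → (∀ s y, Dv 1 (ρ s y - y)) ∧
  ∀ H : Subgroup (Cong p O n e), H.FiniteIndex → ∀ i, ∃ r0, ∀ r, r0 ≤ r → ∃ γ ∈ H,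
    ∀ (m : ℕ) y, Dv (2 * r) (ρ (γ ^ m) y - y - (p : ℤ_[p]) ^ r • (m • DD i y))

-- deps:
def S_COMMS : Prop := ∀ (p : ℕ) [Fact p.Prime] (O : Type) [CommRing O] [Algebra ℤ_[p] O]
  (n d : ℕ) (Fr : Frame p O n d) (q : O) (M : Matrix (Fin n) (Fin n) O),
  (∀ i, MD q (Fr.bs i * M - M * Fr.bs i)) → ∃ z : O, MD q (M - z • 1)

-- deps:
def S_ROOT : Prop := ∀ (p : ℕ) [Fact p.Prime] (O : Type) [CommRing O] [IsDomain O]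
  [Algebra ℤ_[p] O] [Module.Free ℤ_[p] O] (n e : ℕ), n ≠ 0 → 3 ≤ p ^ e → ∃ s : ℕ,
  (∀ (m : ℕ) (z : O), (p : O) ^ (m + s) ∣ (n : O) * z → (p : O) ^ m ∣ z) ∧
  ∀ (m : ℕ) (z : O), (p : O) ^ e ∣ z - 1 → (p : O) ^ (m + s) ∣ z ^ n - 1 → (p : O) ^ m ∣ z - 1

-- deps: COMMS ROOT
def S_SEPV : Prop := ∀ (p : ℕ) [Fact p.Prime] (O : Type) [CommRing O] [IsDomain O]
  [Algebra ℤ_[p] O] [Module.Free ℤ_[p] O] (n d : ℕ) (Fr : Frame p O n d)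
  (DD : Fin d → (VV p d →ₗ[ℤ_[p]] VV p d)), IsDD Fr DD →
  ∃ s, ∀ m y, (∀ i, Dv (m + s) (DD i y)) → Dv m y

-- deps: UF0
def S_ACTG : Prop := ∀ (p : ℕ) [Fact p.Prime] (O : Type) [CommRing O] [Algebra ℤ_[p] O]
  (n d e : ℕ) (Fr : Frame p O n d) (u : UF p d (Cong p O n e))
  (ρ : Cong p O n e →* (VV p d ≃ₗ[ℤ_[p]] VV p d)), IsUF Fr u → IsAd Fr ρ →
  ∃ a : Act u (Cong p O n e), a.onV = ρ ∧ ∀ s g, a.onG s g = s * g * s⁻¹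

-- deps: ELT
def S_DISPG : Prop := ∀ (p : ℕ) [Fact p.Prime] (O : Type) [CommRing O] [IsDomain O]
  [Algebra ℤ_[p] O] (n d e : ℕ) (Fr : Frame p O n d) (u : UF p d (Cong p O n e))
  (a : Act u (Cong p O n e)) (ys : Fin d → Cong p O n e → VV p d), IsUF Fr u →
  (∀ s g, a.onG s g = s * g * s⁻¹) → IsYs Fr ys → ∀ i, a.Disp (ys i)

-- deps: COMMS ROOT
def S_SEPG : Prop := ∀ (p : ℕ) [Fact p.Prime] (O : Type) [CommRing O] [IsDomain O]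
  [Algebra ℤ_[p] O] [Module.Free ℤ_[p] O] (n d e : ℕ) (Fr : Frame p O n d)
  (u : UF p d (Cong p O n e)) (ys : Fin d → Cong p O n e → VV p d), 3 ≤ p ^ e → IsUF Fr u →
  IsYs Fr ys → ∀ b, ∃ m, ∀ g g', (∀ i, Dv m (ys i g - ys i g')) → g⁻¹ * g' ∈ u.lev b

-- deps:
def S_TOP : Prop := ∀ (p : ℕ) [Fact p.Prime] (O : Type) [CommRing O] [Algebra ℤ_[p] O]
  [Module.Finite ℤ_[p] O] [Module.Free ℤ_[p] O] [TopologicalSpace O] [IsModuleTopology ℤ_[p] O]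
  (n e : ℕ) (k : Type) (f : Cong p O n e → k),
  IsLocallyConstant f ↔ ∃ a : ℕ, ∀ g h : Cong p O n e, MD ((p : O) ^ a) (mat h - 1) → f (g * h) = f g

-- deps: MAIN FRAME UFG ADJ IRR DISPV SEPV ACTG DISPG SEPG TOP
def S_FINAL : Prop := ∀ (p : ℕ) [Fact p.Prime] (O : Type) [CommRing O] [IsDomain O]
  [Algebra ℤ_[p] O] [Module.Finite ℤ_[p] O] [Module.Free ℤ_[p] O] [TopologicalSpace O]
  [IsModuleTopology ℤ_[p] O] (n e : ℕ), 3 ≤ p ^ e → ∀ (k : Type) [Field k] [CharP k p]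
  (W : Submodule k (LocallyConstant (Cong p O n e) k)),
  (∀ w ∈ W, ∀ a b : Cong p O n e, ∃ w' ∈ W, ∀ g, w' g = w (a * g * b)) →
  FiniteDimensional k W ∨ W = ⊤

end Pool.Agent.P.MP_7cb106_nt.QJ
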