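import Pool.Agent.P.MP_7cb106_nt.QJ.Base2

/-! The steps of the proof for overgroups with a central character, as statements. -/

set_option autoImplicit false

namespace Pool.Agent.P.MP_7cb106_nt.QJ

open Filter

-- deps: FR1
def S_COREX : Prop := ∀ (p : ℕ) [Fact p.Prime] (k R0 R : Type) [Field k] [CharP k p] [Ring R0]
  [Algebra k R0] [Ring R] [Algebra k R] (d : ℕ) (φ : FR k R0 d) (Qg : Type) [Group Qg] [Finite Qg]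
  (X : FRX k R0 R φ Qg), Nonempty (CoreX p X.F (fun i => X.f (φ.b i)))

-- deps: UF0 D1 D3
def S_DX1 : Prop := ∀ (p d : ℕ) [Fact p.Prime] (Γ : Type) [Group Γ] (u : UF p d Γ) (Δ : Type)
  [Group Δ] (V : Over u Δ) (k : Type) [Field k] [CharP k p],
  V.DX k 0 = ⊤ ∧ (∀ i j, i ≤ j → V.DX k j ≤ V.DX k i) ∧
  (∀ i j x y, x ∈ V.DX k i → y ∈ V.DX k j → x * y ∈ V.DX k (i + j)) ∧
  (∀ a g h, h ∈ u.lev a → MonoidAlgebra.single (g * V.inc h) (1 : k) -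
    MonoidAlgebra.single g 1 ∈ V.DX k (p ^ a)) ∧
  ∀ (a : ℕ) (w : Δ → k), V.Lv a w → ∃ j, ∀ x ∈ V.DX k j, pr w x = 0

-- deps: UF0
def S_FLX : Prop := ∀ (p d : ℕ) [Fact p.Prime] (Γ : Type) [Group Γ] (u : UF p d Γ) (Δ : Type)
  [Group Δ] (V : Over u Δ),
  (∀ a, ((u.lev a).map V.inc ⊔ V.Z).FiniteIndex ∧ ((u.lev a).map V.inc ⊔ V.Z).Normal ∧
    ∀ g, g ∈ (u.lev a).map V.inc ⊔ V.Z ↔ ∃ h ∈ u.lev a, ∃ z ∈ V.Z, g = z * V.inc h) ∧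
  ∀ (k : Type) [Field k] (ψ : Δ → k) (a : ℕ) (X : Submodule k (Δ → k)),
    (∀ f ∈ X, V.Lv a f ∧ V.Eqv ψ f) → FiniteDimensional k X

-- deps: DX1
def S_FMULX : Prop := ∀ (p d : ℕ) [Fact p.Prime] (Γ : Type) [Group Γ] (u : UF p d Γ) (Δ : Type)
  [Group Δ] (V : Over u Δ) (k : Type) [Field k] [CharP k p] (ψ : Δ → k)
  (W : Submodule k (Δ → k)), V.Nice ψ W →
  ∀ i j x y, x ∈ V.FX W i → y ∈ V.FX W j → x * y ∈ V.FX W (i + j)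

-- deps: DX1 FLX FMULX DUAL
def S_FILX : Prop := ∀ (p d : ℕ) [Fact p.Prime] (Γ : Type) [Group Γ] (u : UF p d Γ) (Δ : Type)
  [Group Δ] (V : Over u Δ) (k : Type) [Field k] [CharP k p] (ψ : Δ → k)
  (W : Submodule k (Δ → k)), V.Nice ψ W → FilX V W (V.FX W)

-- deps: UF0 D1 D2 FLX COREX
def S_CX : Prop := ∀ (p d : ℕ) [Fact p.Prime] (Γ : Type) [Group Γ] (u : UF p d Γ) (Δ : Type)
  [Group Δ] (V : Over u Δ) (k : Type) [Field k] [CharP k p] (ψ : Δ → k)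
  (W : Submodule k (Δ → k)) (F : ℕ → Submodule k (MonoidAlgebra k Δ)), V.Nice ψ W → FilX V W F →
  Nonempty (CoreX p F (fun i => V.incA k (bb u k i)))

-- deps: FILX
def S_FIXX : Prop := ∀ (p d : ℕ) [Fact p.Prime] (Γ : Type) [Group Γ] (u : UF p d Γ) (Δ : Type)
  [Group Δ] (V : Over u Δ) (k : Type) [Field k] [CharP k p] (ψ : Δ → k)
  (W : Submodule k (Δ → k)), V.Nice ψ W → ∃ w ∈ W, V.Lv 0 w ∧ w 1 = 1

-- deps:
def S_E1X : Prop := ∀ (p d : ℕ) [Fact p.Prime] (Γ : Type) [Group Γ] (u : UF p d Γ) (Δ : Type)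
  [Group Δ] (V : Over u Δ) (k : Type) [Field k] [CharP k p] (W : Submodule k (Δ → k))
  (F : ℕ → Submodule k (MonoidAlgebra k Δ)), FilX V W F →
  ∀ (C : CoreX p F (fun i => V.incA k (bb u k i))) (Q : Cpl p d), Nonempty (SetupX V C Q)

-- deps: DUAL
def S_E2X : Prop := ∀ (p d : ℕ) [Fact p.Prime] (Γ : Type) [Group Γ] (u : UF p d Γ) (Δ : Type)
  [Group Δ] (V : Over u Δ) (k : Type) [Field k] (ψ : Δ → k) (W : Submodule k (Δ → k))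
  (F : ℕ → Submodule k (MonoidAlgebra k Δ)), V.Nice ψ W → FilX V W F →
  ∀ C : CoreX p F (fun i => V.incA k (bb u k i)),
  ∃ W' : Submodule k (Δ → k), W' ≤ W ∧ V.Nice ψ W' ∧ ∀ w ∈ W', ∃ j, ∀ x ∈ C.F' j, pr w x = 0

-- deps:
def S_E3LX : Prop := ∀ (p d : ℕ) [Fact p.Prime] (Γ : Type) [Group Γ] (u : UF p d Γ) (Δ : Type)
  [Group Δ] (V : Over u Δ) (k : Type) [Field k] (W : Submodule k (Δ → k))
  (F : ℕ → Submodule k (MonoidAlgebra k Δ)), FilX V W F →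
  ∀ (C : CoreX p F (fun i => V.incA k (bb u k i))) (Q : Cpl p d) (S : SetupX V C Q)
  (a : Act u Γ), (∀ s g, a.onG s g = s * g * s⁻¹) → ∀ (s : Γ) (α : Q.A →+* Q.A),
  (∀ y, α (Q.δ y) = Q.δ (a.onV s y)) → (∀ n x, x ∈ Q.K n → α x ∈ Q.K n) → S.tw.Lifts α

-- deps: BAD4 BADS
def S_E3G : Prop := ∀ (p d : ℕ) [Fact p.Prime] (Q : Cpl p d) (ρ : ℕ) (𝒯 : Tower p ρ Q.A Q.K)
  (H : Type) [Group H] (onV : H →* (VV p d ≃ₗ[ℤ_[p]] VV p d)),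
  (∀ (s : H) (α : Q.A →+* Q.A), (∀ y, α (Q.δ y) = Q.δ (onV s y)) →
    (∀ n x, x ∈ Q.K n → α x ∈ Q.K n) → 𝒯.Lifts α) →
  ∀ P, 𝒯.MaxBad P → VStab onV (Q.XP P)

-- deps: E4A
def S_E4X : Prop := ∀ (p d : ℕ) [Fact p.Prime] (Γ : Type) [Group Γ] (u : UF p d Γ) (Δ : Type)
  [Group Δ] (V : Over u Δ) (k : Type) [Field k] (W : Submodule k (Δ → k))
  (F : ℕ → Submodule k (MonoidAlgebra k Δ)), FilX V W F →
  ∀ (C : CoreX p F (fun i => V.incA k (bb u k i))) (Q : Cpl p d) (S : SetupX V C Q)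
  (θ : VV p d → ZMod p), (∀ P, S.tw.MaxBad P → θ ∈ Q.XP P) → ∀ y, V.Disp y →
  ∀ (w : Δ → k) (j : ℕ), (∀ x ∈ C.F' j, pr w x = 0) →
    (fun h => ((θ (y h)).val : k) * w h) ∈ W

-- deps: FILX CX CPL E1X E2X E3A E3LX E3G E4X BADS RIG
def S_MACHX : Prop := ∀ (p d : ℕ) [Fact p.Prime] (Γ : Type) [Group Γ] (u : UF p d Γ) (Δ : Type)
  [Group Δ] (V : Over u Δ) (k : Type) [Field k] [CharP k p] (ψ : Δ → k) (a : Act u Γ)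
  (DD : Fin d → (VV p d →ₗ[ℤ_[p]] VV p d)), (∀ s g, a.onG s g = s * g * s⁻¹) →
  RigData a.onV DD → ∀ W : Submodule k (Δ → k), V.Nice ψ W →
  ∃ W' : Submodule k (Δ → k), W' ≤ W ∧ V.Nice ψ W' ∧
    ∀ (n : ℕ) (θ : VV p d → ZMod p), LvV n θ → ∀ y, V.Disp y → ∀ w ∈ W',
      (fun h => ((θ (y h)).val : k) * w h) ∈ W

-- deps: MACHX FIXX FLX SW FINV
def S_MAINX : Prop := ∀ (p d : ℕ) [Fact p.Prime] (Γ : Type) [Group Γ] (u : UF p d Γ) (Δ : Type)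
  [Group Δ] (V : Over u Δ) (k : Type) [Field k] [CharP k p] (ψ : Δ → k) (a : Act u Γ)
  (DD : Fin d → (VV p d →ₗ[ℤ_[p]] VV p d)) (ys : Fin d → Δ → VV p d),
  (∀ s g, a.onG s g = s * g * s⁻¹) → RigData a.onV DD → (∀ i, V.Disp (ys i)) →
  (∀ b, ∃ m, ∀ g g', (∀ i, Dv m (ys i g - ys i g')) → g⁻¹ * g' ∈ (u.lev b).map V.inc ⊔ V.Z) →
  ∀ W : Submodule k (Δ → k), V.Nice ψ W → ∀ (b : ℕ) (f : Δ → k), V.Lv b f → V.Eqv ψ f → f ∈ W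

/-! ### Matrices -/

-- deps:
def S_NROOT : Prop := ∀ (p : ℕ) [Fact p.Prime] (O : Type) [CommRing O] [IsDomain O]
  [Algebra ℤ_[p] O] [Module.Finite ℤ_[p] O] [Module.Free ℤ_[p] O],
  (∀ x : O, (p : O) ∣ x - 1 → IsUnit x) ∧ (∀ m, Finite (O ⧸ Ideal.span {(p : O) ^ m})) ∧
  ∀ n : ℕ, n ≠ 0 → ∀ m : ℕ, ∃ m', ∀ x : O, (p : O) ^ m' ∣ x - 1 →
    ∃ ζ : O, (p : O) ^ m ∣ ζ - 1 ∧ ζ ^ n = x

-- deps: NROOT
def S_SPLIT : Prop := ∀ (p : ℕ) [Fact p.Prime] (O : Type) [CommRing O] [IsDomain O]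
  [Algebra ℤ_[p] O] [Module.Finite ℤ_[p] O] [Module.Free ℤ_[p] O] (n d e : ℕ)
  (Fr : Frame p O n d) (u : UF p d (Cong p O n e)) (U : Subgroup (GL (Fin n) O)), 1 ≤ e →
  IsUF Fr u → (∀ g : GL (Fin n) O, MD ((p : O) ^ e) (g.1 - 1) → g ∈ U) →
  ∀ b, ∃ m, ∀ g : U, MD ((p : O) ^ m) (matU g - 1) →
    ∃ h ∈ u.lev b, ∃ c : Oˣ, (p : O) ^ e ∣ (c : O) - 1 ∧ matU g = (c : O) • mat h

-- deps: NROOT SPLIT
def S_OVER : Prop := ∀ (p : ℕ) [Fact p.Prime] (O : Type) [CommRing O] [IsDomain O]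
  [Algebra ℤ_[p] O] [Module.Finite ℤ_[p] O] [Module.Free ℤ_[p] O] (n d e : ℕ)
  (Fr : Frame p O n d) (u : UF p d (Cong p O n e)) (U : Subgroup (GL (Fin n) O)), 1 ≤ e →
  IsUF Fr u → (∀ g : GL (Fin n) O, MD ((p : O) ^ e) (g.1 - 1) → g ∈ U) →
  ∃ V : Over u U, IsOver V

-- deps: ELT
def S_DISPX : Prop := ∀ (p : ℕ) [Fact p.Prime] (O : Type) [CommRing O] [IsDomain O]
  [Algebra ℤ_[p] O] (n d e : ℕ) (Fr : Frame p O n d) (u : UF p d (Cong p O n e))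
  (U : Subgroup (GL (Fin n) O)) (V : Over u U), IsUF Fr u → IsOver V →
  ∃ ys : Fin d → U → VV p d, IsYsU Fr ys ∧ ∀ i, V.Disp (ys i)

-- deps: COMMS NROOT SPLIT FLX
def S_SEPX : Prop := ∀ (p : ℕ) [Fact p.Prime] (O : Type) [CommRing O] [IsDomain O]
  [Algebra ℤ_[p] O] [Module.Finite ℤ_[p] O] [Module.Free ℤ_[p] O] (n d e : ℕ)
  (Fr : Frame p O n d) (u : UF p d (Cong p O n e)) (U : Subgroup (GL (Fin n) O)) (V : Over u U)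
  (ys : Fin d → U → VV p d), 1 ≤ e → IsUF Fr u →
  (∀ g : GL (Fin n) O, MD ((p : O) ^ e) (g.1 - 1) → g ∈ U) → IsOver V → IsYsU Fr ys →
  ∀ b, ∃ m, ∀ g g', (∀ i, Dv m (ys i g - ys i g')) → g⁻¹ * g' ∈ (u.lev b).map V.inc ⊔ V.Z

-- deps:
def S_TOPX : Prop := ∀ (p : ℕ) [Fact p.Prime] (O : Type) [CommRing O] [Algebra ℤ_[p] O]
  [Module.Finite ℤ_[p] O] [Module.Free ℤ_[p] O] [TopologicalSpace O] [IsModuleTopology ℤ_[p] O]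
  (n : ℕ) (U : Subgroup (GL (Fin n) O)), IsOpen (U : Set (GL (Fin n) O)) →
  (∃ e, ∀ g : GL (Fin n) O, MD ((p : O) ^ e) (g.1 - 1) → g ∈ U) ∧
  ∀ (k : Type) (f : U → k), IsLocallyConstant f →
    ∃ a : ℕ, ∀ g h : U, MD ((p : O) ^ a) (matU h - 1) → f (g * h) = f g

-- deps: MAINX FRAME UFG ADJ IRR DISPV SEPV ACTG OVER DISPX SEPX TOPX
def S_FINALX : Prop := ∀ (p : ℕ) [Fact p.Prime] (O : Type) [CommRing O] [IsDomain O]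
  [Algebra ℤ_[p] O] [Module.Finite ℤ_[p] O] [Module.Free ℤ_[p] O] [TopologicalSpace O]
  [IsModuleTopology ℤ_[p] O] (n : ℕ) (U : Subgroup (GL (Fin n) O)),
  IsOpen (U : Set (GL (Fin n) O)) → ∀ (k : Type) [Field k] [CharP k p] (ψ : Oˣ → k)
  (W : Submodule k (LocallyConstant U k)),
  (∀ w ∈ W, ∀ a b : U, ∃ w' ∈ W, ∀ g, w' g = w (a * g * b)) →
  (∀ w ∈ W, ∀ (c : Oˣ) (z g : U), matU z = (c : O) • 1 → w (z * g) = ψ c * w g) →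
  FiniteDimensional k W ∨ ∀ f : LocallyConstant U k,
    (∀ (c : Oˣ) (z g : U), matU z = (c : O) • 1 → f (z * g) = ψ c * f g) → f ∈ W

end Pool.Agent.P.MP_7cb106_nt.QJ
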