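import Pool.Agent.P.MP_7cb106_nt.QJ.Iface2

/-! The rings `O_N` for a crossed product, in three steps. -/

set_option autoImplicit false

namespace Pool.Agent.P.MP_7cb106_nt.QJ

open Filter

/-- `B` is a finite crossed product over the commutative algebra generated by the `β i`. -/
structure XB (k : Type) {B : Type} [Field k] [Ring B] [Algebra k B] {d : ℕ} {Qg : Type} [Group Qg]
    (β : Fin d → B) (u : Qg → Bˣ) : Prop where
  comm : ∀ i l, β i * β l = β l * β i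
  conj : ∀ q i, (u q : B) * β i * ↑(u q)⁻¹ ∈ Submodule.span k (Set.range β)
  mul : ∀ q q' i, (u q : B) * (u q' * β i * ↑(u q')⁻¹) * ↑(u q)⁻¹ =
    u (q * q') * β i * ↑(u (q * q'))⁻¹
  gen : Submodule.span k {y | ∃ q a, a ∈ Algebra.adjoin k (Set.range β) ∧ y = a * u q} = ⊤
  nnil : ∃ i, ¬ IsNilpotent (β i)

-- deps:
def S_CZX : Prop := ∀ (k B : Type) [Field k] [Ring B] [Algebra k B] (d : ℕ) (Qg : Type) [Group Qg]
  [Finite Qg] (β : Fin d → B) (u : Qg → Bˣ), XB k β u →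
  ∃ (Z : Type) (_ : CommRing Z) (_ : Algebra Z B), Function.Injective (algebraMap Z B) ∧
    IsNoetherianRing Z ∧ Module.Finite Z B ∧ ∃ P ∈ minimalPrimes Z, ∀ m : ℕ,
      ∃ z, z ∉ P ∧ algebraMap Z B z ∈ Ideal.span (Set.range fun i => β i ^ m)

-- deps:
def S_LEVX : Prop := ∀ (p : ℕ) [Fact p.Prime] (Q B Z : Type) [Ring Q] [Ring B] [CommRing Z]
  [Algebra Z B] (t : Q) (π : Q →+* B) (P : Ideal Z), (p : Q) = 0 → (∀ x, t * x = x * t) →
  (∀ x, t * x = 0 → x = 0) → Function.Surjective π → (∀ x, π x = 0 ↔ ∃ z, x = t * z) →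
  Function.Injective (algebraMap Z B) → IsNoetherianRing Z → Module.Finite Z B →
  P ∈ minimalPrimes Z →
  ∃ ρ : ℕ, ∀ N, 0 < N → ∃ (T : TR ρ N) (lam : Q →+* T.O), lam t = T.t ∧
    (∀ s z, z ∉ P → π s = algebraMap Z B z → IsUnit (lam s)) ∧
    ∀ j x, j ≤ N → ((∃ o, lam x = T.t ^ j * o) ↔
      ∃ s z y, z ∉ P ∧ π s = algebraMap Z B z ∧ s * x = t ^ j * y)

-- deps: FR1
def S_REESX : Prop := ∀ (p : ℕ) (k R0 R : Type) [Field k] [CharP k p] [Ring R0]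
  [Algebra k R0] [Ring R] [Algebra k R] (d : ℕ) (φ : FR k R0 d) (Qg : Type) [Group Qg]
  (X : FRX k R0 R φ Qg),
  ∃ (Q B : Type) (_ : Ring Q) (_ : Ring B) (_ : Algebra k B) (t : Q) (π : Q →+* B) (C : R →+* Q)
    (β : Fin d → Q) (u : Qg → Bˣ), (p : Q) = 0 ∧ (∀ x, t * x = x * t) ∧
    (∀ x, t * x = 0 → x = 0) ∧ Function.Surjective π ∧ (∀ x, π x = 0 ↔ ∃ z, x = t * z) ∧
    (∀ j x, x ∈ X.F j → ∃ z, C x = t ^ j * z) ∧ (∀ i, C (X.f (φ.b i)) = t * β i) ∧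
    XB k (fun i => π (β i)) u

-- deps: CZX LEVX REESX
def S_COREY : Prop := S_COREX

end Pool.Agent.P.MP_7cb106_nt.QJ
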