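import Pool.Agent.P.MP_7cb106_nt.QJ.Iface

/-! Step BAD6. -/

set_option autoImplicit false

namespace Pool.Agent.P.MP_7cb106_nt.QJ

open Filter

lemma bad6_eval {A O : Type} [CommRing A] [Ring O] (E : A →+* O) {ι : Type} (s : Finset ι)
    (x : ι → O) (f : ι → A) (h : ∀ m : ℕ, ∑ i ∈ s, x i * E (f i) ^ m = 0) (q : Polynomial A) :
    ∑ i ∈ s, x i * E (q.eval (f i)) = 0 := by
  induction q using Polynomial.induction_on' with
  | add q q' hq hq' =>
    simp only [Polynomial.eval_add, map_add, mul_add, Finset.sum_add_distrib, hq, hq', add_zero]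
  | monomial m a =>
    simp only [Polynomial.eval_monomial, mul_comm a, map_mul, map_pow, ← mul_assoc]
    rw [← Finset.sum_mul, h, zero_mul]

lemma bad6_sub0 (p : ℕ) [Fact p.Prime] {A : Type} [AddCommGroup A] [Module (ZMod p) A]
    (ℓ : A →+ ZMod p) (G : Set A) (hG : G.Finite) (h0 : ∀ v ∈ G, ℓ v = 0) :
    ∃ Q : Finset A, (0 : A) ∈ Q ∧ (∀ a ∈ Q, ∀ b ∈ Q, a + b ∈ Q) ∧ (∀ a ∈ Q, -a ∈ Q) ∧
      (∀ v ∈ G, v ∈ Q) ∧ ∀ v ∈ Q, ℓ v = 0 := by
  have h1 : Module.Finite (ZMod p) ↥(Submodule.span (ZMod p) G) :=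
    Module.Finite.span_of_finite _ hG
  have h2 : Finite ↥(Submodule.span (ZMod p) G) := Module.finite_of_finite (ZMod p)
  have h3 : (Submodule.span (ZMod p) G : Set A).Finite := Set.toFinite _
  refine ⟨h3.toFinset, by simp, fun a ha b hb => ?_, fun a ha => ?_, fun v hv => ?_, fun v hv => ?_⟩
  · simp only [Set.Finite.mem_toFinset, SetLike.mem_coe] at *
    exact add_mem ha hb
  · simp only [Set.Finite.mem_toFinset, SetLike.mem_coe] at *
    exact neg_mem ha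
  · simp only [Set.Finite.mem_toFinset, SetLike.mem_coe]
    exact Submodule.subset_span hv
  · simp only [Set.Finite.mem_toFinset, SetLike.mem_coe] at hv
    have : Submodule.span (ZMod p) G ≤ LinearMap.ker (ℓ.toZModLinearMap p) :=
      Submodule.span_le.2 fun v hv => h0 v hv
    exact this hv

lemma bad6_sub (p : ℕ) [Fact p.Prime] {A : Type} [CommRing A] (hp : (p : A) = 0)
    (ℓ : A →+ ZMod p) (G : Set A) (hG : G.Finite) (h0 : ∀ v ∈ G, ℓ v = 0) :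
    ∃ Q : Finset A, (0 : A) ∈ Q ∧ (∀ a ∈ Q, ∀ b ∈ Q, a + b ∈ Q) ∧ (∀ a ∈ Q, -a ∈ Q) ∧
      (∀ v ∈ G, v ∈ Q) ∧ ∀ v ∈ Q, ℓ v = 0 :=
  @bad6_sub0 p _ A _ (AddCommGroup.zmodModule (n := p) fun x => by
    rw [nsmul_eq_mul, hp, zero_mul]) ℓ G hG h0

lemma bad6_span {A O : Type} [CommRing A] [Ring O] (E : A →+* O) (a : A) (x : O)
    (h : x ∈ Ideal.map E (Ideal.span {a})) : ∃ w, x = w * E a := by
  have h1 : Ideal.map E (Ideal.span {a}) ≤ Ideal.span {E a} := by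
    rw [Ideal.map_le_iff_le_comap]
    intro y hy
    obtain ⟨b, rfl⟩ := Ideal.mem_span_singleton'.1 hy
    rw [Ideal.mem_comap, map_mul]
    exact Ideal.mul_mem_left _ _ (Ideal.subset_span rfl)
  obtain ⟨w, hw⟩ := Ideal.mem_span_singleton'.1 (h1 h)
  exact ⟨w, hw.symm⟩

theorem p_BAD6 (hADDP : S_ADDP) (hREG : S_REG) (hPERT : S_PERT) :
    S_BAD6 := by
  classical
  intro p _ ρ A _ K 𝒯 hA ℓ n0 M hn0 hM r0
  have hp : 1 < p := (Fact.out : p.Prime).one_lt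
  by_cases hu : ∃ u, ℓ u = 1
  swap
  · have h0 : ∀ a, ℓ a = 0 := fun a => by
      by_contra h
      refine hu ⟨((ℓ a)⁻¹).val • a, ?_⟩
      rw [map_nsmul, nsmul_eq_mul, ZMod.natCast_zmod_val, inv_mul_cancel₀ h]
    exact ⟨r0, le_rfl, fun ι s x f _ => ⟨0, by simp [h0]⟩⟩
  obtain ⟨u, hu⟩ := hu
  let n := max n0 (M + 1)
  have hK : ∀ a ∈ K n, ℓ a = 0 := fun a ha => hn0 a (hA.mono (le_max_left _ _) ha)
  have := hA.fin n
  obtain ⟨Q, hQ0, hQa, hQn, hQG, hQl⟩ := bad6_sub p hA.char ℓ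
    (Set.range fun q : A ⧸ K n => q.out - (ℓ q.out).val • u) (Set.finite_range _) (by
      rintro _ ⟨q, rfl⟩
      rw [map_sub, map_nsmul, hu, nsmul_eq_mul, ZMod.natCast_zmod_val, mul_one, sub_self])
  let L : A →+ A := AddMonoidHom.mk' (fun x => ∏ v ∈ Q, (x + v))
    (fun x y => hADDP p A hA.char Q hQ0 hQa x y)
  have hL : ∀ x, L x = ∏ v ∈ Q, (x + v) := fun _ => rfl
  have hLQ : ∀ v ∈ Q, L v = 0 := fun v hv =>
    Finset.prod_eq_zero (hQn v hv) (add_neg_cancel v)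
  have h1 : ∀ a ∈ Q, ∀ᶠ r in (hyperfilter ℕ : Filter ℕ),
      (𝒯.T r).t ^ (M * p ^ r) ∈ Ideal.map (𝒯.E r) (Ideal.span {u + a}) := fun a ha =>
    hM (u + a) (by rw [map_add, hu, hQl a ha, add_zero])
  obtain ⟨r, hr, hr'⟩ := (((Finset.eventually_all _).2 h1).and (Nat.hyperfilter_le_atTop
    (eventually_ge_atTop (max r0 (ρ * (M * Q.card) + 1))))).exists
  refine ⟨r, (le_max_left _ _).trans hr', fun ι s x f hf => ?_⟩
  obtain ⟨⟨w, hw⟩, hpert⟩ := hPERT ρ _ (𝒯.T r) A (𝒯.E r) Q (fun v => u + v) (p ^ r) (M * p ^ r)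
    (fun v hv => bad6_span _ _ _ (hr v hv))
  have hc : ∀ (j : ℕ) (o : (𝒯.T r).O), (𝒯.T r).t ^ j * o = o * (𝒯.T r).t ^ j := fun j o =>
    ((show Commute (𝒯.T r).t o from (𝒯.T r).central o).pow_left j).eq
  have h3 : ∀ g : A, ∃ o, 𝒯.E r (L g) =
      (((ℓ g).val : (𝒯.T r).O) + (𝒯.T r).t ^ p ^ r * o) * 𝒯.E r (L u) := by
    intro g
    set q := (Ideal.Quotient.mk (K n) g).out with hq
    have hg : g - q ∈ K n := by
      rw [← Ideal.Quotient.eq, hq]; exact (Quotient.out_eq _).symm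
    have hlq : ℓ q = ℓ g := by
      have := hK _ hg
      rw [map_sub, sub_eq_zero] at this
      exact this.symm
    have hLq : L q = (ℓ g).val • L u := by
      have := hLQ _ (hQG _ ⟨Ideal.Quotient.mk (K n) g, rfl⟩)
      simp only at this
      rw [map_sub, map_nsmul, sub_eq_zero, ← hq, hlq] at this
      exact this
    obtain ⟨o0, ho0⟩ := 𝒯.deep r n _ hg
    obtain ⟨e, he⟩ : ∃ e, p ^ (r + n) = p ^ r + M * p ^ r + e := by
      apply Nat.exists_eq_add_of_le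
      have : M + 1 ≤ p ^ n := (le_max_right n0 _).trans (Nat.lt_pow_self hp).le
      rw [pow_add]
      nlinarith [pow_pos (zero_lt_one.trans hp) r]
    rw [he, pow_add, mul_assoc] at ho0
    obtain ⟨o, ho⟩ := hpert (g - q) ⟨_, ho0⟩
    have e1 : ∏ v ∈ Q, (u + v + (g - q)) = L u + L (g - q) := by
      rw [← map_add, hL]
      exact Finset.prod_congr rfl fun v _ => by ring
    rw [e1, ← hL, map_add, add_sub_cancel_left] at ho
    refine ⟨o, ?_⟩
    have e2 : L g = (ℓ g).val • L u + L (g - q) := by rw [← hLq, map_sub]; abel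
    rw [e2, map_add, map_nsmul, nsmul_eq_mul, ho, add_mul]
  choose o ho using h3
  have h4 := bad6_eval (𝒯.E r) s x f hf (∏ v ∈ Q, (Polynomial.X + Polynomial.C v))
  have h5 : ∀ g, (∏ v ∈ Q, (Polynomial.X + Polynomial.C v)).eval g = L g := by
    intro g
    rw [hL, Polynomial.eval_prod]
    simp
  simp only [h5, ho (f _), ← mul_assoc] at h4
  rw [← Finset.sum_mul] at h4
  have h7 := hREG ρ _ (𝒯.T r) _ _ w _ hw h4
  have h8 : ρ * (M * p ^ r * Q.card) + p ^ r ≤ p ^ (2 * r) := by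
    have := ((le_max_right _ _).trans hr').trans (Nat.lt_pow_self hp).le
    rw [two_mul, pow_add]
    nlinarith [pow_pos (zero_lt_one.trans hp) r]
  obtain ⟨o', ho'⟩ := (𝒯.T r).reg _ _ h7
  obtain ⟨e, he⟩ : ∃ e, p ^ (2 * r) - ρ * (M * p ^ r * Q.card) = p ^ r + e :=
    Nat.exists_eq_add_of_le (by omega)
  refine ⟨(𝒯.T r).t ^ e * o' - ∑ i ∈ s, x i * o (f i), ?_⟩
  rw [he, pow_add, mul_assoc] at ho'
  rw [mul_sub, ← ho', Finset.mul_sum, ← Finset.sum_sub_distrib]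
  refine Finset.sum_congr rfl fun i _ => ?_
  rw [mul_add, ← mul_assoc (x i), ← hc, mul_assoc, add_sub_cancel_right, nsmul_eq_mul,
    Nat.cast_comm]

end Pool.Agent.P.MP_7cb106_nt.QJ
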