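import Pool.Agent.P.MP_7cb106_nt.QJ.Iface

/-! Step CP2. -/

set_option autoImplicit false

namespace Pool.Agent.P.MP_7cb106_nt.QJ

open Filter

/-- Constant sequences, as an additive map. -/
noncomputable def cp2_c (p d : ℕ) [Fact p.Prime] : A0 p d →+ AA p d :=
  AddMonoidHom.mk' cst fun _ _ => rfl

theorem cp2_cl {p d : ℕ} [Fact p.Prime] {s : Set (A0 p d)} {t : Set (AA p d)}
    (h : ∀ x ∈ s, cst x ∈ t) {x : A0 p d} (hx : x ∈ AddSubgroup.closure s) :
    cst x ∈ AddSubgroup.closure t :=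
  (AddSubgroup.closure_le ((AddSubgroup.closure t).comap (cp2_c p d))).2
    (fun y hy => AddSubgroup.subset_closure (h y hy)) hx

theorem cp2_mem {p d : ℕ} [Fact p.Prime] {n : ℕ} {a : AA p d} :
    a ∈ KK p d n ↔ a.1 n ∈ K0 p d n := Iff.rfl

theorem p_CP2 (hCP0 : S_CP0) :
    S_CP2 := by
  intro p d _
  obtain ⟨h1, h2, h3, -, -, h6⟩ := hCP0 p d
  refine ⟨rfl, fun y z => Subtype.ext (funext fun n => ?_), fun n z hz => ?_, fun a n => ?_,
    fun n m a ha => ?_⟩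
  · change d0 (y + z) = d0 y * d0 z
    simp [d0, MonoidAlgebra.single_mul_single]
  · exact Ideal.subset_span ⟨z, hz, rfl⟩
  · refine ⟨cst (a.1 n), cp2_cl ?_ (h3 _), cp2_mem.2 ?_⟩
    · rintro _ ⟨y, rfl⟩
      exact ⟨y, rfl⟩
    · change a.1 n - a.1 n ∈ _
      rw [sub_self]
      exact zero_mem _
  · rcases le_total n m with h | h
    · have h7 : a.1 m ∈ K0 p d n := by
        simpa using add_mem (h6 a n m h) (cp2_mem.1 ha)
      refine ⟨cst (a.1 m), cp2_cl ?_ ((h2 n _).1 h7), cp2_mem.2 ?_⟩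
      · rintro _ ⟨y, z, hz, rfl⟩
        exact ⟨y, z, hz, rfl⟩
      · change a.1 m - a.1 m ∈ _
        rw [sub_self]
        exact zero_mem _
    · refine ⟨0, zero_mem _, cp2_mem.2 ?_⟩
      rw [sub_zero]
      simpa using sub_mem (h1 m n h (cp2_mem.1 ha)) (h6 a m n h)

end Pool.Agent.P.MP_7cb106_nt.QJ
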