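import Pool.Agent.P.MP_7cb106_nt.QJ.Iface

/-! Step D2. -/

set_option autoImplicit false

namespace Pool.Agent.P.MP_7cb106_nt.QJ

open Filter

theorem p_D2 (hUF0 : S_UF0) (hD1 : S_D1) :
    S_D2 := by
  intro p d hp Γ _ u k _ _
  obtain ⟨nor, -, -, dec, gm⟩ := hUF0 p d Γ u
  obtain ⟨-, D0, anti, mul, JD, -⟩ := hD1 p d Γ u k
  have J1 : ∀ a h, h ∈ u.lev a → MonoidAlgebra.single h (1 : k) - 1 ∈ Dfil u k (p ^ a) :=
    fun a h hh => JD a (Submodule.subset_span ⟨1, h, hh, by rw [one_mul]; rfl⟩)
  have J0 : ∀ h, MonoidAlgebra.single h (1 : k) - 1 ∈ Dfil u k 1 := fun h => by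
    have := J1 0 h (by rw [u.lev_zero]; trivial)
    rwa [pow_zero] at this
  have MD : ∀ j, Mon k (bb u k) j ≤ Dfil u k j := fun j => by
    induction j with
    | zero => rw [D0]; exact le_top
    | succ j ih =>
      rw [Mon, pow_succ]
      exact Submodule.mul_le.2 fun x hx y hy => mul j 1 x y (ih hx)
        (Submodule.span_le.2 (by rintro _ ⟨i, rfl⟩; exact J0 _) hy)
  let N : ℕ → Submodule k (MonoidAlgebra k Γ) := fun j => Mon k (bb u k) j ⊔ Dfil u k (j + 1)
  have ND : ∀ j, N j ≤ Dfil u k j := fun j => sup_le (MD j) (anti _ _ (Nat.le_succ j))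
  have NN : ∀ i j, N i * N j ≤ N (i + j) := fun i j => by
    refine Submodule.mul_le.2 fun x hx y hy => ?_
    obtain ⟨x1, h1, x2, h2, rfl⟩ := Submodule.mem_sup.1 hx
    obtain ⟨y1, h3, y2, h4, rfl⟩ := Submodule.mem_sup.1 hy
    rw [add_mul, mul_add x1]
    refine add_mem (add_mem (Submodule.mem_sup_left ?_) (Submodule.mem_sup_right
      (mul i (j + 1) _ _ (MD i h1) h4))) (Submodule.mem_sup_right ?_)
    · rw [Mon, pow_add]
      exact Submodule.mul_mem_mul h1 h3
    · rw [Nat.add_right_comm]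
      exact mul (i + 1) j _ _ h2 (ND j hy)
  have one : (1 : MonoidAlgebra k Γ) ∈ N 0 := Submodule.mem_sup_left (by
    rw [Mon, pow_zero]
    exact Submodule.one_le.1 le_rfl)
  have N0 : ∀ x, x ∈ N 0 := fun x => by
    induction x using MonoidAlgebra.induction_on with
    | of g =>
      have := add_mem one (Submodule.mem_sup_right (J0 g))
      rwa [add_sub_cancel] at this
    | add x y hx hy => exact add_mem hx hy
    | smul r x hx => exact Submodule.smul_mem _ r hx
  have : CharP (MonoidAlgebra k Γ) p :=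
    charP_of_injective_algebraMap (algebraMap k (MonoidAlgebra k Γ)).injective p
  have JN : ∀ a, Jd u k a ≤ N (p ^ a) := fun a => by
    have p1 : 1 ≤ p ^ a := Nat.one_le_pow _ _ hp.out.pos
    let T : Submonoid Γ :=
      { carrier := {h | h ∈ u.lev a ∧ MonoidAlgebra.single h (1 : k) - 1 ∈ N (p ^ a)}
        one_mem' := ⟨one_mem _, by rw [← MonoidAlgebra.one_def, sub_self]; exact zero_mem _⟩
        mul_mem' := fun {g h} hg hh => ⟨mul_mem hg.1 hh.1, by
          have e : MonoidAlgebra.single (g * h) (1 : k) - 1 =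
              MonoidAlgebra.single g 1 - 1 + (MonoidAlgebra.single h 1 - 1) +
                (MonoidAlgebra.single g 1 - 1) * (MonoidAlgebra.single h 1 - 1) := by
            rw [← one_mul (1 : k), ← MonoidAlgebra.single_mul_single, one_mul]
            noncomm_ring
          rw [e]
          exact add_mem (add_mem hg.2 hh.2) (Submodule.mem_sup_right (anti _ _ (by omega)
            (mul _ _ _ _ (J1 a g hg.1) (J1 a h hh.1))))⟩ }
    have hT : ∀ h ∈ u.lev a, h ∈ T := fun h hh => by
      obtain ⟨m, hm⟩ := dec a h hh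
      rw [← mul_inv_cancel_left (List.ofFn fun i => (u.gen i ^ p ^ a) ^ m i).prod h]
      refine mul_mem (list_prod_mem fun x hx => ?_) ⟨u.anti a hm, Submodule.mem_sup_right
        (anti _ _ (Nat.pow_lt_pow_right hp.out.one_lt (Nat.lt_succ_self a)) (J1 _ _ hm))⟩
      obtain ⟨i, rfl⟩ := List.mem_ofFn.1 hx
      refine T.pow_mem (x := u.gen i ^ p ^ a) ⟨gm a i, Submodule.mem_sup_left ?_⟩ _
      have e : MonoidAlgebra.single (u.gen i ^ p ^ a) (1 : k) - 1 = bb u k i ^ p ^ a := by
        rw [bb, sub_pow_char_pow_of_commute _ _ (Commute.one_right _), MonoidAlgebra.single_pow,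
          one_pow, one_pow]
      rw [e]
      exact Submodule.pow_mem_pow _ (Submodule.subset_span (Set.mem_range_self i)) _
    refine Submodule.span_le.2 ?_
    rintro _ ⟨g, h, hh, rfl⟩
    have := NN 0 _ (Submodule.mul_mem_mul (N0 (MonoidAlgebra.single g 1)) (hT h hh).2)
    rwa [zero_add, mul_sub, mul_one, MonoidAlgebra.single_mul_single, one_mul] at this
  have LN : ∀ L : List ℕ, (L.map (Jd u k)).prod ≤ N (L.map fun a => p ^ a).sum := fun L => by
    induction L with
    | nil => exact Submodule.one_le.2 one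
    | cons a L ih =>
      rw [List.map_cons, List.map_cons, List.prod_cons, List.sum_cons]
      exact (mul_le_mul' (JN a) ih).trans (NN _ _)
  refine ⟨fun i => J0 _, fun i l => ?_, fun j => iSup₂_le fun L hL => ?_⟩
  · obtain ⟨c, h3, hc⟩ := u.comm3
    refine anti _ _ h3 (JD c (Submodule.subset_span ⟨u.gen l * u.gen i, _,
      (nor c).conj_mem' _ (hc i l) (u.gen l * u.gen i), ?_⟩))
    have e : u.gen l * u.gen i * ((u.gen l * u.gen i)⁻¹ * (u.gen i * u.gen l * (u.gen i)⁻¹ *
        (u.gen l)⁻¹) * (u.gen l * u.gen i)) = u.gen i * u.gen l := by group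
    refine Eq.trans ?_ (congrArg (fun g => MonoidAlgebra.single g (1 : k) - _) e.symm)
    rw [← one_mul (1 : k), ← MonoidAlgebra.single_mul_single, ← MonoidAlgebra.single_mul_single,
      bb, bb]
    noncomm_ring
  · have h : (L.map (Jd u k)).prod * ⊤ ≤ N ((L.map fun a => p ^ a).sum + 0) :=
      (mul_le_mul' (LN L) fun x _ => N0 x).trans (NN _ _)
    rcases hL.eq_or_lt with e | e
    · rw [e]
      exact h
    · exact (h.trans (ND _)).trans ((anti _ _ e).trans le_sup_right)

end Pool.Agent.P.MP_7cb106_nt.QJ
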