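import Pool.Agent.P.MP_7cb106_nt.QJ.Iface

/-! Step DET. -/

set_option autoImplicit false

namespace Pool.Agent.P.MP_7cb106_nt.QJ

open Filter

theorem det_ev {p d : ℕ} [Fact p.Prime] {u : ℕ → VV p d} {v : VV p d}
    (h : Tendsto u atTop (nhds v)) (M : ℕ) : ∀ᶠ k in atTop, Dv M (u k - v) := by
  have hp : (0 : ℝ) < (p : ℝ) ^ (-(M : ℤ)) :=
    zpow_pos (Nat.cast_pos.2 (Fact.out : p.Prime).pos) _
  filter_upwards [Metric.tendsto_nhds.1 h _ hp] with k hk i
  rw [← Ideal.mem_span_singleton, ← PadicInt.norm_le_pow_iff_mem_span_pow]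
  rw [dist_eq_norm] at hk
  exact (norm_le_pi_norm _ i).trans hk.le

theorem p_DET :
    S_DET := by
  intro p d _ X h1 h2 n
  by_contra hc
  push Not at hc
  choose u hu hn using hc
  obtain ⟨v, -, φ, hφ, hv⟩ := isCompact_univ.tendsto_subseq (x := u) fun _ => Set.mem_univ _
  have h0 : v = 0 := h2 v fun w hw y => by
    obtain ⟨m, hm⟩ := h1 w hw
    obtain ⟨k, a, b⟩ := ((det_ev hv m).and (hφ.tendsto_atTop.eventually_ge_atTop m)).exists
    have e := hm (y + v) _ a
    rw [← e, add_assoc, add_sub_cancel]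
    exact hu (φ k) w hw (fun y z hz => hm y z fun i => (pow_dvd_pow _ b).trans (hz i)) y
  obtain ⟨k, a⟩ := (det_ev hv n).exists
  rw [h0, sub_zero] at a
  exact hn _ a

end Pool.Agent.P.MP_7cb106_nt.QJ
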