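import Pool.Agent.P.MP_7cb106_nt.QJ.Iface2

/-! Step DISPX. -/

set_option autoImplicit false

namespace Pool.Agent.P.MP_7cb106_nt.QJ

open Filter

lemma dispx_md {O : Type} [CommRing O] {n : ℕ} (q : O) (M : Matrix (Fin n) (Fin n) O) :
    MD q M ↔ ∃ N : Matrix (Fin n) (Fin n) O, M = q • N := by
  refine ⟨fun h => ?_, ?_⟩
  · choose N hN using h
    exact ⟨Matrix.of N, Matrix.ext fun i j => hN i j⟩
  · rintro ⟨N, rfl⟩ i j
    exact Dvd.intro _ rfl

lemma dispx_mul {p : ℕ} {O : Type} [CommRing O] {n e : ℕ} (g h : Cong p O n e) :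
    mat (g * h) = mat g * mat h := rfl

lemma dispx_inv {p : ℕ} {O : Type} [CommRing O] {n e : ℕ} (g : Cong p O n e) :
    mat g⁻¹ * mat g = 1 := by
  rw [← dispx_mul, inv_mul_cancel]
  rfl

lemma dispx_mulU {O : Type} [CommRing O] {n : ℕ} {U : Subgroup (GL (Fin n) O)} (g h : U) :
    matU (g * h) = matU g * matU h := rfl

lemma dispx_invU {O : Type} [CommRing O] {n : ℕ} {U : Subgroup (GL (Fin n) O)} (g : U) :
    matU g⁻¹ * matU g = 1 := by
  rw [← dispx_mulU, inv_mul_cancel]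
  rfl

theorem p_DISPX (hELT : S_ELT) :
    S_DISPX := by
  intro p _ O _ _ _ n d e Fr u U V hu hV
  have h0 : ∀ i (g : U), ∃ z, Fr.c z = matU g⁻¹ * Fr.bs i * matU g - Fr.bs i := by
    intro i g
    refine (Fr.range _).2 ?_
    rw [Matrix.trace_sub, Matrix.trace_mul_cycle, ← dispx_mulU, mul_inv_cancel,
      show matU (1 : U) = 1 from rfl, one_mul, sub_self]
  choose ys hy using h0
  refine ⟨ys, hy, fun i => ⟨0, fun r _ => ?_⟩⟩
  obtain ⟨γ, hγ⟩ := hELT p O n e ((p : O) ^ (e + r) • Fr.bs i)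
    (by rw [smul_mul_smul_comm, Frame.bs, Fr.sq, smul_zero])
    ((dispx_md _ _).2 ⟨(p : O) ^ r • Fr.bs i, by rw [smul_smul, pow_add]⟩)
  refine ⟨V.inc γ, fun m h => ?_⟩
  refine ⟨(u.eps r (m • ys i h))⁻¹ * (V.cj h⁻¹ (γ ^ m) * (γ ^ m)⁻¹), ?_, ?_⟩
  · obtain ⟨E, hE⟩ := (dispx_md _ _).1 (hu.2 r (m • ys i h))
    rw [map_nsmul, hy, sub_sub, sub_eq_iff_eq_add] at hE
    have e2 : mat (V.cj h⁻¹ (γ ^ m) * (γ ^ m)⁻¹) - mat (u.eps r (m • ys i h)) =
        (p : O) ^ (2 * (e + r)) • (-((m * m) • (matU h⁻¹ * Fr.bs i * matU h * Fr.bs i)) - E) := by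
      have e3 : mat (V.cj h⁻¹ (γ ^ m)) =
          1 + m • (p : O) ^ (e + r) • (matU h⁻¹ * Fr.bs i * matU h) := by
        rw [← hV.1, V.cj_eq, inv_inv, dispx_mulU, dispx_mulU, hV.1, (hγ m).1, mul_add, add_mul,
          mul_one, dispx_invU]
        simp only [mul_smul_comm, smul_mul_assoc]
      rw [dispx_mul, e3, (hγ m).2, hE, two_mul (e + r), pow_add _ (e + r) (e + r)]
      simp only [mul_sub, add_mul, mul_one, one_mul, mul_smul_comm, smul_mul_assoc]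
      module
    rw [hu.1, dispx_mul, ← dispx_inv (u.eps r (m • ys i h)), ← mul_sub, e2, dispx_md,
      show 2 * (e + r) = e + 2 * r + e by ring, pow_add _ (e + 2 * r) e, mul_smul, mul_smul_comm]
    exact ⟨_, rfl⟩
  · rw [mul_inv_cancel_left, map_mul, V.cj_eq, map_inv, map_pow]
    group

end Pool.Agent.P.MP_7cb106_nt.QJ
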