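import Pool.Agent.P.MP_7cb106_nt.QJ.Iface

/-! Step E3L. -/

set_option autoImplicit false

namespace Pool.Agent.P.MP_7cb106_nt.QJ

open Filter

theorem p_E3L (hUF0 : S_UF0) :
    S_E3L := by
  intro p d hp Γ _ u k _ H _ a W hW φ hF C Q S s α hα hK r
  set σ := MonoidAlgebra.mapDomainAlgHom k k (a.onG s).toMonoidHom with hσ
  have hs : ∀ g, σ (MonoidAlgebra.single g 1) = MonoidAlgebra.single (a.onG s g) 1 := fun g => by
    simp [hσ]
  have hA : AdmS φ σ := by
    refine ⟨hF.stab _ (a.lev s) (hW s), fun i => ?_⟩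
    have h := hF.lev 1 (u.gen i) _ (a.gen s i)
    rw [mul_inv_cancel_left, pow_one] at h
    rw [hF.b_eq, bb, map_sub, map_one, hs, sub_sub_sub_cancel_right]
    exact antitone_nat_of_succ_le φ.anti hp.out.two_le h
  obtain ⟨τ, h1, h2⟩ := C.ext σ hA r
  refine ⟨τ, h1, fun x => ?_⟩
  change τ (S.E r x) = S.E r (α x)
  have h3 : ∀ y, τ (S.E r (Q.δ y)) = S.E r (α (Q.δ y)) := fun y => by
    have h := hF.lev (2 * r) (u.eps r (a.onV s y)) _ (a.eqv s r y)
    rw [mul_inv_cancel_left] at h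
    obtain ⟨o, ho⟩ := (C.ord r _ _ le_rfl).1 (C.le _ h)
    rw [(C.T r).nil, zero_mul, map_sub, sub_eq_zero] at ho
    rw [hα, S.E_δ, S.E_δ, h2, hs, ho]
  have h4 : ∀ x ∈ AddSubgroup.closure (Set.range Q.δ), τ (S.E r x) = S.E r (α x) := by
    intro x hx
    induction hx using AddSubgroup.closure_induction with
    | mem _ h => obtain ⟨y, rfl⟩ := h; exact h3 y
    | zero => simp
    | add _ _ _ _ h h' => simp only [map_add, h, h']
    | neg _ _ h => simp only [map_neg, h]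
  obtain ⟨x0, hx0, hx⟩ := Q.dense x r
  have e1 := S.E_K r _ hx
  have e2 := S.E_K r _ (hK r _ hx)
  rw [map_sub, sub_eq_zero] at e1
  rw [map_sub, map_sub, sub_eq_zero] at e2
  rw [e1, e2, h4 _ hx0]

end Pool.Agent.P.MP_7cb106_nt.QJ
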