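import Pool.Agent.P.MP_7cb106_nt.QJ.Iface

/-! Step FIN. -/

set_option autoImplicit false

namespace Pool.Agent.P.MP_7cb106_nt.QJ

open Filter

lemma fin_chain {ρ N : ℕ} (T : TR ρ N) (L : ℕ) (J : Ideal T.O) (h : T.t ^ L ∉ J) (k : ℕ) :
    ∀ j, j + k ≤ L → (k : ℕ∞) ≤ Order.height
      (Submodule.span T.O {(J ⊔ Submodule.span T.O {T.t ^ L}).mkQ (T.t ^ j)}) := by
  induction k with
  | zero => exact fun _ _ => zero_le
  | succ k ih =>
    intro j hj
    refine le_trans ?_ (Order.height_add_one_le (a := Submodule.span T.O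
      {(J ⊔ Submodule.span T.O {T.t ^ L}).mkQ (T.t ^ (j + 1))}) (lt_of_le_not_ge ?_ fun hle => h ?_))
    · push_cast
      gcongr
      exact ih _ (by omega)
    · rw [Submodule.span_singleton_le_iff_mem, pow_succ', ← smul_eq_mul, map_smul]
      exact Submodule.smul_mem _ _ (Submodule.mem_span_singleton_self _)
    · rw [Submodule.span_singleton_le_iff_mem, Submodule.mem_span_singleton] at hle
      obtain ⟨o, ho⟩ := hle
      rw [← map_smul, Submodule.mkQ_apply, Submodule.mkQ_apply, eq_comm, Submodule.Quotient.eq,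
        Submodule.mem_sup] at ho
      obtain ⟨a, ha, b, hb, e⟩ := ho
      obtain ⟨o', rfl⟩ := Submodule.mem_span_singleton.1 hb
      obtain ⟨m, rfl⟩ : ∃ m, L = m + 1 + j := ⟨L - 1 - j, by omega⟩
      have hu : IsUnit (1 - (o + o' * T.t ^ m) * T.t) :=
        (Commute.isNilpotent_mul_left (T.central _).symm ⟨N, T.nil⟩).isUnit_one_sub
      have e' : (1 - (o + o' * T.t ^ m) * T.t) * T.t ^ j = a := by
        rw [eq_sub_of_add_eq e, smul_eq_mul, smul_eq_mul, pow_add _ (m + 1), pow_succ _ m,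
          pow_succ' _ j]
        noncomm_ring
      obtain ⟨v, hv⟩ := hu.exists_left_inv
      have : T.t ^ j ∈ J := by
        rw [← one_mul (T.t ^ j), ← hv, mul_assoc, e']
        exact J.mul_mem_left _ ha
      rw [pow_add]
      exact J.mul_mem_left _ this

theorem p_FIN (hLENQ : S_LENQ) :
    S_FIN := by
  intro ρ N T s L c J u h₁ h₂ h₃
  rcases le_or_gt L c with hc | hc
  · simp [Nat.sub_eq_zero_of_le hc]
  let I := Submodule.span T.O {T.t ^ L}
  let P := fun i => Submodule.span T.O {(J i ⊔ I).mkQ (T.t ^ c)}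
  let φ : (T.O ⧸ I) →ₗ[T.O] ∀ i, T.O ⧸ (J i ⊔ I) :=
    LinearMap.pi fun i => Submodule.factor le_sup_right
  let ψ : (∀ i, P i) →ₗ[T.O] ∀ i, T.O ⧸ (J i ⊔ I) := LinearMap.piMap fun i => (P i).subtype
  have hψ : ∀ z, ψ z ∈ LinearMap.range φ := fun z => by
    choose o ho using fun i => Submodule.mem_span_singleton.1 (z i).2
    refine ⟨I.mkQ (∑ i, o i • u i), funext fun j => ?_⟩
    change (J j ⊔ I).mkQ (∑ i, o i • u i) = z j
    rw [map_sum, Finset.sum_eq_single j (fun i _ hi => ?_) (by simp), ← ho, map_smul]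
    · congr 1
      exact (Submodule.Quotient.eq _).2 (Submodule.mem_sup_left (h₃ j))
    · exact (Submodule.Quotient.mk_eq_zero _).2
        (Submodule.mem_sup_left (Submodule.smul_mem _ _ (h₂ i j hi)))
  have e₀ : Function.Injective (ψ.codRestrict _ hψ) := fun z z' e =>
    funext fun i => Subtype.ext (congrFun (congrArg Subtype.val e : ψ z = ψ z') i)
  have e₁ : Module.length T.O (∀ i, P i) ≤ Module.length T.O (LinearMap.range φ) :=
    Module.length_le_of_injective (ψ.codRestrict _ hψ) e₀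
  have e₂ : Module.length T.O (LinearMap.range φ) ≤ Module.length T.O (T.O ⧸ I) :=
    Module.length_le_of_surjective φ.rangeRestrict φ.surjective_rangeRestrict
  have e₃ : ((s * (L - c) : ℕ) : ℕ∞) ≤ Module.length T.O (∀ i, P i) := by
    rw [Module.length_pi_of_fintype]
    refine le_trans (by simp) (Finset.sum_le_sum (f := fun _ => ((L - c : ℕ) : ℕ∞)) fun i _ => ?_)
    rw [Module.length_submodule]
    exact fin_chain T L (J i) (h₁ i) _ c (by omega)
  exact_mod_cast e₃.trans (e₁.trans (e₂.trans (hLENQ ρ N T L)))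

end Pool.Agent.P.MP_7cb106_nt.QJ
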