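import Pool.Agent.P.MP_7cb106_nt.QJ.Iface

/-! Step SIMP. -/

set_option autoImplicit false

namespace Pool.Agent.P.MP_7cb106_nt.QJ

open Filter

theorem simp_span {O : Type} [CommRing O] {n : ℕ} (S : AddSubgroup (Matrix (Fin n) (Fin n) O))
    (o : Fin n) (h1 : ∀ (i j : Fin n) (w : O), i ≠ j → Matrix.single i j w ∈ S)
    (h2 : ∀ (i : Fin n) (w : O), Matrix.single i i w - Matrix.single o o w ∈ S)
    (M : Matrix (Fin n) (Fin n) O) (hM : M.trace = 0) : M ∈ S := by
  have h5 : M = ∑ i, ∑ j, (Matrix.single i j (M i j) -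
      if i = j then Matrix.single o o (M i j) else 0) := by
    simp only [Finset.sum_sub_distrib, Finset.sum_ite_eq, Finset.mem_univ, if_true]
    rw [← Matrix.matrix_eq_sum_single]
    have : ∑ i, Matrix.single o o (M i i) = Matrix.single o o M.trace :=
      (map_sum (Matrix.singleAddMonoidHom (α := O) o o) (fun i => M i i) Finset.univ).symm
    rw [this, hM, Matrix.single_zero, sub_zero]
  rw [h5]
  refine S.sum_mem fun i _ => S.sum_mem fun j _ => ?_
  split_ifs with h
  · subst h; exact h2 _ _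
  · rw [sub_zero]; exact h1 _ _ _ h

theorem p_SIMP :
    S_SIMP := by
  intro p hp O _ _ _ _ _ n M κ hκ hM htr hbr
  have : CharZero O := charZero_of_injective_algebraMap
    (FaithfulSMul.algebraMap_injective ℤ_[p] O)
  let M' : Submodule ℤ_[p] (Matrix (Fin n) (Fin n) O) :=
    { carrier := {y | ∃ z : ℤ_[p], z ≠ 0 ∧ z • y ∈ M}
      zero_mem' := ⟨1, one_ne_zero, by simp⟩
      add_mem' := by
        rintro x y ⟨z, hz, hx⟩ ⟨z', hz', hy⟩
        refine ⟨z * z', mul_ne_zero hz hz', ?_⟩
        have := M.add_mem (M.smul_mem z' hx) (M.smul_mem z hy)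
        rwa [smul_smul, smul_smul, mul_comm z' z, ← smul_add] at this
      smul_mem' := by
        rintro c x ⟨z, hz, hx⟩
        exact ⟨z, hz, by rw [smul_comm]; exact M.smul_mem c hx⟩ }
  have hM' : ∀ y, y ∈ M' ↔ ∃ z : ℤ_[p], z ≠ 0 ∧ z • y ∈ M := fun y => Iff.rfl
  have hsat : ∀ (z : ℤ_[p]) y, z ≠ 0 → z • y ∈ M' → y ∈ M' := by
    rintro z y hz ⟨z', hz', h⟩
    exact ⟨z' * z, mul_ne_zero hz' hz, by rwa [mul_smul]⟩
  have had : ∀ y ∈ M', ∀ x : Matrix (Fin n) (Fin n) O, x.trace = 0 → x * y - y * x ∈ M' := by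
    rintro y ⟨z, hz, hy⟩ x hx
    refine ⟨(κ : ℤ_[p]) * z, mul_ne_zero (Nat.cast_ne_zero.2 hκ) hz, ?_⟩
    have := hbr _ hy x hx
    rwa [mul_smul_comm, smul_mul_assoc, ← smul_sub, ← Nat.cast_smul_eq_nsmul ℤ_[p],
      smul_smul] at this
  have hoff : ∀ {i j : Fin n} (w : O), i ≠ j → (Matrix.single i j w).trace = 0 := fun w h =>
    Matrix.trace_single_eq_of_ne _ _ _ h
  have hall : ∀ (i j : Fin n) (w : O), i ≠ j → w ≠ 0 → Matrix.single i j w ∈ M' →
      ∀ v, Matrix.single i j v ∈ M' := by
    intro i j w hij hw hm v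
    obtain ⟨z, hz, v0, hv0⟩ := (Algebra.IsAlgebraic.isAlgebraic (R := ℤ_[p]) w).exists_nonzero_dvd
      (mem_nonZeroDivisors_of_ne_zero hw)
    have h1 := had _ hm (Matrix.single i i (v * v0) - Matrix.single j j (v * v0)) (by simp)
    refine hsat (2 * z) _ (mul_ne_zero two_ne_zero hz) ?_
    convert h1 using 1
    simp only [mul_sub, sub_mul, Matrix.single_mul_single_same,
      Matrix.single_mul_single_of_ne _ _ _ _ hij.symm,
      Matrix.smul_single, sub_zero, zero_sub, sub_neg_eq_add, ← Matrix.single_add]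
    congr 1
    rw [Algebra.smul_def, map_mul, hv0, map_ofNat]
    ring
  have hdiag : ∀ (i j : Fin n), i ≠ j → (∀ v, Matrix.single i j v ∈ M') →
      ∀ v, Matrix.single j j v - Matrix.single i i v ∈ M' := by
    intro i j hij h v
    simpa [Matrix.single_mul_single_same] using had _ (h v) (Matrix.single j i 1) (hoff _ hij.symm)
  have hswap : ∀ (i j : Fin n), i ≠ j → (∀ v, Matrix.single i j v ∈ M') →
      ∀ v, Matrix.single j i v ∈ M' := by
    intro i j hij h
    refine hall j i (-2) hij.symm (by norm_num) ?_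
    convert had _ (hdiag i j hij h 1) (Matrix.single j i 1) (hoff _ hij.symm) using 1
    simp only [mul_sub, sub_mul, Matrix.single_mul_single_same,
      Matrix.single_mul_single_of_ne _ _ _ _ hij,
      sub_zero, zero_sub, mul_one]
    ext a b
    simp only [Matrix.single_apply, Matrix.sub_apply, Matrix.neg_apply]
    split_ifs <;> norm_num
  have hrow : ∀ (i j l : Fin n), l ≠ j → (∀ v, Matrix.single i j v ∈ M') →
      ∀ v, Matrix.single l j v ∈ M' := by
    intro i j l hlj h v
    by_cases hli : l = i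
    · rw [hli]; exact h v
    simpa [Matrix.single_mul_single_same, Matrix.single_mul_single_of_ne _ _ _ _ hlj.symm] using
      had _ (h v) (Matrix.single l i 1) (hoff _ hli)
  obtain ⟨y, hy, hy0⟩ := (Submodule.ne_bot_iff M).1 hM
  have hy' : y ∈ M' := ⟨1, one_ne_zero, by simpa using hy⟩
  have hstart : ∃ i j, i ≠ j ∧ ∀ v, Matrix.single i j v ∈ M' := by
    by_cases h : ∃ i j, i ≠ j ∧ y j i ≠ 0
    · obtain ⟨i, j, hij, h⟩ := h
      refine ⟨i, j, hij, hall i j (-2 * y j i) hij (mul_ne_zero (by norm_num) h) ?_⟩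
      convert had _ (had _ hy' (Matrix.single i j 1) (hoff _ hij)) (Matrix.single i j 1)
        (hoff _ hij) using 1
      have h1 : Matrix.single i j (1 : O) * Matrix.single i j (1 : O) = 0 :=
        Matrix.single_mul_single_of_ne _ _ _ _ hij.symm _
      rw [mul_sub, sub_mul, ← mul_assoc, h1, mul_assoc y, h1, ← mul_assoc,
        Matrix.single_mul_mul_single]
      ext a b
      simp only [Matrix.single_apply, Matrix.sub_apply, zero_mul, mul_zero, Matrix.zero_apply]
      split_ifs <;> ring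
    push Not at h
    by_cases h' : ∃ i j, y j j ≠ y i i
    · obtain ⟨i, j, h'⟩ := h'
      have hij : i ≠ j := fun e => h' (by rw [e])
      refine ⟨i, j, hij, hall i j (y j j - y i i) hij (sub_ne_zero.2 h') ?_⟩
      convert had _ hy' (Matrix.single i j 1) (hoff _ hij) using 1
      ext a b
      rw [Matrix.sub_apply]
      by_cases ha : a = i
      · subst ha
        by_cases hb : b = j
        · subst hb; simp
        · rw [Matrix.single_mul_apply_same, Matrix.mul_single_apply_of_ne _ _ _ _ _ hb,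
            h b j hb, Matrix.single_apply_of_col_ne _ _ (Ne.symm hb)]
          simp
      · rw [Matrix.single_mul_apply_of_ne _ _ _ _ _ ha, Matrix.single_apply_of_row_ne (Ne.symm ha)]
        by_cases hb : b = j
        · subst hb
          rw [Matrix.mul_single_apply_same, h i a (Ne.symm ha)]
          simp
        · rw [Matrix.mul_single_apply_of_ne _ _ _ _ _ hb]
          simp
    · push Not at h'
      exfalso
      apply hy0
      ext a b
      by_cases hab : b = a
      · subst hab
        have h1 : y.trace = (n : O) * y b b := by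
          simp [Matrix.trace, fun i => h' b i]
        rw [htr y hy] at h1
        exact (mul_eq_zero.1 h1.symm).resolve_left (Nat.cast_ne_zero.2 b.pos.ne')
      · exact h b a hab
  obtain ⟨i, j, hij, hgood⟩ := hstart
  have hevery : ∀ a b, a ≠ b → ∀ v, Matrix.single a b v ∈ M' := by
    intro a b hab
    refine hswap b a hab.symm ?_
    by_cases ha : a = j
    · subst ha; exact hrow i a b hab.symm hgood
    · exact hrow j a b hab.symm (hswap a j ha (hrow i j a ha hgood))
  have hsl : ∀ x : Matrix (Fin n) (Fin n) O, x.trace = 0 → x ∈ M' :=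
    simp_span M'.toAddSubgroup i (fun a b w h => hevery a b h w) (fun a w => by
      by_cases ha : i = a
      · rw [ha, sub_self]; exact zero_mem _
      · exact hdiag i a ha (hevery i a ha) w)
  let sl : Submodule ℤ_[p] (Matrix (Fin n) (Fin n) O) :=
    LinearMap.ker (Matrix.traceLinearMap (Fin n) ℤ_[p] O)
  obtain ⟨s, hs⟩ : sl.FG := IsNoetherian.noetherian sl
  have hs' : ∀ x ∈ s, x.trace = 0 := fun x hx => by
    have : x ∈ sl := hs ▸ Submodule.subset_span hx
    exact this
  choose! z hz using fun x (hx : x ∈ s) => (hM' x).1 (hsl x (hs' x hx))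
  have hZ : ∏ x ∈ s, z x ≠ 0 := Finset.prod_ne_zero_iff.2 fun x hx => (hz x hx).1
  obtain ⟨c, u, hu⟩ := IsDiscreteValuationRing.eq_unit_mul_pow_irreducible hZ
    (PadicInt.irreducible_p (p := p))
  refine ⟨c, fun x hx => ?_⟩
  have h1 : sl ≤ M.comap (LinearMap.lsmul ℤ_[p] _ ((p : ℤ_[p]) ^ c)) := by
    rw [← hs, Submodule.span_le]
    intro x hx
    obtain ⟨w, hw⟩ := Finset.dvd_prod_of_mem z hx
    have h2 : (p : ℤ_[p]) ^ c = (↑u⁻¹ * w) * z x := by
      rw [mul_assoc, mul_comm w, ← hw, hu, Units.inv_mul_cancel_left]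
    change (p : ℤ_[p]) ^ c • x ∈ M
    rw [h2, mul_smul]
    exact M.smul_mem _ (hz x hx).2
  have h3 : (p : ℤ_[p]) ^ c • x ∈ M := h1 hx
  rwa [← algebraMap_smul O ((p : ℤ_[p]) ^ c), map_pow, map_natCast] at h3

end Pool.Agent.P.MP_7cb106_nt.QJ
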