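import Pool.Agent.P.MP_7cb106_nt.QJ.Iface

/-! Step UF0. -/

set_option autoImplicit false

namespace Pool.Agent.P.MP_7cb106_nt.QJ

open Filter

section
variable {p d : ℕ} [Fact p.Prime] {Γ : Type} [Group Γ] (u : UF p d Γ)

theorem uf0_normal (a : ℕ) : (u.lev a).Normal := ⟨fun g hg h => by
  simpa using (u.lev a).mul_mem (u.anti a (u.comm a g h hg)) hg⟩

theorem uf0_mono {a b : ℕ} (h : a ≤ b) : u.lev b ≤ u.lev a := antitone_nat_of_succ_le u.anti h

theorem uf0_gen (a : ℕ) (g : Γ) (hg : g ∈ u.lev a) : ∃ m : Fin d → Fin p,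
    (List.ofFn (fun i => (u.gen i ^ (p ^ a)) ^ (m i : ℕ))).prod⁻¹ * g ∈ u.lev (a + 1) := by
  have := uf0_normal u (a + 1)
  let φ : Multiplicative (VV p d) →* Γ ⧸ u.lev (a + 1) :=
    MonoidHom.mk' (fun y => (u.eps a y.toAdd : Γ ⧸ u.lev (a + 1))) fun y z => by
      rw [← QuotientGroup.mk_mul]
      exact (QuotientGroup.eq.2 (uf0_mono u (by omega) (u.add a y.toAdd z.toAdd))).symm
  obtain ⟨y, hy⟩ := u.surj a g hg
  let m : Fin d → Fin p := fun i => ⟨(y i).appr 1, by simpa using (y i).appr_lt 1⟩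
  refine ⟨m, QuotientGroup.eq.1 (Eq.trans ?_ (QuotientGroup.eq.2 hy))⟩
  have h1 : Dv 1 (y - ∑ i, (m i : ℕ) • (Pi.single i 1 : VV p d)) := fun i => by
    have := Ideal.mem_span_singleton.1 ((y i).appr_spec 1)
    simpa [m, Finset.sum_apply, Pi.single_apply] using this
  have h2 : φ (.ofAdd (y - ∑ i, (m i : ℕ) • (Pi.single i 1 : VV p d))) = 1 :=
    (QuotientGroup.eq_one_iff _).2 (u.mem a 1 _ h1)
  rw [ofAdd_sub, map_div, div_eq_one] at h2
  refine Eq.trans ?_ h2.symm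
  rw [ofAdd_sum, ← List.prod_ofFn, map_list_prod, List.map_ofFn, ← QuotientGroup.mk'_apply,
    map_list_prod, List.map_ofFn]
  congr 2
  funext i
  simp only [Function.comp, ofAdd_nsmul, map_pow, UF.gen, ← u.pow]
  rfl

theorem uf0_fin (a : ℕ) : Finite (Γ ⧸ u.lev a) := by
  induction a with
  | zero => rw [u.lev_zero]; exact Subgroup.finite_quotient_of_finiteIndex
  | succ a ih =>
    refine Finite.of_surjective (fun x : (Γ ⧸ u.lev a) × (Fin d → Fin p) =>
      ((x.1.out * (List.ofFn (fun i => (u.gen i ^ (p ^ a)) ^ (x.2 i : ℕ))).prod : Γ) :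
        Γ ⧸ u.lev (a + 1))) fun q => ?_
    obtain ⟨g, rfl⟩ := QuotientGroup.mk_surjective q
    obtain ⟨m, hm⟩ := uf0_gen u a _ (QuotientGroup.eq.1 (QuotientGroup.out_eq' (g : Γ ⧸ u.lev a)))
    exact ⟨(g, m), QuotientGroup.eq.2 (by simpa only [mul_inv_rev, mul_assoc] using hm)⟩

end

theorem p_UF0 :
    S_UF0 := by
  intro p d _ Γ _ u
  refine ⟨uf0_normal u, fun _ _ => uf0_mono u, fun a => ?_, fun a g hg => ?_, fun a i => ?_⟩
  · have := uf0_fin u a
    exact Subgroup.finiteIndex_of_finite_quotient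
  · obtain ⟨m, hm⟩ := uf0_gen u a g hg
    exact ⟨fun i => m i, hm⟩
  · rw [UF.gen, ← u.pow]
    exact u.mem a 0 _ fun _ => by simp

end Pool.Agent.P.MP_7cb106_nt.QJ
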